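import Pool.Agent.Work.MP_b8a914_gt.F.Defs

/-! Two more notions, interpreted inside a structure `(M, E)` for the language of set theory. -/

namespace Pool.Agent.B8P
open Pool.Agent.Work.MP_63c7e0_lc Pool.Agent.B8F

universe u
variable {M : Type u} (E : M → M → Prop)

/-- `K` is a base modulo finite sets of a nonprincipal ultrafilter on `w`: a reaping family in which
any two members have a member below them modulo a finite set. -/
def IsUBase (w K : M) : Prop :=
  IsReap E w K ∧ ∀ A B, E A K → E B K → ∃ C D, E C K ∧ IsFin E D ∧
    ∀ x, E x C → E x D ∨ (E x A ∧ E x B)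

/-- `𝔲 < 𝔤`: for some ultrafilter base `K`, every family of groupwise dense families indexed by `K`
has a common member. -/
def ULtG : Prop :=
  ∃ w K, IsOmega E w ∧ IsUBase E w K ∧ ∀ Γ P, IsFun E Γ K P →
    (∀ A G, App E Γ A G → GwDense E w G) → ∃ Z, ∀ A G, App E Γ A G → E Z G

end Pool.Agent.B8P
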