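import Mathlib
import Pool.Agent.Work.MP_b8a914_gt.F.Add

-- merged part: Pool.Agent.Work.MP_b8a914_gt.P.XD
section
/-! Codes of words. -/

namespace Pool.Agent.B8P

/-- the number of the word `x 0, …, x (k - 1)` -/
def wc (x : ℕ → ℕ) : ℕ → ℕ
  | 0 => 1
  | k + 1 => 2 * wc x k + x k

def pr2 (a b : ℕ) : ℕ := (a + b) * (a + b) + a

/-- the word of length `k` of `x` is accepted by `φ` at level `n` -/
def Ok (φ : ℕ → ℕ) (n k : ℕ) (x : ℕ → ℕ) : Prop := φ (pr2 n (wc x k)) = 1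

theorem wc_congr {x x' : ℕ → ℕ} {k : ℕ} (h : ∀ i < k, x i = x' i) : wc x k = wc x' k := by
  induction k with
  | zero => rfl
  | succ k ih => rw [wc, wc, ih fun i hi => h i (hi.trans k.lt_succ_self), h k k.lt_succ_self]

theorem Ok.congr {φ : ℕ → ℕ} {n k : ℕ} {x x' : ℕ → ℕ} (h : Ok φ n k x) (e : ∀ i < k, x i = x' i) :
    Ok φ n k x' := by
  unfold Ok at h ⊢
  rwa [← wc_congr e]

end Pool.Agent.B8P
end

-- merged part: Pool.Agent.Work.MP_b8a914_gt.P.Iface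
section
/-! The combinatorial properties of the generic model that are used inside the model. -/

namespace Pool.Agent.B8P
open Pool.Agent.Lib.ZFModel Pool.Agent.B8F

variable {M : Type 1}

structure Iface0 (E : M → M → Prop) [Fact (IsZFC E)] [CT E ℕ] where
  VT : Set (ℕ → ℕ)
  BB : Set (Set ℕ)
  K : PW E (FN E ℕ ℕ)
  X : PW E (FN E ℕ ℕ)
  VT_cf : ∀ H ∈ VT, CF E H
  all : ∀ H, CF E H → H ∈ VT
  B_inf : ∀ B ∈ BB, B.Infinite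
  B_dir : ∀ B ∈ BB, ∀ B' ∈ BB, ∃ B'' ∈ BB, (B'' \ B).Finite ∧ (B'' \ B').Finite
  reap : ∀ A : PW E ℕ, ∃ B ∈ BB, B ⊆ A.1 ∨ Disjoint B A.1
  K_spec : ∀ f ∈ K.1, ∃ A : Set ℕ, A.Infinite ∧ f.1 = nxt A ∧ ∃ B ∈ BB, (B \ A).Finite
  K_B : ∀ B ∈ BB, ∃ f ∈ K.1, f.1 = nxt B
  ref0 : ∀ Rel : FN E ℕ ℕ → FN E ℕ ℕ → FN E ℕ ℕ → Prop,
    CS E (fun t : FN E ℕ ℕ × FN E ℕ ℕ × FN E ℕ ℕ => Rel t.1 t.2.1 t.2.2) →
    (∀ H P : FN E ℕ ℕ, ∃ η : FN E ℕ ℕ, Rel H P η) →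
    ∃ d : RefData E VT BB Rel, ∀ f ∈ K.1, f.1 ∈ d.V 0
  X_le : ∀ x ∈ X.1, ∀ i, x.1 i ≤ 1
  men : ∀ φ : ℕ → ℕ, CF E φ → (∀ x ∈ X.1, ∀ n, ∃ k, Ok φ n k x.1) →
    ∃ g : ℕ → ℕ, CF E g ∧ ∀ x ∈ X.1, ∃ n, ∃ k ≤ g n, Ok φ n k x.1
  nm1 : ∀ x ∈ X.1, ∀ y ∈ X.1, x.1 0 ≠ y.1 0 → ∀ m, ∃ i, m ≤ i ∧ x.1 i ≠ y.1 i
  nm2 : ∀ g : ℕ → ℕ, CF E g → ∃ x ∈ X.1, ∃ y ∈ X.1, x.1 0 ≠ y.1 0 ∧
    ∀ j i1 i2, j < i1 → i1 < i2 → x.1 i1 ≠ y.1 i1 → x.1 i2 ≠ y.1 i2 → g j ≤ i2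

end Pool.Agent.B8P
end

-- merged part: Pool.Agent.Work.MP_b8a914_gt.P.Prod
section
/-! A Menger set of the model whose square is not Menger. -/

set_option linter.unusedSectionVars false

namespace Pool.Agent.B8P
open Pool.Agent.Lib.ZFModel Pool.Agent.Work.MP_63c7e0_lc Pool.Agent.Work.MP_f50f0f_gt
  Pool.Agent.B8F

set_option synthInstance.maxSize 100000

variable {M : Type 1} {E : M → M → Prop} [Fact (IsZFC E)] [CT E ℕ] [NatE E]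

/-- the functions of the model between two coded types are the codes of the coded functions -/
theorem prod_isFun_iff {T T' : Type} [CT E T] [CT E T'] {a b : M} (ha : Is E T a)
    (hb : Is E T' b) (g : M) : IsFun E g a b ↔ ∃ f : FN E T T', CT.code E f = g := by
  constructor
  · intro h
    obtain ⟨φ, hφ, hr⟩ := rep_of_isFun ha hb h
    refine ⟨⟨φ, hφ⟩, (zf' E).extensionality _ _ fun x => (E_code_fn _ x).trans ⟨?_, fun hx => ?_⟩⟩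
    · rintro ⟨t, rfl⟩
      obtain ⟨p, hp, h1⟩ := (hr _ _).2 ⟨t, rfl, rfl⟩
      rw [isPair_iff.1 h1] at hp
      exact hp
    · obtain ⟨y, z, -, -, h1⟩ := h.1 x hx
      obtain ⟨t, rfl, rfl⟩ := (hr y z).1 ⟨x, hx, h1⟩
      exact ⟨t, isPair_iff.1 h1⟩
  · rintro ⟨f, rfl⟩
    have hr := rep_code_fn f
    refine ⟨fun q hq => ?_, fun x hx => ?_, fun x y y' h3 h4 => ?_⟩
    · obtain ⟨t, rfl⟩ := (E_code_fn f q).1 hq
      exact ⟨_, _, (ha _).2 ⟨t, rfl⟩, (hb _).2 ⟨f.1 t, rfl⟩, isPair_pr _ _⟩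
    · obtain ⟨t, rfl⟩ := (ha x).1 hx
      exact ⟨_, (hr _ _).2 ⟨t, rfl, rfl⟩⟩
    · obtain ⟨t, rfl, rfl⟩ := (hr _ _).1 h3
      obtain ⟨s, h5, rfl⟩ := (hr _ _).1 h4
      rw [CT.inj h5]

/-- the Baire space of the model -/
theorem exists_baire {w : M} (hw : Is E ℕ w) :
    ∃ P ρ, IsPower E w w P ρ ∧ Is E (FN E ℕ ℕ) P := by
  have := (zf' E).nonempty
  obtain ⟨P, hP⟩ := exists_is E (FN E ℕ ℕ)
  obtain ⟨Q, hQ⟩ := (zf' E).powerset P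
  obtain ⟨ρ, hρ⟩ := (zf' E).sep Q fun U => ∀ g, E g U → ∃ F, Sub E F w ∧ IsFin E F ∧
    ∀ g', E g' P → (∀ j y, E j F → App E g j y → App E g' j y) → E g' U
  refine ⟨P, ρ, ⟨fun g => (hP g).trans (prod_isFun_iff hw hw g).symm, fun U => ?_⟩, hP⟩
  rw [hρ, hQ]
  exact Iff.rfl

/-- the open sets of the Baire space -/
theorem prod_open {w P ρ : M} (hw : Is E ℕ w) (hP : IsPower E w w P ρ)
    (hP' : Is E (FN E ℕ ℕ) P) (U : PW E (FN E ℕ ℕ)) :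
    E (CT.code E U) ρ ↔ ∀ f ∈ U.1, ∃ k, ∀ g : FN E ℕ ℕ, (∀ i < k, g.1 i = f.1 i) → g ∈ U.1 := by
  rw [hP.2]
  constructor
  · rintro ⟨-, h⟩ f hf
    obtain ⟨F, h1, h2, h3⟩ := h _ ((mem_code_pw U f).2 hf)
    have h4 : {n : ℕ | E (CT.code E n) F}.Finite := ((isFin_iff' F).1 h2).preimage CT.inj.injOn
    obtain ⟨k, hk⟩ := h4.bddAbove
    refine ⟨k + 1, fun g hg => (mem_code_pw U g).1 (h3 _ ((hP' _).2 ⟨g, rfl⟩) fun j y hj h5 => ?_)⟩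
    obtain ⟨t, rfl, rfl⟩ := (rep_code_fn f _ _).1 h5
    exact (rep_code_fn g _ _).2 ⟨t, rfl, by rw [hg t (Nat.lt_succ_of_le (hk hj))]⟩
  · intro h
    refine ⟨fun x hx => ?_, fun x hx => ?_⟩
    · obtain ⟨f, -, rfl⟩ := (E_code_pw U x).1 hx
      exact (hP' _).2 ⟨f, rfl⟩
    · obtain ⟨f, hf, rfl⟩ := (E_code_pw U x).1 hx
      obtain ⟨k, hk⟩ := h f hf
      refine ⟨CT.code E k, fun y hy => ?_, (isFin_iff' _).2 ?_, fun g' hg' h1 => ?_⟩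
      · obtain ⟨m, -, rfl⟩ := (NatE.hN _ _).1 hy
        exact (hw _).2 ⟨m, rfl⟩
      · refine ((Set.finite_lt_nat k).image (CT.code E)).subset fun y hy => ?_
        obtain ⟨m, hm, rfl⟩ := (NatE.hN _ _).1 hy
        exact ⟨m, hm, rfl⟩
      · obtain ⟨g, rfl⟩ := (hP' _).1 hg'
        refine (mem_code_pw U g).2 (hk g fun i hi => ?_)
        obtain ⟨t, h2, h3⟩ := (rep_code_fn g _ _).1
          (h1 _ _ (E_nat.2 hi) ((rep_code_fn f _ _).2 ⟨i, rfl, rfl⟩))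
        obtain rfl : i = t := CT.inj h2
        exact (CT.inj h3).symm

theorem prod_wc_lt {x : ℕ → ℕ} (hx : ∀ i, x i ≤ 1) (k : ℕ) :
    2 ^ k ≤ wc x k ∧ wc x k < 2 ^ (k + 1) := by
  induction k with
  | zero => simp [wc]
  | succ k ih =>
    have := hx k
    rw [wc, pow_succ 2 (k + 1), pow_succ 2 k] at *
    omega

theorem prod_wc_inj {x y : ℕ → ℕ} (hx : ∀ i, x i ≤ 1) (hy : ∀ i, y i ≤ 1) {k l : ℕ}
    (h : wc x k = wc y l) : k = l ∧ ∀ i < k, x i = y i := by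
  have h1 := prod_wc_lt hx k
  have h2 := prod_wc_lt hy l
  have e : k = l := by
    have a1 : k < l + 1 := (Nat.pow_lt_pow_iff_right one_lt_two).1 (by omega)
    have a2 : l < k + 1 := (Nat.pow_lt_pow_iff_right one_lt_two).1 (by omega)
    omega
  subst e
  refine ⟨rfl, ?_⟩
  clear h1 h2
  induction k with
  | zero => exact fun i hi => absurd hi (Nat.not_lt_zero i)
  | succ k ih =>
    have a1 := hx k
    have a2 := hy k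
    rw [wc, wc] at h
    intro i hi
    rcases Nat.lt_succ_iff_lt_or_eq.1 hi with h3 | rfl
    · exact ih (by omega) i h3
    · omega

theorem prod_pr2_inj {a b c d : ℕ} (h : pr2 a b = pr2 c d) : a = c ∧ b = d := by
  unfold pr2 at h
  have e : a + b = c + d := by
    rcases lt_trichotomy (a + b) (c + d) with h1 | h1 | h1
    · exfalso; nlinarith
    · exact h1
    · exfalso; nlinarith
  rw [e] at h
  omega

theorem prod_wc_cf : CF E fun p : FN E ℕ ℕ × ℕ => wc p.1.1 p.2 :=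
  CF.natRec (fun _ : FN E ℕ ℕ => 1) (fun t k y => 2 * y + t.1 k) (fun t k => wc t.1 k)
    (fun _ => rfl) fun _ _ => rfl

theorem prod_pr2_cf : CF E fun p : ℕ × ℕ => pr2 p.1 p.2 := by
  unfold pr2; infer_instance


theorem x_menger (I : Iface0 E) (hs : ∀ a, Small.{0} {x // E x a}) {w P ρ : M} (hw : Is E ℕ w)
    (hP : IsPower E w w P ρ) (hP' : Is E (FN E ℕ ℕ) P) : IsMengerM E (CT.code E I.X) ρ := by
  classical
  intro w' U Q hw' hU hc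
  have hw1 := isOmega_iff.1 hw'
  obtain ⟨u, hu, hur⟩ := rep_of_isFun hw1 (is_el Q) hU
  have hwc := prod_wc_cf (E := E)
  have hpr := prod_pr2_cf (E := E)
  let TT := PW E (FN E ℕ ℕ)
  let W : ℕ → ℕ → FN E ℕ ℕ → Prop := fun c k y => y ∈ I.X.1 ∧ wc y.1 k = c
  have hW : CS E fun p : (ℕ × ℕ) × FN E ℕ ℕ => W p.1.1 p.1.2 p.2 := by
    have a1 : CF E fun p : (ℕ × ℕ) × FN E ℕ ℕ => wc p.2.1 p.1.2 :=
      CF.comp (fun p : FN E ℕ ℕ × ℕ => wc p.1.1 p.2) fun p : (ℕ × ℕ) × FN E ℕ ℕ => (p.2, p.1.2)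
    have a2 : CS E fun p : (ℕ × ℕ) × FN E ℕ ℕ => p.2 ∈ I.X.1 := inferInstance
    have a3 : CS E fun p : (ℕ × ℕ) × FN E ℕ ℕ => wc p.2.1 p.1.2 = p.1.1 := CS.eq _ _
    exact @CS.and _ _ _ _ _ _ _ a2 a3
  let C : ℕ → ℕ → TT → Prop := fun n c V => E (CT.code E V) (CT.code E (u n)) ∧
    ∀ q : ℕ × FN E ℕ ℕ, W c q.1 q.2 → q.2 ∈ V.1
  have hC : CS E fun p : (ℕ × ℕ) × TT => C p.1.1 p.1.2 p.2 := by
    have a1 : CF E fun p : (ℕ × ℕ) × TT => u p.1.1 := CF.comp u fun p : (ℕ × ℕ) × TT => p.1.1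
    have a2 : CS E fun p : (ℕ × ℕ) × TT => E (CT.code E p.2) (CT.code E (u p.1.1)) := CS.Em _ _
    have a3 := hW.comp fun p : ((ℕ × ℕ) × TT) × ℕ × FN E ℕ ℕ => ((p.1.1.2, p.2.1), p.2.2)
    have a4 : CS E fun p : ((ℕ × ℕ) × TT) × ℕ × FN E ℕ ℕ => p.2.2 ∈ p.1.2.1 := CS.memPW _ _
    exact @CS.and _ _ _ _ _ _ _ a2 (@CS.all _ _ _ _ _ _ _
      (fun (p : (ℕ × ℕ) × TT) (q : ℕ × FN E ℕ ℕ) => W p.1.2 q.1 q.2 → q.2 ∈ p.2.1)
      (@CS.imp _ _ _ _ _ _ _ a3 a4))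
  have hC' : CS E fun p : ℕ × ℕ => ∃ V, C p.1 p.2 V :=
    @CS.ex _ _ _ _ _ _ _ (fun (p : ℕ × ℕ) V => C p.1 p.2 V) hC
  have hA : CS E fun m : ℕ => ∃ p : ℕ × ℕ, pr2 p.1 p.2 = m ∧ ∃ V, C p.1 p.2 V := by
    have a1 : CF E fun q : ℕ × ℕ × ℕ => pr2 q.2.1 q.2.2 :=
      CF.comp (fun p : ℕ × ℕ => pr2 p.1 p.2) fun q : ℕ × ℕ × ℕ => q.2
    have a2 : CS E fun q : ℕ × ℕ × ℕ => pr2 q.2.1 q.2.2 = q.1 := CS.eq _ _
    have a3 := hC'.comp fun q : ℕ × ℕ × ℕ => q.2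
    exact @CS.ex _ _ _ _ _ _ _
      (fun (m : ℕ) (p : ℕ × ℕ) => pr2 p.1 p.2 = m ∧ ∃ V, C p.1 p.2 V)
      (@CS.and _ _ _ _ _ _ _ a2 a3)
  let φ : ℕ → ℕ := fun m => if ∃ p : ℕ × ℕ, pr2 p.1 p.2 = m ∧ ∃ V, C p.1 p.2 V then 1 else 0
  have hφ : CF E φ := CF.ite _ (fun _ => 1) fun _ => 0
  have hok : ∀ n k x, Ok φ n k x ↔ ∃ V, C n (wc x k) V := fun n k x => by
    unfold Ok
    constructor
    · intro h
      have h1 : ∃ p : ℕ × ℕ, pr2 p.1 p.2 = pr2 n (wc x k) ∧ ∃ V, C p.1 p.2 V := by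
        by_contra h2
        exact absurd ((if_neg h2).symm.trans h) zero_ne_one
      obtain ⟨p, h2, h3⟩ := h1
      obtain ⟨h4, h5⟩ := prod_pr2_inj h2
      rwa [h4, h5] at h3
    · intro h
      exact if_pos ⟨(n, wc x k), rfl, h⟩
  obtain ⟨g, hg, hmain⟩ := I.men φ hφ fun x hx n => by
    obtain ⟨h1, h2⟩ := hc _ _ ((hur _ _).2 ⟨n, rfl, rfl⟩)
    obtain ⟨v, h3, h4⟩ := h2 _ ((mem_code_pw I.X x).2 hx)
    obtain ⟨V, rfl⟩ := pw_of_sub hP' ((hP.2 v).1 (h1 v h3)).1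
    obtain ⟨k, hk⟩ := (prod_open hw hP hP' V).1 (h1 _ h3) x ((mem_code_pw V x).1 h4)
    refine ⟨k, (hok _ _ _).2 ⟨V, h3, fun q hq => hk _ fun i hi => ?_⟩⟩
    obtain ⟨h5, h6⟩ := prod_wc_inj (I.X_le _ hq.1) (I.X_le _ hx) hq.2
    exact h6 i (h5 ▸ hi)
  have hC2 := hC'.comp fun p : (ℕ × ℕ) × TT => p.1
  obtain ⟨ψ, hψ, hψ'⟩ := CF.choice (E := E)
    (fun (p : ℕ × ℕ) (V : TT) => (∃ V, C p.1 p.2 V) → C p.1 p.2 V)
    (hr := @CS.imp _ _ _ _ _ _ _ hC2 hC) fun p => by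
      by_cases h1 : ∃ V, C p.1 p.2 V
      · exact ⟨h1.choose, fun _ => h1.choose_spec⟩
      · exact ⟨I.X, fun h2 => absurd h2 h1⟩
  let B : ℕ → ℕ → Prop := fun n c => ∃ q : ℕ × FN E ℕ ℕ, q.1 ≤ g n ∧ W c q.1 q.2
  have hB : CS E fun p : ℕ × ℕ => B p.1 p.2 := by
    have a0 : CF E fun p : (ℕ × ℕ) × ℕ × FN E ℕ ℕ => g p.1.1 :=
      CF.comp g fun p : (ℕ × ℕ) × ℕ × FN E ℕ ℕ => p.1.1
    have a1 : CS E fun p : (ℕ × ℕ) × ℕ × FN E ℕ ℕ => p.2.1 ≤ g p.1.1 := CS.le _ _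
    have a2 := hW.comp fun p : (ℕ × ℕ) × ℕ × FN E ℕ ℕ => ((p.1.2, p.2.1), p.2.2)
    exact @CS.ex _ _ _ _ _ _ _
      (fun (p : ℕ × ℕ) (q : ℕ × FN E ℕ ℕ) => q.1 ≤ g p.1 ∧ W p.2 q.1 q.2)
      (@CS.and _ _ _ _ _ _ _ a1 a2)
  have e2 : CS E fun p : ℕ × TT => ∃ c : ℕ, B p.1 c ∧ (∃ V, C p.1 c V) ∧ p.2 = ψ (p.1, c) := by
    have a1 := hB.comp fun p : (ℕ × TT) × ℕ => (p.1.1, p.2)
    have a2 := hC'.comp fun p : (ℕ × TT) × ℕ => (p.1.1, p.2)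
    have a3 : CF E fun p : (ℕ × TT) × ℕ => ψ (p.1.1, p.2) :=
      CF.comp ψ fun p : (ℕ × TT) × ℕ => (p.1.1, p.2)
    have a4 : CS E fun p : (ℕ × TT) × ℕ => p.1.2 = ψ (p.1.1, p.2) := CS.eq _ _
    exact @CS.ex _ _ _ _ _ _ _ (fun (p : ℕ × TT) (c : ℕ) => B p.1 c ∧
      (∃ V, C p.1 c V) ∧ p.2 = ψ (p.1, c))
      (@CS.and _ _ _ _ _ _ _ a1 (@CS.and _ _ _ _ _ _ _ a2 a4))
  let D : ℕ → PW E TT := fun j =>
    ⟨{V | ∃ c : ℕ, B j c ∧ (∃ V, C j c V) ∧ V = ψ (j, c)},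
      e2.comp (fun V : TT => (j, V)) (hf := CF.pair (fun _ => j) fun V => V)⟩
  have hD : CF E D := @CF.curry _ E _ _ _ _ _ D e2
  obtain ⟨Q', hQ'⟩ := exists_is E (PW E TT)
  obtain ⟨V, hV, hVr⟩ := isFun_of_cf hw1 hQ' D
  refine ⟨V, Q', hV, fun n c d h1 h2 => ?_, fun x hx => ?_⟩
  · obtain ⟨j, rfl, rfl⟩ := (hVr _ _).1 h2
    obtain ⟨j', h3, rfl⟩ := (hur _ _).1 h1
    obtain rfl : j = j' := CT.inj h3
    refine ⟨fun y hy => ?_, (isFin_code _).2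
      (((Set.finite_lt_nat (2 ^ (g j + 1))).image fun c => ψ (j, c)).subset ?_)⟩
    · obtain ⟨_, ⟨c, -, a2, rfl⟩, rfl⟩ := (E_code_pw _ _).1 hy
      exact (hψ' (j, c) a2).1
    · rintro _ ⟨c, ⟨q, a1, a2, a3⟩, -, rfl⟩
      refine ⟨c, ?_, rfl⟩
      have a4 := (prod_wc_lt (I.X_le _ a2) q.1).2
      have a5 : 2 ^ (q.1 + 1) ≤ 2 ^ (g j + 1) := Nat.pow_le_pow_right two_pos (by omega)
      show c < 2 ^ (g j + 1)
      omega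
  · obtain ⟨t, ht, rfl⟩ := (E_code_pw _ _).1 hx
    obtain ⟨j, k, h3, h4⟩ := hmain t ht
    have h5 := (hok _ _ _).1 h4
    exact ⟨_, _, _, (hVr _ _).2 ⟨j, rfl, rfl⟩,
      (mem_code_pw (D j) _).2 ⟨wc t.1 k, ⟨(k, t), h3, ht, rfl⟩, h5, rfl⟩,
      (mem_code_pw _ _).2 ((hψ' (j, wc t.1 k) h5).2 (k, t) ⟨ht, rfl⟩)⟩

/-- the open sets of a finite power of a set of reals -/
theorem prod_open_pw {T : Type} [CT E T] [Finite T] (X : PW E (FN E ℕ ℕ)) {w P ρ t A π : M}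
    (hw : Is E ℕ w) (hP : IsPower E w w P ρ) (hP' : Is E (FN E ℕ ℕ) P) (ht : Is E T t)
    (hA : Is E (FN E T {f // f ∈ X.1}) A) (hπ : IsPw E A t ρ π)
    (U : PW E (FN E T {f // f ∈ X.1}))
    (h : ∀ a ∈ U.1, ∃ k, ∀ b : FN E T {f // f ∈ X.1},
      (∀ s, ∀ i < k, (b.1 s).1.1 i = (a.1 s).1.1 i) → b ∈ U.1) : E (CT.code E U) π := by
  refine (hπ _).2 ⟨fun x hx => ?_, fun x hx => ?_⟩
  · obtain ⟨a, -, rfl⟩ := (E_code_pw U x).1 hx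
    exact (hA _).2 ⟨a, rfl⟩
  obtain ⟨a, ha, rfl⟩ := (E_code_pw U x).1 hx
  obtain ⟨k, hk⟩ := h a ha
  let c : T → PW E (FN E ℕ ℕ) := fun s => ⟨{g | ∀ i, i < k → g.1 i = (a.1 s).1.1 i},
    (inferInstance : CS E fun g : FN E ℕ ℕ => ∀ i, i < k → g.1 i = (a.1 s).1.1 i)⟩
  obtain ⟨F, hF⟩ := exists_finite_set (zf' E)
    (Set.finite_range fun s : T => pr E (CT.code E s) (CT.code E (c s)))
  have hF' : ∀ x V, App E F x V ↔ ∃ s : T, x = CT.code E s ∧ V = CT.code E (c s) := fun x V =>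
    ⟨fun ⟨p, hp, h1⟩ => by
      obtain ⟨s, rfl⟩ := (hF p).1 hp
      exact ⟨s, (pr_inj.1 (isPair_iff.1 h1)).1.symm, (pr_inj.1 (isPair_iff.1 h1)).2.symm⟩,
    by rintro ⟨s, rfl, rfl⟩; exact ⟨_, (hF _).2 ⟨s, rfl⟩, isPair_pr _ _⟩⟩
  refine ⟨F, (isFin_iff' F).2 ((Set.finite_range fun s : T =>
    pr E (CT.code E s) (CT.code E (c s))).subset fun y hy => (hF y).1 hy), fun p hp => ?_,
    fun x V y h1 h2 => ?_, fun g hg h1 => ?_⟩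
  · obtain ⟨s, rfl⟩ := (hF p).1 hp
    refine ⟨_, _, (ht _).2 ⟨s, rfl⟩, (prod_open hw hP hP' (c s)).2 fun f hf => ⟨k, fun g h1 i hi =>
      (h1 i hi).trans (hf i hi)⟩, isPair_pr _ _⟩
  · obtain ⟨s, rfl, rfl⟩ := (hF' _ _).1 h1
    obtain ⟨s', h3, rfl⟩ := (rep_code_fn a _ _).1 h2
    obtain rfl : s = s' := CT.inj h3
    exact (mem_code_pw (c s) (a.1 s).1).2 fun _ _ => rfl
  · obtain ⟨b, rfl⟩ := (hA _).1 hg
    refine (mem_code_pw U b).2 (hk b fun s => ?_)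
    exact (mem_code_pw (c s) (b.1 s).1).1
      (h1 _ _ _ ((hF' _ _).2 ⟨s, rfl, rfl⟩) ((rep_code_fn b _ _).2 ⟨s, rfl, rfl⟩))

theorem prod_two (U : PW E ℕ) (hU : ∀ m, m ∈ U.1 ↔ m < 2) : IsTwo E (CT.code E U) := by
  have h1 : IsSing E (CT.code E (1 : ℕ)) (CT.code E (0 : ℕ)) := fun x =>
    (NatE.hN _ _).trans ⟨fun ⟨m, hm, e⟩ => by rwa [Nat.lt_one_iff.1 hm] at e,
      fun e => ⟨0, one_pos, e⟩⟩
  intro z
  refine (E_code_pw U z).trans ⟨?_, ?_⟩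
  · rintro ⟨m, hm, rfl⟩
    have h2 := (hU m).1 hm
    obtain rfl | rfl : m = 0 ∨ m = 1 := by omega
    · exact Or.inl code_zero
    · exact Or.inr ⟨_, code_zero, h1⟩
  · rintro (h | ⟨e, he, h⟩)
    · exact ⟨0, (hU 0).2 two_pos, empty_unique (zf' E) code_zero h⟩
    · obtain rfl := empty_unique (zf' E) code_zero he
      exact ⟨1, (hU 1).2 one_lt_two, sing_unique (zf' E) h1 h⟩

/-- two places of disagreement between `j` and `k` -/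
def ProdU (j k : ℕ) (x y : ℕ → ℕ) : Prop :=
  x 0 = y 0 ∨ ∃ i1 i2, j < i1 ∧ i1 < i2 ∧ i2 < k ∧ x i1 ≠ y i1 ∧ x i2 ≠ y i2

theorem prodU_cs : CS E fun p : (ℕ × ℕ) × FN E ℕ ℕ × FN E ℕ ℕ =>
    ProdU p.1.1 p.1.2 p.2.1.1 p.2.2.1 := by
  unfold ProdU; infer_instance

theorem sq_not_menger (I : Iface0 E) (hs : ∀ a, Small.{0} {x // E x a}) {w P ρ : M}
    (hw : Is E ℕ w) (hP : IsPower E w w P ρ) (hP' : Is E (FN E ℕ ℕ) P) :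
    ∃ t A π, IsTwo E t ∧ (∀ f, E f A ↔ IsFun E f t (CT.code E I.X)) ∧ IsPw E A t ρ π ∧
      ¬ IsMengerM E A π := by
  classical
  have := (zf' E).nonempty
  obtain ⟨two, htwo⟩ : ∃ U : PW E ℕ, ∀ m, m ∈ U.1 ↔ m < 2 :=
    ⟨⟨{m | m < 2}, (inferInstance : CS E fun m : ℕ => m < 2)⟩, fun _ => Iff.rfl⟩
  have hfin : Finite {m // m ∈ two.1} :=
    ((Set.finite_lt_nat 2).subset fun m hm => (htwo m).1 hm).to_subtype
  obtain ⟨A, hA⟩ := exists_is E (FN E {m // m ∈ two.1} {f // f ∈ I.X.1})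
  obtain ⟨Q, hQ⟩ := (zf' E).powerset A
  obtain ⟨π, hπ⟩ := (zf' E).sep Q fun U => ∀ f, E f U → ∃ F, IsFin E F ∧
    (∀ p, E p F → ∃ x V, E x (CT.code E two) ∧ E V ρ ∧ IsPair E p x V) ∧
    (∀ x V y, App E F x V → App E f x y → E y V) ∧
    ∀ g, E g A → (∀ x V y, App E F x V → App E g x y → E y V) → E g U
  have hπ' : IsPw E A (CT.code E two) ρ π := fun U => by
    rw [hπ, hQ]
    exact Iff.rfl
  refine ⟨_, A, π, prod_two two htwo,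
    fun f => (hA f).trans (prod_isFun_iff (is_sub two) (is_sub I.X) f).symm, hπ', fun hM => ?_⟩
  let s0 : {m // m ∈ two.1} := ⟨0, (htwo 0).2 two_pos⟩
  let s1 : {m // m ∈ two.1} := ⟨1, (htwo 1).2 one_lt_two⟩
  have hU : CS E fun p : (ℕ × ℕ) × FN E {m // m ∈ two.1} {f // f ∈ I.X.1} =>
      ProdU p.1.1 p.1.2 (p.2.1 s0).1.1 (p.2.1 s1).1.1 :=
    prodU_cs.comp fun p : (ℕ × ℕ) × FN E {m // m ∈ two.1} {f // f ∈ I.X.1} =>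
      (p.1, (p.2.1 s0).1, (p.2.1 s1).1)
  obtain ⟨g, hg, hmain⟩ := add_menger hA (is_el π) hM
    (fun j k a => ProdU j k (a.1 s0).1.1 (a.1 s1).1.1) hU
    (fun j k => by
      let W : PW E (FN E {m // m ∈ two.1} {f // f ∈ I.X.1}) :=
        ⟨{a | ProdU j k (a.1 s0).1.1 (a.1 s1).1.1},
          hU.comp (fun a => ((j, k), a)) (hf := CF.pair (fun _ => (j, k)) fun a => a)⟩
      refine ⟨CT.code E W, prod_open_pw I.X hw hP hP' (is_sub two) hA hπ' W fun a ha =>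
        ⟨k + 1, fun b hb => ?_⟩, fun a => (mem_code_pw W a).symm⟩
      rcases ha with ha | ⟨i1, i2, a1, a2, a3, a4, a5⟩
      · exact Or.inl (by rw [hb s0 0 (by omega), hb s1 0 (by omega)]; exact ha)
      · refine Or.inr ⟨i1, i2, a1, a2, a3, ?_, ?_⟩
        · rw [hb s0 i1 (by omega), hb s1 i1 (by omega)]; exact a4
        · rw [hb s0 i2 (by omega), hb s1 i2 (by omega)]; exact a5)
    (fun j a => by
      by_cases h : (a.1 s0).1.1 0 = (a.1 s1).1.1 0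
      · exact ⟨0, Or.inl h⟩
      · obtain ⟨i1, a1, a2⟩ := I.nm1 _ (a.1 s0).2 _ (a.1 s1).2 h (j + 1)
        obtain ⟨i2, a3, a4⟩ := I.nm1 _ (a.1 s0).2 _ (a.1 s1).2 h (i1 + 1)
        exact ⟨i2 + 1, Or.inr ⟨i1, i2, a1, a3, i2.lt_succ_self, a2, a4⟩⟩)
  obtain ⟨x, hx, y, hy, h1, h2⟩ := I.nm2 g hg
  let x' : {f // f ∈ I.X.1} := ⟨x, hx⟩
  let y' : {f // f ∈ I.X.1} := ⟨y, hy⟩
  let a : FN E {m // m ∈ two.1} {f // f ∈ I.X.1} :=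
    ⟨fun s => if s = s0 then x' else y', CF.ite (fun s => s = s0) (fun _ => x') fun _ => y'⟩
  have e0 : a.1 s0 = ⟨x, hx⟩ := if_pos (c := s0 = s0) (t := x') (e := y') rfl
  have e1 : a.1 s1 = ⟨y, hy⟩ := if_neg (c := s1 = s0) (t := x') (e := y') fun h =>
    Nat.one_ne_zero (congrArg Subtype.val h)
  obtain ⟨n, k, h3, h4⟩ := hmain a
  rw [e0, e1] at h4
  rcases h4 with h4 | ⟨i1, i2, a1, a2, a3, a4, a5⟩
  · exact h1 h4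
  · have := h2 n i1 i2 a1 a2 a4 a5
    omega

theorem exists_sq (I : Iface0 E) (hs : ∀ a, Small.{0} {x // E x a}) :
    ∃ w P ρ X t A π, IsOmega E w ∧ IsPower E w w P ρ ∧ Sub E X P ∧ IsMengerM E X ρ ∧
      IsTwo E t ∧ (∀ f, E f A ↔ IsFun E f t X) ∧ IsPw E A t ρ π ∧ ¬ IsMengerM E A π := by
  obtain ⟨w, hw⟩ := exists_is E ℕ
  obtain ⟨P, ρ, hP, hP'⟩ := exists_baire hw
  obtain ⟨t, A, π, h⟩ := sq_not_menger I hs hw hP hP'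
  refine ⟨w, P, ρ, _, t, A, π, isOmega_of_is hw, hP, fun x hx => ?_, x_menger I hs hw hP hP', h⟩
  obtain ⟨f, -, rfl⟩ := (E_code_pw _ _).1 hx
  exact (hP' _).2 ⟨f, rfl⟩

end Pool.Agent.B8P
end
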