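import Pool.Agent.Work.MP_b8a914_gt.F.Add
import Pool.Agent.Work.MP_b8a914_gt.F.Gen1
import Pool.Agent.Lib.ZFModel.Generic
import Pool.Agent.Work.MP_b8a914_gt.P.Prod
import Pool.Agent.Lib.ZFModel.ZFC
import Pool.Agent.Work.MP_b8a914_gt.P.Defs

-- merged part: Pool.Agent.Work.MP_b8a914_gt.P.S
section
/-! The monoid of adapted, section injective maps of a power of the Cantor space. -/

set_option linter.unusedSectionVars false

namespace Pool.Agent.B8P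
open Filter Topology Function Set
open Pool.Agent.B8F (Ag)

abbrev Y (K : Type) := K → ℕ → Bool

variable {K : Type} [LinearOrder K]

def AgS (β : WithTop K) (y y' : Y K) : Prop := ∀ c : K, (c : WithTop K) < β → y c = y' c

def SuppS (s : Set (WithTop K)) (η : Y K → Y K) : Prop :=
  (∀ y (c : K), (c : WithTop K) ∉ s → η y c = y c) ∧
  ∀ y y' : Y K, (∀ c : K, (c : WithTop K) ∈ s → y c = y' c) →
    ∀ c : K, (c : WithTop K) ∈ s → η y c = η y' c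

/-- adapted continuous maps with countable support -/
structure Ad (η : Y K → Y K) : Prop where
  cont : Continuous η
  proj : ∀ c y y', (∀ c' ≤ c, y c' = y' c') → η y c = η y' c
  supp : ∃ s : Set (WithTop K), s.Countable ∧ SuppS s η

/-- conditions of the iteration of perfect set forcing -/
structure IsS (η : Y K → Y K) : Prop extends Ad η where
  inj : ∀ c y y', (∀ c' < c, y c' = y' c') → η y c = η y' c → y c = y' c

/-- the first `l` bits at the coordinates in `F` are kept -/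
def FixS (F : Finset K) (l : ℕ) (η : Y K → Y K) : Prop := ∀ y, ∀ c ∈ F, Ag l (η y c) (y c)

/-- put the first `l` bits of `t` in front at the coordinates in `F` -/
def pcS (F : Finset K) (l : ℕ) (t y : Y K) : Y K := fun c i =>
  if c ∈ F then (if i < l then t c i else y c (i - l)) else y c i

/-- remove the first `l` bits at the coordinates in `F` -/
def shS (F : Finset K) (l : ℕ) (y : Y K) : Y K := fun c i =>
  if c ∈ F then y c (i + l) else y c i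

def resS (b : WithTop K) (η : Y K → Y K) (y : Y K) : Y K := fun c =>
  if (c : WithTop K) < b then η y c else y c

def tlS (b : WithTop K) (η : Y K → Y K) (y : Y K) : Y K := fun c =>
  if (c : WithTop K) < b then y c else η y c

/-- `y` follows the word `t` at the coordinates of `G` up to `c` -/
def OnT (G : Finset K) (l : ℕ) (t y : Y K) (c : K) : Prop := ∀ c' ∈ G, c' ≤ c → Ag l (y c') (t c')

open Classical in
/-- follow `ζ` as long as `y` follows the word `t` -/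
noncomputable def glS (G : Finset K) (l : ℕ) (t : Y K) (ζ : Y K → Y K) (y : Y K) : Y K := fun c =>
  if OnT G l t y c then pcS G l t (ζ (shS G l y)) c else y c

theorem AgS.rfl' {β : WithTop K} {y : Y K} : AgS β y y := fun _ _ => rfl
theorem AgS.symm {β : WithTop K} {y y' : Y K} (h : AgS β y y') : AgS β y' y :=
  fun c hc => (h c hc).symm
theorem AgS.trans {β : WithTop K} {x y z : Y K} (h : AgS β x y) (h' : AgS β y z) : AgS β x z :=
  fun c hc => (h c hc).trans (h' c hc)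
theorem AgS.mono {β β' : WithTop K} {y y' : Y K} (h : AgS β y y') (hb : β' ≤ β) : AgS β' y y' :=
  fun c hc => h c (hc.trans_le hb)
theorem AgS.eq {y y' : Y K} (h : AgS ⊤ y y') : y = y' :=
  funext fun c => h c (WithTop.coe_lt_top c)

theorem tendsto_Y {Z : Type} {F : Filter Z} {w : Z → Y K} {w0 : Y K} :
    Tendsto w F (𝓝 w0) ↔ ∀ c i, ∀ᶠ z in F, w z c i = w0 c i := by
  simp only [tendsto_pi_nhds, nhds_discrete, tendsto_pure]

theorem cont_Y {Z : Type} [TopologicalSpace Z] {w : Z → Y K} :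
    Continuous w ↔ ∀ z0 c i, ∀ᶠ z in 𝓝 z0, w z c i = w z0 c i := by
  simp only [continuous_iff_continuousAt, ContinuousAt, tendsto_Y]

theorem SuppS.mono {s t : Set (WithTop K)} {η : Y K → Y K} (h : SuppS s η) (hst : s ⊆ t) :
    SuppS t η := by
  refine ⟨fun y c hc => h.1 y c fun h' => hc (hst h'), fun y y' hy c hc => ?_⟩
  by_cases h' : (c : WithTop K) ∈ s
  · exact h.2 y y' (fun c hc => hy c (hst hc)) c h'
  · rw [h.1 y c h', h.1 y' c h', hy c hc]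

theorem SuppS.comp {s : Set (WithTop K)} {η ζ : Y K → Y K} (h : SuppS s η) (h' : SuppS s ζ) :
    SuppS s (η ∘ ζ) :=
  ⟨fun y c hc => (h.1 _ c hc).trans (h'.1 y c hc), fun y y' hy => h.2 _ _ (h'.2 y y' hy)⟩

theorem Ad.agS {η : Y K → Y K} (h : Ad η) {β : WithTop K} {y y' : Y K} (h' : AgS β y y') :
    AgS β (η y) (η y') := fun c hc =>
  h.proj c y y' fun c' h1 => h' c' ((WithTop.coe_le_coe.2 h1).trans_lt hc)

theorem Ad.comp {η ζ : Y K → Y K} (h : Ad η) (h' : Ad ζ) : Ad (η ∘ ζ) := by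
  refine ⟨h.cont.comp h'.cont, fun c y y' hy => h.proj c _ _ fun c' hc' =>
    h'.proj c' y y' fun c'' h1 => hy c'' (h1.trans hc'), ?_⟩
  obtain ⟨s, hs, h1⟩ := h.supp
  obtain ⟨t, ht, h2⟩ := h'.supp
  exact ⟨s ∪ t, hs.union ht, (h1.mono subset_union_left).comp (h2.mono subset_union_right)⟩

theorem isS_id : IsS (id : Y K → Y K) :=
  ⟨⟨continuous_id, fun c _ _ h => h c le_rfl,
    ⟨∅, countable_empty, fun _ _ _ => rfl, fun _ _ _ _ h => h.elim⟩⟩, fun _ _ _ _ h => h⟩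

theorem Ad.S_lt {η : Y K → Y K} (h : Ad η) {c : K} {y y' : Y K} (hy : ∀ c' < c, y c' = y' c') :
    ∀ c' < c, η y c' = η y' c' := fun c' hc' =>
  h.proj c' y y' fun c'' h1 => hy c'' (h1.trans_lt hc')

theorem IsS.comp {η ζ : Y K → Y K} (h : IsS η) (h' : IsS ζ) : IsS (η ∘ ζ) :=
  ⟨h.toAd.comp h'.toAd, fun c y y' hy e => h'.inj c y y' hy
    (h.inj c _ _ (h'.toAd.S_lt hy) e)⟩

theorem FixS.comp {F : Finset K} {l : ℕ} {η ζ : Y K → Y K} (h : FixS F l η) (h' : FixS F l ζ) :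
    FixS F l (η ∘ ζ) := fun y c hc => (h (ζ y) c hc).trans (h' y c hc)

theorem FixS.mono {F F' : Finset K} {l l' : ℕ} {η : Y K → Y K} (h : FixS F l η) (hF : F' ⊆ F)
    (hl : l' ≤ l) : FixS F' l' η := fun y c hc => (h y c (hF hc)).mono hl

theorem pcS_off {F : Finset K} {l : ℕ} {t y : Y K} {c : K} (h : c ∉ F) : pcS F l t y c = y c :=
  funext fun i => by simp only [pcS, if_neg h]

theorem pcS_ag {F : Finset K} {l : ℕ} {t y : Y K} {c : K} (h : c ∈ F) :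
    Ag l (pcS F l t y c) (t c) := fun i hi => by simp only [pcS, if_pos h, if_pos hi]

theorem shS_off {F : Finset K} {l : ℕ} {y : Y K} {c : K} (h : c ∉ F) : shS F l y c = y c :=
  funext fun i => by simp only [shS, if_neg h]

theorem sh_pc (F : Finset K) (l : ℕ) (t y : Y K) : shS F l (pcS F l t y) = y := by
  funext c i
  by_cases hc : c ∈ F
  · simp only [shS, pcS, if_pos hc]
    rw [if_neg (by omega), Nat.add_sub_cancel]
  · simp only [shS, pcS, if_neg hc]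

theorem pc_sh {F : Finset K} {l : ℕ} {t y : Y K} (h : ∀ c ∈ F, Ag l (y c) (t c)) :
    pcS F l t (shS F l y) = y := by
  funext c i
  by_cases hc : c ∈ F
  · simp only [shS, pcS, if_pos hc]
    by_cases hi : i < l
    · rw [if_pos hi, h c hc i hi]
    · rw [if_neg hi, Nat.sub_add_cancel (by omega)]
  · simp only [shS, pcS, if_neg hc]

theorem pcS_congr {F : Finset K} {l : ℕ} {t t' : Y K} (h : ∀ c ∈ F, Ag l (t c) (t' c)) :
    pcS F l t = pcS F l t' := by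
  funext y c i
  by_cases hc : c ∈ F
  · simp only [pcS, if_pos hc]
    by_cases hi : i < l
    · rw [if_pos hi, if_pos hi, h c hc i hi]
    · rw [if_neg hi, if_neg hi]
  · simp only [pcS, if_neg hc]

theorem S_pc_loc {F : Finset K} {l : ℕ} {t y y' : Y K} {c : K} (h : y c = y' c) :
    pcS F l t y c = pcS F l t y' c := funext fun i => by simp only [pcS, h]

theorem S_sh_loc {F : Finset K} {l : ℕ} {y y' : Y K} {c : K} (h : y c = y' c) :
    shS F l y c = shS F l y' c := funext fun i => by simp only [shS, h]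

theorem S_ev (y0 : Y K) (c : K) (i : ℕ) : ∀ᶠ y in 𝓝 y0, y c i = y0 c i :=
  tendsto_Y.1 (tendsto_id (x := 𝓝 y0)) c i

theorem S_cnt (F : Finset K) : ((fun c : K => (c : WithTop K)) '' F).Countable :=
  F.countable_toSet.image _

/-- equal first bits and equal rest -/
theorem S_of_sh {F : Finset K} {l : ℕ} {y y' : Y K} {c : K}
    (h : c ∈ F → Ag l (y c) (y' c)) (e : shS F l y c = shS F l y' c) : y c = y' c := by
  by_cases hc : c ∈ F
  · funext i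
    by_cases hi : i < l
    · exact h hc i hi
    · have := congrFun e (i - l)
      simp only [shS, if_pos hc] at this
      rwa [Nat.sub_add_cancel (by omega)] at this
  · rwa [shS_off hc, shS_off hc] at e

theorem suppS_pc (F : Finset K) (l : ℕ) (t : Y K) :
    SuppS ((fun c : K => (c : WithTop K)) '' F) (pcS F l t) :=
  ⟨fun _ c hc => pcS_off fun h => hc ⟨c, h, rfl⟩, fun _ _ hy c hc => S_pc_loc (hy c hc)⟩

theorem isS_pc (F : Finset K) (l : ℕ) (t : Y K) : IsS (pcS F l t) := by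
  refine ⟨⟨cont_Y.2 fun y0 c i => ?_, fun c y y' hy => S_pc_loc (hy c le_rfl),
    _, S_cnt F, suppS_pc F l t⟩, fun c y y' _ e => ?_⟩
  · filter_upwards [S_ev y0 c i, S_ev y0 c (i - l)] with y h1 h2
    simp only [pcS, h1, h2]
  · have := S_sh_loc (F := F) (l := l) e
    rwa [sh_pc, sh_pc] at this

theorem ad_sh (F : Finset K) (l : ℕ) : Ad (shS F l) := by
  refine ⟨cont_Y.2 fun y0 c i => ?_, fun c y y' hy => S_sh_loc (hy c le_rfl),
    _, S_cnt F, fun _ c hc => shS_off fun h => hc ⟨c, h, rfl⟩,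
    fun _ _ hy c hc => S_sh_loc (hy c hc)⟩
  filter_upwards [S_ev y0 c i, S_ev y0 c (i + l)] with y h1 h2
  simp only [shS, h1, h2]

theorem resS_agS (b : WithTop K) (η : Y K → Y K) (y : Y K) : AgS b (resS b η y) (η y) :=
  fun _ hc => if_pos hc

theorem resS_ge {b : WithTop K} (η : Y K → Y K) (y : Y K) {c : K} (h : b ≤ c) :
    resS b η y c = y c := if_neg h.not_gt

theorem tlS_agS (b : WithTop K) (η : Y K → Y K) (y : Y K) : AgS b (tlS b η y) y :=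
  fun _ hc => if_pos hc

theorem tlS_ge {b : WithTop K} (η : Y K → Y K) (y : Y K) {c : K} (h : b ≤ c) :
    tlS b η y c = η y c := if_neg h.not_gt

theorem Ad.S_ite {η : Y K → Y K} (h : Ad η) (P : K → Prop) [DecidablePred P] :
    Ad fun y c => if P c then η y c else y c := by
  refine ⟨cont_Y.2 fun y0 c i => ?_, fun c y y' hy => ?_, ?_⟩
  · filter_upwards [S_ev y0 c i, cont_Y.1 h.cont y0 c i] with y h1 h2
    by_cases hc : P c
    · simp only [if_pos hc, h2]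
    · simp only [if_neg hc, h1]
  · simp only [h.proj c y y' hy, hy c le_rfl]
  · obtain ⟨s, hs, h1⟩ := h.supp
    refine ⟨s, hs, fun y c hc => ?_, fun y y' hy c hc => ?_⟩
    · simp only [h1.1 y c hc, ite_self]
    · simp only [h1.2 y y' hy c hc, hy c hc]

theorem IsS.res {η : Y K → Y K} (h : IsS η) (b : WithTop K) : IsS (resS b η) := by
  refine ⟨h.toAd.S_ite (fun c => (c : WithTop K) < b), fun c y y' hy e => ?_⟩
  by_cases hc : (c : WithTop K) < b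
  · simp only [resS, if_pos hc] at e
    exact h.inj c y y' hy e
  · simpa only [resS, if_neg hc] using e

/-- the tail of `ζ` after a change of the earlier coordinates -/
theorem IsS.tl {ζ ρ : Y K → Y K} (h : IsS ζ) (hρ : Ad ρ) {b : WithTop K}
    (hid : ∀ y (c : K), b ≤ c → ρ y c = y c) : IsS (tlS b (ζ ∘ ρ)) := by
  have e0 : tlS b (ζ ∘ ρ) = fun y (c : K) =>
      if ¬ (c : WithTop K) < b then (ζ ∘ ρ) y c else y c := by
    funext y c
    simp only [tlS, ite_not]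
  refine ⟨e0 ▸ (h.toAd.comp hρ).S_ite (fun c => ¬ (c : WithTop K) < b), fun c y y' hy e => ?_⟩
  by_cases hc : (c : WithTop K) < b
  · simpa only [tlS, if_pos hc] using e
  · simp only [tlS, if_neg hc] at e
    have := h.inj c _ _ (hρ.S_lt hy) e
    rwa [hid y c (not_lt.1 hc), hid y' c (not_lt.1 hc)] at this

theorem resS_comp {η ζ : Y K → Y K} (h : Ad η) (b : WithTop K) :
    resS b (η ∘ ζ) = resS b η ∘ resS b ζ := by
  funext y c
  by_cases hc : (c : WithTop K) < b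
  · show resS b (η ∘ ζ) y c = resS b η (resS b ζ y) c
    rw [resS_agS b _ _ c hc, resS_agS b _ _ c hc]
    exact (h.agS (resS_agS b ζ y) c hc).symm
  · show resS b (η ∘ ζ) y c = resS b η (resS b ζ y) c
    rw [resS_ge _ _ (not_lt.1 hc), resS_ge _ _ (not_lt.1 hc), resS_ge _ _ (not_lt.1 hc)]

theorem res_tl {ζ : Y K → Y K} (h : Ad ζ) (b : WithTop K) : resS b ζ ∘ tlS b ζ = ζ := by
  funext y c
  show resS b ζ (tlS b ζ y) c = ζ y c
  by_cases hc : (c : WithTop K) < b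
  · rw [resS_agS b _ _ c hc]
    exact h.agS (tlS_agS b ζ y) c hc
  · rw [resS_ge _ _ (not_lt.1 hc), tlS_ge _ _ (not_lt.1 hc)]

/-- conjugation of a map that keeps the words -/
theorem IsS.conj {ξ : Y K → Y K} (h : IsS ξ) {G : Finset K} {l : ℕ} (hf : FixS G l ξ) (t : Y K) :
    IsS (shS G l ∘ ξ ∘ pcS G l t) := by
  refine ⟨(ad_sh G l).comp (h.comp (isS_pc G l t)).toAd, fun c y y' hy e => ?_⟩
  refine (h.comp (isS_pc G l t)).inj c y y' hy (S_of_sh (F := G) (l := l) (fun hc => ?_) e)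
  exact ((hf _ c hc).trans (pcS_ag hc)).trans ((hf _ c hc).trans (pcS_ag hc)).symm

theorem pc_conj {ξ : Y K → Y K} {G : Finset K} {l : ℕ} (hf : FixS G l ξ) (t y : Y K) :
    pcS G l t (shS G l (ξ (pcS G l t y))) = ξ (pcS G l t y) :=
  pc_sh fun c hc => (hf _ c hc).trans (pcS_ag hc)

theorem S_box (y0 : Y K) (F : Finset K) (n : ℕ) :
    ∀ᶠ y in 𝓝 y0, ∀ c ∈ F, Ag n (y c) (y0 c) :=
  (eventually_all_finset F).2 fun c _ => B8F.ev_ag n fun i _ => S_ev y0 c i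

theorem S_onT {G : Finset K} {l : ℕ} {t y y' : Y K} {c : K}
    (h : ∀ c' ∈ G, c' ≤ c → Ag l (y c') (y' c')) : OnT G l t y c ↔ OnT G l t y' c :=
  ⟨fun h1 c' hG hc => (h c' hG hc).symm.trans (h1 c' hG hc),
    fun h1 c' hG hc => (h c' hG hc).trans (h1 c' hG hc)⟩

theorem S_gl_on {G : Finset K} {l : ℕ} {t y : Y K} {ζ : Y K → Y K} {c : K} (h : OnT G l t y c) :
    glS G l t ζ y c = pcS G l t (ζ (shS G l y)) c := if_pos h

theorem S_gl_off {G : Finset K} {l : ℕ} {t y : Y K} {ζ : Y K → Y K} {c : K}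
    (h : ¬ OnT G l t y c) : glS G l t ζ y c = y c := if_neg h

theorem IsS.gl {ζ : Y K → Y K} (h : IsS ζ) (G : Finset K) (l : ℕ) (t : Y K) :
    IsS (glS G l t ζ) := by
  have hp : IsS (pcS G l t ∘ ζ) := (isS_pc G l t).comp h
  have ha : Ad ((pcS G l t ∘ ζ) ∘ shS G l) := hp.toAd.comp (ad_sh G l)
  have key : ∀ {y y' : Y K} {c : K}, OnT G l t y c → ¬ OnT G l t y' c →
      (∀ c' < c, y c' = y' c') → glS G l t ζ y c ≠ glS G l t ζ y' c := by
    intro y y' c h1 h2 hy e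
    refine h2 fun c' hG hc' => ?_
    rcases hc'.lt_or_eq with h3 | rfl
    · rw [← hy c' h3]; exact h1 c' hG hc'
    · rw [S_gl_on h1, S_gl_off h2] at e
      rw [← e]; exact pcS_ag hG
  refine ⟨⟨cont_Y.2 fun y0 c i => ?_, fun c y y' hy => ?_, ?_⟩, fun c y y' hy e => ?_⟩
  · filter_upwards [S_ev y0 c i, cont_Y.1 ha.cont y0 c i, S_box y0 G l] with y h1 h2 h3
    have h4 : OnT G l t y c ↔ OnT G l t y0 c := S_onT fun c' hG _ => h3 c' hG
    by_cases h5 : OnT G l t y0 c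
    · rw [S_gl_on h5, S_gl_on (h4.2 h5)]; exact h2
    · rw [S_gl_off h5, S_gl_off fun h6 => h5 (h4.1 h6)]; exact h1
  · have h4 : OnT G l t y c ↔ OnT G l t y' c := S_onT fun c' _ hc' => by
      rw [hy c' hc']; exact .rfl'
    by_cases h5 : OnT G l t y' c
    · rw [S_gl_on h5, S_gl_on (h4.2 h5)]; exact ha.proj c y y' hy
    · rw [S_gl_off h5, S_gl_off fun h6 => h5 (h4.1 h6)]; exact hy c le_rfl
  · obtain ⟨s, hs, h1⟩ := ha.supp
    have h2 := h1.mono (subset_union_left (t := (fun c : K => (c : WithTop K)) '' G))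
    refine ⟨_, hs.union (S_cnt G), fun y c hc => ?_, fun y y' hy c hc => ?_⟩
    · by_cases h5 : OnT G l t y c
      · rw [S_gl_on h5]; exact h2.1 y c hc
      · exact S_gl_off h5
    · have h4 : OnT G l t y c ↔ OnT G l t y' c := S_onT fun c' hG _ => by
        rw [hy c' (Or.inr ⟨c', hG, rfl⟩)]; exact .rfl'
      by_cases h5 : OnT G l t y' c
      · rw [S_gl_on h5, S_gl_on (h4.2 h5)]; exact h2.2 y y' hy c hc
      · rw [S_gl_off h5, S_gl_off fun h6 => h5 (h4.1 h6)]; exact hy c hc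
  · by_cases h1 : OnT G l t y c
    · by_cases h2 : OnT G l t y' c
      · rw [S_gl_on h1, S_gl_on h2] at e
        refine S_of_sh (F := G) (l := l) (fun hc => (h1 c hc le_rfl).trans (h2 c hc le_rfl).symm) ?_
        exact hp.inj c _ _ ((ad_sh G l).S_lt hy) e
      · exact (key h1 h2 hy e).elim
    · by_cases h2 : OnT G l t y' c
      · exact (key h2 h1 (fun c' hc' => (hy c' hc').symm) e.symm).elim
      · rwa [S_gl_off h1, S_gl_off h2] at e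

theorem glS_fix (G : Finset K) (l : ℕ) (t : Y K) (ζ : Y K → Y K) : FixS G l (glS G l t ζ) := by
  intro y c hc
  by_cases h : OnT G l t y c
  · rw [S_gl_on h]; exact (pcS_ag hc).trans (h c hc le_rfl).symm
  · rw [S_gl_off h]; exact .rfl'

theorem glS_fix' {G Kp : Finset K} {l l' : ℕ} (t : Y K) {ζ : Y K → Y K} (hd : Disjoint G Kp)
    (h : FixS Kp l' ζ) : FixS Kp l' (glS G l t ζ) := by
  intro y c hc
  have hG : c ∉ G := fun h1 => Finset.disjoint_left.1 hd h1 hc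
  by_cases h1 : OnT G l t y c
  · rw [S_gl_on h1, pcS_off hG]
    have := h (shS G l y) c hc
    rwa [shS_off hG] at this
  · rw [S_gl_off h1]; exact .rfl'

theorem glS_pc (G : Finset K) (l : ℕ) (t : Y K) (ζ : Y K → Y K) (y : Y K) :
    glS G l t ζ (pcS G l t y) = pcS G l t (ζ y) := by
  funext c
  rw [S_gl_on fun c' hG _ => pcS_ag hG, sh_pc]

/-- neighbourhoods are given by finitely many bits -/
theorem nhds_finS {y0 : Y K} {P : Y K → Prop} (h : ∀ᶠ y in 𝓝 y0, P y) :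
    ∃ (F : Finset K) (n : ℕ), ∀ y, (∀ c ∈ F, Ag n (y c) (y0 c)) → P y := by
  by_contra hc
  push Not at hc
  choose v hv1 hv2 using hc
  have ht : Tendsto (fun z : Finset K × ℕ => v z.1 z.2) atTop (𝓝 y0) := by
    refine tendsto_Y.2 fun c i => ?_
    filter_upwards [eventually_ge_atTop (({c} : Finset K), i + 1)] with z hz
    exact hv1 z.1 z.2 c (hz.1 (Finset.mem_singleton_self c)) i hz.2
  obtain ⟨z, hz⟩ := (ht.eventually h).exists
  exact hv2 _ _ hz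

theorem ev_boxS (y0 : Y K) (F : Finset K) (n : ℕ) :
    ∀ᶠ y in 𝓝 y0, ∀ c ∈ F, Ag n (y c) (y0 c) := S_box y0 F n

/-- a locally constant map depends on finitely many bits -/
theorem lc_fin {Z : Type} {f : Y K → Z} (hf : IsLocallyConstant f) :
    ∃ (F : Finset K) (n : ℕ), ∀ y y' : Y K, (∀ c ∈ F, Ag n (y c) (y' c)) → f y = f y' := by
  choose F n hF using fun y0 : Y K => nhds_finS (hf.eventually_eq y0)
  obtain ⟨T, -, hT⟩ := isCompact_univ.elim_nhds_subcover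
    (fun y0 : Y K => {y : Y K | ∀ c ∈ F y0, Ag (n y0) (y c) (y0 c)})
    (fun y0 _ => S_box y0 (F y0) (n y0))
  refine ⟨T.biUnion F, T.sup n, fun y y' hy => ?_⟩
  obtain ⟨y0, h0, h1⟩ := mem_iUnion₂.1 (hT (mem_univ y))
  rw [hF y0 y h1, hF y0 y' fun c hc => ?_]
  exact ((hy c (Finset.mem_biUnion.2 ⟨y0, h0, hc⟩)).mono (Finset.le_sup h0)).symm.trans (h1 c hc)

/-- finitely many words -/
theorem exists_words (F : Finset K) (l : ℕ) :
    ∃ L : List (Y K), ∀ y : Y K, ∃ t ∈ L, ∀ c ∈ F, Ag l (y c) (t c) := by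
  classical
  let g : (F → Fin l → Bool) → Y K := fun w c i =>
    if h : c ∈ F ∧ i < l then w ⟨c, h.1⟩ ⟨i, h.2⟩ else false
  refine ⟨(Finset.univ.toList).map g, fun y => ⟨g fun c i => y c i,
    List.mem_map_of_mem (Finset.mem_toList.2 (Finset.mem_univ _)), fun c hc i hi => ?_⟩⟩
  simp only [g, dif_pos (And.intro hc hi)]

/-- the section lemma -/
theorem exists_section {col : Y K → Bool} (hc : Continuous col) (b : K) (l : ℕ) (e : Bool)
    (h : ∀ y, ∃ y', AgS b y' y ∧ Ag l (y' b) (y b) ∧ col y' = e) :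
    ∃ ζ, IsS ζ ∧ (∀ y, AgS b (ζ y) y) ∧ FixS {b} l ζ ∧ ∀ y, col (ζ y) = e := by
  obtain ⟨G0, n0, hG⟩ := lc_fin ((IsLocallyConstant.iff_continuous col).2 hc)
  choose σ h1 h2 h3 using h
  let G : Finset K := insert b G0
  let n := max n0 l
  have hb : b ∈ G := Finset.mem_insert_self _ _
  have hl : l ≤ n := le_max_right _ _
  let k : Y K → Y K := fun y c i =>
    if (c ∈ G ∧ c < b ∧ i < n) ∨ (c = b ∧ i < l) then y c i else false
  have hk : ∀ y y' : Y K, (∀ c ∈ G, c ≤ b → Ag n (y c) (y' c)) → k y = k y' := by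
    intro y y' hy
    funext c i
    by_cases h0 : (c ∈ G ∧ c < b ∧ i < n) ∨ (c = b ∧ i < l)
    · simp only [k, if_pos h0]
      rcases h0 with ⟨a1, a2, a3⟩ | ⟨rfl, a2⟩
      · exact hy c a1 a2.le i a3
      · exact hy c hb le_rfl i (a2.trans_le hl)
    · simp only [k, if_neg h0]
  let ζ : Y K → Y K := fun y c i =>
    if c ∈ G ∧ b ≤ c then
      (if i < n then σ (k y) c i else y c (i - n + if c = b then l else 0))
    else y c i
  have z0 : ∀ y c, ¬ (c ∈ G ∧ b ≤ c) → ζ y c = y c := fun y c h0 =>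
    funext fun i => by simp only [ζ, if_neg h0]
  have z1 : ∀ y y' c, (b ≤ c → k y = k y') → y c = y' c → ζ y c = ζ y' c := by
    intro y y' c a1 a2
    by_cases h0 : c ∈ G ∧ b ≤ c
    · funext i
      simp only [ζ, a1 h0.2, a2]
    · rw [z0 _ _ h0, z0 _ _ h0, a2]
  have z2 : ∀ y, Ag l (ζ y b) (y b) := fun y i hi => by
    have a1 : ζ y b i = σ (k y) b i := by
      simp only [ζ, if_pos (And.intro hb (le_refl b)), if_pos (hi.trans_le hl)]
    rw [a1, h2 (k y) i hi]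
    exact if_pos (Or.inr ⟨rfl, hi⟩)
  have z3 : ∀ y c i, c ∈ G ∧ b ≤ c → ζ y c (i + n) = y c (i + if c = b then l else 0) := by
    intro y c i h0
    simp only [ζ, if_pos h0]
    rw [if_neg (by omega), Nat.add_sub_cancel]
  refine ⟨ζ, ⟨⟨cont_Y.2 fun y0 c i => ?_, fun c y y' hy => ?_, _, S_cnt G,
    fun y c hc => z0 y c fun h0 => hc ⟨c, h0.1, rfl⟩, fun y y' hy c hc => ?_⟩,
    fun c y y' _ e => ?_⟩, fun y c hc => ?_, fun y c hc => ?_, fun y => ?_⟩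
  · filter_upwards [S_ev y0 c i, S_ev y0 c (i - n + if c = b then l else 0), S_box y0 G n]
      with y a1 a2 a3
    simp only [ζ, hk y y0 fun c hc _ => a3 c hc, a1, a2]
  · refine z1 y y' c (fun a1 => hk y y' fun c' _ a2 => ?_) (hy c le_rfl)
    rw [hy c' (a2.trans a1)]; exact .rfl'
  · refine z1 y y' c (fun _ => hk y y' fun c' a2 _ => ?_) (hy c hc)
    rw [hy c' ⟨c', a2, rfl⟩]; exact .rfl'
  · by_cases h0 : c ∈ G ∧ b ≤ c
    · funext i
      by_cases a1 : c = b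
      · subst a1
        by_cases hi : i < l
        · rw [← z2 y i hi, ← z2 y' i hi, e]
        · have a2 := congrFun e (i - l + n)
          rw [z3 _ _ _ h0, z3 _ _ _ h0, if_pos rfl, Nat.sub_add_cancel (by omega)] at a2
          exact a2
      · have a2 := congrFun e (i + n)
        rw [z3 _ _ _ h0, z3 _ _ _ h0, if_neg a1] at a2
        exact a2
    · rwa [z0 _ _ h0, z0 _ _ h0] at e
  · exact z0 y c fun h0 => (WithTop.coe_lt_coe.1 hc).not_ge h0.2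
  · rw [Finset.mem_singleton.1 hc]; exact z2 y
  · rw [← h3 (k y)]
    refine hG _ _ fun c hc i hi => ?_
    have a1 : c ∈ G := Finset.mem_insert_of_mem hc
    have a2 : i < n := hi.trans_le (le_max_left _ _)
    by_cases a3 : b ≤ c
    · simp only [ζ, if_pos (And.intro a1 a3), if_pos a2]
    · rw [z0 y c fun h0 => a3 h0.2, h1 (k y) c (WithTop.coe_lt_coe.2 (not_le.1 a3))]
      exact (if_pos (Or.inl ⟨a1, not_le.1 a3, a2⟩)).symm

variable [WellFoundedLT K]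

theorem IsS.injS {η : Y K → Y K} (h : IsS η) {β : WithTop K} {y y' : Y K}
    (h' : AgS β (η y) (η y')) : AgS β y y' := by
  intro c
  induction c using WellFoundedLT.induction with
  | ind c ih =>
    intro hc
    exact h.inj c y y' (fun c' h1 => ih c' h1 ((WithTop.coe_lt_coe.2 h1).trans hc)) (h' c hc)

theorem IsS.injective {η : Y K → Y K} (h : IsS η) : Injective η := fun _ _ e =>
  (h.injS (β := ⊤) fun c _ => congrFun e c).eq

/-- continuity of the inverse -/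
theorem IsS.ev_inv {η : Y K → Y K} (h : IsS η) {Z : Type} {F : Filter Z} {w : Z → Y K} {w0 : Y K}
    (h' : Tendsto (fun z => η (w z)) F (𝓝 (η w0))) : Tendsto w F (𝓝 w0) :=
  (h.cont.isClosedEmbedding h.injective).isInducing.tendsto_nhds_iff.2 h'

end Pool.Agent.B8P
end

-- merged part: Pool.Agent.Work.MP_b8a914_gt.P.Fr
section
/-! Frames: the perfect set coordinates do not see the superperfect coordinates, the superperfect
coordinate `β` sees the perfect set coordinates below `β`. -/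

set_option linter.unusedSectionVars false

namespace Pool.Agent.B8P
open Filter Topology Function Set
open Pool.Agent.B8F (Ag Pt AgB IsMi IsLen pre)

abbrev W (K : Type) := Y K × Pt (WithTop K)

variable {K : Type} [LinearOrder K]

def AgW (β : WithTop K) (z z' : W K) : Prop := AgS β z.1 z'.1 ∧ AgB β z.2 z'.2

def Eqv (β : WithTop K) (z z' : W K) : Prop := z.1 = z'.1 ∧ AgB β z.2 z'.2

def AgOn (s : Set (WithTop K)) (z z' : W K) : Prop :=
  (∀ c : K, (c : WithTop K) ∈ s → z.1 c = z'.1 c) ∧ ∀ γ ∈ s, z.2 γ = z'.2 γ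

def DepW {Z : Type} (s : Set (WithTop K)) (g : W K → Z) : Prop :=
  ∀ z z', AgOn s z z' → g z = g z'

def SuppW (s : Set (WithTop K)) (T : W K → W K) : Prop :=
  (∀ z (c : K), (c : WithTop K) ∉ s → (T z).1 c = z.1 c) ∧ (∀ z γ, γ ∉ s → (T z).2 γ = z.2 γ) ∧
  ∀ z z', AgOn s z z' → AgOn s (T z) (T z')

/-- the perfect set part -/
def sp (T : W K → W K) (y : Y K) : Y K := (T (y, fun _ _ => 0)).1

/-- the section over `y` -/
def sc (T : W K → W K) (y : Y K) (u : Pt (WithTop K)) : Pt (WithTop K) := (T (y, u)).2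

/-- the conditions on one perfect set coordinate -/
structure FrS (T : W K → W K) (c : K) : Prop where
  cont : Continuous fun z => (T z).1 c
  proj : ∀ z z' : W K, (∀ c' ≤ c, z.1 c' = z'.1 c') → (T z).1 c = (T z').1 c
  inj : ∀ z z' : W K, (∀ c' < c, z.1 c' = z'.1 c') → (T z).1 c = (T z').1 c → z.1 c = z'.1 c

/-- the conditions on one superperfect coordinate -/
structure FrM (T : W K → W K) (β : WithTop K) : Prop where
  cont : Continuous fun z => (T z).2 β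
  proj : ∀ z z' : W K, AgW β z z' → z.2 β = z'.2 β → (T z).2 β = (T z').2 β
  sec : ∀ y u n, ∃ l, IsLen (sc T y) β u n l

structure IsFr (T : W K → W K) : Prop where
  s : ∀ c, FrS T c
  m : ∀ β, FrM T β
  supp : ∃ s : Set (WithTop K), s.Countable ∧ SuppW s T

def Fx (F : Finset K) (l : ℕ) (b : WithTop K) (w v : W K) : Prop :=
  ∀ c ∈ F, b ≤ c → Ag l (w.1 c) (v.1 c)

def FixW (F : Finset K) (l : ℕ) (H : W K → W K) : Prop := ∀ z, ∀ c ∈ F, Ag l ((H z).1 c) (z.1 c)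

def InW (β : WithTop K) (T : W K → W K) (x : W K) : Prop := ∃ w, Eqv β (T w) x

def LeW (β : WithTop K) (T' T : W K → W K) : Prop := ∀ v, InW β T (T' v)

def LeF (F : Finset K) (l : ℕ) (b δ : WithTop K) (T' T : W K → W K) : Prop :=
  ∀ v, ∃ w, Eqv δ (T w) (T' v) ∧ Fx F l b w v

/-- the identity on the superperfect coordinates from `β` on -/
def TlM (β : WithTop K) (H : W K → W K) : Prop := ∀ z γ, β ≤ γ → (H z).2 γ = z.2 γ

/-- the identity on all coordinates from `β` on -/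
def Tl (β : WithTop K) (H : W K → W K) : Prop :=
  (∀ z (c : K), β ≤ c → (H z).1 c = z.1 c) ∧ TlM β H

def SuccW (δ β : WithTop K) (m : ℕ) (T T' : W K → W K) : Prop :=
  ∀ v, ∃ w, Eqv δ (T w) (T' v) ∧ w.2 β 0 = m

def resM (β : WithTop K) (T : W K → W K) (z : W K) : W K :=
  ((T z).1, fun γ => if γ < β then (T z).2 γ else z.2 γ)

def resW (β : WithTop K) (T : W K → W K) (z : W K) : W K :=
  (fun c => if (c : WithTop K) < β then (T z).1 c else z.1 c,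
    fun γ => if γ < β then (T z).2 γ else z.2 γ)

def pcW (F : Finset K) (l : ℕ) (t : Y K) : W K → W K := Prod.map (pcS F l t) id

def preM (β : WithTop K) (m : ℕ) : W K → W K := Prod.map id (pre {β} 1 fun _ _ => m)

theorem AgW.rfl' {β : WithTop K} {z : W K} : AgW β z z := ⟨.rfl', .rfl'⟩
theorem AgW.symm {β : WithTop K} {z z' : W K} (h : AgW β z z') : AgW β z' z := ⟨h.1.symm, h.2.symm⟩
theorem AgW.trans {β : WithTop K} {x y z : W K} (h : AgW β x y) (h' : AgW β y z) : AgW β x z :=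
  ⟨h.1.trans h'.1, h.2.trans h'.2⟩
theorem AgW.mono {β β' : WithTop K} {z z' : W K} (h : AgW β z z') (hb : β' ≤ β) : AgW β' z z' :=
  ⟨h.1.mono hb, h.2.mono hb⟩
theorem Eqv.rfl' {β : WithTop K} {z : W K} : Eqv β z z := ⟨rfl, .rfl'⟩
theorem Eqv.symm {β : WithTop K} {z z' : W K} (h : Eqv β z z') : Eqv β z' z := ⟨h.1.symm, h.2.symm⟩
theorem Eqv.trans {β : WithTop K} {x y z : W K} (h : Eqv β x y) (h' : Eqv β y z) : Eqv β x z :=
  ⟨h.1.trans h'.1, h.2.trans h'.2⟩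
theorem Eqv.mono {β β' : WithTop K} {z z' : W K} (h : Eqv β z z') (hb : β' ≤ β) : Eqv β' z z' :=
  ⟨h.1, h.2.mono hb⟩
theorem Eqv.agW {β : WithTop K} {z z' : W K} (h : Eqv β z z') : AgW β z z' :=
  ⟨fun c _ => congrFun h.1 c, h.2⟩
theorem AgW.eqv {z z' : W K} (h : AgW ⊤ z z') : Eqv ⊤ z z' := ⟨h.1.eq, h.2⟩
theorem AgOn.rfl' {s : Set (WithTop K)} {z : W K} : AgOn s z z := ⟨fun _ _ => rfl, fun _ _ => rfl⟩
theorem AgOn.symm {s : Set (WithTop K)} {z z' : W K} (h : AgOn s z z') : AgOn s z' z :=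
  ⟨fun c hc => (h.1 c hc).symm, fun γ hγ => (h.2 γ hγ).symm⟩
theorem AgOn.trans {s : Set (WithTop K)} {x y z : W K} (h : AgOn s x y) (h' : AgOn s y z) :
    AgOn s x z := ⟨fun c hc => (h.1 c hc).trans (h'.1 c hc), fun γ hγ => (h.2 γ hγ).trans (h'.2 γ hγ)⟩
theorem AgOn.mono {s t : Set (WithTop K)} {z z' : W K} (h : AgOn t z z') (hst : s ⊆ t) :
    AgOn s z z' := ⟨fun c hc => h.1 c (hst hc), fun γ hγ => h.2 γ (hst hγ)⟩
theorem AgW.agOn {β : WithTop K} {z z' : W K} (h : AgW β z z') {s : Set (WithTop K)}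
    (hs : s ⊆ Iio β) : AgOn s z z' := ⟨fun c hc => h.1 c (hs hc), fun γ hγ => h.2 γ (hs hγ)⟩
theorem DepW.mono {Z : Type} {s t : Set (WithTop K)} {g : W K → Z} (h : DepW s g) (hst : s ⊆ t) :
    DepW t g := fun z z' h' => h z z' (h'.mono hst)
theorem DepW.agW {Z : Type} {s : Set (WithTop K)} {g : W K → Z} (h : DepW s g) {β : WithTop K}
    (hs : s ⊆ Iio β) {z z' : W K} (h' : AgW β z z') : g z = g z' := h z z' (h'.agOn hs)

theorem Fx.rfl' {F : Finset K} {l : ℕ} {b : WithTop K} {w : W K} : Fx F l b w w :=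
  fun _ _ _ => .rfl'
theorem Fx.symm {F : Finset K} {l : ℕ} {b : WithTop K} {w v : W K} (h : Fx F l b w v) :
    Fx F l b v w := fun c hc hb => (h c hc hb).symm
theorem Fx.trans {F : Finset K} {l : ℕ} {b : WithTop K} {w v x : W K} (h : Fx F l b w v)
    (h' : Fx F l b v x) : Fx F l b w x := fun c hc hb => (h c hc hb).trans (h' c hc hb)
theorem Fx.mono {F F' : Finset K} {l l' : ℕ} {b b' : WithTop K} {w v : W K} (h : Fx F l b w v)
    (hF : F' ⊆ F) (hl : l' ≤ l) (hb : b ≤ b') : Fx F' l' b' w v :=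
  fun c hc h' => (h c (hF hc) (hb.trans h')).mono hl
theorem Fx.of_eq {F : Finset K} {l : ℕ} {b : WithTop K} {w v : W K} (h : w.1 = v.1) :
    Fx F l b w v := fun _ _ _ => h ▸ .rfl'
theorem FixW.comp {F : Finset K} {l : ℕ} {H H' : W K → W K} (h : FixW F l H) (h' : FixW F l H') :
    FixW F l (H ∘ H') := fun z c hc => (h (H' z) c hc).trans (h' z c hc)
theorem FixW.fx {F : Finset K} {l : ℕ} {H : W K → W K} (h : FixW F l H) (b : WithTop K) (z : W K) :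
    Fx F l b (H z) z := fun c hc _ => h z c hc
theorem Tl.fx {β : WithTop K} {H : W K → W K} (h : Tl β H) (F : Finset K) (l : ℕ) (z : W K) :
    Fx F l β (H z) z := fun c _ hb => h.1 z c hb ▸ .rfl'
theorem TlM.comp {β : WithTop K} {H H' : W K → W K} (h : TlM β H) (h' : TlM β H') :
    TlM β (H ∘ H') := fun z γ hγ => (h _ γ hγ).trans (h' z γ hγ)
theorem TlM.mono {β β' : WithTop K} {H : W K → W K} (h : TlM β H) (hb : β ≤ β') : TlM β' H :=
  fun z γ hγ => h z γ (hb.trans hγ)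
theorem Tl.comp {β : WithTop K} {H H' : W K → W K} (h : Tl β H) (h' : Tl β H') : Tl β (H ∘ H') :=
  ⟨fun z c hc => (h.1 _ c hc).trans (h'.1 z c hc), h.2.comp h'.2⟩
theorem Tl.mono {β β' : WithTop K} {H : W K → W K} (h : Tl β H) (hb : β ≤ β') : Tl β' H :=
  ⟨fun z c hc => h.1 z c (hb.trans hc), h.2.mono hb⟩
theorem SuppW.tl {s : Set (WithTop K)} {T : W K → W K} (h : SuppW s T) {β : WithTop K}
    (hs : s ⊆ Iio β) : Tl β T :=
  ⟨fun z c hc => h.1 z c fun a => absurd (hs a) (not_lt.2 hc),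
    fun z γ hγ => h.2.1 z γ fun a => absurd (hs a) (not_lt.2 hγ)⟩

theorem InW.congr {β : WithTop K} {T : W K → W K} {x y : W K} (h : InW β T x) (h' : Eqv β x y) :
    InW β T y := let ⟨w, hw⟩ := h; ⟨w, hw.trans h'⟩
theorem InW.mono {β β' : WithTop K} {T : W K → W K} {x : W K} (h : InW β T x) (hb : β' ≤ β) :
    InW β' T x := let ⟨w, hw⟩ := h; ⟨w, hw.mono hb⟩
theorem InW.self {β : WithTop K} {T : W K → W K} {w : W K} : InW β T (T w) := ⟨w, .rfl'⟩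
theorem InW.le {β : WithTop K} {T T' : W K → W K} {x : W K} (h : InW β T' x) (h' : LeW β T' T) :
    InW β T x := let ⟨w, hw⟩ := h; (h' w).congr hw
theorem LeW.rfl' {β : WithTop K} {T : W K → W K} : LeW β T T := fun _ => .self
theorem LeW.trans {β : WithTop K} {T T' T'' : W K → W K} (h : LeW β T'' T') (h' : LeW β T' T) :
    LeW β T'' T := fun v => (h v).le h'
theorem LeW.mono {β β' : WithTop K} {T T' : W K → W K} (h : LeW β T' T) (hb : β' ≤ β) :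
    LeW β' T' T := fun v => (h v).mono hb
theorem leW_comp {β : WithTop K} (T H : W K → W K) : LeW β (T ∘ H) T := fun _ => .self
theorem leW_id {β : WithTop K} (T : W K → W K) : LeW β T id := fun v => ⟨T v, .rfl'⟩
theorem LeF.rfl' {F : Finset K} {l : ℕ} {b δ : WithTop K} {T : W K → W K} : LeF F l b δ T T :=
  fun v => ⟨v, .rfl', .rfl'⟩
theorem LeF.le {F : Finset K} {l : ℕ} {b δ : WithTop K} {T T' : W K → W K}
    (h : LeF F l b δ T' T) : LeW δ T' T := fun v => let ⟨w, a, _⟩ := h v; ⟨w, a⟩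
theorem LeF.mono {F F' : Finset K} {l l' : ℕ} {b b' δ δ' : WithTop K} {T T' : W K → W K}
    (h : LeF F l b δ T' T) (hF : F' ⊆ F) (hl : l' ≤ l) (hb : b ≤ b') (hδ : δ' ≤ δ) :
    LeF F' l' b' δ' T' T := fun v => let ⟨w, a, c⟩ := h v; ⟨w, a.mono hδ, c.mono hF hl hb⟩
theorem LeF.trans {F : Finset K} {l : ℕ} {b δ : WithTop K} {T T' T'' : W K → W K}
    (h : LeF F l b δ T'' T') (h' : LeF F l b δ T' T) : LeF F l b δ T'' T := fun v =>
  let ⟨w, a, c⟩ := h v; let ⟨w', a', c'⟩ := h' w; ⟨w', a'.trans a, c'.trans c⟩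
theorem leF_comp {F : Finset K} {l : ℕ} {b δ : WithTop K} (T : W K → W K) {H : W K → W K}
    (h : ∀ z, Fx F l b (H z) z) : LeF F l b δ (T ∘ H) T := fun v => ⟨H v, .rfl', h v⟩
theorem SuccW.le {δ β : WithTop K} {m : ℕ} {T T' : W K → W K} (h : SuccW δ β m T T') :
    LeW δ T' T := fun v => let ⟨w, hw, _⟩ := h v; ⟨w, hw⟩
theorem SuccW.of_le {δ β : WithTop K} {m : ℕ} {T T' T'' : W K → W K} (h : SuccW δ β m T T')
    (h' : LeW δ T'' T') : SuccW δ β m T T'' := fun v =>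
  let ⟨w, hw⟩ := h' v; let ⟨w', h1, h2⟩ := h w; ⟨w', h1.trans hw, h2⟩

theorem resM_eqv (β : WithTop K) (T : W K → W K) (z : W K) : Eqv β (resM β T z) (T z) :=
  ⟨rfl, fun _ hγ => if_pos hγ⟩
theorem resM_tl (β : WithTop K) (T : W K → W K) : TlM β (resM β T) :=
  fun _ _ hγ => if_neg hγ.not_gt
theorem resW_agW (β : WithTop K) (T : W K → W K) (z : W K) : AgW β (resW β T z) (T z) :=
  ⟨fun _ hc => if_pos hc, fun _ hγ => if_pos hγ⟩
theorem resW_tl (β : WithTop K) (T : W K → W K) : Tl β (resW β T) :=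
  ⟨fun _ _ hc => if_neg hc.not_gt, fun _ _ hγ => if_neg hγ.not_gt⟩

theorem tendsto_W {Z : Type} {F : Filter Z} {w : Z → W K} {w0 : W K} :
    Tendsto w F (𝓝 w0) ↔ (∀ c i, ∀ᶠ z in F, (w z).1 c i = w0.1 c i) ∧
      ∀ γ i, ∀ᶠ z in F, (w z).2 γ i = w0.2 γ i := by
  rw [Prod.tendsto_iff, tendsto_Y, Pool.Agent.B8F.tendsto_pt]

theorem FrS.congr {T T' : W K → W K} {c : K} (h : FrS T c) (e : ∀ z, (T' z).1 c = (T z).1 c) :
    FrS T' c :=
  ⟨h.cont.congr fun z => (e z).symm, fun z z' a => by rw [e, e]; exact h.proj z z' a,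
    fun z z' a b => h.inj z z' a (by rwa [e, e] at b)⟩

theorem FrM.congr {T T' : W K → W K} {β : WithTop K} (h : FrM T β)
    (e : ∀ z, (T' z).2 β = (T z).2 β) : FrM T' β :=
  ⟨h.cont.congr fun z => (e z).symm, fun z z' a b => by rw [e, e]; exact h.proj z z' a b,
    fun y u n => by
      obtain ⟨l, hl⟩ := h.sec y u n
      refine ⟨l, fun v v' a b c d => ?_⟩
      have := hl v v' a b c d
      unfold sc at this ⊢
      rwa [e, e]⟩

theorem frS_id {T : W K → W K} {c : K} (e : ∀ z, (T z).1 c = z.1 c) : FrS T c :=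
  ⟨((continuous_apply c).comp continuous_fst).congr fun z => (e z).symm,
    fun z z' a => by rw [e, e]; exact a c le_rfl, fun z z' _ b => by rwa [e, e] at b⟩

theorem frM_id {T : W K → W K} {β : WithTop K} (e : ∀ z, (T z).2 β = z.2 β) : FrM T β :=
  ⟨((continuous_apply β).comp continuous_snd).congr fun z => (e z).symm,
    fun z z' _ b => by rw [e, e]; exact b,
    fun y u n => ⟨n, Pool.Agent.B8F.isLen_id (fun v => e (y, v)) u n⟩⟩

theorem SuppW.mono {s t : Set (WithTop K)} {T : W K → W K} (h : SuppW s T) (hst : s ⊆ t) :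
    SuppW t T := by
  refine ⟨fun z c hc => h.1 z c fun h' => hc (hst h'),
    fun z γ hγ => h.2.1 z γ fun h' => hγ (hst h'), fun z z' a => ⟨fun c hc => ?_, fun γ hγ => ?_⟩⟩
  · by_cases h' : (c : WithTop K) ∈ s
    · exact (h.2.2 z z' (a.mono hst)).1 c h'
    · rw [h.1 z c h', h.1 z' c h', a.1 c hc]
  · by_cases h' : γ ∈ s
    · exact (h.2.2 z z' (a.mono hst)).2 γ h'
    · rw [h.2.1 z γ h', h.2.1 z' γ h', a.2 γ hγ]

theorem SuppW.comp {s : Set (WithTop K)} {T T' : W K → W K} (h : SuppW s T) (h' : SuppW s T') :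
    SuppW s (T ∘ T') :=
  ⟨fun z c hc => (h.1 _ c hc).trans (h'.1 z c hc),
    fun z γ hγ => (h.2.1 _ γ hγ).trans (h'.2.1 z γ hγ),
    fun z z' a => h.2.2 _ _ (h'.2.2 z z' a)⟩

theorem suppW_id (s : Set (WithTop K)) : SuppW s (id : W K → W K) :=
  ⟨fun _ _ _ => rfl, fun _ _ _ => rfl, fun _ _ h => h⟩

theorem DepW.comp {Z : Type} {s : Set (WithTop K)} {g : W K → Z} {T : W K → W K} (h : DepW s g)
    (h' : SuppW s T) : DepW s fun z => g (T z) := fun z z' e => h _ _ (h'.2.2 z z' e)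

theorem IsFr.cont {T : W K → W K} (h : IsFr T) : Continuous T :=
  Continuous.prodMk (continuous_pi fun c => (h.s c).cont) (continuous_pi fun β => (h.m β).cont)

theorem IsFr.fst {T : W K → W K} (h : IsFr T) (z : W K) : (T z).1 = sp T z.1 :=
  funext fun c => (h.s c).proj z (z.1, fun _ _ => 0) fun _ _ => rfl

theorem IsFr.isS {T : W K → W K} (h : IsFr T) : IsS (sp T) := by
  refine ⟨⟨(h.cont.comp (continuous_id.prodMk continuous_const)).fst,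
    fun c y y' a => (h.s c).proj (y, _) (y', _) a, ?_⟩,
    fun c y y' a b => (h.s c).inj (y, _) (y', _) a b⟩
  obtain ⟨s, hs, h1⟩ := h.supp
  exact ⟨s, hs, fun y c hc => h1.1 (y, _) c hc,
    fun y y' a c hc => (h1.2.2 (y, _) (y', _) ⟨a, fun _ _ => rfl⟩).1 c hc⟩

theorem IsFr.mi {T : W K → W K} (h : IsFr T) (y : Y K) : IsMi (sc T y) := by
  refine ⟨(h.cont.comp (continuous_const.prodMk continuous_id)).snd,
    fun β u v a => (h.m β).proj (y, u) (y, v) ⟨.rfl', fun γ hγ => a γ hγ.le⟩ (a β le_rfl), ?_,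
    fun β u n => (h.m β).sec y u n⟩
  obtain ⟨s, hs, h1⟩ := h.supp
  exact ⟨s, hs, fun u γ hγ => h1.2.1 (y, u) γ hγ,
    fun u v a γ hγ => (h1.2.2 (y, u) (y, v) ⟨fun _ _ => rfl, a⟩).2 γ hγ⟩

theorem IsFr.agW {T : W K → W K} (h : IsFr T) {β : WithTop K} {z z' : W K} (h' : AgW β z z') :
    AgW β (T z) (T z') :=
  ⟨fun c hc => (h.s c).proj z z' fun c' h1 => h'.1 c' ((WithTop.coe_le_coe.2 h1).trans_lt hc),
    fun γ hγ => (h.m γ).proj z z' (h'.mono hγ.le) (h'.2 γ hγ)⟩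

theorem IsFr.eqv {T : W K → W K} (h : IsFr T) {β : WithTop K} {z z' : W K} (h' : Eqv β z z') :
    Eqv β (T z) (T z') :=
  ⟨by rw [h.fst, h.fst, h'.1], (h.agW h'.agW).2⟩

theorem isFr_id : IsFr (id : W K → W K) :=
  ⟨fun _ => frS_id fun _ => rfl, fun _ => frM_id fun _ => rfl, ∅, countable_empty, suppW_id _⟩

theorem IsFr.comp {T T' : W K → W K} (h : IsFr T) (h' : IsFr T') : IsFr (T ∘ T') := by
  refine ⟨fun c => ⟨(h.s c).cont.comp h'.cont, fun z z' a => (h.s c).proj _ _ fun c' hc' =>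
      (h'.s c').proj z z' fun c'' h1 => a c'' (h1.trans hc'),
      fun z z' a e => (h'.s c).inj z z' a ((h.s c).inj _ _ (fun c' hc' =>
        (h'.s c').proj z z' fun c'' h1 => a c'' (h1.trans_lt hc')) e)⟩,
    fun β => ⟨(h.m β).cont.comp h'.cont,
      fun z z' a b => (h.m β).proj _ _ (h'.agW a) ((h'.m β).proj z z' a b), fun y u n => ?_⟩, ?_⟩
  · have e : sc (T ∘ T') y = sc T (sp T' y) ∘ sc T' y := funext fun v =>
      congrArg (fun w => (T w).2) (Prod.ext (h'.fst (y, v)) rfl)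
    rw [e]
    exact ((h.mi _).comp (h'.mi y)).sec β u n
  · obtain ⟨s, hs, h1⟩ := h.supp
    obtain ⟨t, ht, h2⟩ := h'.supp
    exact ⟨s ∪ t, hs.union ht, (h1.mono subset_union_left).comp (h2.mono subset_union_right)⟩

theorem IsS.fr {η : Y K → Y K} (h : IsS η) : IsFr (Prod.map η id : W K → W K) := by
  refine ⟨fun c => ⟨((continuous_apply c).comp h.cont).comp continuous_fst,
    fun z z' a => h.proj c _ _ a, fun z z' a b => h.inj c _ _ a b⟩,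
    fun _ => frM_id fun _ => rfl, ?_⟩
  obtain ⟨s, hs, h1⟩ := h.supp
  exact ⟨s, hs, fun z c hc => h1.1 z.1 c hc, fun _ _ _ => rfl,
    fun z z' a => ⟨h1.2 _ _ a.1, a.2⟩⟩

theorem isFr_mi {p : Pt (WithTop K) → Pt (WithTop K)} (h : IsMi p) :
    IsFr (Prod.map id p : W K → W K) := by
  refine ⟨fun _ => frS_id fun _ => rfl,
    fun β => ⟨((continuous_apply β).comp h.cont).comp continuous_snd,
      fun z z' a b => h.proj' a.2 b, fun _ u n => h.sec β u n⟩, ?_⟩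
  obtain ⟨s, hs, h1⟩ := h.supp
  exact ⟨s, hs, fun _ _ _ => rfl, fun z γ hγ => h1.1 z.2 γ hγ,
    fun z z' a => ⟨a.1, h1.2 _ _ a.2⟩⟩

theorem isFr_pc (F : Finset K) (l : ℕ) (t : Y K) : IsFr (pcW F l t) := (isS_pc F l t).fr

theorem isFr_preM (β : WithTop K) (m : ℕ) : IsFr (preM β m : W K → W K) :=
  isFr_mi (Pool.Agent.B8F.isMi_pre _ _ _)

theorem preM_eqv (β : WithTop K) (m : ℕ) (z : W K) : Eqv β (preM β m z) z :=
  ⟨rfl, Pool.Agent.B8F.agB_pre β 1 _ z.2⟩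

theorem preM_at (β : WithTop K) (m : ℕ) (z : W K) : (preM β m z).2 β 0 = m :=
  Pool.Agent.B8F.pre_ag (u := fun _ _ => m) (v := z.2) (Finset.mem_singleton_self β) 0 Nat.one_pos

theorem preM_ne {β γ : WithTop K} (m : ℕ) (z : W K) (h : γ ≠ β) : (preM β m z).2 γ = z.2 γ :=
  Pool.Agent.B8F.pre_off (n := 1) (u := fun _ _ => m) (v := z.2)
    fun h' => h (Finset.mem_singleton.1 h')

/-- every point lies in a piece -/
theorem exists_pc (F : Finset K) (l : ℕ) {t : Y K} {z : W K} (h : ∀ c ∈ F, Ag l (z.1 c) (t c)) :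
    pcW F l t (shS F l z.1, z.2) = z := Prod.ext (pc_sh h) rfl

theorem IsFr.resM {T : W K → W K} (h : IsFr T) (β : WithTop K) : IsFr (resM β T) := by
  refine ⟨fun c => (h.s c).congr fun _ => rfl, fun γ => ?_, ?_⟩
  · by_cases hγ : γ < β
    · exact (h.m γ).congr fun z => (resM_eqv β T z).2 γ hγ
    · exact frM_id fun z => resM_tl β T z γ (not_lt.1 hγ)
  · obtain ⟨s, hs, h1⟩ := h.supp
    refine ⟨s, hs, h1.1, fun z γ hγ => ?_, fun z z' a => ⟨(h1.2.2 z z' a).1, fun γ hγ => ?_⟩⟩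
    · by_cases h2 : γ < β
      · exact ((resM_eqv β T z).2 γ h2).trans (h1.2.1 z γ hγ)
      · exact resM_tl β T z γ (not_lt.1 h2)
    · by_cases h2 : γ < β
      · rw [(resM_eqv β T z).2 γ h2, (resM_eqv β T z').2 γ h2]
        exact (h1.2.2 z z' a).2 γ hγ
      · rw [resM_tl β T z γ (not_lt.1 h2), resM_tl β T z' γ (not_lt.1 h2)]
        exact a.2 γ hγ

theorem Fr_agOn {T : W K → W K} (h : IsFr T) {s : Set (WithTop K)} (hs : SuppW s T)
    {β : WithTop K} {z z' : W K} (h' : AgOn (s ∩ Iio β) z z') :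
    AgOn (s ∩ Iio β) (T z) (T z') := by
  let w : W K := (fun c => if (c : WithTop K) < β then z.1 c else z'.1 c,
    fun γ => if γ < β then z.2 γ else z'.2 γ)
  have h1 : AgW β (T w) (T z) :=
    h.agW (z := w) (z' := z) ⟨fun _ hc => if_pos hc, fun _ hγ => if_pos hγ⟩
  have h2 : AgOn s (T w) (T z') := by
    refine hs.2.2 w z' ⟨fun c hc => ?_, fun γ hγ => ?_⟩
    · by_cases h3 : (c : WithTop K) < β
      · exact (if_pos h3).trans (h'.1 c ⟨hc, h3⟩)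
      · exact if_neg h3
    · by_cases h3 : γ < β
      · exact (if_pos h3).trans (h'.2 γ ⟨hγ, h3⟩)
      · exact if_neg h3
  exact ⟨fun c hc => (h1.1 c hc.2).symm.trans (h2.1 c hc.1),
    fun γ hγ => (h1.2 γ hγ.2).symm.trans (h2.2 γ hγ.1)⟩

theorem IsFr.supp_resW {T : W K → W K} (h : IsFr T) {s : Set (WithTop K)} (hs : SuppW s T)
    (β : WithTop K) : SuppW (s ∩ Iio β) (resW β T) := by
  refine ⟨fun z c hc => ?_, fun z γ hγ => ?_, fun z z' a => ⟨fun c hc => ?_, fun γ hγ => ?_⟩⟩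
  · by_cases h2 : (c : WithTop K) < β
    · exact ((resW_agW β T z).1 c h2).trans (hs.1 z c fun h' => hc ⟨h', h2⟩)
    · exact (resW_tl β T).1 z c (not_lt.1 h2)
  · by_cases h2 : γ < β
    · exact ((resW_agW β T z).2 γ h2).trans (hs.2.1 z γ fun h' => hγ ⟨h', h2⟩)
    · exact (resW_tl β T).2 z γ (not_lt.1 h2)
  · rw [(resW_agW β T z).1 c hc.2, (resW_agW β T z').1 c hc.2]
    exact (Fr_agOn h hs a).1 c hc
  · rw [(resW_agW β T z).2 γ hγ.2, (resW_agW β T z').2 γ hγ.2]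
    exact (Fr_agOn h hs a).2 γ hγ

theorem IsFr.resW {T : W K → W K} (h : IsFr T) (β : WithTop K) : IsFr (resW β T) := by
  refine ⟨fun c => ?_, fun γ => ?_, ?_⟩
  · by_cases hc : (c : WithTop K) < β
    · exact (h.s c).congr fun z => (resW_agW β T z).1 c hc
    · exact frS_id fun z => (resW_tl β T).1 z c (not_lt.1 hc)
  · by_cases hγ : γ < β
    · exact (h.m γ).congr fun z => (resW_agW β T z).2 γ hγ
    · exact frM_id fun z => (resW_tl β T).2 z γ (not_lt.1 hγ)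
  · obtain ⟨s, hs, h1⟩ := h.supp
    exact ⟨_, hs.mono inter_subset_left, h.supp_resW h1 β⟩

/-- agreement on the part of the support below `β` is kept -/
theorem IsFr.agOn {T : W K → W K} (h : IsFr T) {s : Set (WithTop K)} (hs : SuppW s T)
    {β : WithTop K} {z z' : W K} (h' : AgOn (s ∩ Iio β) z z') : AgOn (s ∩ Iio β) (T z) (T z') :=
  Fr_agOn h hs h'

/-- the superperfect part after a change of the parameter -/
theorem IsFr.reparam {H : W K → W K} (h : IsFr H) {ρ : Y K → Y K} (hρ : Ad ρ) :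
    IsFr fun z : W K => ((z.1, (H (ρ z.1, z.2)).2) : W K) := by
  refine ⟨fun _ => frS_id fun _ => rfl,
    fun β => ⟨(h.m β).cont.comp ((hρ.cont.comp continuous_fst).prodMk continuous_snd),
      fun z z' a b => (h.m β).proj (ρ z.1, z.2) (ρ z'.1, z'.2) ⟨hρ.agS a.1, a.2⟩ b,
      fun y u n => (h.m β).sec (ρ y) u n⟩, ?_⟩
  obtain ⟨s, hs, h1⟩ := h.supp
  obtain ⟨t, ht, h2⟩ := hρ.supp
  have h3 := h1.mono (subset_union_left (t := t))
  have h4 := h2.mono (subset_union_right (s := s))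
  exact ⟨s ∪ t, hs.union ht, fun _ _ _ => rfl, fun z γ hγ => h3.2.1 (ρ z.1, z.2) γ hγ,
    fun z z' a => ⟨a.1, (h3.2.2 (ρ z.1, z.2) (ρ z'.1, z'.2) ⟨h4.2 _ _ a.1, a.2⟩).2⟩⟩

/-- a change of one superperfect coordinate -/
theorem isFr_upd {α : WithTop K} {t : W K → ℕ → ℕ} (hc : Continuous t)
    (hs : ∃ s : Set (WithTop K), s.Countable ∧ DepW s t)
    (hl : ∀ z z' n, AgW α z z' → Ag n (z.2 α) (z'.2 α) →
      Ag n (t z) (t z') ∧ (t z n = t z' n ↔ z.2 α n = z'.2 α n)) :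
    IsFr fun z : W K => ((z.1, update z.2 α (t z)) : W K) := by
  have e : ∀ z : W K, update z.2 α (t z) α = t z := fun z => update_self _ _ _
  have e' : ∀ (z : W K) γ, γ ≠ α → update z.2 α (t z) γ = z.2 γ :=
    fun z γ hγ => update_of_ne hγ _ _
  refine ⟨fun _ => frS_id fun _ => rfl, fun β => ?_, ?_⟩
  · by_cases hβ : β = α
    · subst hβ
      refine ⟨hc.congr fun z => (e z).symm, fun z z' a b => ?_,
        fun y u n => ⟨n, fun v v' a b c d => ?_⟩⟩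
      · refine (e z).trans (Eq.trans (funext fun i => ?_) (e z').symm)
        exact (hl z z' (i + 1) a fun j _ => congrFun b j).1 i i.lt_succ_self
      · have h1 := hl (y, v) (y, v') n ⟨.rfl', a.trans b.symm⟩ (c.trans d.symm)
        rw [← e (y, v), ← e (y, v')] at h1
        exact h1
    · exact frM_id fun z => e' z β hβ
  · obtain ⟨s, hs, h1⟩ := hs
    refine ⟨insert α s, hs.insert α, fun _ _ _ => rfl,
      fun z γ hγ => e' z γ fun h2 => hγ (h2 ▸ mem_insert α s),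
      fun z z' a => ⟨a.1, fun γ hγ => ?_⟩⟩
    by_cases h2 : γ = α
    · subst h2
      exact (e z).trans ((h1 z z' (a.mono (subset_insert _ _))).trans (e z').symm)
    · exact (e' z γ h2).trans ((a.2 γ hγ).trans (e' z' γ h2).symm)

/-- a range that is free from `β` on -/
theorem IsFr.in_top {T : W K → W K} (h : IsFr T) {β : WithTop K} (ht : TlM β T) {x : W K}
    (hx : InW β T x) : InW ⊤ T x := by
  obtain ⟨w, hw⟩ := hx
  let w' : W K := (w.1, fun γ => if γ < β then w.2 γ else x.2 γ)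
  have h1 : Eqv β (T w') x := (h.eqv (z := w') (z' := w) ⟨rfl, fun _ hγ => if_pos hγ⟩).trans hw
  refine ⟨w', h1.1, fun γ _ => ?_⟩
  by_cases h2 : γ < β
  · exact h1.2 γ h2
  · exact (ht w' γ (not_lt.1 h2)).trans (if_neg h2)

theorem IsFr.in_topW {T : W K → W K} (h : IsFr T) {β : WithTop K} (ht : Tl β T) {x w : W K}
    (hx : AgW β (T w) x) : InW ⊤ T x := by
  let w' : W K := (fun c => if (c : WithTop K) < β then w.1 c else x.1 c,
    fun γ => if γ < β then w.2 γ else x.2 γ)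
  have h1 : AgW β (T w') x :=
    (h.agW (z := w') (z' := w) ⟨fun _ hc => if_pos hc, fun _ hγ => if_pos hγ⟩).trans hx
  refine ⟨w', funext fun c => ?_, fun γ _ => ?_⟩
  · by_cases h2 : (c : WithTop K) < β
    · exact h1.1 c h2
    · exact (ht.1 w' c (not_lt.1 h2)).trans (if_neg h2)
  · by_cases h2 : γ < β
    · exact h1.2 γ h2
    · exact (ht.2 w' γ (not_lt.1 h2)).trans (if_neg h2)

variable [WellFoundedLT K]

theorem IsFr.injW {T : W K → W K} (h : IsFr T) {β : WithTop K} {z z' : W K}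
    (h' : AgW β (T z) (T z')) : AgW β z z' := by
  have h1 : AgS β z.1 z'.1 := h.isS.injS (by rw [← h.fst, ← h.fst]; exact h'.1)
  have h2 : AgW β (T (z.1, z'.2)) (T z') := h.agW (z := (z.1, z'.2)) ⟨h1, .rfl'⟩
  exact ⟨h1, (h.mi z.1).inj (h'.2.trans h2.2.symm)⟩

theorem IsFr.injE {T : W K → W K} (h : IsFr T) {β : WithTop K} {z z' : W K}
    (h' : Eqv β (T z) (T z')) : Eqv β z z' :=
  ⟨h.isS.injective (by rw [← h.fst, ← h.fst]; exact h'.1), (h.injW h'.agW).2⟩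

theorem IsFr.inj_on {T : W K → W K} (h : IsFr T) {s : Set (WithTop K)} (hs : SuppW s T)
    {β : WithTop K} {z z' : W K} (h' : AgOn (s ∩ Iio β) (T z) (T z')) :
    AgOn (s ∩ Iio β) z z' := by
  classical
  let w : W K := (fun c => if (c : WithTop K) ∈ s then z.1 c else z'.1 c,
    fun γ => if γ ∈ s then z.2 γ else z'.2 γ)
  have h1 : AgOn s w z := ⟨fun _ hc => if_pos hc, fun _ hγ => if_pos hγ⟩
  have h2 := hs.2.2 w z h1
  have h3 : AgW β w z' := by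
    refine h.injW ⟨fun c hc => ?_, fun γ hγ => ?_⟩
    · by_cases h4 : (c : WithTop K) ∈ s
      · exact (h2.1 c h4).trans (h'.1 c ⟨h4, hc⟩)
      · rw [hs.1 w c h4, hs.1 z' c h4]; exact if_neg h4
    · by_cases h4 : γ ∈ s
      · exact (h2.2 γ h4).trans (h'.2 γ ⟨h4, hγ⟩)
      · rw [hs.2.1 w γ h4, hs.2.1 z' γ h4]; exact if_neg h4
  exact ⟨fun c hc => (h1.1 c hc.1).symm.trans (h3.1 c hc.2),
    fun γ hγ => (h1.2 γ hγ.1).symm.trans (h3.2 γ hγ.2)⟩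

end Pool.Agent.B8P
end

-- merged part: Pool.Agent.Work.MP_b8a914_gt.P.Fac
section
/-! Inverses and factors of frames. -/

set_option linter.unusedSectionVars false

namespace Pool.Agent.B8P
open Filter Topology Function Set
open Pool.Agent.B8F (Ag Pt AgB IsMi IsLen)

variable {K : Type} [LinearOrder K]

open Classical in
/-- the inverse point below `β`, continued by `u` -/
noncomputable def invW (β : WithTop K) (T : W K → W K) (x : W K) (u : Pt (WithTop K)) : W K :=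
  if h : InW β T x then (h.choose.1, fun γ => if γ < β then h.choose.2 γ else u γ) else (x.1, u)

theorem invW_ge {β γ : WithTop K} (T : W K → W K) (x : W K) (u : Pt (WithTop K)) (h : β ≤ γ) :
    (invW β T x u).2 γ = u γ := by
  by_cases hx : InW β T x
  · rw [invW, dif_pos hx]
    exact if_neg h.not_gt
  · rw [invW, dif_neg hx]

theorem IsFr.inv_spec {T : W K → W K} (hT : IsFr T) {β : WithTop K} {x : W K} (h : InW β T x)
    (u : Pt (WithTop K)) : Eqv β (T (invW β T x u)) x := by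
  refine Eqv.trans (hT.eqv (z' := h.choose) ?_) h.choose_spec
  rw [invW, dif_pos h]
  exact ⟨rfl, fun γ hγ => if_pos hγ⟩

/-- the length is locally constant in the parameter and the earlier coordinates -/
theorem IsFr.ev_len {T : W K → W K} (hT : IsFr T) {Z : Type} {F : Filter Z} {w : Z → W K}
    {w0 : W K} {β : WithTop K} {n l : ℕ} (h1 : ∀ c i, ∀ᶠ z in F, (w z).1 c i = w0.1 c i)
    (h2 : ∀ γ < β, ∀ i, ∀ᶠ z in F, (w z).2 γ i = w0.2 γ i) (hl : IsLen (sc T w0.1) β w0.2 n l) :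
    ∀ᶠ z in F, IsLen (sc T (w z).1) β (update (w z).2 β (w0.2 β)) n l := by
  classical
  let e : (ℕ → ℕ) → Z → W K := fun y z =>
    ((w z).1, fun γ => if γ < β then (w z).2 γ else update w0.2 β y γ)
  have he : ∀ y, Tendsto (e y) F (𝓝 (w0.1, update w0.2 β y)) := fun y =>
    tendsto_W.2 ⟨h1, fun γ i => by
      by_cases h : γ < β
      · filter_upwards [h2 γ h i] with z hz
        simp only [e, if_pos h, hz, update_of_ne h.ne]
      · exact Eventually.of_forall fun z => by simp only [e, if_neg h]⟩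
  have h3 : ∀ y, ∀ᶠ z in F, Ag (l + 1) (sc T (w z).1 (e y z).2 β)
      (sc T w0.1 (update w0.2 β y) β) := fun y =>
    Pool.Agent.B8F.ev_ag _ fun i _ => (tendsto_W.1 ((hT.cont.tendsto _).comp (he y))).2 β i
  set y' := update (w0.2 β) n (w0.2 β n + 1) with hy'
  have h4 : Ag n y' (w0.2 β) := fun i hi => update_of_ne hi.ne _ _
  have a := hl (update w0.2 β y') (update w0.2 β (w0.2 β)) (Pool.Agent.B8F.agB_update _ _)
    (Pool.Agent.B8F.agB_update _ _) (by rwa [update_self]) (by rw [update_self]; exact .rfl')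
  simp only [update_self, hy', Nat.add_eq_left, one_ne_zero, iff_false] at a
  filter_upwards [h3 y', h3 (w0.2 β)] with z c d
  obtain ⟨l', hl'⟩ := (hT.m β).sec (w z).1 (update (w z).2 β (w0.2 β)) n
  have hb : ∀ y, AgB β (e y z).2 (update (w z).2 β (w0.2 β)) := fun y γ hγ => by
    simp only [e, if_pos hγ, update_of_ne hγ.ne]
  have hβ : ∀ y, (e y z).2 β = y := fun y => by simp only [e, lt_irrefl, if_false, update_self]
  have b := hl' (e y' z).2 (e (w0.2 β) z).2 (hb _) (hb _) (by rwa [hβ, update_self])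
    (by rw [hβ, update_self]; exact .rfl')
  simp only [hβ, hy', update_self, Nat.add_eq_left, one_ne_zero, iff_false] at b
  rcases lt_trichotomy l l' with h | h | h
  · exact absurd ((c l l.lt_succ_self).symm.trans ((b.1 l h).trans (d l l.lt_succ_self))) a.2
  · exact h ▸ hl'
  · exact absurd ((c l' (by omega)).trans ((a.1 l' h).trans (d l' (by omega)).symm)) b.2

variable [WellFoundedLT K]

/-- continuity of the inverse -/
theorem IsFr.ev_inv {T : W K → W K} (hT : IsFr T) {Z : Type} {F : Filter Z} {w : Z → W K}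
    {w0 : W K} {β : WithTop K} (h1 : ∀ c i, ∀ᶠ z in F, (T (w z)).1 c i = (T w0).1 c i)
    (h2 : ∀ γ < β, ∀ i, ∀ᶠ z in F, (T (w z)).2 γ i = (T w0).2 γ i) :
    (∀ c i, ∀ᶠ z in F, (w z).1 c i = w0.1 c i) ∧
      ∀ γ < β, ∀ i, ∀ᶠ z in F, (w z).2 γ i = w0.2 γ i := by
  have hS : ∀ c i, ∀ᶠ z in F, (w z).1 c i = w0.1 c i := by
    refine tendsto_Y.1 (hT.isS.ev_inv (w := fun z => (w z).1) (tendsto_Y.2 fun c i => ?_))
    filter_upwards [h1 c i] with z hz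
    rwa [hT.fst, hT.fst] at hz
  refine ⟨hS, fun γ => ?_⟩
  induction γ using WellFoundedLT.induction with
  | _ γ ih =>
    intro hγ
    have ih' : ∀ γ' < γ, ∀ i, ∀ᶠ z in F, (w z).2 γ' i = w0.2 γ' i :=
      fun γ' h' => ih γ' h' (h'.trans hγ)
    intro i
    induction i using Nat.strong_induction_on with
    | _ i ihi =>
      obtain ⟨l, hl⟩ := (hT.m γ).sec w0.1 w0.2 i
      classical
      let e : Z → W K := fun z => ((w z).1, fun γ' => if γ' < γ then (w z).2 γ' else w0.2 γ')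
      have he : Tendsto e F (𝓝 w0) := tendsto_W.2 ⟨hS, fun γ' j => by
        by_cases h3 : γ' < γ
        · filter_upwards [ih' γ' h3 j] with z hz
          simp only [e, if_pos h3, hz]
        · exact Eventually.of_forall fun z => by simp only [e, if_neg h3]⟩
      filter_upwards [hT.ev_len hS ih' hl, Pool.Agent.B8F.ev_ag i ihi, h2 γ hγ l,
        (tendsto_W.1 ((hT.cont.tendsto _).comp he)).2 γ l] with z a1 a2 a3 a4
      have hγ0 : (e z).2 γ = w0.2 γ := if_neg (lt_irrefl γ)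
      have := (a1 (w z).2 (e z).2 (Pool.Agent.B8F.agB_update _ _).symm
        (fun γ' h' => by simp only [e, if_pos h', update_of_ne h'.ne])
        (by rwa [update_self]) (by rw [update_self, hγ0]; exact .rfl')).2
      rw [hγ0] at this
      exact this.1 (a3.trans a4.symm)

theorem cont_invW {Z : Type} [TopologicalSpace Z] {P : Z → W K → W K} (hP : IsLocallyConstant P)
    (hp : ∀ z, IsFr (P z)) {β : WithTop K} {x : Z → W K} {u : Z → Pt (WithTop K)}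
    (hx : Continuous x) (hu : Continuous u) (h : ∀ z, InW β (P z) (x z)) :
    Continuous fun z => invW β (P z) (x z) (u z) := by
  refine continuous_iff_continuousAt.2 fun z0 => ?_
  have hx0 := tendsto_W.1 (hx.tendsto z0)
  have key := (hp z0).ev_inv (F := 𝓝 z0) (w := fun z => invW β (P z) (x z) (u z))
    (w0 := invW β (P z0) (x z0) (u z0)) (β := β)
    (fun c i => by
      filter_upwards [hP.eventually_eq z0, hx0.1 c i] with z a1 a2
      rw [((hp z0).inv_spec (h z0) _).1, ← a2, ← a1, ((hp z).inv_spec (h z) _).1])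
    (fun γ hγ i => by
      filter_upwards [hP.eventually_eq z0, hx0.2 γ i] with z a1 a2
      rw [((hp z0).inv_spec (h z0) _).2 γ hγ, ← a2, ← a1, ((hp z).inv_spec (h z) _).2 γ hγ])
  refine tendsto_W.2 ⟨key.1, fun γ i => ?_⟩
  by_cases hγ : γ < β
  · exact key.2 γ hγ i
  · filter_upwards [Pool.Agent.B8F.cont_pt.1 hu z0 γ i] with z a1
    rw [invW_ge _ _ _ (not_lt.1 hγ), invW_ge _ _ _ (not_lt.1 hγ), a1]

theorem fac_len_lt {I : Type} [LinearOrder I] {p : Pt I → Pt I} (hp : IsMi p) {γ : I} {u : Pt I}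
    {k k' a : ℕ} (ha : IsLen p γ u k a) (hk : k + 1 ≤ k') : ∀ {b}, IsLen p γ u k' b → a < b := by
  induction k', hk using Nat.le_induction with
  | base => exact fun hb => ha.lt hb
  | succ k' _ ih =>
    intro b hb
    obtain ⟨c, hc⟩ := hp.sec γ u k'
    exact (ih hc).trans (hc.lt hb)

theorem fac_inj_at {I : Type} [LinearOrder I] {p : Pt I → Pt I} (hp : IsMi p) {γ : I}
    {u v : Pt I} (h : AgB γ v u) (e : p v γ = p u γ) : v γ = u γ := by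
  funext i
  induction i using Nat.strong_induction_on with
  | _ i ih =>
    obtain ⟨l, hl⟩ := hp.sec γ u i
    exact (hl v u h .rfl' ih .rfl').2.1 (congrFun e l)

theorem fac_sec {I : Type} [LinearOrder I] {p p' φ : Pt I → Pt I} (hp : IsMi p) (hp' : IsMi p')
    {γ : I} (e : ∀ v, p (φ v) γ = p' v γ) (hφ : ∀ v v', AgB γ v v' → AgB γ (φ v) (φ v'))
    (u : Pt I) (n : ℕ) : ∃ l, IsLen φ γ u n l := by
  classical
  obtain ⟨l, hl⟩ := hp'.sec γ u n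
  set u1 := update u γ (update (u γ) n (u γ n + 1)) with hu1
  have b1 : AgB γ u1 u := Pool.Agent.B8F.agB_update u _
  have b2 : Ag n (u1 γ) (u γ) := fun i hi => by rw [hu1, update_self, update_of_ne hi.ne]
  have a := hl u1 u b1 .rfl' b2 .rfl'
  have a2 : p' u1 γ l ≠ p' u γ l := fun h => by
    have := a.2.1 h
    rw [hu1, update_self, update_self] at this
    omega
  have hne : ∃ i, φ u1 γ i ≠ φ u γ i := by
    by_contra hc
    push Not at hc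
    refine a2 ?_
    rw [← e, ← e, hp.proj' (hφ _ _ b1) (funext hc)]
  have c1 : Ag (Nat.find hne) (φ u1 γ) (φ u γ) := fun i hi => not_not.1 (Nat.find_min hne hi)
  have c2 := Nat.find_spec hne
  generalize Nat.find hne = n' at c1 c2
  obtain ⟨l', hl'⟩ := hp.sec γ (φ u) n'
  have d := hl' (φ u1) (φ u) (hφ _ _ b1) .rfl' c1 .rfl'
  rw [e, e] at d
  obtain rfl : l' = l := by
    rcases lt_trichotomy l' l with h | h | h
    · exact absurd (d.2.1 (a.1 l' h)) c2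
    · exact h
    · exact absurd (d.1 l h) a2
  have key : ∀ v, AgB γ v u → Ag n (v γ) (u γ) → Ag n' (φ v γ) (φ u γ) := by
    intro v h1 h2 i
    induction i using Nat.strong_induction_on with
    | _ i ih =>
      intro hi
      obtain ⟨m, hm⟩ := hp.sec γ (φ u) i
      refine (hm (φ v) (φ u) (hφ _ _ h1) .rfl' (fun j hj => ih j hj (hj.trans hi)) .rfl').2.1 ?_
      rw [e, e]
      exact (hl v u h1 .rfl' h2 .rfl').1 m (fac_len_lt hp hm hi hl')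
  refine ⟨n', fun v v' h1 h2 h3 h4 => ⟨(key v h1 h3).trans (key v' h2 h4).symm, ?_⟩⟩
  have g := (hl' (φ v) (φ v') (hφ _ _ h1) (hφ _ _ h2) (key v h1 h3) (key v' h2 h4)).2
  rw [e, e] at g
  exact g.symm.trans (hl v v' h1 h2 h3 h4).2

theorem fac_injM {T : W K → W K} (hT : IsFr T) {γ : WithTop K} {a a' : W K} (h : AgW γ a a')
    (e : (T a).2 γ = (T a').2 γ) : a.2 γ = a'.2 γ :=
  fac_inj_at (hT.mi a.1) h.2
    (e.trans ((hT.m γ).proj a' (a.1, a'.2) ⟨h.1.symm, .rfl'⟩ rfl))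

theorem fac_fr {β : WithTop K} {T T' θ : W K → W K} (hT' : IsFr T') (hT : IsFr T)
    (hc : Continuous θ) (hs : ∀ v, Eqv β (T (θ v)) (T' v)) (ht : TlM β θ) :
    IsFr θ ∧ ∀ s, SuppW s T' → SuppW s T → SuppW s θ := by
  classical
  have hS : ∀ (b : WithTop K) (z z' : W K), AgS b z.1 z'.1 → AgS b (θ z).1 (θ z').1 := by
    intro b z z' h
    refine hT.isS.injS ?_
    rw [← hT.fst, ← hT.fst, (hs z).1, (hs z').1, hT'.fst, hT'.fst]
    exact hT'.isS.toAd.agS h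
  have hW : ∀ γ ≤ β, ∀ z z' : W K, AgW γ z z' → AgW γ (θ z) (θ z') := fun γ hγ z z' h =>
    hT.injW (((hs z).agW.mono hγ).trans ((hT'.agW h).trans ((hs z').agW.mono hγ).symm))
  have hsup : ∀ s, SuppW s T' → SuppW s T → SuppW s θ := by
    intro s h1 h2
    refine ⟨fun z c hc => ?_, fun z γ hγ => ?_, fun z z' h => ⟨fun c hc => ?_, fun γ hγ => ?_⟩⟩
    · rw [← h2.1 (θ z) c hc, (hs z).1, h1.1 z c hc]
    · by_cases h3 : γ < β
      · rw [← h2.2.1 (θ z) γ hγ, (hs z).2 γ h3, h1.2.1 z γ hγ]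
      · exact ht z γ (not_lt.1 h3)
    · let y : Y K := fun c' => if (c' : WithTop K) ∈ s then (θ z).1 c' else (θ z').1 c'
      have h3 : (T (y, (θ z).2)).1 = (T (θ z')).1 := funext fun c' => by
        by_cases h4 : (c' : WithTop K) ∈ s
        · rw [(h2.2.2 (y, (θ z).2) (θ z) ⟨fun _ a => if_pos a, fun _ _ => rfl⟩).1 c' h4, (hs z).1,
            (hs z').1, (h1.2.2 z z' h).1 c' h4]
        · rw [h2.1 _ _ h4, h2.1 _ _ h4]
          exact if_neg h4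
      rw [hT.fst, hT.fst] at h3
      rw [← hT.isS.injective h3]
      exact (if_pos hc).symm
    · by_cases h3 : γ < β
      · have h4 := h1.2.2 z z' h
        refine (hT.inj_on h2 (β := β) ⟨fun c a => ?_, fun δ a => ?_⟩).2 γ ⟨hγ, h3⟩
        · rw [(hs z).1, (hs z').1, h4.1 c a.1]
        · rw [(hs z).2 δ a.2, (hs z').2 δ a.2, h4.2 δ a.1]
      · rw [ht z γ (not_lt.1 h3), ht z' γ (not_lt.1 h3), h.2 γ hγ]
  refine ⟨⟨fun c => ⟨(continuous_apply c).comp hc.fst, fun z z' h => ?_, fun z z' h e => ?_⟩,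
    fun γ => ⟨(continuous_apply γ).comp hc.snd, fun z z' h e => ?_, fun y u n => ?_⟩, ?_⟩, hsup⟩
  · refine (hT.s c).inj _ _ (fun c' h' => hS c z z' (fun c2 h2 => h c2 ?_) c' ?_) ?_
    · exact (WithTop.coe_lt_coe.1 h2).le
    · exact WithTop.coe_lt_coe.2 h'
    · rw [(hs z).1, (hs z').1, (hT'.s c).proj z z' h]
  · refine (hT'.s c).inj z z' h ?_
    rw [← (hs z).1, ← (hs z').1]
    refine (hT.s c).proj _ _ fun c' h' => ?_
    rcases h'.lt_or_eq with h1 | rfl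
    · exact hS c z z' (fun c2 h2 => h c2 (WithTop.coe_lt_coe.1 h2)) c' (WithTop.coe_lt_coe.2 h1)
    · exact e
  · by_cases h3 : γ < β
    · refine fac_injM hT (hW γ h3.le z z' h) ?_
      rw [(hs z).2 γ h3, (hs z').2 γ h3, (hT'.m γ).proj z z' h e]
    · rw [ht z γ (not_lt.1 h3), ht z' γ (not_lt.1 h3), e]
  · by_cases h3 : γ < β
    · refine fac_sec (hT.mi (θ (y, u)).1) (hT'.mi y) (fun v => ?_)
        (fun v v' h => (hW γ h3.le (y, v) (y, v') ⟨.rfl', h⟩).2) u n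
      rw [(hS ⊤ (y, u) (y, v) .rfl').eq]
      exact (hs (y, v)).2 γ h3
    · exact ⟨n, Pool.Agent.B8F.isLen_id (fun v => ht (y, v) γ (not_lt.1 h3)) u n⟩
  · obtain ⟨s, a1, a2⟩ := hT'.supp
    obtain ⟨t, b1, b2⟩ := hT.supp
    exact ⟨s ∪ t, a1.union b1, hsup _ (a2.mono subset_union_left) (b2.mono subset_union_right)⟩

/-- the factor of `T'` over `T` below `β` is a frame -/
theorem exists_fac {β : WithTop K} {T T' : W K → W K} (hT' : IsFr T') (hT : IsFr T)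
    (h : LeW β T' T) : ∃ θ, IsFr θ ∧ (∀ v, Eqv β (T (θ v)) (T' v)) ∧ TlM β θ ∧
      ∀ s, SuppW s T' → SuppW s T → SuppW s θ := by
  have hs : ∀ v, Eqv β (T (invW β T (T' v) v.2)) (T' v) := fun v => hT.inv_spec (h v) v.2
  have ht : TlM β fun v => invW β T (T' v) v.2 := fun v γ hγ => invW_ge _ _ _ hγ
  have hc : Continuous fun v : W K => invW β T (T' v) v.2 :=
    cont_invW (P := fun _ => T) (IsLocallyConstant.const T) (fun _ => hT) hT'.cont continuous_snd h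
  obtain ⟨a, b⟩ := fac_fr hT' hT hc hs ht
  exact ⟨_, a, hs, ht, b⟩

/-- the factor keeps the bits that are kept by the order -/
theorem exists_facF {F : Finset K} {l : ℕ} {b δ : WithTop K} {T T' : W K → W K} (hT' : IsFr T')
    (hT : IsFr T) (h : LeF F l b δ T' T) : ∃ θ, IsFr θ ∧ (∀ v, Eqv δ (T (θ v)) (T' v)) ∧
      TlM δ θ ∧ ∀ v, Fx F l b (θ v) v := by
  obtain ⟨θ, h1, h2, h3, -⟩ := exists_fac hT' hT h.le
  refine ⟨θ, h1, h2, h3, fun v => ?_⟩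
  obtain ⟨w, a, b⟩ := h v
  exact (Fx.of_eq (hT.injE ((h2 v).trans a.symm)).1).trans b

/-- below `β` follow `T1`, from `β` on follow `T` through the successor `m` -/
theorem exists_succW {β : WithTop K} {T T1 : W K → W K} (h1 : IsFr T1) (hT : IsFr T)
    (h : LeW β T1 T) (m : ℕ) :
    ∃ T', IsFr T' ∧ (∀ v, Eqv β (T' v) (T1 v)) ∧ ∀ δ, SuccW δ β m T T' := by
  obtain ⟨θ, a, b, -, -⟩ := exists_fac h1 hT h
  exact ⟨T ∘ preM β m ∘ θ, hT.comp ((isFr_preM β m).comp a),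
    fun v => (hT.eqv (preM_eqv β m _)).trans (b v), fun _ v => ⟨_, .rfl', preM_at β m _⟩⟩

end Pool.Agent.B8P
end

-- merged part: Pool.Agent.Work.MP_b8a914_gt.P.Box
section
/-! Boxes, locally constant selections, and shrinking all pieces one after the other. -/

set_option linter.unusedSectionVars false

namespace Pool.Agent.B8P
open Filter Topology Function Set
open Pool.Agent.B8F (Ag Pt AgB IsMi IsLen)

variable {K : Type} [LinearOrder K]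

/-- neighbourhoods are given by finitely many values -/
theorem nhds_finW {z0 : W K} {P : W K → Prop} (h : ∀ᶠ z in 𝓝 z0, P z) :
    ∃ (F : Finset K) (G : Finset (WithTop K)) (n : ℕ), ∀ z : W K,
      (∀ c ∈ F, Ag n (z.1 c) (z0.1 c)) → (∀ γ ∈ G, Ag n (z.2 γ) (z0.2 γ)) → P z := by
  obtain ⟨a, b⟩ := z0
  rw [nhds_prod_eq] at h
  obtain ⟨pa, ha, pb, hb, hab⟩ := eventually_prod_iff.1 h
  obtain ⟨F, n, h1⟩ := nhds_finS ha
  obtain ⟨G, m, h2⟩ := Pool.Agent.B8F.nhds_fin hb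
  exact ⟨F, G, max n m, fun z c d => hab (h1 z.1 fun x hx => (c x hx).mono (le_max_left _ _))
    (h2 z.2 fun x hx => (d x hx).mono (le_max_right _ _))⟩

theorem ev_boxW (z0 : W K) (F : Finset K) (n : ℕ) :
    ∀ᶠ z in 𝓝 z0, ∀ c ∈ F, Ag n (z.1 c) (z0.1 c) :=
  (continuous_fst.tendsto z0).eventually (ev_boxS z0.1 F n)

theorem ev_boxM (z0 : W K) (γ : WithTop K) (n : ℕ) : ∀ᶠ z in 𝓝 z0, Ag n (z.2 γ) (z0.2 γ) :=
  ((continuous_snd.tendsto z0).eventually (Pool.Agent.B8F.ev_box z0.2 {γ} n)).mono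
    fun _ hz => hz γ (Finset.mem_singleton_self γ)

theorem box_fr (F : Finset K) (G : Finset (WithTop K)) (n : ℕ) (z0 : W K) :
    IsFr (pcW F n z0.1 ∘ (Prod.map id (Pool.Agent.B8F.pre G n z0.2) : W K → W K)) :=
  (isFr_pc F n z0.1).comp (isFr_mi (Pool.Agent.B8F.isMi_pre G n z0.2))

theorem exists_boxW {z0 : W K} {P : W K → Prop} (h : ∀ᶠ z in 𝓝 z0, P z) :
    ∃ Ψ, IsFr Ψ ∧ ∀ v, P (Ψ v) := by
  obtain ⟨F, G, n, h⟩ := nhds_finW h
  exact ⟨_, box_fr F G n z0, fun v => h _ (fun c hc => pcS_ag hc)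
    fun γ hγ => Pool.Agent.B8F.pre_ag hγ⟩

/-- boxes for properties that depend on the coordinates below `β` -/
theorem exists_boxB {β : WithTop K} {z0 : W K} {P : W K → Prop} (h : ∀ᶠ z in 𝓝 z0, P z)
    (hP : ∀ z z', AgW β z z' → P z → P z') : ∃ Ψ, IsFr Ψ ∧ Tl β Ψ ∧ ∀ v, P (Ψ v) := by
  classical
  obtain ⟨F, G, n, h⟩ := nhds_finW h
  let F' : Finset K := F.filter fun c : K => (c : WithTop K) < β
  let G' : Finset (WithTop K) := G.filter fun γ => γ < β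
  refine ⟨_, box_fr F' G' n z0, ⟨fun z c hc => pcS_off fun a => ?_,
    fun z γ hγ => Pool.Agent.B8F.pre_off fun a => ?_⟩, fun v => ?_⟩
  · exact absurd (Finset.mem_filter.1 a).2 (not_lt.2 hc)
  · exact absurd (Finset.mem_filter.1 a).2 (not_lt.2 hγ)
  · refine hP (fun c => if (c : WithTop K) < β then pcS F' n z0.1 v.1 c else z0.1 c,
      fun γ => if γ < β then Pool.Agent.B8F.pre G' n z0.2 v.2 γ else z0.2 γ) _
      ⟨fun c hc => if_pos hc, fun γ hγ => if_pos hγ⟩ (h _ (fun c hc => ?_) fun γ hγ => ?_)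
    · by_cases h1 : (c : WithTop K) < β
      · simp only [if_pos h1]
        exact pcS_ag (Finset.mem_filter.2 ⟨hc, h1⟩)
      · simp only [if_neg h1]
        exact .rfl'
    · by_cases h1 : γ < β
      · simp only [if_pos h1]
        exact Pool.Agent.B8F.pre_ag (Finset.mem_filter.2 ⟨hγ, h1⟩)
      · simp only [if_neg h1]
        exact .rfl'

/-- both parts in one point -/
def boxEnc (z : W K) : Pt (WithTop K) := fun γ i =>
  2 * z.2 γ i + WithTop.recTopCoe 0 (fun c => (z.1 c i).toNat) γ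

def boxDec (u : Pt (WithTop K)) : W K :=
  (fun c i => decide (u c i % 2 = 1), fun γ i => u γ i / 2)

theorem box_dec_enc (z : W K) : boxDec (boxEnc z) = z := by
  refine Prod.ext (funext fun c => funext fun i => ?_) (funext fun γ => funext fun i => ?_)
  · show decide ((2 * z.2 c i + (z.1 c i).toNat) % 2 = 1) = z.1 c i
    cases z.1 c i
    · simp
    · simp
  · induction γ using WithTop.recTopCoe with
    | top =>
      show (2 * z.2 ⊤ i + 0) / 2 = z.2 ⊤ i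
      omega
    | coe c =>
      show (2 * z.2 c i + (z.1 c i).toNat) / 2 = z.2 c i
      have := Bool.toNat_le (z.1 c i)
      omega

theorem box_enc_eq {z z' : W K} {γ : WithTop K} {i : ℕ}
    (h1 : ∀ c : K, (c : WithTop K) = γ → z.1 c i = z'.1 c i) (h2 : z.2 γ i = z'.2 γ i) :
    boxEnc z γ i = boxEnc z' γ i := by
  induction γ using WithTop.recTopCoe with
  | top =>
    show 2 * z.2 ⊤ i + 0 = 2 * z'.2 ⊤ i + 0
    rw [h2]
  | coe c =>
    show 2 * z.2 c i + (z.1 c i).toNat = 2 * z'.2 c i + (z'.1 c i).toNat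
    rw [h2, h1 c rfl]

theorem box_enc_cont : Continuous (boxEnc : W K → Pt (WithTop K)) := by
  refine Pool.Agent.B8F.cont_pt.2 fun z0 γ i => ?_
  induction γ using WithTop.recTopCoe with
  | top =>
    filter_upwards [ev_boxM z0 ⊤ (i + 1)] with z hz
    exact box_enc_eq (fun c hc => absurd hc WithTop.coe_ne_top) (hz i i.lt_succ_self)
  | coe c =>
    filter_upwards [ev_boxM z0 c (i + 1), ev_boxW z0 {c} (i + 1)] with z hz hz'
    refine box_enc_eq (fun c' hc => ?_) (hz i i.lt_succ_self)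
    exact hz' c' (Finset.mem_singleton.2 (WithTop.coe_injective hc)) i i.lt_succ_self

theorem box_dec_cont : Continuous (boxDec : Pt (WithTop K) → W K) := by
  refine Continuous.prodMk (cont_Y.2 fun u0 c i => ?_) (Pool.Agent.B8F.cont_pt.2 fun u0 γ i => ?_)
  · filter_upwards [Pool.Agent.B8F.cont_pt.1 continuous_id u0 (c : WithTop K) i] with u hu
    exact congrArg (fun a => decide (a % 2 = 1)) hu
  · filter_upwards [Pool.Agent.B8F.cont_pt.1 continuous_id u0 γ i] with u hu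
    exact congrArg (fun a => a / 2) hu

/-- locally constant selections -/
theorem lc_selW {Z : Type} {s : Set (WithTop K)} (hs : s.Countable) {N : Set Z} (hN : N.Countable)
    {P : W K → Z → Prop} (hd : ∀ x ∈ N, DepW s fun z => P z x)
    (h : ∀ z, ∃ x ∈ N, ∀ᶠ v in 𝓝 z, P v x) :
    ∃ sel : W K → Z, IsLocallyConstant sel ∧ DepW s sel ∧ ∀ z, sel z ∈ N ∧ P z (sel z) := by
  obtain ⟨sel, h1, h2, h3⟩ := Pool.Agent.B8F.lc_sel (P := fun u x => P (boxDec u) x) hs hN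
    (fun x hx u v huv => hd x hx (boxDec u) (boxDec v)
      ⟨fun c hc => by simp only [boxDec, huv c hc], fun γ hγ => by simp only [boxDec, huv γ hγ]⟩)
    (fun u => by
      obtain ⟨x, hx, h4⟩ := h (boxDec u)
      exact ⟨x, hx, (box_dec_cont.tendsto u).eventually h4⟩)
  refine ⟨sel ∘ boxEnc, h1.comp_continuous box_enc_cont, fun z z' e => h2 _ _ fun γ hγ =>
    funext fun i => box_enc_eq (fun c hc => congrFun (e.1 c (hc ▸ hγ)) i) (congrFun (e.2 γ hγ) i),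
    fun z => ⟨(h3 _).1, ?_⟩⟩
  have := (h3 (boxEnc z)).2
  rwa [box_dec_enc] at this

open Classical in
/-- follow `H` as long as the point follows the word `t` -/
noncomputable def glW (G : Finset K) (l : ℕ) (t : Y K) (H : W K → W K) (z : W K) : W K :=
  (glS G l t (sp H) z.1, fun γ =>
    if ∀ c ∈ G, (c : WithTop K) < γ → Ag l (z.1 c) (t c) then (H (shS G l z.1, z.2)).2 γ
    else z.2 γ)

theorem IsFr.gl {H : W K → W K} (h : IsFr H) (G : Finset K) (l : ℕ) (t : Y K) :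
    IsFr (glW G l t H) := by
  classical
  have hη := h.isS.gl G l t
  have h2 := h.reparam (ad_sh G l)
  let On : WithTop K → Y K → Prop := fun γ y => ∀ c ∈ G, (c : WithTop K) < γ → Ag l (y c) (t c)
  have hOn : ∀ γ y y', (∀ c ∈ G, (c : WithTop K) < γ → Ag l (y c) (y' c)) → (On γ y ↔ On γ y') :=
    fun γ y y' e => forall₃_congr fun c hc hγ =>
      ⟨fun a => (e c hc hγ).symm.trans a, fun a => (e c hc hγ).trans a⟩
  have p1 : ∀ (z : W K) γ, On γ z.1 → (glW G l t H z).2 γ = (H (shS G l z.1, z.2)).2 γ :=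
    fun z γ a => if_pos a
  have p2 : ∀ (z : W K) γ, ¬ On γ z.1 → (glW G l t H z).2 γ = z.2 γ := fun z γ a => if_neg a
  refine ⟨fun c => (hη.fr.s c).congr fun z => rfl, fun γ => ⟨?_, fun z z' a b => ?_,
    fun y u n => ?_⟩, ?_⟩
  · refine continuous_iff_continuousAt.2 fun z0 => ?_
    have ev : ∀ᶠ z in 𝓝 z0, (On γ z.1 ↔ On γ z0.1) :=
      (ev_boxW z0 G l).mono fun z hz => hOn γ _ _ fun c hc _ => hz c hc
    by_cases h0 : On γ z0.1
    · exact (h2.m γ).cont.continuousAt.congr (ev.mono fun z hz => (p1 z γ (hz.2 h0)).symm)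
    · exact ((continuous_apply γ).comp continuous_snd).continuousAt.congr
        (ev.mono fun z hz => (p2 z γ fun a => h0 (hz.1 a)).symm)
  · have e := hOn γ z.1 z'.1 fun c _ hc => a.1 c hc ▸ .rfl'
    by_cases h0 : On γ z'.1
    · rw [p1 z γ (e.2 h0), p1 z' γ h0]
      exact (h2.m γ).proj z z' a b
    · rw [p2 z γ fun x => h0 (e.1 x), p2 z' γ h0, b]
  · by_cases h0 : On γ y
    · obtain ⟨k, hk⟩ := (h2.m γ).sec y u n
      refine ⟨k, fun v v' a b c d => ?_⟩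
      have e : ∀ v, sc (glW G l t H) y v γ = (H (shS G l y, v)).2 γ := fun v => p1 (y, v) γ h0
      rw [e, e]
      exact hk v v' a b c d
    · exact ⟨n, Pool.Agent.B8F.isLen_id (fun v => p2 (y, v) γ h0) u n⟩
  · obtain ⟨s1, c1, a1⟩ := hη.supp
    obtain ⟨s2, c2, a2⟩ := h2.supp
    let s := (s1 ∪ s2) ∪ (fun c : K => (c : WithTop K)) '' G
    have b1 : SuppS s _ := a1.mono (subset_union_left.trans subset_union_left)
    have b2 : SuppW s _ := a2.mono (subset_union_right.trans subset_union_left)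
    refine ⟨s, (c1.union c2).union (G.countable_toSet.image _), fun z c hc => b1.1 z.1 c hc,
      fun z γ hγ => ?_, fun z z' e => ⟨b1.2 z.1 z'.1 e.1, fun γ hγ => ?_⟩⟩
    · by_cases h0 : On γ z.1
      · rw [p1 z γ h0]
        exact b2.2.1 z γ hγ
      · exact p2 z γ h0
    · have e' := hOn γ z.1 z'.1 fun c hc _ => e.1 c (Or.inr ⟨c, hc, rfl⟩) ▸ .rfl'
      by_cases h0 : On γ z'.1
      · rw [p1 z γ (e'.2 h0), p1 z' γ h0]
        exact (b2.2.2 z z' e).2 γ hγ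
      · rw [p2 z γ fun x => h0 (e'.1 x), p2 z' γ h0, e.2 γ hγ]

theorem glW_pc {H : W K → W K} (h : IsFr H) (G : Finset K) (l : ℕ) (t : Y K) :
    glW G l t H ∘ pcW G l t = pcW G l t ∘ H := by
  classical
  funext z
  refine Prod.ext ?_ (funext fun γ => ?_)
  · show glS G l t (sp H) (pcS G l t z.1) = pcS G l t (H z).1
    rw [glS_pc, h.fst]
  · refine (if_pos fun c hc _ => pcS_ag hc).trans ?_
    show (H (shS G l (pcS G l t z.1), z.2)).2 γ = (H z).2 γ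
    rw [sh_pc]

open Classical in
/-- `H` on some coordinates, the identity on the others -/
noncomputable def boxCut (p : K → Prop) (q : WithTop K → Prop) (H : W K → W K) (z : W K) : W K :=
  (fun c => if p c then (H z).1 c else z.1 c, fun γ => if q γ then (H z).2 γ else z.2 γ)

theorem box_cut_fr {H : W K → W K} (h : IsFr H) (p : K → Prop) (q : WithTop K → Prop) :
    IsFr (boxCut p q H) := by
  classical
  refine ⟨fun c => ?_, fun γ => ?_, ?_⟩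
  · by_cases h0 : p c
    · exact (h.s c).congr fun z => if_pos h0
    · exact frS_id fun z => if_neg h0
  · by_cases h0 : q γ
    · exact (h.m γ).congr fun z => if_pos h0
    · exact frM_id fun z => if_neg h0
  · obtain ⟨s, cs, hs⟩ := h.supp
    refine ⟨s, cs, fun z c hc => ?_, fun z γ hγ => ?_, fun z z' e => ⟨fun c hc => ?_,
      fun γ hγ => ?_⟩⟩
    · by_cases h0 : p c
      · exact (if_pos h0).trans (hs.1 z c hc)
      · exact if_neg h0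
    · by_cases h0 : q γ
      · exact (if_pos h0).trans (hs.2.1 z γ hγ)
      · exact if_neg h0
    · by_cases h0 : p c
      · exact (if_pos h0).trans (((hs.2.2 z z' e).1 c hc).trans (if_pos h0).symm)
      · exact (if_neg h0).trans ((e.1 c hc).trans (if_neg h0).symm)
    · by_cases h0 : q γ
      · exact (if_pos h0).trans (((hs.2.2 z z' e).2 γ hγ).trans (if_pos h0).symm)
      · exact (if_neg h0).trans ((e.2 γ hγ).trans (if_neg h0).symm)

/-- on another piece only coordinates below the last coordinate of `G` are changed -/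
theorem glW_pc' {H : W K → W K} (h : IsFr H) {G Kp : Finset K} {l : ℕ} {t t' : Y K}
    {β : WithTop K} (hG : ∀ c ∈ G, (c : WithTop K) < β) (hf : FixW Kp l H)
    (hne : ¬ ∀ c ∈ G, Ag l (t' c) (t c)) :
    ∃ H', IsFr H' ∧ Tl β H' ∧ FixW Kp l H' ∧ glW G l t H ∘ pcW G l t' = pcW G l t' ∘ H' := by
  classical
  push Not at hne
  obtain ⟨c1, hc1, hne⟩ := hne
  let p : K → Prop := fun c => ∀ c' ∈ G, c' ≤ c → Ag l (t' c') (t c')
  let q : WithTop K → Prop := fun γ => ∀ c ∈ G, (c : WithTop K) < γ → Ag l (t' c) (t c)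
  have e : ∀ (y : Y K), ∀ c ∈ G, (Ag l (pcS G l t' y c) (t c) ↔ Ag l (t' c) (t c)) :=
    fun y c hc => ⟨fun a => (pcS_ag hc).symm.trans a, fun a => (pcS_ag hc).trans a⟩
  refine ⟨boxCut p q H, box_cut_fr h p q, ⟨fun z c hc => if_neg fun a =>
    hne (a c1 hc1 (WithTop.coe_le_coe.1 ((hG c1 hc1).trans_le hc).le)),
    fun z γ hγ => if_neg fun a => hne (a c1 hc1 ((hG c1 hc1).trans_le hγ))⟩,
    fun z c hc => ?_, funext fun z => Prod.ext (funext fun c => ?_) (funext fun γ => ?_)⟩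
  · by_cases h0 : p c
    · rw [show (boxCut p q H z).1 c = (H z).1 c from if_pos h0]
      exact hf z c hc
    · rw [show (boxCut p q H z).1 c = z.1 c from if_neg h0]
      exact .rfl'
  · show glS G l t (sp H) (pcS G l t' z.1) c = pcS G l t' (boxCut p q H z).1 c
    have e1 : OnT G l t (pcS G l t' z.1) c ↔ p c :=
      forall₃_congr fun c' hc' _ => e z.1 c' hc'
    by_cases h0 : p c
    · have e2 : (boxCut p q H z).1 c = (H z).1 c := if_pos h0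
      refine (if_pos (e1.2 h0)).trans (funext fun i => ?_)
      rw [sh_pc, ← h.fst]
      simp only [pcS, e2]
      split_ifs with h1 h2
      · exact (h0 c h1 le_rfl i h2).symm
      · rfl
      · rfl
    · have e2 : (boxCut p q H z).1 c = z.1 c := if_neg h0
      refine (if_neg fun a => h0 (e1.1 a)).trans (funext fun i => ?_)
      simp only [pcS, e2]
  · have e1 : (∀ c ∈ G, (c : WithTop K) < γ → Ag l (pcS G l t' z.1 c) (t c)) ↔ q γ :=
      forall₃_congr fun c' hc' _ => e z.1 c' hc'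
    by_cases h0 : q γ
    · refine (if_pos (e1.2 h0)).trans (Eq.trans ?_ (if_pos h0).symm)
      show (H (shS G l (pcS G l t' z.1), z.2)).2 γ = (H z).2 γ
      rw [sh_pc]
    · exact (if_neg fun a => h0 (e1.1 a)).trans (if_neg h0).symm

/-- all pieces, one after the other -/
theorem pwF {Z : Type} (R : Z → Z → Prop) (hr : ∀ z, R z z) (ht : ∀ a b c, R a b → R b c → R a c)
    (Pre : (W K → W K) → Prop) (Q : Z → (W K → W K) → Prop) {F Kp : Finset K} (l : ℕ)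
    {β : WithTop K} (hF : ∀ c ∈ F, (c : WithTop K) < β) (hd : Disjoint F Kp) (z0 : Z)
    (h0 : ∀ t, Pre (pcW F l t))
    (hp : ∀ θ H, IsFr θ → IsFr H → Tl β H → FixW Kp l H → Pre θ → Pre (θ ∘ H))
    (hm : ∀ z z' θ H, R z' z → IsFr θ → IsFr H → Tl β H → FixW Kp l H → Q z θ → Q z' (θ ∘ H))
    (hs : ∀ z θ, R z z0 → IsFr θ → FixW Kp l θ → Pre θ →
      ∃ z' H, R z' z ∧ IsFr H ∧ FixW Kp l H ∧ Q z' (θ ∘ H)) :
    ∃ z g, R z z0 ∧ IsFr g ∧ FixW (F ∪ Kp) l g ∧ ∀ t, Q z (g ∘ pcW F l t) := by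
  have key : ∀ L : List (Y K), ∃ z g, R z z0 ∧ IsFr g ∧ FixW (F ∪ Kp) l g ∧
      (∀ t, (∃ t0 ∈ L, ∀ c ∈ F, Ag l (t c) (t0 c)) → Q z (g ∘ pcW F l t)) ∧
      ∀ t, (¬ ∃ t0 ∈ L, ∀ c ∈ F, Ag l (t c) (t0 c)) → Pre (g ∘ pcW F l t) := by
    intro L
    induction L with
    | nil =>
      exact ⟨z0, id, hr z0, isFr_id, fun _ _ _ => .rfl',
        fun t ⟨_, a, _⟩ => absurd a List.not_mem_nil, fun t _ => h0 t⟩
    | cons t0 L ih =>
      obtain ⟨z, g, h1, h2, h3, h4, h5⟩ := ih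
      by_cases hx : ∃ t1 ∈ L, ∀ c ∈ F, Ag l (t0 c) (t1 c)
      · refine ⟨z, g, h1, h2, h3, fun t ⟨t2, a, b⟩ => h4 t ?_,
          fun t a => h5 t fun ⟨t2, b, c⟩ => a ⟨t2, List.mem_cons_of_mem _ b, c⟩⟩
        rcases List.mem_cons.1 a with rfl | a
        · obtain ⟨t1, a1, b1⟩ := hx
          exact ⟨t1, a1, fun c hc => (b c hc).trans (b1 c hc)⟩
        · exact ⟨t2, a, b⟩
      · have hθ : ∀ t, IsFr (g ∘ pcW F l t) := fun t => h2.comp (isFr_pc F l t)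
        obtain ⟨z', H, a1, a2, a3, a4⟩ := hs z _ h1 (hθ t0) (fun w c hc => by
          have b := h3 (pcW F l t0 w) c (Finset.mem_union_right _ hc)
          rwa [show (pcW F l t0 w).1 c = w.1 c from
            pcS_off fun x => Finset.disjoint_left.1 hd x hc] at b) (h5 t0 hx)
        have hfix : FixW (F ∪ Kp) l (glW F l t0 H) := fun w c hc => by
          rcases Finset.mem_union.1 hc with hc | hc
          · exact glS_fix F l t0 (sp H) w.1 c hc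
          · exact glS_fix' t0 hd (fun y c hc => a3 (y, fun _ _ => 0) c hc) w.1 c hc
        refine ⟨z', g ∘ glW F l t0 H, ht _ _ _ a1 h1, h2.comp (a2.gl F l t0), h3.comp hfix,
          fun t ht' => ?_, fun t ht' => ?_⟩
        · by_cases hy : ∀ c ∈ F, Ag l (t c) (t0 c)
          · have e : pcW F l t = pcW F l t0 := congrArg (fun f => Prod.map f id) (pcS_congr hy)
            rw [e, comp_assoc, glW_pc a2]
            exact a4
          · obtain ⟨H', b1, b2, b3, b4⟩ := glW_pc' a2 hF a3 hy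
            rw [comp_assoc, b4]
            refine hm z z' _ H' a1 (hθ t) b1 b2 b3 (h4 t ?_)
            obtain ⟨t2, a, b⟩ := ht'
            rcases List.mem_cons.1 a with rfl | a
            · exact absurd b hy
            · exact ⟨t2, a, b⟩
        · obtain ⟨H', b1, b2, b3, b4⟩ := glW_pc' a2 hF a3
            fun hy => ht' ⟨t0, List.mem_cons_self, hy⟩
          rw [comp_assoc, b4]
          exact hp _ H' (hθ t) b1 b2 b3
            (h5 t fun ⟨t2, b, c⟩ => ht' ⟨t2, List.mem_cons_of_mem _ b, c⟩)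
  obtain ⟨L, hL⟩ := exists_words F l
  obtain ⟨z, g, h1, h2, h3, h4, -⟩ := key L
  exact ⟨z, g, h1, h2, h3, fun t => h4 t (hL t)⟩

end Pool.Agent.B8P
end

-- merged part: Pool.Agent.Work.MP_b8a914_gt.P.Cond
section
/-! The poset, codes for functions, elementary density arguments. -/

set_option linter.unusedSectionVars false

namespace Pool.Agent.B8P
open Filter Topology Function Set
open Pool.Agent.B8F (Ag Pt AgB IsMi IsLen)

structure CD (K : Type) [LinearOrder K] where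
  A : Set ℕ
  inf : A.Infinite
  T : W K → W K
  fr : IsFr T

variable {K : Type} [LinearOrder K]

instance : Preorder (CD K) where
  le r' r := (r'.A \ r.A).Finite ∧ LeW ⊤ r'.T r.T
  le_refl r := ⟨by simp, .rfl'⟩
  le_trans a b c h h' := ⟨(h.1.union h'.1).subset fun x hx => by
    by_cases hb : x ∈ b.A
    · exact Or.inr ⟨hb, hx.2⟩
    · exact Or.inl ⟨hx.1, hb⟩, h.2.trans h'.2⟩

theorem CD.le_of {r' r : CD K} (h1 : r'.A ⊆ r.A) (h3 : LeW ⊤ r'.T r.T) : r' ≤ r :=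
  ⟨by rw [sdiff_eq_empty.2 h1]; exact finite_empty, h3⟩

/-- the trivial condition -/
def CD.one (K : Type) [LinearOrder K] : CD K := ⟨univ, infinite_univ, id, isFr_id⟩

/-- shrinking along a frame -/
def CD.cp (r : CD K) (H : W K → W K) (h : IsFr H) : CD K := ⟨r.A, r.inf, r.T ∘ H, r.fr.comp h⟩

theorem CD.cp_le (r : CD K) {H : W K → W K} (h : IsFr H) : r.cp H h ≤ r :=
  CD.le_of Subset.rfl (leW_comp _ _)

/-- codes for functions: the value is `c.2 w` for the point `w` that `c.1` sends to the generic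
point -/
abbrev VD (K : Type) := (W K → W K) × (W K → ℕ → ℕ)

def NiceW (α : WithTop K) (c : VD K) : Prop :=
  IsFr c.1 ∧ Continuous c.2 ∧
    ∃ s : Set (WithTop K), s.Countable ∧ s ⊆ Iio α ∧ SuppW s c.1 ∧ DepW s c.2

theorem NiceW.mono {α β : WithTop K} {c : VD K} (h : NiceW α c) (hb : α ≤ β) : NiceW β c :=
  let ⟨a, b, s, h1, h2, h3⟩ := h; ⟨a, b, s, h1, h2.trans (Iio_subset_Iio hb), h3⟩

theorem NiceW.dep {α : WithTop K} {c : VD K} (h : NiceW α c) {u v : W K} (huv : AgW α u v) :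
    c.2 u = c.2 v := let ⟨_, _, _, _, h2, _, h3⟩ := h; h3.agW h2 huv

theorem NiceW.tl {α : WithTop K} {c : VD K} (h : NiceW α c) : Tl α c.1 :=
  let ⟨_, _, _, _, h2, h3, _⟩ := h; h3.tl h2

theorem nice_id (α : WithTop K) (g : ℕ → ℕ) : NiceW α ((id, fun _ => g) : VD K) :=
  ⟨isFr_id, continuous_const, ∅, countable_empty, empty_subset _, suppW_id _, fun _ _ _ => rfl⟩

/-- `r` decides the value of the code `c` at `k` to be `n` -/
def DecW (c : VD K) (k n : ℕ) (r : CD K) : Prop :=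
  LeW ⊤ r.T c.1 ∧ ∀ v w, Eqv ⊤ (c.1 w) (r.T v) → c.2 w k = n

theorem DecW.mono {c : VD K} {k n : ℕ} {r r' : CD K} (h : DecW c k n r) (h' : r' ≤ r) :
    DecW c k n r' := ⟨h'.2.trans h.1, fun v w hw =>
  let ⟨v', hv'⟩ := h'.2 v; h.2 v' w (hw.trans hv'.symm)⟩

/-- the perfect set coordinate `γ` -/
def yAt (γ : WithTop K) (z : W K) (i : ℕ) : Bool := WithTop.recTopCoe false (fun c => z.1 c i) γ

theorem yAt_coe (c : K) (z : W K) : yAt (c : WithTop K) z = z.1 c := rfl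

theorem cont_yAt (γ : WithTop K) : Continuous (yAt γ : W K → ℕ → Bool) := by
  induction γ using WithTop.recTopCoe with
  | top => exact continuous_const (y := fun _ => false)
  | coe c => exact (by fun_prop : Continuous fun z : W K => z.1 c)

theorem yAt_congr (γ : WithTop K) {z z' : W K} (h : z.1 = z'.1) : yAt γ z = yAt γ z' := by
  unfold yAt; rw [h]

variable [WellFoundedLT K]

/-- finitely many values of a code are constant on a box -/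
theorem dec_box {p q : W K → W K} {g : W K → ℕ → ℕ} (hp : IsFr p) (hq : IsFr q)
    (hg : Continuous g) (hd : ∀ u v, Eqv ⊤ u v → g u = g v) (h : LeW ⊤ q p) (N : ℕ) :
    ∃ Ψ, IsFr Ψ ∧ ∃ π : ℕ → ℕ, ∀ v w, Eqv ⊤ (p w) (q (Ψ v)) → Ag N (g w) π := by
  obtain ⟨θ, a, b, -, -⟩ := exists_fac hq hp h
  have hc : Continuous fun v => g (θ v) := hg.comp a.cont
  obtain ⟨Ψ, h1, h2⟩ := exists_boxW (z0 := ((fun _ _ => false, fun _ _ => 0) : W K))
    (P := fun v => Ag N (g (θ v)) (g (θ (fun _ _ => false, fun _ _ => 0))))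
    (Pool.Agent.B8F.ev_ag N fun i _ => Pool.Agent.B8F.cont_seq.1 hc _ i)
  refine ⟨Ψ, h1, g (θ (fun _ _ => false, fun _ _ => 0)), fun v w hw => ?_⟩
  rw [hd w (θ (Ψ v)) (hp.injE (hw.trans (b _).symm))]
  exact h2 v

theorem dec_dense {c : VD K} (hp : IsFr c.1) (hg : Continuous c.2)
    (hd : ∀ u v, Eqv ⊤ u v → c.2 u = c.2 v) {r : CD K} (h : LeW ⊤ r.T c.1) (k : ℕ) :
    ∃ r', r' ≤ r ∧ ∃ n, DecW c k n r' := by
  obtain ⟨Ψ, h1, π, h2⟩ := dec_box hp r.fr hg hd h (k + 1)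
  exact ⟨r.cp Ψ h1, r.cp_le h1, π k, (leW_comp r.T Ψ).trans h,
    fun v w hw => h2 v w hw k k.lt_succ_self⟩

/-- a directed family meets finitely many open requirements at once -/
theorem Cond_fin_dir {T : Type} (G : CD K → Prop) (PN : Set (CD K))
    (dir : ∀ p q, G p → G q → ∃ r ∈ PN, G r ∧ r ≤ p ∧ r ≤ q) (s : Finset T)
    (D : T → CD K → Prop) (hD : ∀ t a b, b ≤ a → D t a → D t b)
    (he : ∀ t, ∃ a, G a ∧ D t a) (r : CD K) (hr : G r) :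
    ∃ r' ∈ PN, G r' ∧ r' ≤ r ∧ ∀ t ∈ s, D t r' := by
  classical
  induction s using Finset.induction_on with
  | empty =>
    obtain ⟨a, h1, h2, h3, -⟩ := dir r r hr hr
    exact ⟨a, h1, h2, h3, fun t ht => absurd ht (Finset.notMem_empty t)⟩
  | insert t s _ ih =>
    obtain ⟨a, -, h2, h3, h4⟩ := ih
    obtain ⟨b, h5, h6⟩ := he t
    obtain ⟨d, h7, h8, h9, h10⟩ := dir a b h2 h5
    refine ⟨d, h7, h8, h9.trans h3, fun t' ht' => ?_⟩
    rcases Finset.mem_insert.1 ht' with rfl | h11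
    · exact hD _ _ _ h10 h6
    · exact hD _ _ _ h9 (h4 t' h11)

theorem Cond_toNat {a b : Bool} (h : a.toNat = b.toNat) : a = b := by
  revert h
  cases a <;> cases b <;> simp

/-- the generic point -/
theorem exists_xG (G : CD K → Prop) (PN : Set (CD K)) (Hc : Set (WithTop K))
    (dir : ∀ p q, G p → G q → ∃ r ∈ PN, G r ∧ r ≤ p ∧ r ≤ q) (h1 : CD.one K ∈ PN)
    (h2 : G (CD.one K)) (hs : ∀ r ∈ PN, SuppW Hc r.T)
    (hd : ∀ r ∈ PN, G r → ∀ γ ∈ Hc, γ < ⊤ → ∀ i, ∃ r', G r' ∧ ∃ n,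
      DecW (r.T, fun w => w.2 γ) i n r')
    (hd' : ∀ r ∈ PN, G r → ∀ γ ∈ Hc, ∀ i, ∃ r', G r' ∧ ∃ n,
      DecW (r.T, fun w i => (yAt γ w i).toNat) i n r') :
    ∃ x, ∀ r, G r → InW ⊤ r.T x := by
  classical
  let z0 : W K := (fun _ _ => false, fun _ _ => 0)
  have key : ∀ r ∈ PN, G r → ∃ u : W K, (∀ (c : K) i,
      ((c : WithTop K) ∈ Hc → ∃ r', G r' ∧
        DecW (r.T, fun w i => (yAt c w i).toNat) i (u.1 c i).toNat r') ∧
      ((c : WithTop K) ∉ Hc → u.1 c i = false)) ∧ ∀ γ i,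
      ((γ ∈ Hc ∧ γ < ⊤) → ∃ r', G r' ∧ DecW (r.T, fun w => w.2 γ) i (u.2 γ i) r') ∧
      (¬ (γ ∈ Hc ∧ γ < ⊤) → u.2 γ i = 0) := by
    intro r hr hG
    have h0 : ∀ γ i, ∃ n : ℕ,
        ((γ ∈ Hc ∧ γ < ⊤) → ∃ r', G r' ∧ DecW (r.T, fun w => w.2 γ) i n r') ∧
        (¬ (γ ∈ Hc ∧ γ < ⊤) → n = 0) := by
      intro γ i
      by_cases hγ : γ ∈ Hc ∧ γ < ⊤
      · obtain ⟨r', a, n, b⟩ := hd r hr hG γ hγ.1 hγ.2 i
        exact ⟨n, fun _ => ⟨r', a, b⟩, fun c => absurd hγ c⟩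
      · exact ⟨0, fun c => absurd c hγ, fun _ => rfl⟩
    have h0' : ∀ (c : K) i, ∃ n : Bool,
        ((c : WithTop K) ∈ Hc → ∃ r', G r' ∧
          DecW (r.T, fun w i => (yAt c w i).toNat) i n.toNat r') ∧
        ((c : WithTop K) ∉ Hc → n = false) := by
      intro c i
      by_cases hγ : (c : WithTop K) ∈ Hc
      · obtain ⟨r', a, n, b⟩ := hd' r hr hG c hγ i
        obtain ⟨w, hw⟩ := b.1 z0
        have e : (yAt c w i).toNat = n := b.2 z0 w hw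
        exact ⟨yAt c w i, fun _ => ⟨r', a, e ▸ b⟩, fun c => absurd hγ c⟩
      · exact ⟨false, fun c => absurd c hγ, fun _ => rfl⟩
    choose u hu using h0
    choose y hy using h0'
    exact ⟨(y, u), hy, hu⟩
  obtain ⟨x, hy, hx⟩ := key _ h1 h2
  have main : ∀ r ∈ PN, G r → InW ⊤ r.T x := by
    intro r hr hG
    obtain ⟨u, hv, hu⟩ := key r hr hG
    have near : ∀ P : W K → Prop, (∀ᶠ z in 𝓝 u, P z) → ∀ r1, G r1 →
        ∃ r', r' ≤ r1 ∧ ∃ w, Eqv ⊤ (r.T w) (r'.T z0) ∧ P w := by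
      intro P hP r1 hG1
      obtain ⟨F, F', n, hF⟩ := nhds_finW hP
      obtain ⟨r2, -, hG2, h21, h22⟩ := dir r r1 hG hG1
      obtain ⟨r3, -, hG3, hle3, hD3⟩ := Cond_fin_dir G PN dir (F ×ˢ Finset.range n)
        (fun (t : K × ℕ) r' => ((t.1 : WithTop K) ∈ Hc) →
          DecW (r.T, fun w i => (yAt (t.1 : WithTop K) w i).toNat) t.2 (u.1 t.1 t.2).toNat r')
        (fun t a b hab c d => (c d).mono hab)
        (fun t => by
          by_cases ht : (t.1 : WithTop K) ∈ Hc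
          · obtain ⟨a, b, c⟩ := (hv t.1 t.2).1 ht
            exact ⟨a, b, fun _ => c⟩
          · exact ⟨r, hG, fun c => absurd c ht⟩) r2 hG2
      obtain ⟨r', hr', hG', hle, hD⟩ := Cond_fin_dir G PN dir (F' ×ˢ Finset.range n)
        (fun t r' => (t.1 ∈ Hc ∧ t.1 < ⊤) → DecW (r.T, fun w => w.2 t.1) t.2 (u.2 t.1 t.2) r')
        (fun t a b hab c d => (c d).mono hab)
        (fun t => by
          by_cases ht : t.1 ∈ Hc ∧ t.1 < ⊤
          · obtain ⟨a, b, c⟩ := (hu t.1 t.2).1 ht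
            exact ⟨a, b, fun _ => c⟩
          · exact ⟨r, hG, fun c => absurd c ht⟩) r3 hG3
      have hl : LeW ⊤ r'.T r.T := ((hle.trans hle3).trans h21).2
      obtain ⟨θ, -, b, tl, -⟩ := exists_fac r'.fr r.fr hl
      have hw := b z0
      refine ⟨r', (hle.trans hle3).trans h22, θ z0, hw, hF _ (fun c h' i' hi => ?_)
        fun γ' h' i' hi => ?_⟩
      · by_cases ht : (c : WithTop K) ∈ Hc
        · exact Cond_toNat (((hD3 (c, i') (Finset.mem_product.2 ⟨h', Finset.mem_range.2 hi⟩)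
            ht).mono hle).2 _ _ hw)
        · rw [(hv c i').2 ht, ← (hs r hr).1 (θ z0) c ht, hw.1, (hs r' hr').1 _ c ht]
      · by_cases ht : γ' ∈ Hc ∧ γ' < ⊤
        · exact (hD (γ', i') (Finset.mem_product.2 ⟨h', Finset.mem_range.2 hi⟩) ht).2 _ _ hw
        · rw [(hu γ' i').2 ht]
          by_cases h4 : γ' < ⊤
          · have h5 : γ' ∉ Hc := fun c => ht ⟨c, h4⟩
            rw [← (hs r hr).2.1 (θ z0) γ' h5, hw.2 γ' h4, (hs r' hr').2.1 _ γ' h5]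
          · rw [tl _ _ (not_lt.1 h4)]
    have hc := tendsto_W.1 (r.fr.cont.tendsto u)
    refine ⟨u, funext fun c => funext fun i => ?_, fun γ hγ => funext fun i => ?_⟩
    · by_cases hH : (c : WithTop K) ∈ Hc
      · obtain ⟨r1, hG1, hD1⟩ := (hy c i).1 hH
        obtain ⟨r', hle, w, hw, h3⟩ := near _ (hc.1 c i) r1 hG1
        rw [← h3, hw.1]
        exact Cond_toNat ((hD1.mono hle).2 z0 _ .rfl')
      · rw [(hs r hr).1 u c hH, (hv c i).2 hH, (hy c i).2 hH]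
    · by_cases hH : γ ∈ Hc
      · obtain ⟨r1, hG1, hD1⟩ := (hx γ i).1 ⟨hH, hγ⟩
        obtain ⟨r', hle, w, hw, h3⟩ := near _ (hc.2 γ i) r1 hG1
        rw [← h3, hw.2 γ hγ]
        exact (hD1.mono hle).2 z0 _ .rfl'
      · rw [(hs r hr).2.1 u γ hH, (hu γ i).2 fun c => hH c.1, (hx γ i).2 fun c => hH c.1]
  refine ⟨x, fun r hG => ?_⟩
  obtain ⟨r', a, b, c, -⟩ := dir r r hG hG
  exact (main r' a b).le c.2

theorem unb_dense {α : WithTop K} (hα : α < ⊤) {c : VD K} (hc : NiceW α c) {r : CD K}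
    (h : LeW ⊤ r.T c.1) (m : ℕ) : ∃ r', r' ≤ r ∧ ∃ j, m ≤ j ∧
      ∀ v w, Eqv ⊤ (c.1 w) (r'.T v) → c.2 w j < (r'.T v).2 α j := by
  classical
  let y0 : Y K := fun _ _ => false
  obtain ⟨θ, ha, hb, -, -⟩ := exists_fac r.fr hc.1 h
  obtain ⟨l, hl⟩ := (r.fr.m α).sec y0 (fun _ _ => 0) m
  let vt : ℕ → Pt (WithTop K) := fun t =>
    Function.update (fun _ _ => 0) α (Function.update (fun _ => 0) m t)
  have a1 : ∀ t, AgB α (vt t) fun _ _ => 0 := fun t => Pool.Agent.B8F.agB_update _ _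
  have a2 : ∀ t, Ag m (vt t α) fun _ => 0 := fun t i hi => by
    simp only [vt, Function.update_self, Function.update_of_ne hi.ne]
  have a3 : ∀ t, vt t α m = t := fun t => by simp only [vt, Function.update_self]
  have hinj : Function.Injective fun t => (r.T (y0, vt t)).2 α l := fun t t' e => by
    have h0 := (hl (vt t) (vt t') (a1 t) (a1 t') (a2 t) (a2 t')).2.1 e
    rwa [a3, a3] at h0
  obtain ⟨_, ⟨t, rfl⟩, ht⟩ := (infinite_range_of_injective hinj).exists_gt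
    (c.2 (θ (y0, fun _ _ => 0)) l)
  have hg : Continuous fun v => c.2 (θ v) := hc.2.1.comp ha.cont
  obtain ⟨Ψ, b1, b2⟩ := exists_boxW (z0 := ((y0, vt t) : W K))
    (P := fun v => c.2 (θ v) l < (r.T v).2 α l) (by
      filter_upwards [Pool.Agent.B8F.cont_seq.1 hg (y0, vt t) l,
        (tendsto_W.1 (r.fr.cont.tendsto (y0, vt t))).2 α l] with v c1 c2
      rw [c1, c2, hc.dep (ha.agW (z := (y0, vt t)) (z' := (y0, fun _ _ => 0)) ⟨.rfl', a1 t⟩)]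
      exact ht)
  refine ⟨r.cp Ψ b1, r.cp_le b1, l, (r.fr.mi y0).le_len hl, fun v w hw => ?_⟩
  rw [hc.dep ((hc.1.injE (hw.trans (hb (Ψ v)).symm)).agW.mono hα.le)]
  exact b2 v

end Pool.Agent.B8P
end

-- merged part: Pool.Agent.Work.MP_b8a914_gt.P.RQ
section
/-! Conditions with a level, and fusion. -/

set_option linter.unusedSectionVars false

namespace Pool.Agent.B8P
open Filter Topology Function Set
open Pool.Agent.B8F (Ag Pt AgB IsMi IsLen)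

structure RQ (K : Type) [LinearOrder K] where
  A : Set ℕ
  inf : A.Infinite
  T : W K → W K
  fr : IsFr T
  F : Finset K
  l : ℕ

def ALe (l : ℕ) (A' A : Set ℕ) : Prop := A' ⊆ A ∧ ∀ a < l, a ∈ A → a ∈ A'

theorem ALe.rfl' {l : ℕ} {A : Set ℕ} : ALe l A A := ⟨Subset.rfl, fun _ _ h => h⟩
theorem ALe.mono {l l' : ℕ} {A A' : Set ℕ} (h : ALe l A' A) (hl : l' ≤ l) : ALe l' A' A :=
  ⟨h.1, fun a ha => h.2 a (ha.trans_le hl)⟩
theorem ALe.trans {l : ℕ} {A A' A'' : Set ℕ} (h : ALe l A'' A') (h' : ALe l A' A) : ALe l A'' A :=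
  ⟨h.1.trans h'.1, fun a ha b => h.2 a ha (h'.2 a ha b)⟩

variable {K : Type} [LinearOrder K]

def RL (β : WithTop K) (r' r : RQ K) : Prop :=
  r.l ≤ r'.l ∧ r.F ⊆ r'.F ∧ ALe r.l r'.A r.A ∧ LeF r.F r.l β β r'.T r.T

theorem RL.rfl' {β : WithTop K} {r : RQ K} : RL β r r := ⟨le_rfl, Subset.rfl, .rfl', .rfl'⟩
theorem RL.trans {β : WithTop K} {r r' r'' : RQ K} (h : RL β r'' r') (h' : RL β r' r) :
    RL β r'' r :=
  ⟨h'.1.trans h.1, h'.2.1.trans h.2.1, (h.2.2.1.mono h'.1).trans h'.2.2.1,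
    (h.2.2.2.mono h'.2.1 h'.1 le_rfl le_rfl).trans h'.2.2.2⟩

/-- `r` is valid for `Q` at all points that agree with `z` below `b` -/
def Vld (b δ : WithTop K) (Q : W K → W K) (r : RQ K) (z : W K) : Prop :=
  ∀ y, AgS b y z.1 → ∃ w, Eqv δ (r.T w) (Q (y, z.2)) ∧ Fx r.F r.l b w (y, z.2)

/-- a locally constant selection of members of `D` that are valid for `(A, Q)` below `δ` -/
def Good (δ : WithTop K) (A : Set ℕ) (Q : W K → W K) (D : Set (RQ K)) : Prop :=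
  ∃ sel : W K → RQ K, IsLocallyConstant sel ∧
    (∃ s : Set (WithTop K), s.Countable ∧ s ⊆ Iio δ ∧ DepW s sel) ∧
    ∀ z, sel z ∈ D ∧ ALe (sel z).l A (sel z).A ∧
      ∃ w, Eqv δ ((sel z).T w) (Q z) ∧ Fx (sel z).F (sel z).l δ w z

/-- the level sees the coordinate `c`, the first `n` bits of the value at `c`, and a point of `A`
above `n` -/
def Abs (c : K) (n : ℕ) (r : RQ K) : Prop :=
  c ∈ r.F ∧ n ≤ r.l ∧ ∀ y y' : Y K, (∀ c' ∈ r.F, Ag r.l (y c') (y' c')) →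
    Ag n (sp r.T y c) (sp r.T y' c)

def AbsA (n : ℕ) (r : RQ K) : Prop := ∃ a ∈ r.A, n ≤ a ∧ a < r.l

theorem exists_abs (β : WithTop K) (c : K) (n : ℕ) (r : RQ K) : ∃ r', Abs c n r' ∧ RL β r' r := by
  classical
  have hf : IsLocallyConstant fun (y : Y K) (i : Fin n) => sp r.T y c i :=
    (IsLocallyConstant.iff_continuous _).2 (continuous_pi fun i =>
      (continuous_apply (i : ℕ)).comp ((continuous_apply c).comp r.fr.isS.cont))
  obtain ⟨F, m, hF⟩ := lc_fin hf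
  refine ⟨⟨r.A, r.inf, r.T, r.fr, insert c (r.F ∪ F), max r.l (max m n)⟩,
    ⟨Finset.mem_insert_self _ _, (le_max_right _ _).trans (le_max_right _ _), fun y y' h i hi => ?_⟩,
    le_max_left _ _, Finset.subset_union_left.trans (Finset.subset_insert _ _), .rfl', .rfl'⟩
  exact congrFun (hF y y' fun c' hc' =>
    (h c' (Finset.mem_insert_of_mem (Finset.mem_union_right _ hc'))).mono
      ((le_max_left _ _).trans (le_max_right _ _))) ⟨i, hi⟩

theorem exists_absA (β : WithTop K) (n : ℕ) (r : RQ K) : ∃ r', AbsA n r' ∧ RL β r' r := by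
  obtain ⟨a, ha, hn⟩ := r.inf.exists_gt n
  exact ⟨⟨r.A, r.inf, r.T, r.fr, r.F, max r.l (a + 1)⟩,
    ⟨a, ha, hn.le, lt_of_lt_of_le (Nat.lt_succ_self a) (le_max_right _ _)⟩,
    le_max_left _ _, Subset.rfl, .rfl', .rfl'⟩

theorem Vld.congr {β : WithTop K} {Q : W K → W K} (hQ : IsFr Q) {r : RQ K} {z z' : W K}
    (h : Vld β β Q r z) (h' : AgW β z z') : Vld β β Q r z' := fun y hy =>
  let ⟨w, h1, h2⟩ := h y (hy.trans h'.1.symm)
  ⟨w, h1.trans (hQ.eqv (z := (y, z.2)) (z' := (y, z'.2)) ⟨rfl, h'.2⟩), h2⟩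

theorem rq_dep {a : Set (WithTop K)} {β : WithTop K} {Q : W K → W K} (hQ : IsFr Q)
    (hs : SuppW a Q) {r : RQ K} (hr : SuppW a r.T) {z z' : W K} (e : AgOn (a ∩ Iio β) z z')
    (h : Vld β β Q r z) : Vld β β Q r z' := by
  classical
  intro y' hy'
  let y : Y K := fun c => if (c : WithTop K) < β then z.1 c else y' c
  have hy : ∀ c : K, (c : WithTop K) ∈ a → y c = y' c := fun c hc => by
    by_cases hb : (c : WithTop K) < β
    · exact (if_pos hb).trans ((e.1 c ⟨hc, hb⟩).trans (hy' c hb).symm)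
    · exact if_neg hb
  obtain ⟨w, h1, h2⟩ := h y fun c hc => if_pos hc
  let w' : W K := (fun c => if (c : WithTop K) ∈ a then w.1 c else y' c,
    fun γ => if γ ∈ a then w.2 γ else z'.2 γ)
  have h3 : AgOn a (r.T w') (r.T w) := hr.2.2 _ _ ⟨fun c hc => if_pos hc, fun γ hγ => if_pos hγ⟩
  have h4 : AgOn (a ∩ Iio β) (Q (y, z.2)) (Q (y', z'.2)) :=
    hQ.agOn hs ⟨fun c hc => hy c hc.1, e.2⟩
  refine ⟨w', ⟨funext fun c => ?_, fun γ hγ => ?_⟩, fun c hc hb => ?_⟩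
  · by_cases hc : (c : WithTop K) ∈ a
    · rw [h3.1 c hc, h1.1, hQ.fst, hQ.fst]
      exact (hs.2.2 (y, fun _ _ => 0) (y', fun _ _ => 0) ⟨hy, fun _ _ => rfl⟩).1 c hc
    · rw [hr.1 _ c hc, hs.1 _ c hc]
      exact if_neg hc
  · by_cases hc : γ ∈ a
    · rw [h3.2 γ hc, h1.2 γ hγ, h4.2 γ ⟨hc, hγ⟩]
    · rw [hr.2.1 _ γ hc, hs.2.1 _ γ hc]
      exact if_neg hc
  · by_cases ha : (c : WithTop K) ∈ a
    · have h5 : w'.1 c = w.1 c := if_pos ha
      rw [h5]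
      exact fun i hi => (h2 c hc hb i hi).trans (congrFun (hy c ha) i)
    · have h5 : w'.1 c = y' c := if_neg ha
      rw [h5]
      exact .rfl'

/-- validity depends on the support only -/
theorem dep_Vld {a : Set (WithTop K)} {β : WithTop K} {Q : W K → W K} (hQ : IsFr Q)
    (hs : SuppW a Q) {r : RQ K} (hr : SuppW a r.T) :
    DepW (a ∩ Iio β) fun z => Vld β β Q r z := fun _ _ e =>
  propext ⟨rq_dep hQ hs hr e, rq_dep hQ hs hr e.symm⟩

variable [WellFoundedLT K] [OrderBot K]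

/-- fusion of the perfect set parts -/
theorem fusionS {a : Set (WithTop K)} (ha : a.Countable) (r : ℕ → RQ K)
    (h : ∀ n, RL ⊥ (r (n + 1)) (r n)) (hs : ∀ n, SuppW a (r n).T)
    (hab : ∀ c : K, (c : WithTop K) ∈ a → ∀ n, ∃ k, Abs c n (r k))
    (hA : ∀ n, ∃ k, AbsA n (r k)) :
    ∃ (A : Set ℕ) (σ : W K → W K), A.Infinite ∧ IsFr σ ∧ SuppW a σ ∧ (∀ z, (σ z).2 = z.2) ∧
      ∀ n, ALe (r n).l A (r n).A ∧ LeF (r n).F (r n).l ⊥ ⊥ σ (r n).T := by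
  have ch : ∀ n m, n ≤ m → RL ⊥ (r m) (r n) := by
    intro n m hnm
    induction m, hnm using Nat.le_induction with
    | base => exact .rfl'
    | succ m _ ih => exact (h m).trans ih
  have hA1 : ∀ n, ∀ x < (r n).l, x ∈ (r n).A → x ∈ ⋂ m, (r m).A := by
    refine fun n x hlt hm => mem_iInter.2 fun m => ?_
    rcases le_total n m with hnm | hnm
    · exact (ch n m hnm).2.2.1.2 x hlt hm
    · exact (ch m n hnm).2.2.1.1 hm
  have hinf : (⋂ m, (r m).A).Infinite := by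
    refine infinite_of_forall_exists_gt fun n => ?_
    obtain ⟨k, x, h1, h2, h3⟩ := hA (n + 1)
    exact ⟨x, hA1 k x h3 h1, h2⟩
  have hS : ∀ n, IsS (sp (r n).T) := fun n => (r n).fr.isS
  have pre : ∀ n m, n ≤ m → ∀ y, ∃ w, sp (r n).T w = sp (r m).T y ∧
      ∀ c ∈ (r n).F, Ag (r n).l (w c) (y c) := fun n m hnm y => by
    obtain ⟨w, h1, h2⟩ := (ch n m hnm).2.2.2 (y, fun _ _ => 0)
    exact ⟨w.1, ((r n).fr.fst w).symm.trans h1.1, fun c hc => h2 c hc bot_le⟩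
  have stab : ∀ (c : K) (i : ℕ), ∃ k, ∀ m, k ≤ m → ∀ y, sp (r m).T y c i = sp (r k).T y c i := by
    intro c i
    by_cases hc : (c : WithTop K) ∈ a
    · obtain ⟨k, hk⟩ := hab c hc (i + 1)
      refine ⟨k, fun m hm y => ?_⟩
      obtain ⟨w, h1, h2⟩ := pre k m hm y
      rw [← h1]
      exact hk.2.2 w y h2 i (Nat.lt_succ_self i)
    · exact ⟨0, fun m _ y => congrFun (((hs m).1 _ c hc).trans ((hs 0).1 (y, _) c hc).symm) i⟩
  choose k hk using stab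
  let η : Y K → Y K := fun y c i => sp (r (k c i)).T y c i
  have rng : ∀ n y, ∃ w, sp (r n).T w = η y ∧ ∀ c ∈ (r n).F, Ag (r n).l (w c) (y c) := by
    intro n y
    choose w h1 h2 using fun m => pre n (n + m) (Nat.le_add_right n m) y
    obtain ⟨w0, -, hw⟩ := isCompact_univ.ultrafilter_le_nhds
      ((Ultrafilter.of (atTop : Filter ℕ)).map w) (by simp)
    have ht : Tendsto w (Ultrafilter.of (atTop : Filter ℕ)) (𝓝 w0) := hw
    refine ⟨w0, funext fun c => funext fun i => ?_, fun c hc i hi => ?_⟩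
    · obtain ⟨m, h3, h4⟩ := ((tendsto_Y.1 (((hS n).cont.tendsto w0).comp ht) c i).and
        (Ultrafilter.of_le _ (eventually_ge_atTop (k c i)))).exists
      rw [← h3]
      show sp (r n).T (w m) c i = _
      rw [h1 m]
      exact hk c i _ (le_trans h4 (Nat.le_add_left m n)) y
    · obtain ⟨m, h3⟩ := (tendsto_Y.1 ht c i).exists
      rw [← h3]
      exact h2 m c hc i hi
  have hsup : SuppS a η := ⟨fun y c hc => funext fun i => congrFun ((hs _).1 (y, _) c hc) i,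
    fun y y' e c hc => funext fun i => congrFun (((hs (k c i)).2.2 (y, fun _ _ => 0)
      (y', fun _ _ => 0) ⟨e, fun _ _ => rfl⟩).1 c hc) i⟩
  have had : Ad η := ⟨continuous_pi fun c => continuous_pi fun i =>
      (continuous_apply i).comp ((continuous_apply c).comp (hS (k c i)).cont),
    fun c y y' e => funext fun i => congrFun ((hS (k c i)).proj c y y' e) i, a, ha, hsup⟩
  have hη : IsS η := by
    refine ⟨had, fun c y y' e e' => ?_⟩
    by_cases hc : (c : WithTop K) ∈ a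
    · funext i
      obtain ⟨n, hn⟩ := hab c hc (i + 1)
      obtain ⟨w, h1, h2⟩ := rng n y
      obtain ⟨w', h1', h2'⟩ := rng n y'
      have h3 : AgS c w w' := (hS n).injS (by
        rw [h1, h1']
        exact had.agS fun c' hc' => e c' (WithTop.coe_lt_coe.1 hc'))
      have h4 : w c = w' c := (hS n).inj c w w' (fun c' hc' => h3 c' (WithTop.coe_lt_coe.2 hc'))
        (by rw [h1, h1', e'])
      rw [← h2 c hn.1 i hn.2.1, ← h2' c hn.1 i hn.2.1, h4]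
    · rw [← hsup.1 y c hc, ← hsup.1 y' c hc, e']
  refine ⟨_, Prod.map η id, hinf, hη.fr, ⟨fun z c hc => hsup.1 z.1 c hc, fun _ _ _ => rfl,
    fun z z' e => ⟨hsup.2 z.1 z'.1 e.1, e.2⟩⟩, fun _ => rfl,
    fun n => ⟨⟨iInter_subset _ n, hA1 n⟩, fun v => ?_⟩⟩
  obtain ⟨w, h1, h2⟩ := rng n v.1
  exact ⟨(w, fun _ _ => 0), ⟨h1, fun γ hγ => absurd hγ not_lt_bot⟩, fun c hc _ => h2 c hc⟩

end Pool.Agent.B8P
end

-- merged part: Pool.Agent.Work.MP_b8a914_gt.P.ML1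
section
/-! The successor step and the limit step of the master lemma. -/

set_option linter.unusedSectionVars false

namespace Pool.Agent.B8P
open Filter Topology Function Set
open Pool.Agent.B8F (Ag Pt AgB IsMi IsLen)

variable {K : Type} [LinearOrder K]

theorem ML1_len {T : W K → W K} {β : WithTop K} {w v v' : W K} {l : ℕ}
    (h : IsLen (sc T w.1) β w.2 0 l) (h1 : Eqv β v w) (h2 : Eqv β v' w) :
    Ag l ((T v).2 β) ((T v').2 β) ∧ ((T v).2 β l = (T v').2 β l ↔ v.2 β 0 = v'.2 β 0) := by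
  obtain ⟨y, u⟩ := v
  obtain ⟨y', u'⟩ := v'
  obtain rfl : y = w.1 := h1.1
  obtain rfl : y' = w.1 := h2.1
  exact h u u' h1.2 h2.2 (fun _ h => absurd h (Nat.not_lt_zero _))
    fun _ h => absurd h (Nat.not_lt_zero _)

theorem ML1_at {T : W K → W K} (hT : IsFr T) {a : Set (WithTop K)} (hs : SuppW a T)
    {β : WithTop K} (hβ : β ∈ a) {w w' : W K} (h : AgOn (a ∩ Iio β) w w')
    (e : w.2 β = w'.2 β) : (T w).2 β = (T w').2 β := by
  classical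
  let v : W K := (fun c => if (c : WithTop K) < β then w.1 c else w'.1 c,
    fun γ => if γ < β then w.2 γ else w'.2 γ)
  have h1 : AgW β w v := ⟨fun c hc => (if_pos hc).symm, fun γ hγ => (if_pos hγ).symm⟩
  have h2 : AgOn a v w' := by
    refine ⟨fun c hc => ?_, fun γ hγ => ?_⟩
    · by_cases h3 : (c : WithTop K) < β
      · exact (if_pos h3).trans (h.1 c ⟨hc, h3⟩)
      · exact if_neg h3
    · by_cases h3 : γ < β
      · exact (if_pos h3).trans (h.2 γ ⟨hγ, h3⟩)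
      · exact if_neg h3
  exact ((hT.m β).proj w v h1 (e.trans (if_neg (lt_irrefl β)).symm)).trans
    ((hs.2.2 v w' h2).2 β hβ)

theorem ML1_upd (β : WithTop K) (w : W K) (y : ℕ → ℕ) : Eqv β (w.1, update w.2 β y) w :=
  ⟨rfl, Pool.Agent.B8F.agB_update _ _⟩

/-- the union of a coherent sequence -/
theorem exists_unionW {a : Set (WithTop K)} (ha : a.Countable) {δ : WithTop K}
    {b : ℕ → WithTop K} (hb : Monotone b) (hδ : ∀ k, b k ≤ δ) {Q : ℕ → W K → W K}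
    (hQ : ∀ k, IsFr (Q k)) (hs : ∀ k, SuppW a (Q k))
    (hco : ∀ k z, Eqv (b k) (Q (k + 1) z) (Q k z)) :
    ∃ Q', IsFr Q' ∧ SuppW a Q' ∧ TlM δ Q' ∧ ∀ k z, Eqv (b k) (Q' z) (Q k z) := by
  classical
  have h1 : ∀ k k', k ≤ k' → ∀ z, Eqv (b k) (Q k' z) (Q k z) := by
    intro k k' h z
    induction h with
    | refl => exact .rfl'
    | step h ih => exact ((hco _ z).mono (hb h)).trans ih
  let Q' : W K → W K := fun z =>
    ((Q 0 z).1, fun γ => if h : ∃ k, γ < b k then (Q h.choose z).2 γ else z.2 γ)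
  have h2 : ∀ k z, Eqv (b k) (Q' z) (Q k z) := fun k z =>
    ⟨(h1 0 k k.zero_le z).1.symm, fun γ hγ => by
      have h3 : ∃ k, γ < b k := ⟨k, hγ⟩
      show (if h : ∃ k, γ < b k then (Q h.choose z).2 γ else z.2 γ) = _
      rw [dif_pos h3, ← (h1 _ _ (le_max_left h3.choose k) z).2 γ h3.choose_spec,
        (h1 _ _ (le_max_right h3.choose k) z).2 γ hγ]⟩
  have h3 : ∀ γ, (¬ ∃ k, γ < b k) → ∀ z, (Q' z).2 γ = z.2 γ := fun γ h z => dif_neg h
  have hsup : SuppW a Q' := by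
    refine ⟨(hs 0).1, fun z γ hγ => ?_, fun z z' h => ⟨((hs 0).2.2 z z' h).1, fun γ hγ => ?_⟩⟩
    · by_cases h4 : ∃ k, γ < b k
      · obtain ⟨k, hk⟩ := h4
        rw [(h2 k z).2 γ hk, (hs k).2.1 z γ hγ]
      · exact h3 γ h4 z
    · by_cases h4 : ∃ k, γ < b k
      · obtain ⟨k, hk⟩ := h4
        rw [(h2 k z).2 γ hk, (h2 k z').2 γ hk]
        exact ((hs k).2.2 z z' h).2 γ hγ
      · rw [h3 γ h4, h3 γ h4]
        exact h.2 γ hγ
  refine ⟨Q', ⟨fun c => ((hQ 0).s c).congr fun _ => rfl, fun γ => ?_, a, ha, hsup⟩, hsup,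
    fun z γ hγ => h3 γ (fun ⟨k, hk⟩ => absurd ((hδ k).trans hγ) (not_le.2 hk)) z, h2⟩
  by_cases h4 : ∃ k, γ < b k
  · obtain ⟨k, hk⟩ := h4
    exact ((hQ k).m γ).congr fun z => (h2 k z).2 γ hk
  · exact frM_id (h3 γ h4)

variable [WellFoundedLT K]

theorem in_limitW {T : W K → W K} (hT : IsFr T) {a : Set (WithTop K)} (hs : SuppW a T)
    {b : ℕ → WithTop K} {δ : WithTop K} {x : W K} (h : ∀ k, InW (b k) T x)
    (hc : ∀ γ ∈ a, γ < δ → ∃ k, γ < b k) : InW δ T x := by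
  classical
  choose w hw using h
  have h0 : ∀ k k', Eqv (min (b k) (b k')) (w k') (w k) := fun k k' =>
    hT.injE (((hw k').mono (min_le_right _ _)).trans ((hw k).mono (min_le_left _ _)).symm)
  let w' : W K :=
    ((w 0).1, fun γ => if h : ∃ k, γ < b k then (w h.choose).2 γ else x.2 γ)
  have h1 : ∀ k, Eqv (b k) w' (w k) := fun k => ⟨(h0 k 0).1, fun γ hγ => by
    have h2 : ∃ k, γ < b k := ⟨k, hγ⟩
    show (if h : ∃ k, γ < b k then (w h.choose).2 γ else x.2 γ) = _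
    rw [dif_pos h2]
    exact (h0 k _).2 γ (lt_min hγ h2.choose_spec)⟩
  refine ⟨w', (hT.eqv (h1 0)).1.trans (hw 0).1, fun γ hγ => ?_⟩
  by_cases h2 : ∃ k, γ < b k
  · obtain ⟨k, hk⟩ := h2
    rw [(hT.eqv (h1 k)).2 γ hk, (hw k).2 γ hk]
  · rw [hs.2.1 _ _ fun h3 => h2 (hc γ h3 hγ)]
    exact dif_neg h2

/-- `x` is in the section of `T` at `β` over the point `x0` -/
def InS (β : WithTop K) (T : W K → W K) (x0 : W K) (x : ℕ → ℕ) : Prop :=
  ∃ w, Eqv β (T w) x0 ∧ (T w).2 β = x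

theorem millerW {β : WithTop K} {Q : W K → W K} (hQ : IsFr Q) {a : Set (WithTop K)}
    (ha : a.Countable) (hβ : β ∈ a) (hQs : SuppW a Q) (nd : (ℕ → ℕ) → ℕ → W K → W K → W K)
    (m : (ℕ → ℕ) → ℕ → W K → ℕ → ℕ)
    (h_ag : ∀ x x' n, Ag n x x' → nd x n = nd x' n ∧ m x n = m x' n)
    (h_lc : ∀ x n, IsLocallyConstant (nd x n)) (h_dep : ∀ x n, DepW (a ∩ Iio β) (nd x n))
    (h_fr : ∀ x n z, IsFr (nd x n z)) (h_supp : ∀ x n z, SuppW a (nd x n z))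
    (h_in : ∀ x n z, InW β (nd x n z) (Q z)) (h_inj : ∀ x n z, Injective (m x n z))
    (h_succ : ∀ x n z v, ∃ w, Eqv β (nd x n z w) (nd x (n + 1) z v) ∧
      (nd x n z w).2 β = (nd x (n + 1) z v).2 β ∧ w.2 β 0 = m x n z (x n)) :
    ∃ Q', IsFr Q' ∧ SuppW a Q' ∧ (∀ z, (Q' z).1 = (Q z).1) ∧
      (∀ z γ, γ ≠ β → (Q' z).2 γ = (Q z).2 γ) ∧
      ∀ z n, InS β (nd (z.2 β) n z) (Q z) ((Q' z).2 β) := by
  classical
  have hdB : ∀ x n z z', AgW β z z' → nd x n z = nd x n z' := fun x n z z' h =>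
    (h_dep x n).agW inter_subset_right h
  have kid : ∀ x n z x0 y, InS β (nd x (n + 1) z) x0 y →
      ∃ w, Eqv β (nd x n z w) x0 ∧ (nd x n z w).2 β = y ∧ w.2 β 0 = m x n z (x n) := by
    rintro x n z x0 y ⟨v, h1, h2⟩
    obtain ⟨w, h3, h4, h5⟩ := h_succ x n z v
    exact ⟨w, h3.trans h1, h4.trans h2, h5⟩
  have nest : ∀ x z x0 y n k, n ≤ k → InS β (nd x k z) x0 y → InS β (nd x n z) x0 y := by
    intro x z x0 y n k hk
    induction hk with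
    | refl => exact id
    | step _ ih => exact fun h => let ⟨w, a, b, _⟩ := kid _ _ _ _ _ h; ih ⟨w, a, b⟩
  have stem : ∀ x z x0 n y y', InS β (nd x n z) x0 y → InS β (nd x n z) x0 y' → Ag n y y' := by
    intro x z x0
    have key : ∀ n w l, Eqv β (nd x n z w) x0 → IsLen (sc (nd x n z) w.1) β w.2 0 l → n ≤ l := by
      intro n
      induction n with
      | zero => exact fun _ _ _ _ => Nat.zero_le _
      | succ n ih =>
        intro w l h1 h2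
        let w1 : W K := (w.1, update w.2 β (update (w.2 β) 0 (w.2 β 0 + 1)))
        have a := (ML1_len h2 (v := w1) (ML1_upd β w _) .rfl').2
        have a' : ¬ w1.2 β 0 = w.2 β 0 := by simp [w1]
        obtain ⟨v1, b1, c1, d1⟩ := kid x n z x0 _
          ⟨w1, ((h_fr _ _ _).eqv (ML1_upd β w _)).trans h1, rfl⟩
        obtain ⟨v2, b2, c2, d2⟩ := kid x n z x0 _ ⟨w, h1, rfl⟩
        obtain ⟨l', hl'⟩ := ((h_fr x n z).m β).sec v2.1 v2.2 0
        have e := ML1_len hl' ((h_fr x n z).injE (b1.trans b2.symm)) .rfl'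
        have e2 := e.1.succ (e.2.2 (d1.trans d2.symm))
        rw [c1, c2] at e2
        have := ih v2 l' b2 hl'
        by_contra hc
        exact a' (a.1 (e2 l (by omega)))
    rintro n y y' ⟨w, h1, rfl⟩ ⟨w', h2, rfl⟩
    obtain ⟨l, hl⟩ := ((h_fr x n z).m β).sec w.1 w.2 0
    exact (ML1_len hl .rfl' ((h_fr x n z).injE (h2.trans h1.symm))).1.mono (key n w l h1 hl)
  let θ : (ℕ → ℕ) → ℕ → W K → W K := fun x n z => invW β (nd x n z) (Q z) fun _ _ => 0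
  have hθ : ∀ x n z, Eqv β (nd x n z (θ x n z)) (Q z) := fun x n z =>
    (h_fr x n z).inv_spec (h_in x n z) _
  let f : W K → ℕ → ℕ := fun z i => (nd (z.2 β) (i + 1) z (θ (z.2 β) (i + 1) z)).2 β i
  have hf : ∀ z n, InS β (nd (z.2 β) n z) (Q z) (f z) := fun z n => by
    obtain ⟨y, hy⟩ := ((h_fr (z.2 β) n z).mi (θ (z.2 β) n z).1).closed_sec (β := β)
      (u := (θ (z.2 β) n z).2) (x := f z) fun k => by
      obtain ⟨w, h1, h2⟩ := nest (z.2 β) z (Q z) _ n (max n k) (le_max_left _ _)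
        ⟨θ (z.2 β) (max n k) z, hθ _ _ _, rfl⟩
      refine ⟨w.2 β, fun i hi => ?_⟩
      rw [sc, ((h_fr (z.2 β) n z).m β).proj _ w
        ((ML1_upd β _ _).trans ((h_fr _ _ _).injE ((hθ _ _ _).trans h1.symm))).agW
        (update_self ..), h2]
      exact stem (z.2 β) z (Q z) (i + 1) _ _ (nest (z.2 β) z (Q z) _ (i + 1) (max n k) (by omega)
        ⟨_, hθ _ _ _, rfl⟩) ⟨_, hθ _ _ _, rfl⟩ i i.lt_succ_self
    exact ⟨_, ((h_fr _ _ _).eqv (ML1_upd β _ y)).trans (hθ _ _ _), hy⟩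
  have hfs : ∀ z z', AgOn (a ∩ Iio β) z z' → z.2 β = z'.2 β → f z = f z' := fun z z' h h1 => by
    funext i
    have h3 := h_dep (z'.2 β) (i + 1) z z' h
    show (nd (z.2 β) (i + 1) z (θ (z.2 β) (i + 1) z)).2 β i =
      (nd (z'.2 β) (i + 1) z' (θ (z'.2 β) (i + 1) z')).2 β i
    rw [h1, ← h3]
    refine congrFun (ML1_at (h_fr _ _ _) (h_supp _ _ _) hβ
      ((h_fr (z'.2 β) (i + 1) z).inj_on (h_supp _ _ _) ?_) ?_) i
    · refine ((hθ _ _ _).agW.agOn inter_subset_right).trans ((hQ.agOn hQs h).trans ?_)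
      rw [h3]
      exact ((hθ _ _ _).agW.agOn inter_subset_right).symm
    · exact (invW_ge _ _ _ le_rfl).trans (invW_ge _ _ (fun _ _ => 0) le_rfl).symm
  let Q' : W K → W K := fun z => ((Q z).1, update (Q z).2 β (f z))
  have e1 : ∀ z, (Q' z).2 β = f z := fun z => update_self ..
  have e2 : ∀ z γ, γ ≠ β → (Q' z).2 γ = (Q z).2 γ := fun z γ h => update_of_ne h _ _
  have hsup : SuppW a Q' := by
    refine ⟨hQs.1, fun z γ hγ => ?_, fun z z' h => ⟨(hQs.2.2 z z' h).1, fun γ hγ => ?_⟩⟩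
    · rw [e2 z γ fun h => hγ (h ▸ hβ), hQs.2.1 z γ hγ]
    · by_cases h1 : γ = β
      · rw [h1, e1, e1, hfs z z' (h.mono inter_subset_left) (h.2 β hβ)]
      · rw [e2 z γ h1, e2 z' γ h1]
        exact (hQs.2.2 z z' h).2 γ hγ
  refine ⟨Q', ⟨fun c => (hQ.s c).congr fun _ => rfl, fun γ => ?_, a, ha, hsup⟩, hsup,
    fun _ => rfl, e2, fun z n => by rw [e1]; exact hf z n⟩
  by_cases hγ : γ = β
  swap
  · exact (hQ.m γ).congr fun z => e2 z γ hγ
  subst hγ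
  refine ⟨?_, fun z z' h h' => ?_, fun y u n => ?_⟩
  · simp only [e1]
    refine Pool.Agent.B8F.cont_seq.2 fun z0 i => ?_
    have h1 : Continuous (θ (z0.2 γ) (i + 1)) :=
      cont_invW (h_lc _ _) (h_fr _ _) hQ.cont continuous_const (h_in _ _)
    have h2 := Pool.Agent.B8F.cont_seq.1
      (((h_fr (z0.2 γ) (i + 1) z0).m γ).cont.comp h1) z0 i
    filter_upwards [h2, (h_lc (z0.2 γ) (i + 1)).eventually_eq z0, ev_boxM z0 γ (i + 1)]
      with z a b c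
    have d := (h_ag _ _ _ c).1
    show (nd (z.2 γ) (i + 1) z (θ (z.2 γ) (i + 1) z)).2 γ i = _
    have d' : θ (z.2 γ) (i + 1) z = θ (z0.2 γ) (i + 1) z := by simp only [θ, d]
    rw [d', d, b]
    exact a
  · rw [e1, e1]
    exact hfs z z' (h.agOn inter_subset_right) h'
  · obtain ⟨l, hl⟩ := ((h_fr (u γ) n (y, u)).m γ).sec (θ (u γ) n (y, u)).1 (θ (u γ) n (y, u)).2 0
    have key : ∀ v, AgB γ v u → Ag n (v γ) (u γ) → ∃ w, Eqv γ w (θ (u γ) n (y, u)) ∧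
        (nd (u γ) n (y, u) w).2 γ = sc Q' y v γ ∧ w.2 γ 0 = m (u γ) n (y, u) (v γ n) :=
      fun v h1 h2 => by
      have h0 : Eqv γ ((y, v) : W K) (y, u) := ⟨rfl, h1⟩
      have h3 := hf (y, v) (n + 1)
      rw [hdB _ _ _ _ h0.agW] at h3
      obtain ⟨w, a, b, c⟩ := kid _ _ _ _ _ h3
      rw [(h_ag _ _ _ h2).1] at a b
      rw [(h_ag _ _ _ h2).2] at c
      exact ⟨w, (h_fr _ _ _).injE (a.trans ((hQ.eqv h0).trans (hθ _ _ _).symm)),
        b.trans (e1 (y, v)).symm, c⟩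
    refine ⟨l, fun v v' a b c d => ?_⟩
    obtain ⟨w, h1, h2, h3⟩ := key v a c
    obtain ⟨w', h4, h5, h6⟩ := key v' b d
    have := ML1_len hl h1 h4
    rw [h2, h5, h3, h6] at this
    exact ⟨this.1, this.2.trans (h_inj _ _ _).eq_iff⟩

end Pool.Agent.B8P
end

-- merged part: Pool.Agent.Work.MP_b8a914_gt.P.ML
section
/-! The master lemma and the fusion lemma. -/

set_option linter.unusedSectionVars false

namespace Pool.Agent.B8P
open Filter Topology Function Set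
open Pool.Agent.B8F (Ag Pt AgB IsMi IsLen)

variable {K : Type} [LinearOrder K] [WellFoundedLT K] [OrderBot K]

def Dn (β : WithTop K) (D : Set (RQ K)) : Prop := ∀ r, ∃ r' ∈ D, RL β r' r

def Dh (δ β : WithTop K) (m : ℕ) (r : RQ K) (D : Set (RQ K)) : Set (RQ K) :=
  {r2 | (r2 ∈ D ∧ ∃ m', m ≤ m' ∧ SuccW δ β m' r.T r2.T) ∨ ∀ r1, RL β r1 r2 → ¬ RL β r1 r}

/-- the order of the levels -/
def Lv (r' r : RQ K) : Prop := r.l ≤ r'.l ∧ r.F ⊆ r'.F ∧ ALe r.l r'.A r.A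

theorem Lv.trans {r r' r'' : RQ K} (h : Lv r'' r') (h' : Lv r' r) : Lv r'' r :=
  ⟨h'.1.trans h.1, h'.2.1.trans h.2.1, (h.2.2.mono h'.1).trans h'.2.2⟩

/-- on the piece of `y0` the condition `r2` is below `r3` -/
def Loc (δ : WithTop K) (r2 r3 : RQ K) (y0 : Y K) : Prop :=
  Lv r2 r3 ∧ ∀ v : W K, (∀ c ∈ r2.F, (c : WithTop K) < δ → Ag r2.l (v.1 c) (y0 c)) →
    ∃ w, Eqv δ (r3.T w) (r2.T v) ∧ Fx r3.F r3.l δ w v

def Sharp (δ : WithTop K) (D : Set (RQ K)) : Set (RQ K) := {r2 | ∀ y0, ∃ r3 ∈ D, Loc δ r2 r3 y0}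

theorem Vld.inW {b δ : WithTop K} {Q : W K → W K} {r : RQ K} {z : W K} (h : Vld b δ Q r z) :
    InW δ r.T (Q z) := let ⟨w, hw, _⟩ := h z.1 .rfl'; ⟨w, hw⟩

theorem LeF.vld {b δ : WithTop K} {Q : W K → W K} {r : RQ K} (h : LeF r.F r.l b δ Q r.T)
    (z : W K) : Vld b δ Q r z := fun y _ => h (y, z.2)

theorem ML_fst {T : W K → W K} (hT : IsFr T) {w w' : W K} (h : (T w).1 = (T w').1) : w.1 = w'.1 :=
  hT.isS.injective (by rw [← hT.fst, ← hT.fst, h])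

/-- two conditions that are valid near a point are compatible -/
theorem compat {β : WithTop K} {Q : W K → W K} (hQ : IsFr Q) {A : Set ℕ} (hA : A.Infinite)
    {r r' : RQ K} (h : ALe r.l A r.A) (h' : ALe r'.l A r'.A) {z : W K}
    (hv : ∀ᶠ v in 𝓝 z, Vld β β Q r v ∧ Vld β β Q r' v) : ∃ r1, RL β r1 r ∧ RL β r1 r' := by
  obtain ⟨Ψ, a, b, c⟩ := exists_boxB (β := β) hv
    fun _ _ e x => ⟨x.1.congr hQ e, x.2.congr hQ e⟩
  refine ⟨⟨A, hA, Q ∘ Ψ, hQ.comp a, r.F ∪ r'.F, max r.l r'.l⟩,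
    ⟨le_max_left _ _, Finset.subset_union_left, h, fun v => ?_⟩,
    ⟨le_max_right _ _, Finset.subset_union_right, h', fun v => ?_⟩⟩
  · obtain ⟨w, x, y⟩ := (c v).1 (Ψ v).1 .rfl'
    exact ⟨w, x, y.trans (b.fx _ _ v)⟩
  · obtain ⟨w, x, y⟩ := (c v).2 (Ψ v).1 .rfl'
    exact ⟨w, x, y.trans (b.fx _ _ v)⟩

/-- shrinking all pieces into a dense set -/
theorem sharp_step {β δ : WithTop K} {D : Set (RQ K)} (hD : Dn δ D) (r1 : RQ K) {T1 : W K → W K}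
    (h1 : IsFr T1) (he : ∀ v, Eqv β (T1 v) (r1.T v)) :
    ∃ r2 ∈ Sharp δ D, RL β r2 r1 ∧ LeW ⊤ r2.T T1 := by
  classical
  obtain ⟨z, g, a, b, c, d⟩ := pwF (Z := RQ K) Lv (fun _ => ⟨le_rfl, subset_rfl, .rfl'⟩)
    (fun _ _ _ => Lv.trans) (fun _ => True)
    (fun z θ => ∃ r3 ∈ D, Lv z r3 ∧ LeF r3.F r3.l δ δ (T1 ∘ θ) r3.T)
    (F := r1.F.filter fun c : K => (c : WithTop K) < δ) (Kp := r1.F.filter fun c : K => δ ≤ c) r1.l
    (β := δ) (fun c hc => (Finset.mem_filter.1 hc).2)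
    (Finset.disjoint_filter.2 fun _ _ h => h.not_ge) r1 (fun _ => trivial)
    (fun _ _ _ _ _ _ _ => trivial)
    (fun z z' θ H x _ _ y _ ⟨r3, e1, e2, e3⟩ => ⟨r3, e1, x.trans e2, fun v =>
      let ⟨w, e4, e5⟩ := e3 (H v); ⟨w, e4, e5.trans (y.fx _ _ v)⟩⟩)
    (fun z θ x y _ _ => by
      obtain ⟨r3, e1, e2⟩ := hD ⟨z.A, z.inf, T1 ∘ θ, h1.comp y, z.F, z.l⟩
      obtain ⟨H, e3, e4, -, e5⟩ := exists_facF r3.fr (h1.comp y) e2.2.2.2
      exact ⟨r3, H, ⟨e2.1, e2.2.1, e2.2.2.1⟩, e3, fun v c hc =>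
        (e5 v c (x.2.1 (Finset.mem_filter.1 hc).1) (Finset.mem_filter.1 hc).2).mono x.1,
        r3, e1, ⟨le_rfl, subset_rfl, .rfl'⟩, fun v => ⟨v, (e4 v).symm, .rfl'⟩⟩)
  refine ⟨⟨z.A, z.inf, T1 ∘ g, h1.comp b, z.F, z.l⟩, fun y0 => ?_,
    ⟨a.1, a.2.1, a.2.2, fun v => ⟨g v, (he _).symm, fun k hk _ => c v k ?_⟩⟩, leW_comp _ _⟩
  · obtain ⟨r3, e1, e2, e3⟩ := d y0
    refine ⟨r3, e1, e2, fun v hv => ?_⟩
    have e4 := exists_pc (r1.F.filter fun c : K => (c : WithTop K) < δ) r1.l (t := y0) (z := v)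
      fun c hc => (hv c (a.2.1 (Finset.mem_filter.1 hc).1) (Finset.mem_filter.1 hc).2).mono a.1
    obtain ⟨w, e5, e6⟩ := e3 (shS (r1.F.filter fun c : K => (c : WithTop K) < δ) r1.l v.1, v.2)
    simp only [comp_apply, e4] at e5
    refine ⟨w, e5, fun k hk hb => ?_⟩
    have e7 := e6 k hk hb
    rwa [show (shS (r1.F.filter fun c : K => (c : WithTop K) < δ) r1.l v.1, v.2).1 k = v.1 k from
      shS_off fun h => (Finset.mem_filter.1 h).2.not_ge hb] at e7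
  · rcases lt_or_ge (k : WithTop K) δ with h | h
    · exact Finset.mem_union_left _ (Finset.mem_filter.2 ⟨hk, h⟩)
    · exact Finset.mem_union_right _ (Finset.mem_filter.2 ⟨hk, h⟩)

/-- from the sharp set back to the set -/
theorem vld_loc {δ : WithTop K} {Q : W K → W K} (hQ : IsFr Q) {r2 : RQ K} {z : W K}
    (hv : ∀ᶠ v in 𝓝 z, Vld δ δ Q r2 v) :
    ∃ y0, ∀ r3, Loc δ r2 r3 y0 → ∀ᶠ v in 𝓝 z, Vld δ δ Q r3 v := by
  classical
  have hg : ∀ v : W K, ∃ y, Vld δ δ Q r2 v → sp r2.T y = (Q v).1 := fun v => by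
    by_cases h : Vld δ δ Q r2 v
    · obtain ⟨w, a⟩ := h.inW
      exact ⟨w.1, fun _ => (r2.fr.fst w).symm.trans a.1⟩
    · exact ⟨v.1, fun h' => absurd h' h⟩
  choose g hg using hg
  have ht : Tendsto g (𝓝 z) (𝓝 (g z)) := by
    refine r2.fr.isS.ev_inv ?_
    rw [hg z hv.self_of_nhds]
    exact ((continuous_fst.comp hQ.cont).tendsto z).congr' (hv.mono fun v h => (hg v h).symm)
  refine ⟨g z, fun r3 h3 => ?_⟩
  filter_upwards [hv, ht.eventually (ev_boxS (g z) r2.F r2.l)] with v a b y hy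
  obtain ⟨w, c, d⟩ := a y hy
  have e : AgS δ w.1 (g v) := r2.fr.isS.injS (by
    rw [hg v a, ← r2.fr.fst, c.1]
    exact (hQ.agW (z := (y, v.2)) (z' := v) ⟨hy, .rfl'⟩).1)
  obtain ⟨w', e1, e2⟩ := h3.2 w fun k hk hb => e k hb ▸ b k hk
  exact ⟨w', e1.trans c, e2.trans (d.mono h3.1.2.1 h3.1.1 le_rfl)⟩

structure Hull (K : Type) [LinearOrder K] [OrderBot K] where
  a : Set (WithTop K)
  N : Set (RQ K)
  DD : Set (Set (RQ K))
  A : Set ℕ
  σ : W K → W K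
  ac : a.Countable
  Nc : N.Countable
  Dc : DD.Countable
  inf : A.Infinite
  fr : IsFr σ
  ss : SuppW a σ
  sid : ∀ z, (σ z).2 = z.2
  univ_mem : univ ∈ DD
  supp : ∀ r ∈ N, SuppW a r.T
  dh : ∀ δ ∈ a, ∀ β ∈ a, ∀ m, ∀ r ∈ N, ∀ D ∈ DD, Dh δ β m r D ∈ DD
  sh : ∀ δ ∈ a, ∀ D ∈ DD, Sharp δ D ∈ DD
  wit : ∀ δ ∈ a, ∀ D ∈ DD, ∀ r ∈ N, r ∈ Sharp δ D → ∀ y0, ∃ r3 ∈ D, r3 ∈ N ∧ Loc δ r r3 y0
  gen0 : ∀ D ∈ DD, Dn ⊥ D → ∃ r ∈ D, r ∈ N ∧ ALe r.l A r.A ∧ LeF r.F r.l ⊥ ⊥ σ r.T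

namespace Hull
variable (H : Hull K)

/-- `D` is met near every point -/
def Met (β : WithTop K) (Q : W K → W K) (D : Set (RQ K)) : Prop :=
  ∀ z, ∃ r ∈ D, r ∈ H.N ∧ ALe r.l H.A r.A ∧ ∀ᶠ v in 𝓝 z, Vld β β Q r v

structure Gn (β : WithTop K) (Q : W K → W K) : Prop where
  fr : IsFr Q
  supp : SuppW H.a Q
  tl : TlM β Q
  gen : ∀ D ∈ H.DD, Dn β D → H.Met β Q D

structure St (β : WithTop K) (Q : W K → W K) (st : W K → RQ K) : Prop where
  lc : IsLocallyConstant st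
  dep : DepW (H.a ∩ Iio β) st
  mem : ∀ z, st z ∈ H.N
  ale : ∀ z, ALe (st z).l H.A (st z).A
  vld : ∀ z, Vld β β Q (st z) z

variable {H}

theorem St.vld_up {β δ : WithTop K} {Q Q' : W K → W K} {st : W K → RQ K} (h : H.St β Q st)
    (hb : β ≤ δ) (he : ∀ z, (Q' z).1 = (Q z).1) {z : W K}
    (h' : ∀ y, InW δ (st (y, z.2)).T (Q' (y, z.2))) : Vld δ δ Q' (st z) z := fun y hy => by
  have e : st (y, z.2) = st z := h.dep.agW inter_subset_right ⟨hy.mono hb, .rfl'⟩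
  obtain ⟨w, a⟩ := h' y
  rw [e] at a
  obtain ⟨w0, b, c⟩ := h.vld z y (hy.mono hb)
  exact ⟨w, a, (Fx.of_eq (ML_fst (st z).fr (a.1.trans ((he _).trans b.1.symm)))).trans
    (c.mono subset_rfl le_rfl hb)⟩

theorem St.up {β β' : WithTop K} {Q Q' : W K → W K} {st : W K → RQ K} (h : H.St β Q st)
    (hb : β ≤ β') (he : ∀ z, (Q' z).1 = (Q z).1) (h' : ∀ z, InW β' (st z).T (Q' z)) :
    H.St β' Q' st :=
  ⟨h.lc, h.dep.mono (inter_subset_inter_right _ (Iio_subset_Iio hb)), h.mem, h.ale,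
    fun _ => h.vld_up hb he fun _ => h' _⟩

theorem stepSel {δ β : WithTop K} (hδ : δ ∈ H.a) (hβ : β ∈ H.a) {Q : W K → W K} (hq : H.Gn β Q)
    {st : W K → RQ K} (hst : H.St β Q st) {F : Set (RQ K)} (hF : F ∈ H.DD) {mm : W K → ℕ}
    (h1 : IsLocallyConstant mm) (h2 : DepW (H.a ∩ Iio β) mm)
    (hS : ∀ u m r1, RL β r1 (st u) →
      ∃ r2 ∈ F, RL β r2 r1 ∧ ∃ m', m ≤ m' ∧ SuccW δ β m' (st u).T r2.T) :
    ∃ (st' : W K → RQ K) (m' : W K → ℕ), H.St β Q st' ∧ IsLocallyConstant m' ∧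
      DepW (H.a ∩ Iio β) m' ∧
      ∀ u, st' u ∈ F ∧ mm u ≤ m' u ∧ SuccW δ β (m' u) (st u).T (st' u).T := by
  obtain ⟨sel, a, b, c⟩ := lc_selW (s := H.a ∩ Iio β) (H.ac.mono inter_subset_left)
    (N := H.N ×ˢ (univ : Set ℕ)) (H.Nc.prod countable_univ)
    (P := fun u z => z.1 ∈ F ∧ ALe z.1.l H.A z.1.A ∧ Vld β β Q z.1 u ∧ mm u ≤ z.2 ∧
      SuccW δ β z.2 (st u).T z.1.T)
    (fun z hz u v huv => by
      have e := dep_Vld hq.fr hq.supp (H.supp z.1 hz.1) u v huv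
      simp only at e ⊢
      rw [e, h2 u v huv, hst.dep u v huv])
    (fun u => by
      obtain ⟨r2, hr2, hN, ho, hev⟩ := hq.gen _ (H.dh δ hδ β hβ (mm u) (st u) (hst.mem u) F hF)
        (fun r1 => by
          by_cases h : ∃ r1', RL β r1' r1 ∧ RL β r1' (st u)
          · obtain ⟨r1', h3, h4⟩ := h
            obtain ⟨r2, h5, h6, h7⟩ := hS u (mm u) r1' h4
            exact ⟨r2, Or.inl ⟨h5, h7⟩, h6.trans h3⟩
          · exact ⟨r1, Or.inr fun r1' h3 h4 => h ⟨r1', h3, h4⟩, .rfl'⟩) u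
      rcases hr2 with ⟨h3, m', h4, h5⟩ | h3
      · refine ⟨(r2, m'), ⟨hN, trivial⟩, ?_⟩
        filter_upwards [hev, h1.eventually_eq u, hst.lc.eventually_eq u] with v a b c
        exact ⟨h3, ho, a, b ▸ h4, c ▸ h5⟩
      · obtain ⟨r1, h4, h5⟩ := compat hq.fr H.inf ho (hst.ale u)
          (hev.and ((hst.lc.eventually_eq u).mono fun v e => e ▸ hst.vld v))
        exact (h3 r1 h4 h5).elim)
  exact ⟨fun u => (sel u).1, fun u => (sel u).2,
    ⟨a.comp Prod.fst, fun u v h => congrArg Prod.fst (b u v h), fun u => (c u).1.1,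
      fun u => (c u).2.2.1, fun u => (c u).2.2.2.1⟩, a.comp Prod.snd,
    fun u v h => congrArg Prod.snd (b u v h), fun u => ⟨(c u).2.1, (c u).2.2.2.2⟩⟩

variable (H) in
def Pp (δ : WithTop K) : Prop :=
  ∀ β ∈ H.a, β ≤ δ → ∀ Q st, H.Gn β Q → H.St β Q st →
    ∃ Q', H.Gn δ Q' ∧ (∀ u, Eqv β (Q' u) (Q u)) ∧ ∀ u, InW δ (st u).T (Q' u)

section Q
variable {δ : WithTop K} (hδ : δ ∈ H.a) {Val : WithTop K → Set (RQ K)}
  {F : ℕ → WithTop K → Set (RQ K)}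
  (hF : ∀ n β, F n β ⊆ Val β) (hD : ∀ n, ∀ β ∈ H.a, F n β ∈ H.DD)
  (hS : ∀ β β', β ≤ β' → β' < δ → ∀ r ∈ Val β, ∀ n m r1, RL β r1 r →
    ∃ r2 ∈ F n β', RL β r2 r1 ∧ ∃ m', m ≤ m' ∧ SuccW δ β m' r.T r2.T)
include hδ hF hD hS

theorem kids {β : WithTop K} (hβ : β ∈ H.a) (hβδ : β < δ) {Q : W K → W K} (hq : H.Gn β Q) (n : ℕ)
    (st : {st : W K → RQ K // H.St β Q st ∧ ∀ u, st u ∈ Val β}) :
    ∃ (k : ℕ → {st : W K → RQ K // H.St β Q st ∧ ∀ u, st u ∈ Val β}) (m : W K → ℕ → ℕ),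
      (∀ u, Injective (m u)) ∧
      ∀ j u, (k j).1 u ∈ F n β ∧ SuccW δ β (m u j) (st.1 u).T ((k j).1 u).T := by
  have step := fun mm : {mm : W K → ℕ // IsLocallyConstant mm ∧ DepW (H.a ∩ Iio β) mm} =>
    stepSel hδ hβ hq st.2.1 (hD n β hβ) mm.2.1 mm.2.2
      fun u m r1 h => hS β β le_rfl hβδ _ (st.2.2 u) n m r1 h
  choose k m h1 h2 h3 h4 using step
  let mm : ℕ → {mm : W K → ℕ // IsLocallyConstant mm ∧ DepW (H.a ∩ Iio β) mm} := fun j =>
    Nat.rec ⟨fun _ => 0, IsLocallyConstant.const 0, fun _ _ _ => rfl⟩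
      (fun _ x => ⟨fun u => m x u + 1, (h2 x).comp (· + 1),
        fun u v h => congrArg (· + 1) (h3 x u v h)⟩) j
  exact ⟨fun j => ⟨k (mm j), h1 _, fun u => hF n β (h4 _ u).1⟩, fun u j => m (mm j) u,
    fun u => (strictMono_nat_of_lt_succ fun j => (h4 (mm (j + 1)) u).2.1).injective,
    fun j u => ⟨(h4 _ u).1, (h4 _ u).2.2⟩⟩

theorem succ_case {β : WithTop K} (hβ : β ∈ H.a) (hβδ : β < δ)
    (hmax : ∀ γ ∈ H.a, γ < δ → γ ≤ β) {Q : W K → W K} (hq : H.Gn β Q) {st : W K → RQ K}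
    (hst : H.St β Q st) (hV : ∀ u, st u ∈ Val β) :
    ∃ Q', IsFr Q' ∧ SuppW H.a Q' ∧ TlM δ Q' ∧ (∀ u, Eqv β (Q' u) (Q u)) ∧
      (∀ u, InW δ (st u).T (Q' u)) ∧ ∀ n, H.Met δ Q' {r | ∃ β', r ∈ F n β'} := by
  classical
  choose k m h1 h2 using kids hδ hF hD hS hβ hβδ hq
  let nd : (ℕ → ℕ) → ℕ → {st : W K → RQ K // H.St β Q st ∧ ∀ u, st u ∈ Val β} := fun x n =>
    Nat.rec ⟨st, hst, hV⟩ (fun n s => k n s (x n)) n
  have hag : ∀ x x' n, Ag n x x' → nd x n = nd x' n := fun x x' n => by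
    induction n with
    | zero => exact fun _ => rfl
    | succ n ih =>
      intro h
      show k n (nd x n) (x n) = k n (nd x' n) (x' n)
      rw [ih (h.mono n.le_succ), h n n.lt_succ_self]
  obtain ⟨Q', a, b, c0, c, d⟩ := millerW hq.fr H.ac hβ hq.supp (fun x n u => ((nd x n).1 u).T)
    (fun x n => m n (nd x n)) (fun x x' n h => by rw [hag x x' n h]; exact ⟨rfl, rfl⟩)
    (fun x n => (nd x n).2.1.lc.comp RQ.T)
    (fun x n u v h => congrArg RQ.T ((nd x n).2.1.dep u v h)) (fun x n u => ((nd x n).1 u).fr)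
    (fun x n u => H.supp _ ((nd x n).2.1.mem u)) (fun x n u => ((nd x n).2.1.vld u).inW)
    (fun x n u => h1 n _ u) (fun x n u v => by
      obtain ⟨w, h3, h4⟩ := (h2 n (nd x n) (x n) u).2 v
      exact ⟨w, h3.mono hβδ.le, h3.2 β hβδ, h4⟩)
  have hin : ∀ u n, InW δ ((nd (u.2 β) n).1 u).T (Q' u) := fun u n => by
    obtain ⟨w, h3, h4⟩ := d u n
    have hT := ((nd (u.2 β) n).1 u).fr
    refine ⟨(w.1, fun γ => if γ ≤ β then w.2 γ else u.2 γ), ?_, fun γ hγ => ?_⟩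
    · rw [hT.fst, c0 u, ← h3.1, hT.fst]
    by_cases h5 : γ ≤ β
    · rw [(hT.m γ).proj (w.1, fun γ => if γ ≤ β then w.2 γ else u.2 γ) w
        ⟨.rfl', fun γ' h' => if_pos (h'.le.trans h5)⟩ (if_pos h5)]
      rcases h5.lt_or_eq with h6 | rfl
      · rw [h3.2 γ h6, c u γ h6.ne]
      · exact h4
    · have h6 : γ ∉ H.a := fun h => h5 (hmax γ h hγ)
      rw [(H.supp _ ((nd (u.2 β) n).2.1.mem u)).2.1 _ γ h6, b.2.1 u γ h6]
      exact if_neg h5
  refine ⟨Q', a, b, fun u γ hγ => (c u γ (hβδ.trans_le hγ).ne').trans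
    (hq.tl u γ (hβδ.le.trans hγ)), fun u => ⟨c0 u, fun γ hγ => c u γ hγ.ne⟩,
    fun u => hin u 0, fun n u => ⟨(nd (u.2 β) (n + 1)).1 u, ⟨β, (h2 n _ _ u).1⟩,
      (nd (u.2 β) (n + 1)).2.1.mem u, (nd (u.2 β) (n + 1)).2.1.ale u, ?_⟩⟩
  filter_upwards [(nd (u.2 β) (n + 1)).2.1.lc.eventually_eq u, ev_boxM u β (n + 1)] with v h3 h4
  have := (nd (v.2 β) (n + 1)).2.1.vld_up hβδ.le c0 (z := v) fun y => hin (y, v.2) (n + 1)
  rwa [hag _ _ _ h4, h3] at this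

theorem step_up {β β' : WithTop K} (hβ : β ∈ H.a) (hβ' : β' ∈ H.a) (h1 : β ≤ β') (h2 : β' < δ)
    (hP : H.Pp β') (n : ℕ) {Q : W K → W K} (hq : H.Gn β Q) {st : W K → RQ K}
    (hst : H.St β Q st) (hV : ∀ u, st u ∈ Val β) :
    ∃ Q' st', H.Gn β' Q' ∧ H.St β' Q' st' ∧ (∀ u, Eqv β (Q' u) (Q u)) ∧
      ∀ u, st' u ∈ F n β' ∧ LeW δ (st' u).T (st u).T := by
  obtain ⟨st', m, a, -, -, b⟩ := stepSel hδ hβ hq hst (hD n β' hβ') (IsLocallyConstant.const 0)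
    (fun _ _ _ => rfl) fun u m r1 h => hS β β' h1 h2 _ (hV u) n m r1 h
  obtain ⟨Q', c, d, e⟩ := hP β hβ h1 Q st' hq a
  exact ⟨Q', st', c, a.up h1 (fun z => (d z).1) e, d, fun u => ⟨(b u).1, (b u).2.2.le⟩⟩

theorem q_step (hP : ∀ β ∈ H.a, β < δ → H.Pp β) {β : WithTop K} (hβ : β ∈ H.a) (hβδ : β < δ)
    {Q : W K → W K} (hq : H.Gn β Q) {st : W K → RQ K} (hst : H.St β Q st)
    (hV : ∀ u, st u ∈ Val β) :
    ∃ Q', IsFr Q' ∧ SuppW H.a Q' ∧ TlM δ Q' ∧ (∀ u, Eqv β (Q' u) (Q u)) ∧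
      (∀ u, InW δ (st u).T (Q' u)) ∧ ∀ n, H.Met δ Q' {r | ∃ β', r ∈ F n β'} := by
  by_cases hmax : ∃ β' ∈ H.a ∩ Iio δ, ∀ γ ∈ H.a ∩ Iio δ, γ ≤ β'
  · obtain ⟨β', h1, h2⟩ := hmax
    have h3 := h2 β ⟨hβ, hβδ⟩
    obtain ⟨q1, st1, a, b, c, d⟩ := step_up hδ hF hD hS hβ h1.1 h3 h1.2 (hP _ h1.1 h1.2) 0 hq
      hst hV
    obtain ⟨Q', e1, e2, e0, e3, e4, e5⟩ := succ_case hδ hF hD hS h1.1 h1.2
      (fun γ x y => h2 γ ⟨x, y⟩) a b fun u => hF _ _ (d u).1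
    exact ⟨Q', e1, e2, e0, fun u => ((e3 u).mono h3).trans (c u), fun u => (e4 u).le (d u).2, e5⟩
  push Not at hmax
  obtain ⟨b, rfl, hb, hm, hc⟩ := Pool.Agent.B8F.exists_cofinal_seq (H.ac.mono inter_subset_left)
    (⟨hβ, hβδ⟩ : β ∈ H.a ∩ Iio δ) hmax
  let T : ℕ → Type := fun k => {z : (W K → W K) × (W K → RQ K) //
    H.Gn (b k) z.1 ∧ H.St (b k) z.1 z.2 ∧ ∀ u, z.2 u ∈ Val (b k)}
  have step : ∀ k (z : T k), ∃ z' : T (k + 1), (∀ u, Eqv (b k) (z'.1.1 u) (z.1.1 u)) ∧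
      ∀ u, z'.1.2 u ∈ F k (b (k + 1)) ∧ LeW δ (z'.1.2 u).T (z.1.2 u).T := fun k z => by
    obtain ⟨q', st', a1, a2, a3, a4⟩ := step_up hδ hF hD hS (hm k).1 (hm (k + 1)).1
      (hb k.le_succ) (hm (k + 1)).2 (hP _ (hm _).1 (hm _).2) k z.2.1 z.2.2.1 z.2.2.2
    exact ⟨⟨(q', st'), a1, a2, fun u => hF _ _ (a4 u).1⟩, a3, a4⟩
  choose nx h1 h2 using step
  let z : ∀ k, T k := fun k => Nat.rec ⟨(Q, st), hq, hst, hV⟩ nx k
  have hc' : ∀ γ ∈ H.a, γ < δ → ∃ k, γ < b k := fun γ x y => hc γ ⟨x, y⟩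
  obtain ⟨Q', e1, e2, e0, e3⟩ := exists_unionW H.ac hb (fun k => le_of_lt (hm k).2)
    (Q := fun k => (z k).1.1) (fun k => (z k).2.1.fr) (fun k => (z k).2.1.supp)
    fun k => h1 k (z k)
  have hle : ∀ n k, n ≤ k → ∀ u, LeW δ ((z k).1.2 u).T ((z n).1.2 u).T := by
    intro n k h u
    induction h with
    | refl => exact .rfl'
    | step _ ih => exact (h2 _ (z _) u).2.trans ih
  have hin : ∀ n u, InW δ ((z n).1.2 u).T (Q' u) := fun n u =>
    in_limitW ((z n).1.2 u).fr (H.supp _ ((z n).2.2.1.mem u)) (b := b) (fun k =>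
      (((((z (max n k)).2.2.1.vld u).inW).congr (e3 _ u).symm).le
        ((hle n _ (le_max_left _ _) u).mono (le_of_lt (hm _).2))).mono (hb (le_max_right _ _))) hc'
  refine ⟨Q', e1, e2, e0, e3 0, hin 0, fun n u => ⟨(z (n + 1)).1.2 u, ⟨_, (h2 n (z n) u).1⟩,
    (z (n + 1)).2.2.1.mem u, (z (n + 1)).2.2.1.ale u, ?_⟩⟩
  filter_upwards [(z (n + 1)).2.2.1.lc.eventually_eq u] with v h3
  exact h3 ▸ (z (n + 1)).2.2.1.vld_up (le_of_lt (hm _).2) (fun x => (e3 (n + 1) x).1)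
    fun y => hin (n + 1) _

end Q

theorem pp (δ : WithTop K) : δ ∈ H.a → H.Pp δ := by
  induction δ using WellFoundedLT.induction with
  | _ δ ih =>
    intro hδ β hβ hβδ Q st hq hst
    rcases hβδ.lt_or_eq with h | rfl
    swap
    · exact ⟨Q, hq, fun _ => .rfl', fun u => (hst.vld u).inW⟩
    obtain ⟨e, he⟩ := (H.Dc.mono (s₁ := {D | D ∈ H.DD ∧ Dn δ D}) fun _ h => h.1).exists_eq_range
      ⟨univ, H.univ_mem, fun r => ⟨r, trivial, .rfl'⟩⟩
    have h1 : ∀ n, e n ∈ H.DD ∧ Dn δ (e n) := fun n =>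
      (he ▸ mem_range_self n : e n ∈ {D | D ∈ H.DD ∧ Dn δ D})
    obtain ⟨Q', a, b, c0, c, d, f⟩ := q_step hδ (Val := fun _ => univ)
      (F := fun n _ => Sharp δ (e n)) (fun _ _ => subset_univ _)
      (fun n _ _ => H.sh δ hδ _ (h1 n).1) (fun β β' x y r _ n m r1 h2 => by
        obtain ⟨T1, h3, h4, h5⟩ := exists_succW r1.fr r.fr h2.2.2.2.le m
        obtain ⟨r2, h6, h7, h8⟩ := sharp_step (h1 n).2 r1 h3 h4
        exact ⟨r2, h6, h7, m, le_rfl, (h5 δ).of_le (h8.mono le_top)⟩)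
      (fun β x y => ih β y x) hβ h hq hst fun _ => trivial
    refine ⟨Q', ⟨a, b, c0, fun D h2 h3 u => ?_⟩, c, d⟩
    obtain ⟨n, rfl⟩ : D ∈ range e := he ▸ (⟨h2, h3⟩ : D ∈ {D | D ∈ H.DD ∧ Dn δ D})
    obtain ⟨r, ⟨_, h4⟩, h5, h6, h7⟩ := f n u
    obtain ⟨y0, h8⟩ := vld_loc a h7
    obtain ⟨r3, x1, x2, x3⟩ := H.wit δ hδ _ h2 r h5 h4 y0
    exact ⟨r3, x1, x2, (h6.mono x3.1.1).trans x3.1.2.2, h8 r3 x3⟩

theorem gn_bot : H.Gn ⊥ H.σ :=
  ⟨H.fr, H.ss, fun z γ _ => congrFun (H.sid z) γ, fun D x y _ =>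
    let ⟨r, e, f, g, h⟩ := H.gen0 D x y; ⟨r, e, f, g, .of_forall h.vld⟩⟩

theorem st_bot {r : RQ K} (h1 : r ∈ H.N) (h2 : ALe r.l H.A r.A) (h3 : LeF r.F r.l ⊥ ⊥ H.σ r.T) :
    H.St ⊥ H.σ fun _ => r :=
  ⟨.const _, fun _ _ _ => rfl, fun _ => h1, fun _ => h2, h3.vld⟩

end Hull

theorem exists_hullQ (δ : WithTop K) (F : ℕ → WithTop K → Set (RQ K)) (r0 : RQ K) :
    ∃ H : Hull K, δ ∈ H.a ∧ ⊥ ∈ H.a ∧ r0 ∈ H.N ∧ ALe r0.l H.A r0.A ∧
      LeF r0.F r0.l ⊥ ⊥ H.σ r0.T ∧ ∀ n, ∀ β ∈ H.a, F n β ∈ H.DD := by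
  let X := WithTop K ⊕ RQ K ⊕ Set (RQ K)
  have hsp : ∀ r : RQ K, ∃ e : ℕ → WithTop K, SuppW (range e) r.T := fun r => by
    obtain ⟨s, hs, h⟩ := r.fr.supp
    obtain ⟨e, he⟩ := (hs.insert δ).exists_eq_range (insert_nonempty _ _)
    exact ⟨e, he ▸ h.mono (subset_insert _ _)⟩
  choose e he using hsp
  have hwd : ∀ r : RQ K, ∃ t : ℕ → Y K, ∀ y : Y K, ∃ j, ∀ c ∈ r.F, Ag r.l (y c) (t j c) := by
    intro r
    obtain ⟨L, hL⟩ := exists_words r.F r.l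
    refine ⟨fun j => L.getD j fun _ _ => true, fun y => ?_⟩
    obtain ⟨t, a, b⟩ := hL y
    obtain ⟨j, hj, rfl⟩ := List.getElem_of_mem a
    exact ⟨j, by simpa only [List.getD_eq_getElem _ _ hj] using b⟩
  choose wd hwd using hwd
  let Rel : ℕ × ℕ → List X → X → Prop := fun k l x =>
    match k.1 with
    | 0 => x = .inl δ
    | 1 => x = .inl ⊥
    | 2 => x = .inr (.inl r0)
    | 3 => x = .inr (.inr univ)
    | 4 => x = .inr (.inr {r | AbsA k.2 r})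
    | 5 => ∃ β, l = [.inl β] ∧ x = .inr (.inr (F k.2 β))
    | 6 => ∃ r, l = [.inr (.inl r)] ∧ x = .inl (e r k.2)
    | 7 => ∃ δ' β r D, l = [.inl δ', .inl β, .inr (.inl r), .inr (.inr D)] ∧
        x = .inr (.inr (Dh δ' β k.2 r D))
    | 8 => ∃ δ' D, l = [.inl δ', .inr (.inr D)] ∧ x = .inr (.inr (Sharp δ' D))
    | 9 => ∃ δ' D r r', l = [.inl δ', .inr (.inr D), .inr (.inl r)] ∧ x = .inr (.inl r') ∧
        r' ∈ D ∧ Loc δ' r r' (wd r k.2)
    | 10 => ∃ c : K, l = [.inl c] ∧ x = .inr (.inr {r | Abs c k.2 r})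
    | _ => ∃ r D r', l = [.inr (.inl r), .inr (.inr D)] ∧ x = .inr (.inl r') ∧ r' ∈ D ∧
        RL ⊥ r' r
  obtain ⟨H, hH, -, hcl⟩ := Pool.Agent.Lib.ZFModel.exists_hull (X := X) (fun _ => True) Rel
  have c0 : ∀ k l x, (∀ y ∈ l, y ∈ H) → Rel k l x → (∀ y, Rel k l y → y = x) → x ∈ H :=
    fun k l x h1 h2 h3 => by
      obtain ⟨y, hy, h⟩ := hcl k l h1 ⟨x, trivial, h2⟩
      exact h3 y h ▸ hy
  let a : Set (WithTop K) := {β | (.inl β : X) ∈ H}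
  let N : Set (RQ K) := {r | (.inr (.inl r) : X) ∈ H}
  let DD : Set (Set (RQ K)) := {D | (.inr (.inr D) : X) ∈ H}
  have ha : a.Countable :=
    hH.preimage_of_injOn (f := fun β => (.inl β : X)) fun _ _ _ _ h => by cases h; rfl
  have hDD : DD.Countable := hH.preimage_of_injOn
    (f := fun D => (.inr (.inr D) : X)) fun _ _ _ _ h => by cases h; rfl
  have hr0 : r0 ∈ N := c0 (2, 0) [] _ (by simp) rfl fun _ h => h
  have hu : univ ∈ DD := c0 (3, 0) [] _ (by simp) rfl fun _ h => h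
  have hs : ∀ r ∈ N, SuppW a r.T := fun r hr => (he r).mono (by
    rintro _ ⟨n, rfl⟩
    refine c0 (6, n) [.inr (.inl r)] _ (by simpa [N] using hr) ⟨r, rfl, rfl⟩ ?_
    rintro y ⟨r', h, rfl⟩
    cases h; rfl)
  have hm : ∀ D ∈ DD, Dn ⊥ D → ∀ r ∈ N, ∃ r' ∈ N, r' ∈ D ∧ RL ⊥ r' r := fun D h1 h2 r h3 => by
    obtain ⟨r', h4, h5⟩ := h2 r
    obtain ⟨y, hy, r1, D1, r2, h6, rfl, h7⟩ := hcl (11, 0) [.inr (.inl r), .inr (.inr D)]
      (by simpa using ⟨h3, h1⟩) ⟨_, trivial, r, D, r', rfl, rfl, h4, h5⟩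
    cases h6
    exact ⟨r2, hy, h7⟩
  obtain ⟨d, hd⟩ := (hDD.mono (s₁ := {D | D ∈ DD ∧ Dn ⊥ D}) fun _ h => h.1).exists_eq_range
    ⟨univ, hu, fun r => ⟨r, trivial, .rfl'⟩⟩
  have h1 : ∀ n, d n ∈ DD ∧ Dn ⊥ (d n) := fun n =>
    (hd ▸ mem_range_self n : d n ∈ {D | D ∈ DD ∧ Dn ⊥ D})
  have step : ∀ n (r : N), ∃ r' : N, r'.1 ∈ d n ∧ RL ⊥ r'.1 r.1 := fun n r =>
    let ⟨r', x, y⟩ := hm _ (h1 n).1 (h1 n).2 r.1 r.2; ⟨⟨r', x⟩, y⟩
  choose nx h2 h3 using step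
  let r : ℕ → N := fun n => Nat.rec ⟨r0, hr0⟩ nx n
  have h4 : ∀ D ∈ DD, Dn ⊥ D → ∃ k, (r k).1 ∈ D := fun D x y => by
    obtain ⟨n, rfl⟩ : D ∈ range d := hd ▸ (⟨x, y⟩ : D ∈ {D | D ∈ DD ∧ Dn ⊥ D})
    exact ⟨n + 1, h2 n (r n)⟩
  obtain ⟨A, σ, f1, f2, f3, f4, f5⟩ := fusionS ha (fun n => (r n).1) (fun n => h3 n (r n))
    (fun n => hs _ (r n).2)
    (fun c hc n => h4 {r | Abs c n r} (c0 (10, n) [.inl c] _ (by simpa [a] using hc) ⟨c, rfl, rfl⟩
      (by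
        rintro y ⟨c', h, rfl⟩
        obtain rfl : c = c' := WithTop.coe_injective (Sum.inl.inj (List.cons.inj h).1)
        rfl)) (exists_abs ⊥ c n))
    fun n => h4 {r | AbsA n r} (c0 (4, n) [] _ (by simp) rfl fun _ h => h) (exists_absA ⊥ n)
  refine ⟨⟨a, N, DD, A, σ, ha,
    hH.preimage_of_injOn (f := fun r => (.inr (.inl r) : X)) fun _ _ _ _ h => by cases h; rfl,
    hDD, f1, f2, f3, f4, hu, hs, fun δ' a β b m r c D f => ?_, fun δ' a D b => ?_,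
    fun δ' a D b r c f y0 => ?_, fun D a b => ?_⟩,
    c0 (0, 0) [] _ (by simp) rfl fun _ h => h, c0 (1, 0) [] _ (by simp) rfl fun _ h => h,
    hr0, (f5 0).1, (f5 0).2, fun n β hβ => ?_⟩
  · refine c0 (7, m) [.inl δ', .inl β, .inr (.inl r), .inr (.inr D)] _
      (by simpa using ⟨a, b, c, f⟩) ⟨δ', β, r, D, rfl, rfl⟩ ?_
    rintro y ⟨_, _, _, _, h, rfl⟩
    cases h; rfl
  · refine c0 (8, 0) [.inl δ', .inr (.inr D)] _ (by simpa using ⟨a, b⟩) ⟨δ', D, rfl, rfl⟩ ?_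
    rintro y ⟨_, _, h, rfl⟩
    cases h; rfl
  · obtain ⟨j, hj⟩ := hwd r y0
    obtain ⟨r3, x1, x2⟩ := f (wd r j)
    obtain ⟨y, hy, _, _, _, r4, h6, rfl, h7, h8⟩ := hcl (9, j)
      [.inl δ', .inr (.inr D), .inr (.inl r)] (by simpa using ⟨a, b, c⟩)
      ⟨_, trivial, δ', D, r, r3, rfl, rfl, x1, x2⟩
    cases h6
    exact ⟨r4, h7, hy, h8.1, fun v hv => h8.2 v fun k hk hb => (hv k hk hb).trans (hj k hk)⟩
  · obtain ⟨k, hk⟩ := h4 D a b
    exact ⟨_, hk, (r k).2, f5 k⟩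
  · refine c0 (5, n) [.inl β] _ (by simpa [a] using hβ) ⟨β, rfl, rfl⟩ ?_
    rintro y ⟨_, h, rfl⟩
    cases h; rfl

theorem master {δ : WithTop K} (hδ : ⊥ < δ) (Val : WithTop K → Set (RQ K))
    (F : ℕ → WithTop K → Set (RQ K)) (hF : ∀ n β, F n β ⊆ Val β) (r0 : RQ K) (h0 : r0 ∈ Val ⊥)
    (hS : ∀ β β', β ≤ β' → β' < δ → ∀ r ∈ Val β, ∀ n m r1, RL β r1 r →
      ∃ r2 ∈ F n β', RL β r2 r1 ∧ ∃ m', m ≤ m' ∧ SuccW δ β m' r.T r2.T) :
    ∃ (A : Set ℕ) (Q : W K → W K), A.Infinite ∧ ALe r0.l A r0.A ∧ IsFr Q ∧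
      ∀ n z, ∃ β' r, r ∈ F n β' ∧ ALe r.l A r.A ∧ InW δ r.T (Q z) := by
  obtain ⟨H, h1, h2, h3, h4, h5, h6⟩ := exists_hullQ δ F r0
  obtain ⟨Q, a, -, -, -, -, d⟩ := Hull.q_step h1 hF h6 hS (fun β x _ => Hull.pp β x) h2 hδ
    Hull.gn_bot (Hull.st_bot h3 h4 h5) fun _ => h0
  refine ⟨H.A, Q, H.inf, h4, a, fun n z => ?_⟩
  obtain ⟨r, ⟨β', x⟩, -, y, w⟩ := d n z
  exact ⟨β', r, x, y, w.self_of_nhds.inW⟩

theorem FL (δ : WithTop K) (r0 : RQ K) (D : ℕ → Set (RQ K))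
    (hD : ∀ n r, RL δ r r0 → ∃ r' ∈ D n, RL δ r' r) :
    ∃ (A : Set ℕ) (Q : W K → W K), A.Infinite ∧ ALe r0.l A r0.A ∧ IsFr Q ∧ TlM δ Q ∧
      LeF r0.F r0.l ⊥ δ Q r0.T ∧ ∀ n, Good δ A Q (D n) := by
  obtain ⟨H, h1, h2, h3, h4, h5, h6⟩ := exists_hullQ δ
    (fun n _ => D n ∪ {r | ∀ r1, RL δ r1 r → ¬ RL δ r1 r0}) r0
  obtain ⟨Q, a, b, c⟩ := Hull.pp δ h1 ⊥ h2 bot_le _ _ Hull.gn_bot (Hull.st_bot h3 h4 h5)
  have h7 : LeF r0.F r0.l ⊥ δ Q r0.T := fun v => by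
    obtain ⟨w, x⟩ := c v
    obtain ⟨w0, y, z⟩ := h5 v
    exact ⟨w, x, (Fx.of_eq (ML_fst r0.fr (x.1.trans ((b v).1.trans y.1.symm)))).trans z⟩
  have hs := H.ac.mono (inter_subset_left (t := Iio δ))
  refine ⟨H.A, Q, H.inf, h4, a.fr, a.tl, h7, fun n => ?_⟩
  obtain ⟨sel, e, f, g⟩ := lc_selW hs H.Nc
    (P := fun u r => r ∈ D n ∧ ALe r.l H.A r.A ∧ Vld δ δ Q r u)
    (fun r hr u v huv => by
      have e := dep_Vld a.fr a.supp (H.supp r hr) u v huv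
      simp only at e ⊢
      rw [e])
    fun u => by
      obtain ⟨r, x, y, z, w⟩ := a.gen _ (h6 n δ h1) (fun r1 => by
        by_cases h : ∃ r1', RL δ r1' r1 ∧ RL δ r1' r0
        · obtain ⟨r1', x, y⟩ := h
          obtain ⟨r2, z, w⟩ := hD n r1' y
          exact ⟨r2, Or.inl z, w.trans x⟩
        · exact ⟨r1, Or.inr fun r1' x y => h ⟨r1', x, y⟩, .rfl'⟩) u
      rcases x with x | x
      · exact ⟨r, y, w.mono fun _ h => ⟨x, z, h⟩⟩
      · obtain ⟨r1, x1, x2⟩ := compat a.fr H.inf z h4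
          (w.mono fun v h => ⟨h, (h7.mono subset_rfl le_rfl bot_le le_rfl).vld v⟩)
        exact (x r1 x1 x2).elim
  exact ⟨sel, e, ⟨_, hs, inter_subset_right, f⟩,
    fun u => ⟨(g u).2.1, (g u).2.2.1, (g u).2.2.2 u.1 .rfl'⟩⟩

end Pool.Agent.B8P
end

-- merged part: Pool.Agent.Work.MP_b8a914_gt.P.RT1
section
/-! The Ramsey property: persistent colours. -/

set_option linter.unusedSectionVars false

namespace Pool.Agent.B8P
open Filter Topology Function Set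
open Pool.Agent.B8F (Ag Pt AgB IsMi IsLen)

variable {K : Type} [LinearOrder K]

/-- continuous colourings that depend on the superperfect coordinates below `δ` only -/
structure RTCol (δ : WithTop K) (f : W K → ℕ → Bool) : Prop where
  cont : ∀ a, Continuous fun z => f z a
  dep : ∀ z z', Eqv δ z z' → f z = f z'

/-- the Ramsey property below `δ` -/
def RTp (δ : WithTop K) : Prop :=
  ∀ f : W K → ℕ → Bool, RTCol δ f → ∀ A : Set ℕ, A.Infinite →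
    ∃ Ψ, IsFr Ψ ∧ ∃ B, B.Infinite ∧ B ⊆ A ∧ ∃ ε, ∀ v, ∀ a ∈ B, f (Ψ v) a = ε

/-- the colour `c` persists at successors at the coordinate `β` -/
def Pers (g : W K → ℕ → Bool) (β : WithTop K) (c : Y K → Bool) (B : Set ℕ) : Prop :=
  ∀ m j F l θ1, IsFr θ1 → ∃ m', m ≤ m' ∧ ∃ θ2, IsFr θ2 ∧ LeF F l β β θ2 θ1 ∧
    (∀ v, (θ2 v).2 β 0 = m') ∧ ∀ v, ∀ a ∈ B, a < j → g (θ2 v) a = c (θ2 v).1

theorem RTCol.comp {δ : WithTop K} {f : W K → ℕ → Bool} (hf : RTCol δ f) {θ : W K → W K}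
    (h : IsFr θ) : RTCol δ fun z => f (θ z) :=
  ⟨fun a => (hf.cont a).comp h.cont, fun _ _ e => hf.dep _ _ (h.eqv e)⟩

theorem Pers.sub {g : W K → ℕ → Bool} {β : WithTop K} {c : Y K → Bool} {B B' : Set ℕ}
    (h : Pers g β c B) (hB : B' ⊆ B) : Pers g β c B' := fun m j F l θ1 a =>
  let ⟨m', h1, θ2, h2, h3, h4, h5⟩ := h m j F l θ1 a
  ⟨m', h1, θ2, h2, h3, h4, fun v a ha hj => h5 v a (hB ha) hj⟩

theorem RT1_cont_lc {X Z V : Type} [TopologicalSpace X] [TopologicalSpace V] {s : X → Z}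
    (hs : IsLocallyConstant s) {g : Z → X → V} (hg : ∀ z, Continuous (g z)) :
    Continuous fun x => g (s x) x := by
  refine continuous_iff_continuousAt.2 fun x => (hg (s x)).continuousAt.congr ?_
  filter_upwards [hs.eventually_eq x] with x' h
  exact congrArg (fun z => g z x') h.symm

theorem RT1_inf_ge {A : Set ℕ} (h : A.Infinite) (l : ℕ) : {a | a ∈ A ∧ l ≤ a}.Infinite :=
  (h.sdiff (finite_lt_nat l)).mono fun _ ha => ⟨ha.1, not_lt.1 ha.2⟩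

/-- a property of all pieces holds at all points -/
theorem RT1_piece {F : Finset K} {l : ℕ} {t : Y K} {z : W K} (h : ∀ c ∈ F, Ag l (z.1 c) (t c)) :
    ∃ z', z = pcW F l t z' := ⟨_, (exists_pc F l h).symm⟩

variable [WellFoundedLT K] [OrderBot K]

/-- the factor over a frame that is free from `β` on -/
theorem RT1_fac_top {β : WithTop K} {T H : W K → W K} (hT : IsFr T) (hH : IsFr H) (ht : TlM β H)
    (h : LeW β T H) : ∃ θ, IsFr θ ∧ ∀ v, Eqv ⊤ (H (θ v)) (T v) :=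
  let ⟨θ, h1, h2, _⟩ := exists_fac hT hH fun v => hH.in_top ht (h v)
  ⟨θ, h1, h2⟩

theorem Pers.act {g : W K → ℕ → Bool} {δ β : WithTop K} (hg : RTCol δ g) (hb : β < δ)
    {c : Y K → Bool} {B : Set ℕ} (h : Pers g β c B) {H : W K → W K} (hH : IsFr H)
    (ht : TlM β H) : Pers (fun z => g (H z)) β (c ∘ sp H) B := by
  intro m j F l θ1 h1
  obtain ⟨m', a1, T, a2, a3, a4, a5⟩ := h m j F l (H ∘ θ1) (hH.comp h1)
  obtain ⟨θ2, b1, b2⟩ := RT1_fac_top a2 hH ht (a3.le.trans (leW_comp H θ1))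
  refine ⟨m', a1, θ2, b1, fun v => ?_, fun v => ?_, fun v a ha hj => ?_⟩
  · obtain ⟨w, c1, c2⟩ := a3 v
    exact ⟨w, hH.injE (c1.trans ((b2 v).mono le_top).symm), c2⟩
  · rw [← ht (θ2 v) β le_rfl, (b2 v).2 β (hb.trans_le le_top), a4]
  · show g (H (θ2 v)) a = c (sp H (θ2 v).1)
    rw [hg.dep _ _ ((b2 v).mono le_top), a5 v a ha hj, ← hH.fst, (b2 v).1]

theorem Pers.down {g : W K → ℕ → Bool} {δ β β' : WithTop K} (hg : RTCol δ g) {e : Bool}
    {B : Set ℕ} (h : Pers g β' (fun _ => e) B) (hb : β ≤ β') :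
    Pers g β (fun _ => e) B := by
  classical
  rcases hb.eq_or_lt with rfl | hb'
  · exact h
  intro m j F l θ1 h1
  have a1 : IsFr (preM β m ∘ resM β θ1) := (isFr_preM β m).comp (h1.resM β)
  have a2 : TlM β' (preM β m ∘ resM β θ1) := fun z γ hγ =>
    (preM_ne m _ (hb'.trans_le hγ).ne').trans (resM_tl β θ1 z γ (hb.trans hγ))
  obtain ⟨_, g0, -, b1, b2, b3⟩ := pwF (Z := Unit) (fun _ _ => True) (fun _ => trivial)
    (fun _ _ _ _ _ => trivial) (TlM β')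
    (fun _ θ => ∀ v, ∀ a ∈ B, a < j → g ((preM β m ∘ resM β θ1) (θ v)) a = e)
    (F := F.filter fun c : K => β ≤ c ∧ (c : WithTop K) < β')
    (Kp := F.filter fun c : K => β' ≤ c) l (β := β')
    (fun c hc => (Finset.mem_filter.1 hc).2.2)
    (Finset.disjoint_filter.2 fun c _ h1 h2 => h1.2.not_ge h2) ()
    (fun _ _ _ _ => rfl) (fun θ H _ _ h1 _ h2 => h2.comp h1.2)
    (fun _ _ θ H _ _ _ _ _ hq v => hq (H v))
    (fun _ θ _ hθ _ hp => by
      obtain ⟨_, -, T, c2, c3, -, c5⟩ := h 0 j (F.filter fun c : K => β' ≤ c) l _ (a1.comp hθ)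
      obtain ⟨H, d1, d2⟩ := RT1_fac_top c2 (a1.comp hθ) (a2.comp hp) c3.le
      refine ⟨(), H, trivial, d1, fun v c hc => ?_, fun v a ha hj => ?_⟩
      · obtain ⟨w, e1, e2⟩ := c3 v
        rw [((a1.comp hθ).injE (((d2 v).mono le_top).trans e1.symm)).1]
        exact e2 c hc (Finset.mem_filter.1 hc).2
      · exact (congrFun (hg.dep _ _ ((d2 v).mono le_top)) a).trans (c5 v a ha hj))
  refine ⟨m, le_rfl, (preM β m ∘ resM β θ1) ∘ g0, a1.comp b1, fun v => ⟨g0 v,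
    ((preM_eqv β m _).trans (resM_eqv β θ1 _)).symm, fun c hc hc' => b2 v c ?_⟩,
    fun v => preM_at β m (resM β θ1 (g0 v)), fun v a ha hj => ?_⟩
  · rw [Finset.mem_union, Finset.mem_filter, Finset.mem_filter]
    rcases lt_or_ge (c : WithTop K) β' with h' | h'
    · exact .inl ⟨hc, hc', h'⟩
    · exact .inr ⟨hc, h'⟩
  · obtain ⟨v', hv⟩ := RT1_piece (F := F.filter fun c : K => β ≤ c ∧ (c : WithTop K) < β')
      (l := l) (t := v.1) (z := v) fun _ _ => .rfl'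
    have := b3 v.1 v' a ha hj
    rwa [comp_apply (f := g0), ← hv] at this

/-- finitely many colours become constant on the pieces -/
theorem RT1_lc {δ : WithTop K} {g : W K → ℕ → Bool} (hg : RTCol δ g) (m : ℕ) {T : W K → W K}
    (hT : IsFr T) (G : Finset K) (l : ℕ) :
    ∃ H, IsFr H ∧ FixW G l H ∧ ∀ a < m, ∀ v v' : W K, (∀ c ∈ G, Ag l (v.1 c) (v'.1 c)) →
      g (T (H v)) a = g (T (H v')) a := by
  obtain ⟨_, H, -, b1, b2, b3⟩ := pwF (Z := Unit) (fun _ _ => True) (fun _ => trivial)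
    (fun _ _ _ _ _ => trivial) (fun _ => True)
    (fun _ θ => ∀ a < m, ∀ v v', g (T (θ v)) a = g (T (θ v')) a)
    (F := G) (Kp := ∅) l (β := ⊤) (fun c _ => WithTop.coe_lt_top c)
    (Finset.disjoint_empty_right _) () (fun _ => trivial) (fun _ _ _ _ _ _ _ => trivial)
    (fun _ _ θ H _ _ _ _ _ hq a ha v v' => hq a ha (H v) (H v'))
    (fun _ θ _ hθ _ _ => by
      let v0 : W K := (fun _ _ => false, fun _ _ => 0)
      have hc := hg.comp (hT.comp hθ)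
      have h0 : ∀ᶠ z in 𝓝 v0, ∀ a ∈ {a | a < m}, g (T (θ z)) a = g (T (θ v0)) a :=
        (eventually_all_finite (finite_lt_nat m)).2 fun a _ =>
          ((IsLocallyConstant.iff_continuous _).2 (hc.cont a)).eventually_eq v0
      obtain ⟨Ψ, hΨ, h4⟩ := exists_boxW h0
      exact ⟨(), Ψ, trivial, hΨ, fun _ _ hc => absurd hc (Finset.notMem_empty _),
        fun a ha v v' => (h4 v a ha).trans (h4 v' a ha).symm⟩)
  refine ⟨H, b1, fun z c hc => b2 z c (Finset.mem_union_left _ hc), fun a ha v v' h => ?_⟩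
  obtain ⟨x, hx⟩ := RT1_piece (t := v'.1) h
  obtain ⟨x', hx'⟩ := RT1_piece (F := G) (l := l) (t := v'.1) (z := v') fun _ _ => .rfl'
  have := b3 v'.1 a ha x x'
  simp only [comp] at this
  rwa [← hx, ← hx'] at this

/-- the Ramsey property on all pieces -/
theorem RT1_pw {β : WithTop K} (hβ : RTp β) {g : W K → ℕ → Bool} (hg : RTCol β g)
    {q T : W K → W K} (hq : IsFr q) (hT : IsFr T) (hle : LeW β T q) {A : Set ℕ}
    (hA : A.Infinite) (G : Finset K) (l : ℕ) :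
    ∃ A', A'.Infinite ∧ A' ⊆ A ∧ ∃ H, IsFr H ∧ FixW G l H ∧
      ∀ v v' : W K, (∀ c ∈ G, Ag l (v.1 c) (v'.1 c)) → ∀ u u', Eqv β (T (H v)) (q u) →
        Eqv β (T (H v')) (q u') → ∀ m ∈ A', ∀ m' ∈ A', g u m = g u' m' := by
  obtain ⟨z, H, a1, b1, b2, b3⟩ := pwF (Z := {A : Set ℕ // A.Infinite}) (fun a b => a.1 ⊆ b.1)
    (fun _ => Subset.rfl) (fun _ _ _ h h' => h.trans h') (fun _ => True)
    (fun z θ => ∃ ε, ∀ v u, Eqv β (T (θ v)) (q u) → ∀ m ∈ z.1, g u m = ε)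
    (F := G) (Kp := ∅) l (β := ⊤) (fun c _ => WithTop.coe_lt_top c)
    (Finset.disjoint_empty_right _) ⟨A, hA⟩ (fun _ => trivial) (fun _ _ _ _ _ _ _ => trivial)
    (fun _ _ θ H hz _ _ _ _ ⟨ε, hq⟩ => ⟨ε, fun v u hu m hm => hq (H v) u hu m (hz hm)⟩)
    (fun z θ _ hθ _ _ => by
      obtain ⟨φ, c1, c2, -⟩ := exists_fac (hT.comp hθ) hq ((leW_comp T θ).trans hle)
      obtain ⟨Ψ, hΨ, B, d1, d2, ε, d3⟩ := hβ _ (hg.comp c1) z.1 z.2
      refine ⟨⟨B, d1⟩, Ψ, d2, hΨ, fun _ _ hc => absurd hc (Finset.notMem_empty _), ε,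
        fun v u hu m hm => ?_⟩
      rw [← hg.dep _ _ (hq.injE ((c2 (Ψ v)).trans hu))]
      exact d3 v m hm)
  refine ⟨z.1, z.2, a1, H, b1, fun z c hc => b2 z c (Finset.mem_union_left _ hc),
    fun v v' h u u' hu hu' m hm m' hm' => ?_⟩
  obtain ⟨x, hx⟩ := RT1_piece (t := v'.1) h
  obtain ⟨x', hx'⟩ := RT1_piece (F := G) (l := l) (t := v'.1) (z := v') fun _ _ => .rfl'
  obtain ⟨ε, hε⟩ := b3 v'.1
  have e1 := hε x u (by simp only [comp]; rw [← hx]; exact hu) m hm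
  have e2 := hε x' u' (by simp only [comp]; rw [← hx']; exact hu') m' hm'
  exact e1.trans e2.symm

/-- a colour for each piece -/
theorem RT_cs {δ β : WithTop K} (hb : β < δ) (hβ : RTp β) {g : W K → ℕ → Bool} (hg : RTCol δ g)
    {A : Set ℕ} (hA : A.Infinite) (F : Finset K) (l : ℕ) :
    ∃ B, B.Infinite ∧ B ⊆ A ∧ ∃ H, IsFr H ∧ FixW F l H ∧
      ∃ c : Y K → Bool, Continuous c ∧ Pers (fun z => g (H z)) β c B := by
  classical
  -- first step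
  obtain ⟨A1, Q1, hA1, h11, hQ1, -, h12, h13⟩ := FL β ⟨A, hA, id, isFr_id, F, l⟩
    (fun m => {r | (∀ v, (r.T v).2 β 0 = m) ∧
      ∀ a < m, ∀ v v', Fx r.F r.l β v v' → g (r.T v) a = g (r.T v') a})
    (fun m r _ => by
      have a1 : IsFr (preM β m ∘ resM β r.T) := (isFr_preM β m).comp (r.fr.resM β)
      obtain ⟨H, b1, b2, b3⟩ := RT1_lc hg m a1 (r.F.filter fun c : K => β ≤ c) r.l
      exact ⟨⟨r.A, r.inf, (preM β m ∘ resM β r.T) ∘ H, a1.comp b1, r.F, r.l⟩,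
        ⟨fun v => preM_at β m (resM β r.T (H v)), fun a ha v v' h => b3 a ha v v' fun c hc =>
          h c (Finset.mem_filter.1 hc).1 (Finset.mem_filter.1 hc).2⟩,
        le_rfl, Subset.rfl, .rfl', fun v => ⟨H v,
          ((preM_eqv β m _).trans (resM_eqv β r.T _)).symm,
          fun c hc hc' => b2 v c (Finset.mem_filter.2 ⟨hc, hc'⟩)⟩⟩)
  choose sel hs1 hs2 hs3 using h13
  have hs4 : ∀ m z z', AgW β z z' → sel m z = sel m z' := fun m z z' h =>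
    let ⟨_, _, b1, b2⟩ := hs2 m; b2.agW b1 h
  have hc0 : Continuous fun z : W K => ((z.1, fun _ _ => 0) : W K) :=
    continuous_fst.prodMk continuous_const
  let d : ℕ → W K → ℕ → Bool := fun a z m => g ((sel m z).T (z.1, fun _ _ => 0)) a
  have hd : ∀ a, RTCol β (d a) := fun a => by
    refine ⟨fun m => RT1_cont_lc (hs1 m) (g := fun r z => g (r.T (z.1, fun _ _ => 0)) a) fun r =>
      ((hg.cont a).comp r.fr.cont).comp hc0, fun z z' h => ?_⟩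
    funext m
    simp only [d, hs4 m z z' h.agW, h.1]
  -- second step
  obtain ⟨A2, Q2, hA2, h21, hQ2, -, h22, h23⟩ := FL β ⟨A1, hA1, Q1, hQ1, F, l⟩
    (fun a => {r | ∀ m ∈ r.A, r.l ≤ m → ∀ m' ∈ r.A, r.l ≤ m' → ∀ u, InW β r.T (Q1 u) →
      d a u m = d a u m'})
    (fun a r hr => by
      obtain ⟨A', a1, a2, H, a3, a4, a5⟩ :=
        RT1_pw hβ (hd a) hQ1 r.fr hr.2.2.2.le r.inf r.F r.l
      refine ⟨⟨A' ∪ {m | m ∈ r.A ∧ m < r.l}, a1.mono subset_union_left, r.T ∘ H, r.fr.comp a3,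
          r.F, r.l⟩,
        fun m hm h1 m' hm' h2 u ⟨v, hv⟩ => a5 v v (fun _ _ => .rfl') u u hv hv m ?_ m' ?_,
        le_rfl, Subset.rfl, ⟨union_subset a2 fun _ h => h.1, fun a h1 h2 => .inr ⟨h2, h1⟩⟩,
        leF_comp r.T (a4.fx β)⟩
      · exact hm.resolve_right fun h => h1.not_gt h.2
      · exact hm'.resolve_right fun h => h2.not_gt h.2)
  choose sel' ht1 ht2 ht3 using h23
  have ht4 : ∀ a z z', AgW β z z' → sel' a z = sel' a z' := fun a z z' h =>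
    let ⟨_, _, b1, b2⟩ := ht2 a; b2.agW b1 h
  have hμ : ∀ r : RQ K, ∃ m ∈ r.A, r.l ≤ m := fun r =>
    let ⟨m, h⟩ := (RT1_inf_ge r.inf r.l).nonempty; ⟨m, h⟩
  choose μ hμ1 hμ2 using hμ
  obtain ⟨θ, hθ, eθ, -⟩ := exists_fac hQ2 hQ1 h22.le
  let c : W K → ℕ → Bool := fun z a => d a (θ z) (μ (sel' a z))
  have hc : RTCol β c := by
    refine ⟨fun a => RT1_cont_lc (ht1 a) (g := fun r z => d a (θ z) (μ r)) fun r =>
      ((hd a).comp hθ).cont (μ r), fun z z' h => ?_⟩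
    funext a
    simp only [c, ht4 a z z' h.agW, (hd a).dep _ _ (hθ.eqv h)]
  have hdc : ∀ a z, ∀ m ∈ A2, (sel' a z).l ≤ m → d a (θ z) m = c z a := fun a z m hm h => by
    obtain ⟨b1, b2, w, b3, -⟩ := ht3 a z
    exact b1 m (b2.1 hm) h _ (hμ1 _) (hμ2 _) (θ z) ⟨w, b3.trans (eθ z).symm⟩
  -- third step
  obtain ⟨B, b1, b2, g3, hg3, b3, b4⟩ := RT1_pw hβ hc isFr_id isFr_id .rfl' hA2 F l
  obtain ⟨a0, ha0⟩ := b1.nonempty
  have hH : IsFr (resM β (Q2 ∘ g3)) := (hQ2.comp hg3).resM β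
  refine ⟨B, b1, (b2.trans h21.1).trans h11.1, resM β (Q2 ∘ g3), hH, fun z x hx => ?_,
    fun y => c (g3 (y, fun _ _ => 0)) a0,
    ((hc.cont a0).comp hg3.cont).comp (continuous_id.prodMk continuous_const),
    fun m j F' l' θ1 h1 => ?_⟩
  · obtain ⟨w, c1, c2⟩ := h22 (g3 z)
    obtain ⟨w', c3, c4⟩ := h12 w
    have c5 : (resM β (Q2 ∘ g3) z).1 = w'.1 := (c3.1.trans c1.1).symm
    rw [c5]
    exact ((c4 x hx bot_le).trans (c2 x hx bot_le)).trans (b3 z x hx)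
  let v0 : W K := (fun _ _ => false, fun _ _ => 0)
  have h31 : IsFr (g3 ∘ θ1) := hg3.comp h1
  obtain ⟨m', hm', hm''⟩ := (RT1_inf_ge hA2
    (max (max m j) ((Finset.range j).sup fun a => (sel' a (g3 (θ1 v0))).l))).nonempty
  have h0 : ∀ᶠ v in 𝓝 v0, sel m' (θ (g3 (θ1 v))) = sel m' (θ (g3 (θ1 v0))) ∧
      ∀ a ∈ {a | a < j}, sel' a (g3 (θ1 v)) = sel' a (g3 (θ1 v0)) :=
    (((hs1 m').comp_continuous (hθ.comp h31).cont).eventually_eq v0).and
      ((eventually_all_finite (finite_lt_nat j)).2 fun a _ =>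
        ((ht1 a).comp_continuous h31.cont).eventually_eq v0)
  obtain ⟨Ψ, hΨ, c0, c1⟩ := exists_boxB (β := β) h0 fun z z' h h' =>
    ⟨(hs4 m' _ _ ((hθ.comp h31).agW h)).symm.trans h'.1,
      fun a ha => (ht4 a _ _ (h31.agW h)).symm.trans (h'.2 a ha)⟩
  obtain ⟨r, hr⟩ : ∃ r, r = sel m' (θ (g3 (θ1 v0))) := ⟨_, rfl⟩
  have c2 : ∀ v, ∃ w, Eqv β (r.T w) ((resM β (Q2 ∘ g3) ∘ θ1 ∘ Ψ) v) ∧
      Fx r.F r.l β w (θ (g3 (θ1 (Ψ v)))) := fun v => by
    obtain ⟨-, -, w, e1, e2⟩ := hs3 m' (θ (g3 (θ1 (Ψ v))))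
    rw [(c1 v).1, ← hr] at e1 e2
    exact ⟨w, (e1.trans (eθ _)).trans (resM_eqv β (Q2 ∘ g3) _).symm, e2⟩
  obtain ⟨φ, hφ, c3, -⟩ := exists_fac (β := β) (hH.comp (h1.comp hΨ)) r.fr
    fun v => let ⟨w, e, _⟩ := c2 v; ⟨w, e⟩
  obtain ⟨θ2, hθ2, c4⟩ := RT1_fac_top (r.fr.comp hφ) hH (resM_tl β _)
    fun v => ⟨θ1 (Ψ v), (c3 v).symm⟩
  have c5 : ∀ v, Eqv β (θ1 (Ψ v)) (θ2 v) := fun v =>
    hH.injE ((c3 v).symm.trans ((c4 v).mono le_top).symm)
  obtain ⟨⟨c6, c7⟩, -⟩ := hs3 m' (θ (g3 (θ1 v0)))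
  rw [← hr] at c6 c7
  refine ⟨m', by omega, θ2, hθ2, fun v => ⟨Ψ v, c5 v, c0.fx F' l' v⟩, fun v => ?_,
    fun v a ha hj => ?_⟩
  · rw [← resM_tl β (Q2 ∘ g3) (θ2 v) β le_rfl, (c4 v).2 β (hb.trans_le le_top)]
    exact c6 _
  · obtain ⟨w, e1, e2⟩ := c2 v
    have e3 : Fx r.F r.l β (φ v) ((θ (g3 (θ1 (Ψ v)))).1, fun _ _ => 0) :=
      (Fx.of_eq (r.fr.injE ((c3 v).trans e1.symm)).1).trans e2
    have e4 : (sel' a (g3 (θ1 (Ψ v)))).l ≤ m' := by
      rw [(c1 v).2 a hj]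
      exact (Finset.le_sup (f := fun a => (sel' a (g3 (θ1 v0))).l)
        (Finset.mem_range.2 hj)).trans (by omega)
    have e5 : g (r.T ((θ (g3 (θ1 (Ψ v)))).1, fun _ _ => 0)) a = d a (θ (g3 (θ1 (Ψ v)))) m' := by
      simp only [d, (c1 v).1, ← hr]
    refine (congrFun (hg.dep _ _ ((c4 v).mono le_top)) a).trans ?_
    refine (c7 a (by omega) _ _ e3).trans (e5.trans ((hdc a _ m' hm' e4).trans ?_))
    exact b4 (θ1 (Ψ v)) ((θ2 v).1, fun _ _ => 0) (fun x _ => (c5 v).1 ▸ .rfl') _ _ .rfl' .rfl'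
      a ha a0 ha0

end Pool.Agent.B8P
end

-- merged part: Pool.Agent.Work.MP_b8a914_gt.P.Dich
section
/-! A dichotomy for colourings of the iteration of perfect set forcing. -/

set_option linter.unusedSectionVars false

namespace Pool.Agent.B8P
open Filter Topology Function Set
open Pool.Agent.B8F (Ag)

/-- a preorder with an action of the conditions, and colourings attached to its members -/
structure Sys (K : Type) [LinearOrder K] where
  Q : Type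
  le : Q → Q → Prop
  act : Q → (Y K → Y K) → Q
  col : Q → (Y K → Bool) → Prop
  refl : ∀ q, le q q
  trans : ∀ a b c, le a b → le b c → le a c
  act_le : ∀ q' q η, IsS η → le q' q → le (act q' η) (act q η)
  act_act : ∀ q η ζ, IsS η → IsS ζ → act (act q η) ζ = act q (η ∘ ζ)
  act_id : ∀ q, act q id = q
  glue : ∀ q ρ G l t, le ρ (act q (pcS G l t)) → ∃ q', le q' q ∧ le (act q' (pcS G l t)) ρ
  col_cont : ∀ q c, col q c → Continuous c
  col_act : ∀ q c η, IsS η → col q c → col (act q η) (c ∘ η)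

variable {K : Type} [LinearOrder K]

def Sys.Ext (S : Sys K) (F : Finset K) (l : ℕ) (q' q : S.Q) : Prop :=
  ∃ η, IsS η ∧ FixS F l η ∧ S.le q' (S.act q η)

def Sys.Dns (S : Sys K) (P : S.Q → Prop) (q0 : S.Q) : Prop :=
  ∀ q, S.Ext ∅ 0 q q0 → ∀ F l, ∃ q', S.Ext F l q' q ∧ P q'

theorem Dich_refl (S : Sys K) (F : Finset K) (l : ℕ) (q : S.Q) : S.Ext F l q q :=
  ⟨id, isS_id, fun _ _ _ => Ag.rfl', by rw [S.act_id]; exact S.refl q⟩

theorem Dich_le_act (S : Sys K) {a b c : S.Q} {η ζ : Y K → Y K} (hη : IsS η) (hζ : IsS ζ)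
    (h1 : S.le a (S.act b ζ)) (h2 : S.le b (S.act c η)) : S.le a (S.act c (η ∘ ζ)) := by
  rw [← S.act_act c η ζ hη hζ]
  exact S.trans _ _ _ h1 (S.act_le _ _ _ hζ h2)

theorem Dich_trans (S : Sys K) {F : Finset K} {l : ℕ} {a b c : S.Q} (h1 : S.Ext F l a b)
    (h2 : S.Ext F l b c) : S.Ext F l a c := by
  obtain ⟨ζ, hζ, fζ, h1⟩ := h1
  obtain ⟨η, hη, fη, h2⟩ := h2
  exact ⟨η ∘ ζ, hη.comp hζ, fη.comp fζ, Dich_le_act S hη hζ h1 h2⟩

theorem Dich_empty (S : Sys K) {F : Finset K} {l : ℕ} {a b : S.Q} (h : S.Ext F l a b) (l' : ℕ) :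
    S.Ext ∅ l' a b := by
  obtain ⟨η, hη, -, h⟩ := h
  exact ⟨η, hη, fun _ c hc => absurd hc (Finset.notMem_empty c), h⟩

theorem Dich_act (S : Sys K) (q : S.Q) {η : Y K → Y K} (hη : IsS η) (l : ℕ) :
    S.Ext ∅ l (S.act q η) q :=
  ⟨η, hη, fun _ c hc => absurd hc (Finset.notMem_empty c), S.refl _⟩

theorem Dich_down (S : Sys K) {P : S.Q → Prop} {q0 q1 : S.Q} (h : S.Dns P q0)
    (h1 : S.Ext ∅ 0 q1 q0) : S.Dns P q1 := fun q hq => h q (Dich_trans S hq h1)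

/-- all words of `L` can be continued to the colour `false` above every point -/
def DichAv (b : K) (l : ℕ) (L : List (Y K)) (c : Y K → Bool) : Prop :=
  ∀ y, ∀ t ∈ L, ∃ y', AgS b y' y ∧ Ag l (y' b) (t b) ∧ c y' = false

open Classical in
noncomputable def DichCol (b : K) (l : ℕ) (t : Y K) (c : Y K → Bool) (y : Y K) : Bool :=
  decide (∀ y', AgS b y' y → Ag l (y' b) (t b) → c y' = true)

def DichMix (b : K) (y y' : Y K) : Y K := resS b (fun _ => y) y'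

theorem Dich_mix_lt (b : K) (y y' : Y K) : AgS b (DichMix b y y') y := resS_agS _ _ _

theorem Dich_mix_b (b : K) (y y' : Y K) : DichMix b y y' b = y' b := resS_ge _ _ le_rfl

theorem Dich_res_mix {b : K} {η : Y K → Y K} (hη : IsS η) {y y' : Y K} (h : AgS b y' (η y)) :
    resS b η (DichMix b y y') = y' := by
  funext c
  rcases lt_or_ge (c : WithTop K) b with hc | hc
  · rw [resS_agS _ _ _ c hc, hη.toAd.agS (Dich_mix_lt b y y') c hc, h c hc]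
  · rw [resS_ge _ _ hc]
    exact resS_ge _ _ hc

theorem Dich_av_act {b : K} {l : ℕ} {L : List (Y K)} {c : Y K → Bool} (h : DichAv b l L c)
    {η : Y K → Y K} (hη : IsS η) : DichAv b l L (c ∘ resS b η) := by
  intro y t ht
  obtain ⟨y', h1, h2, h3⟩ := h (η y) t ht
  refine ⟨DichMix b y y', Dich_mix_lt b y y', by rw [Dich_mix_b]; exact h2, ?_⟩
  rw [comp_apply, Dich_res_mix hη h1, h3]

theorem Dich_col_act (b : K) (l : ℕ) (t : Y K) (c : Y K → Bool) {η : Y K → Y K} (hη : IsS η) :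
    DichCol b l t c ∘ η = DichCol b l t (c ∘ resS b η) := by
  funext y
  simp only [comp_apply, DichCol, decide_eq_decide]
  constructor
  · intro h y' h1 h2
    refine h _ ((resS_agS _ _ _).trans (hη.toAd.agS h1)) ?_
    rw [resS_ge _ _ le_rfl]
    exact h2
  · intro h y' h1 h2
    have := h (DichMix b y y') (Dich_mix_lt b y y') (by rw [Dich_mix_b]; exact h2)
    rwa [Dich_res_mix hη h1] at this

theorem Dich_col_cont (b : K) (l : ℕ) (t : Y K) {c : Y K → Bool} (hc : Continuous c) :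
    Continuous (DichCol b l t c) := by
  obtain ⟨F, n, h⟩ := lc_fin ((IsLocallyConstant.iff_continuous c).2 hc)
  have key : ∀ y y0 : Y K, (∀ c ∈ F, Ag n (y c) (y0 c)) →
      (∀ y', AgS b y' y0 → Ag l (y' b) (t b) → c y' = true) →
      ∀ y', AgS b y' y → Ag l (y' b) (t b) → c y' = true := by
    intro y y0 h0 h1 y' h2 h3
    rw [← h1 (DichMix b y0 y') (Dich_mix_lt b y0 y') (by rw [Dich_mix_b]; exact h3)]
    refine h _ _ fun d hd => ?_
    rcases lt_or_ge (d : WithTop K) b with hb | hb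
    · rw [Dich_mix_lt b y0 y' d hb, h2 d hb]
      exact h0 d hd
    · have : DichMix b y0 y' d = y' d := resS_ge _ _ hb
      rw [this]
      exact Ag.rfl'
  refine continuous_iff_continuousAt.2 fun y0 => ?_
  refine tendsto_const_nhds.congr' ((ev_boxS y0 F n).mono fun y hy => ?_)
  simp only [DichCol, decide_eq_decide]
  exact ⟨key y y0 hy, key y0 y fun d hd => (hy d hd).symm⟩

/-- the coordinates from `b` on -/
def DichUp (b : K) (F : Finset K) : Finset K := F.filter fun c => b ≤ c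

def DichLo (b : K) (F : Finset K) : Finset K := F.filter fun c => c < b

theorem Dich_up_ge {b : K} {F : Finset K} {c : K} (h : c ∈ DichUp b F) :
    (b : WithTop K) ≤ c := WithTop.coe_le_coe.2 (Finset.mem_filter.1 h).2

theorem Dich_notLo {b : K} {F : Finset K} {c : K} (h : (b : WithTop K) ≤ c) : c ∉ DichLo b F :=
  fun hc => (WithTop.coe_le_coe.1 h).not_gt (Finset.mem_filter.1 hc).2

theorem Dich_res_pc (b : K) (G : Finset K) (l : ℕ) (t : Y K) :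
    resS b (pcS G l t) = pcS (DichLo b G) l t := by
  funext y c
  rcases lt_or_ge (c : WithTop K) b with hc | hc
  · rw [resS_agS _ _ _ c hc]
    funext i
    have : c ∈ DichLo b G ↔ c ∈ G := by
      simp only [DichLo, Finset.mem_filter, WithTop.coe_lt_coe.1 hc, and_true]
    simp only [pcS, this]
  · rw [resS_ge _ _ hc, pcS_off (Dich_notLo hc)]

def DichLe (S : Sys K) (b : K) (x' x : S.Q × Finset K × ℕ) : Prop :=
  x.2.1 ⊆ x'.2.1 ∧ x.2.2 ≤ x'.2.2 ∧ ∃ θ, IsS θ ∧ (∀ y, AgS b (θ y) y) ∧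
    FixS (DichUp b x.2.1) x.2.2 θ ∧ S.le x'.1 (S.act x.1 θ)

theorem Dich_fix_tl {b : K} {F : Finset K} {l : ℕ} {θ ρ : Y K → Y K}
    (h : FixS (DichUp b F) l θ) (hid : ∀ y (c : K), (b : WithTop K) ≤ c → ρ y c = y c) :
    FixS (DichUp b F) l (tlS b (θ ∘ ρ)) := by
  intro y c hc
  rw [tlS_ge _ _ (Dich_up_ge hc), ← hid y c (Dich_up_ge hc)]
  exact h _ c hc

/-- the derived system -/
noncomputable def DichSys (S : Sys K) (b : K) (l : ℕ) (L : List (Y K)) (t : Y K) : Sys K where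
  Q := S.Q × Finset K × ℕ
  le := DichLe S b
  act x η := (S.act x.1 (resS b η), x.2)
  col x d := ∃ c, S.col x.1 c ∧ DichAv b l L c ∧ d = DichCol b l t c
  refl x := ⟨subset_rfl, le_rfl, id, isS_id, fun _ => AgS.rfl', fun _ _ _ => Ag.rfl', by
    rw [S.act_id]; exact S.refl _⟩
  trans := by
    rintro x y z ⟨a1, a2, θ, a3, a4, a5, a6⟩ ⟨b1, b2, θ', b3, b4, b5, b6⟩
    exact ⟨b1.trans a1, b2.trans a2, θ' ∘ θ, b3.comp a3, fun w => (b4 _).trans (a4 w),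
      b5.comp (a5.mono (Finset.filter_subset_filter _ b1) b2), Dich_le_act S b3 a3 a6 b6⟩
  act_le := by
    rintro x' x η hη ⟨a1, a2, θ, a3, a4, a5, a6⟩
    have hr := hη.res b
    have hid : ∀ y (c : K), (b : WithTop K) ≤ c → resS b η y c = y c :=
      fun y c hc => resS_ge _ _ hc
    have ht := a3.tl hr.toAd hid
    refine ⟨a1, a2, _, ht, tlS_agS _ _, Dich_fix_tl a5 hid, ?_⟩
    have e : resS b η ∘ tlS b (θ ∘ resS b η) = θ ∘ resS b η := by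
      funext y c
      rcases lt_or_ge (c : WithTop K) b with hc | hc
      · rw [comp_apply, comp_apply, a4 _ c hc]
        exact hr.toAd.agS (tlS_agS _ _ y) c hc
      · rw [comp_apply, resS_ge _ _ hc, tlS_ge _ _ hc]
    show S.le (S.act x'.1 (resS b η)) (S.act (S.act x.1 (resS b η)) _)
    rw [S.act_act _ _ _ hr ht, e, ← S.act_act _ _ _ a3 hr]
    exact S.act_le _ _ _ hr a6
  act_act x η ζ hη hζ := by
    show (S.act (S.act x.1 (resS b η)) (resS b ζ), x.2) = _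
    rw [S.act_act _ _ _ (hη.res b) (hζ.res b), resS_comp hη.toAd]
  act_id x := by
    have : resS b (id : Y K → Y K) = id := by
      funext y c
      exact ite_self _
    rw [this, S.act_id]
  glue := by
    rintro x ρ G n s ⟨a1, a2, θ, a3, a4, a5, a6⟩
    have hid : ∀ y (c : K), (b : WithTop K) ≤ c → shS (DichLo b G) n y c = y c :=
      fun y c hc => shS_off (Dich_notLo hc)
    have ht := a3.tl (ad_sh (DichLo b G) n) hid
    have hp := isS_pc (DichLo b G) n s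
    have e : pcS (DichLo b G) n s ∘ θ =
        tlS b (θ ∘ shS (DichLo b G) n) ∘ pcS (DichLo b G) n s := by
      funext y c
      rcases lt_or_ge (c : WithTop K) b with hc | hc
      · rw [comp_apply, comp_apply, tlS_agS _ _ _ c hc]
        exact hp.toAd.agS (a4 y) c hc
      · rw [comp_apply, comp_apply, tlS_ge _ _ hc, comp_apply, sh_pc, pcS_off (Dich_notLo hc)]
    change S.le ρ.1 (S.act (S.act x.1 (resS b (pcS G n s))) θ) at a6
    rw [Dich_res_pc, S.act_act _ _ _ hp a3, e, ← S.act_act _ _ _ ht hp] at a6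
    obtain ⟨q', h1, h2⟩ := S.glue _ _ _ _ _ a6
    refine ⟨(q', ρ.2), ⟨a1, a2, _, ht, tlS_agS _ _, Dich_fix_tl a5 hid, h1⟩,
      subset_rfl, le_rfl, id, isS_id, fun _ => AgS.rfl', fun _ _ _ => Ag.rfl', ?_⟩
    show S.le (S.act q' (resS b (pcS G n s))) _
    rw [Dich_res_pc, S.act_id]
    exact h2
  col_cont := by
    rintro x d ⟨c, h1, -, rfl⟩
    exact Dich_col_cont b l t (S.col_cont _ _ h1)
  col_act := by
    rintro x d η hη ⟨c, h1, h2, rfl⟩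
    exact ⟨_, S.col_act _ _ _ (hη.res b) h1, Dich_av_act h2 hη, Dich_col_act b l t c hη⟩

def DichExt (S : Sys K) (b : K) (F : Finset K) (l : ℕ) (x' x : S.Q × Finset K × ℕ) : Prop :=
  ∃ η, IsS η ∧ FixS F l η ∧ DichLe S b x' (S.act x.1 (resS b η), x.2)

theorem Dich_up (S : Sys K) (b : K) {q q' : S.Q} {ζ : Y K → Y K} {F1 F2 F2' : Finset K}
    {l1 l2 l2' : ℕ} (hζ : IsS ζ) (h1 : FixS F1 l1 ζ) (h2 : FixS (DichUp b F2) l2 ζ)
    (hF : F2 ⊆ F2') (hl : l2 ≤ l2') (h : S.le q' (S.act q ζ)) :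
    DichExt S b F1 l1 (q', F2', l2') (q, F2, l2) := by
  have ht : IsS (tlS b ζ) := hζ.tl (ρ := id) isS_id.toAd fun _ _ _ => rfl
  refine ⟨ζ, hζ, h1, hF, hl, _, ht, tlS_agS _ _,
    Dich_fix_tl (ρ := id) h2 fun _ _ _ => rfl, ?_⟩
  show S.le q' (S.act (S.act q (resS b ζ)) (tlS b ζ))
  rw [S.act_act _ _ _ (hζ.res b) ht, res_tl hζ.toAd]
  exact h

theorem Dich_dn (S : Sys K) (b : K) {F : Finset K} {l : ℕ} {x' x : S.Q × Finset K × ℕ}
    (h : DichExt S b F l x' x) : x.2.1 ⊆ x'.2.1 ∧ x.2.2 ≤ x'.2.2 ∧ ∃ ξ, IsS ξ ∧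
      FixS (DichLo b F) l ξ ∧ FixS (DichUp b x.2.1) x.2.2 ξ ∧ S.le x'.1 (S.act x.1 ξ) := by
  obtain ⟨η, hη, f, a1, a2, θ, a3, a4, a5, a6⟩ := h
  refine ⟨a1, a2, resS b η ∘ θ, (hη.res b).comp a3, fun y c hc => ?_, fun y c hc => ?_, ?_⟩
  · obtain ⟨c1, c2⟩ := Finset.mem_filter.1 hc
    have c3 : (c : WithTop K) < b := WithTop.coe_lt_coe.2 c2
    rw [comp_apply, resS_agS _ _ _ c c3, ← a4 y c c3]
    exact f _ c c1
  · rw [comp_apply, resS_ge _ _ (Dich_up_ge hc)]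
    exact a5 y c hc
  · rw [← S.act_act _ _ _ (hη.res b) a3]
    exact a6

theorem Dich_lo (S : Sys K) (b : K) {F : Finset K} {l : ℕ} {x' x : S.Q × Finset K × ℕ}
    (h : DichExt S b (DichLo b F) l x' x) : DichExt S b F l x' x := by
  obtain ⟨η, hη, f, a⟩ := h
  have e : resS b (resS b η) = resS b η := by
    funext y c
    rcases lt_or_ge (c : WithTop K) b with hc | hc
    · exact resS_agS _ _ _ c hc
    · rw [resS_ge _ _ hc, resS_ge _ _ hc]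
  refine ⟨resS b η, hη.res b, fun y c hc => ?_, by rw [e]; exact a⟩
  rcases lt_or_ge (c : WithTop K) b with hb | hb
  · rw [resS_agS _ _ _ c hb]
    exact f y c (Finset.mem_filter.2 ⟨hc, WithTop.coe_lt_coe.1 hb⟩)
  · rw [resS_ge _ _ hb]
    exact Ag.rfl'

/-- density of the colour `true` in the derived system gives it on a piece -/
theorem Dich_piece (S : Sys K) (b : K) (l : ℕ) (L : List (Y K)) (t : Y K)
    (x : S.Q × Finset K × ℕ) (hb : b ∈ x.2.1) (hl : l ≤ x.2.2)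
    (h : (DichSys S b l L t).Dns (fun z => (DichSys S b l L t).col z fun _ => true) x) :
    S.Dns (fun q => S.col q fun _ => true) (S.act x.1 (pcS (DichUp b x.2.1) x.2.2 t)) := by
  obtain ⟨q1, F2, l2⟩ := x
  rintro ρ ⟨ζ, hζ, -, hρ⟩ F3 l3
  simp only at hb hl hρ
  set G := DichUp b F2 with hG
  have hp := isS_pc G l2 t
  have hg := hζ.gl G l2 t
  have e : pcS G l2 t ∘ ζ = glS G l2 t ζ ∘ pcS G l2 t :=
    funext fun y => (glS_pc G l2 t ζ y).symm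
  rw [S.act_act _ _ _ hp hζ, e, ← S.act_act _ _ _ hg hp] at hρ
  obtain ⟨q2, h1, h2⟩ := S.glue _ _ _ _ _ hρ
  have h3 : DichExt S b ∅ 0 (q2, F2 ∪ F3, l2 + l3) (q1, F2, l2) :=
    Dich_up S b hg (fun _ c hc => absurd hc (Finset.notMem_empty c)) (glS_fix G l2 t ζ)
      Finset.subset_union_left (Nat.le_add_right _ _) h1
  obtain ⟨x3, h4, c, h5, -, h6⟩ := h (q2, F2 ∪ F3, l2 + l3) h3 F3 l3
  obtain ⟨-, -, ξ, k1, k2, k3, k4⟩ := Dich_dn S b h4
  simp only at k3 k4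
  have k5 : FixS G l2 ξ :=
    k3.mono (Finset.filter_subset_filter _ Finset.subset_union_left) (Nat.le_add_right _ _)
  have k6 := k1.conj k5 t
  refine ⟨S.act x3.1 (pcS G l2 t), ⟨_, k6, fun y d hd => ?_, ?_⟩, ?_⟩
  · have hu : b ≤ d → d ∈ DichUp b (F2 ∪ F3) := fun hbd =>
      Finset.mem_filter.2 ⟨Finset.mem_union_right _ hd, hbd⟩
    by_cases hdG : d ∈ G
    · intro i hi
      have := k3 (pcS G l2 t y) d (hu (Finset.mem_filter.1 hdG).2) (i + l2) (by omega)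
      simp only [comp_apply, shS, if_pos hdG, this, pcS, if_neg (show ¬ i + l2 < l2 by omega),
        Nat.add_sub_cancel]
    · rw [comp_apply, comp_apply, shS_off hdG, ← pcS_off (l := l2) (t := t) (y := y) hdG]
      rcases lt_or_ge d b with hdb | hdb
      · exact k2 _ d (Finset.mem_filter.2 ⟨hd, hdb⟩)
      · exact (k3 _ d (hu hdb)).mono (Nat.le_add_left _ _)
  · have e2 : ξ ∘ pcS G l2 t = pcS G l2 t ∘ (shS G l2 ∘ ξ ∘ pcS G l2 t) :=
      funext fun y => (pc_conj k5 t y).symm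
    have h7 := S.act_le _ _ _ hp k4
    rw [S.act_act _ _ _ k1 hp, e2, ← S.act_act _ _ _ hp k6] at h7
    exact S.trans _ _ _ h7 (S.act_le _ _ _ k6 h2)
  · have e3 : c ∘ pcS G l2 t = fun _ => true := by
      funext y
      have h8 : DichCol b l t c (pcS G l2 t y) = true := (congrFun h6 _).symm
      simp only [DichCol, decide_eq_true_eq] at h8
      exact h8 _ AgS.rfl' ((pcS_ag (Finset.mem_filter.2 ⟨hb, le_rfl⟩)).mono hl)
    rw [← e3]
    exact S.col_act _ _ _ hp h5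

def DichCl (β : WithTop K) : Prop :=
  ∀ (S : Sys K) (q0 : S.Q), S.Dns (fun q => ∃ c, S.col q c) q0 →
    (∀ q1, S.Ext ∅ 0 q1 q0 → ¬ S.Dns (fun q => S.col q fun _ => true) q1) →
    ∀ (F : Finset K) (l : ℕ), (∀ c ∈ F, (c : WithTop K) < β) →
      ∃ q', S.Ext F l q' q0 ∧ S.col q' fun _ => false

theorem Dich_base (S : Sys K) (q0 : S.Q) (h : S.Dns (fun q => ∃ c, S.col q c) q0)
    (hno : ¬ S.Dns (fun q => S.col q fun _ => true) q0) (l : ℕ) :
    ∃ q', S.Ext ∅ l q' q0 ∧ S.col q' fun _ => false := by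
  simp only [Sys.Dns, not_forall, not_exists, not_and] at hno
  obtain ⟨q, hq, F2, l2, hno⟩ := hno
  obtain ⟨q', h1, c, h2⟩ := h q hq F2 l2
  have h3 : ∃ y0, c y0 = false := by
    by_contra hc
    have : c = fun _ => true := funext fun y => by
      cases hy : c y
      · exact absurd ⟨y, hy⟩ hc
      · rfl
    exact hno q' h1 (this ▸ h2)
  obtain ⟨y0, h3⟩ := h3
  obtain ⟨G, n, h4⟩ := lc_fin ((IsLocallyConstant.iff_continuous c).2 (S.col_cont _ _ h2))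
  have hp := isS_pc G n y0
  refine ⟨S.act q' (pcS G n y0), Dich_trans S (Dich_act S q' hp l)
    (Dich_trans S (Dich_empty S h1 l) (Dich_empty S hq l)), ?_⟩
  have e : c ∘ pcS G n y0 = fun _ => false :=
    funext fun y => (h4 _ _ fun d hd => pcS_ag hd).trans h3
  rw [← e]
  exact S.col_act _ _ _ hp h2

theorem Dich_words (S : Sys K) (q0 : S.Q) (h : S.Dns (fun q => ∃ c, S.col q c) q0)
    (hno : ∀ q1, S.Ext ∅ 0 q1 q0 → ¬ S.Dns (fun q => S.col q fun _ => true) q1)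
    (b : K) (ih : DichCl (b : WithTop K)) (l : ℕ) (L : List (Y K)) :
    ∀ x, DichExt S b ∅ 0 x (q0, {b}, l) → ∀ F1 l1, ∃ x', DichExt S b F1 l1 x' x ∧
      ∃ c, S.col x'.1 c ∧ DichAv b l L c := by
  have low : ∀ x, DichExt S b ∅ 0 x (q0, {b}, l) →
      b ∈ x.2.1 ∧ l ≤ x.2.2 ∧ S.Ext ∅ 0 x.1 q0 := fun x hx => by
    obtain ⟨a1, a2, ξ, a3, -, -, a4⟩ := Dich_dn S b hx
    exact ⟨a1 (Finset.mem_singleton_self b), a2,
      ξ, a3, fun _ c hc => absurd hc (Finset.notMem_empty c), a4⟩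
  induction L with
  | nil =>
    rintro ⟨q1, F2, l2⟩ hx F1 l1
    obtain ⟨q', ⟨ζ, a1, a2, a3⟩, c, a4⟩ := h q1 (low _ hx).2.2 (F1 ∪ F2) (l1 + l2)
    exact ⟨(q', F2, l2), Dich_up S b a1 (a2.mono Finset.subset_union_left (Nat.le_add_right _ _))
      (a2.mono ((Finset.filter_subset _ _).trans Finset.subset_union_right) (Nat.le_add_left _ _))
      subset_rfl le_rfl a3, c, a4, fun _ _ ht => absurd ht List.not_mem_nil⟩
  | cons t L ihL =>
    intro x hx F1 l1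
    have d1 : (DichSys S b l L t).Dns (fun z => ∃ d, (DichSys S b l L t).col z d)
        (q0, {b}, l) := fun z hz F l' => by
      obtain ⟨x', a1, c, a2, a3⟩ := ihL z hz F l'
      exact ⟨x', a1, _, c, a2, a3, rfl⟩
    obtain ⟨x', a1, c, a2, a3, a4⟩ := ih (DichSys S b l L t) x (Dich_down _ d1 hx)
      (fun x1 h1 hd => by
        obtain ⟨b1, b2, b3⟩ := low x1 (Dich_trans (DichSys S b l L t) h1 hx)
        exact hno _ (Dich_trans S (Dich_act S _ (isS_pc _ _ _) 0) b3)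
          (Dich_piece S b l L t x1 b1 b2 hd))
      (DichLo b F1) l1 fun c hc => WithTop.coe_lt_coe.2 (Finset.mem_filter.1 hc).2
    refine ⟨x', Dich_lo S b a1, c, a2, fun y s hs => ?_⟩
    rcases List.mem_cons.1 hs with rfl | hs
    · have a5 : DichCol b l s c y = false := (congrFun a4 y).symm
      simp only [DichCol, decide_eq_false_iff_not, not_forall, Bool.not_eq_true] at a5
      obtain ⟨y', c1, c2, c3⟩ := a5
      exact ⟨y', c1, c2, c3⟩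
    · exact a3 y s hs

variable [WellFoundedLT K]

theorem Dich_cl (β : WithTop K) : DichCl β := by
  induction β using WellFoundedLT.induction with
  | ind β ih =>
  intro S q0 h hno F l hF
  rcases F.eq_empty_or_nonempty with rfl | hne
  · exact Dich_base S q0 h (hno q0 (Dich_refl S _ _ q0)) l
  set b := F.max' hne with hb
  obtain ⟨L, hL⟩ := exists_words ({b} : Finset K) l
  obtain ⟨x', a1, c, a2, a3⟩ := Dich_words S q0 h hno b (ih _ (hF b (F.max'_mem hne))) l L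
    (q0, {b}, l) (Dich_refl (DichSys S b l [] fun _ _ => true) ∅ 0 (q0, {b}, l)) F l
  obtain ⟨-, -, ξ, k1, k2, k3, k4⟩ := Dich_dn S b a1
  obtain ⟨ζ, z1, z2, z3, z4⟩ := exists_section (S.col_cont _ _ a2) b l false fun y => by
    obtain ⟨t, t1, t2⟩ := hL y
    obtain ⟨y', c1, c2, c3⟩ := a3 y t t1
    exact ⟨y', c1, c2.trans (t2 b (Finset.mem_singleton_self b)).symm, c3⟩
  refine ⟨S.act x'.1 ζ, ⟨ξ ∘ ζ, k1.comp z1, fun y d hd => ?_,
    Dich_le_act S k1 z1 (S.refl _) k4⟩, ?_⟩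
  · rcases (F.le_max' d hd).lt_or_eq with hdb | hdb
    · rw [← z2 y d (WithTop.coe_lt_coe.2 hdb)]
      exact k2 _ d (Finset.mem_filter.2 ⟨hd, hdb⟩)
    · have hd' : d ∈ ({b} : Finset K) := Finset.mem_singleton.2 hdb
      exact (k3 _ d (Finset.mem_filter.2 ⟨hd', hdb.ge⟩)).trans (z3 y d hd')
  · have e : c ∘ ζ = fun _ => false := funext z4
    rw [← e]
    exact S.col_act _ _ _ z1 a2

theorem dich (S : Sys K) (q0 : S.Q) (h : S.Dns (fun q => ∃ c, S.col q c) q0) :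
    ∃ e q1, S.Ext ∅ 0 q1 q0 ∧ S.Dns (fun q => S.col q fun _ => e) q1 := by
  by_cases hy : ∃ q1, S.Ext ∅ 0 q1 q0 ∧ S.Dns (fun q => S.col q fun _ => true) q1
  · exact ⟨true, hy⟩
  refine ⟨false, q0, Dich_refl S _ _ q0, fun q hq F l => ?_⟩
  exact Dich_cl ⊤ S q (Dich_down S h hq) (fun q1 h1 hd => hy ⟨q1, Dich_trans S h1 hq, hd⟩) F l
    fun c _ => WithTop.coe_lt_top c

end Pool.Agent.B8P
end

-- merged part: Pool.Agent.Work.MP_b8a914_gt.P.RT
section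
/-! The Ramsey property of the frames. -/

set_option linter.unusedSectionVars false

namespace Pool.Agent.B8P
open Filter Topology Function Set
open Pool.Agent.B8F (Ag Pt AgB IsMi IsLen)

variable {K : Type} [LinearOrder K] [WellFoundedLT K] [OrderBot K]

/-- the system for colourings of the perfect set part -/
def RTSys0 (f : W K → ℕ → Bool) (hf : ∀ a, Continuous fun z => f z a) (A : Set ℕ) : Sys K where
  Q := (Y K → Y K) × ℕ
  le q' q := q'.1 = q.1 ∧ q.2 ≤ q'.2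
  act q η := (q.1 ∘ η, q.2)
  col q c := q.2 ∈ A ∧ Continuous q.1 ∧ c = fun y => f (q.1 y, fun _ _ => 0) q.2
  refl _ := ⟨rfl, le_rfl⟩
  trans _ _ _ h h' := ⟨h.1.trans h'.1, h'.2.trans h.2⟩
  act_le _ _ η _ h := ⟨congrArg (· ∘ η) h.1, h.2⟩
  act_act _ _ _ _ _ := rfl
  act_id _ := rfl
  glue q ρ _ _ _ h := ⟨(q.1, ρ.2), ⟨rfl, h.2⟩, h.1.symm, le_rfl⟩
  col_cont := by
    rintro q c ⟨-, h, rfl⟩
    exact (hf q.2).comp (h.prodMk continuous_const)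
  col_act := by
    rintro q c η hη ⟨h1, h, rfl⟩
    exact ⟨h1, h.comp hη.cont, rfl⟩

theorem RT_eqv_bot {z z' : W K} (h : z.1 = z'.1) : Eqv ⊥ z z' :=
  ⟨h, fun _ hγ => absurd hγ not_lt_bot⟩

theorem RT_bot : RTp (⊥ : WithTop K) := by
  intro f hf A hA
  obtain ⟨e, ⟨η1, j1⟩, ⟨η, hη, -, h1, -⟩, h2⟩ := dich (RTSys0 f hf.cont A) (id, 0) (by
    rintro ⟨ζ, j⟩ ⟨η, hη, -, h1, -⟩ F l
    obtain ⟨a, ha, hj⟩ := hA.exists_gt j
    have h2 : ζ = η := h1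
    exact ⟨(ζ, a), ⟨id, isS_id, fun _ _ _ => .rfl', rfl, hj.le⟩, _, ha, h2 ▸ hη.cont, rfl⟩)
  have h3 : η1 = η := h1
  subst h3
  obtain ⟨A', Q, -, -, hQ, -, -, h4⟩ := FL ⊥ ⟨A, hA, Prod.map η1 id, hη.fr, ∅, 0⟩
    (fun n => {r | ∃ a ∈ A, n ≤ a ∧ ∀ v, f (r.T v) a = e})
    (fun n r hr => by
      obtain ⟨θ, a1, a2, -⟩ := exists_fac r.fr hη.fr hr.2.2.2.le
      obtain ⟨⟨ξ', j'⟩, ⟨ξ, b1, b2, b3, b4⟩, b5, -, b6⟩ := h2 (η1 ∘ sp θ, max j1 n)
        ⟨sp θ, a1.isS, fun _ c hc => absurd hc (Finset.notMem_empty c), rfl, le_max_left _ _⟩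
        r.F r.l
      have b7 : ξ' = (η1 ∘ sp θ) ∘ ξ := b3
      have b8 : max j1 n ≤ j' := b4
      refine ⟨⟨r.A, r.inf, r.T ∘ Prod.map ξ id, r.fr.comp b1.fr, r.F, r.l⟩,
        ⟨j', b5, (le_max_right _ _).trans b8, fun v => ?_⟩, le_rfl, Subset.rfl, .rfl',
        leF_comp r.T fun z c hc _ => b2 z.1 c hc⟩
      have b9 : e = f (ξ' v.1, fun _ _ => 0) j' := congrFun b6 v.1
      rw [b9]
      refine congrFun (hf.dep _ _ (RT_eqv_bot ?_)) j'
      have c1 : η1 (θ (ξ v.1, v.2)).1 = (r.T (ξ v.1, v.2)).1 := (a2 (ξ v.1, v.2)).1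
      rw [a1.fst] at c1
      rw [b7]
      exact c1.symm)
  refine ⟨Q, hQ, {a | a ∈ A ∧ ∀ v, f (Q v) a = e}, ?_, fun _ h => h.1, e, fun v a ha => ha.2 v⟩
  refine Set.infinite_of_forall_exists_gt fun n => ?_
  obtain ⟨sel, -, ⟨s, -, d1, d2⟩, d3⟩ := h4 (n + 1)
  let v0 : W K := (fun _ _ => false, fun _ _ => 0)
  obtain ⟨⟨a, ha, hn, d4⟩, -⟩ := d3 v0
  refine ⟨a, ⟨ha, fun v => ?_⟩, hn⟩
  obtain ⟨-, -, w, d5, -⟩ := d3 v
  have d6 : sel v = sel v0 := d2.agW d1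
    ⟨fun _ hc => absurd hc not_lt_bot, fun _ hγ => absurd hγ not_lt_bot⟩
  rw [← hf.dep _ _ d5, d6]
  exact d4 w

/-- the colour `e` is admissible everywhere below -/
def RTFull (f : W K → ℕ → Bool) (δ : WithTop K) (e : Bool) (A : Set ℕ) (T : W K → W K) : Prop :=
  ∀ β < δ, ∀ A', A'.Infinite → A' ⊆ A → ∀ T', IsFr T' → LeW δ T' T → ∀ F l,
    ∃ B, B.Infinite ∧ B ⊆ A' ∧ ∃ T'', IsFr T'' ∧ LeF F l ⊥ δ T'' T' ∧
      Pers (fun z => f (T'' z)) β (fun _ => e) B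

/-- conditions with a coordinate below `δ` -/
structure RTQ (δ : WithTop K) where
  A : Set ℕ
  inf : A.Infinite
  T : W K → W K
  fr : IsFr T
  b : WithTop K
  hb : b < δ

def RTQ.le {δ : WithTop K} (q' q : RTQ δ) : Prop :=
  q'.A ⊆ q.A ∧ q.b ≤ q'.b ∧ ∀ v, ∃ w : W K, w.1 = v.1 ∧ Eqv δ (q.T w) (q'.T v)

open Classical in
noncomputable def RTQ.act {δ : WithTop K} (q : RTQ δ) (η : Y K → Y K) : RTQ δ :=
  if h : IsS η then ⟨q.A, q.inf, q.T ∘ Prod.map η id, q.fr.comp h.fr, q.b, q.hb⟩ else q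

theorem RTQ.act_eq {δ : WithTop K} (q : RTQ δ) {η : Y K → Y K} (h : IsS η) :
    q.act η = ⟨q.A, q.inf, q.T ∘ Prod.map η id, q.fr.comp h.fr, q.b, q.hb⟩ := dif_pos h

/-- the system of persistent colours -/
noncomputable def RTSys {δ : WithTop K} {f : W K → ℕ → Bool} (hf : RTCol δ f) : Sys K where
  Q := RTQ δ
  le := RTQ.le
  act := RTQ.act
  col q c := Continuous c ∧ Pers (fun z => f (q.T z)) q.b c q.A
  refl _ := ⟨Subset.rfl, le_rfl, fun v => ⟨v, rfl, .rfl'⟩⟩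
  trans _ _ _ h h' := ⟨h.1.trans h'.1, h'.2.1.trans h.2.1, fun v =>
    let ⟨w, a1, a2⟩ := h.2.2 v
    let ⟨w', b1, b2⟩ := h'.2.2 w
    ⟨w', b1.trans a1, b2.trans a2⟩⟩
  act_le q' q η hη h := by
    rw [q'.act_eq hη, q.act_eq hη]
    refine ⟨h.1, h.2.1, fun v => ?_⟩
    obtain ⟨⟨w1, w2⟩, a1, a2⟩ := h.2.2 (η v.1, v.2)
    have a3 : w1 = η v.1 := a1
    subst a3
    exact ⟨(v.1, w2), rfl, a2⟩
  act_act q η ζ hη hζ := by
    rw [q.act_eq hη, RTQ.act_eq _ hζ, q.act_eq (hη.comp hζ)]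
    rfl
  act_id q := by
    rw [q.act_eq isS_id]
    rfl
  glue q ρ G l t h := by
    rw [q.act_eq (isS_pc G l t)] at h
    obtain ⟨h1, h2, h3⟩ := h
    have hp : IsFr (q.T ∘ Prod.map (pcS G l t) id) := q.fr.comp (isS_pc G l t).fr
    obtain ⟨θ, a1, a2, -⟩ := exists_fac (β := δ) ρ.fr hp fun v =>
      let ⟨w, _, b⟩ := h3 v; ⟨w, b⟩
    have a3 : ∀ v, (θ v).1 = v.1 := fun v =>
      let ⟨w, b1, b2⟩ := h3 v
      (hp.injE ((a2 v).trans b2.symm)).1.trans b1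
    refine ⟨⟨ρ.A, ρ.inf, q.T ∘ fun z : W K => ((z.1, (θ (shS G l z.1, z.2)).2) : W K),
      q.fr.comp (a1.reparam (ad_sh G l)), ρ.b, ρ.hb⟩,
      ⟨h1, h2, fun v => ⟨(v.1, (θ (shS G l v.1, v.2)).2), rfl, .rfl'⟩⟩, ?_⟩
    rw [RTQ.act_eq _ (isS_pc G l t)]
    refine ⟨Subset.rfl, le_rfl, fun v => ⟨v, rfl, ?_⟩⟩
    have a4 := (a2 v).symm
    have a5 : Prod.map (pcS G l t) id (θ v) =
        ((pcS G l t v.1, (θ (shS G l (pcS G l t v.1), v.2)).2) : W K) := by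
      rw [sh_pc]
      exact Prod.ext (congrArg (pcS G l t) (a3 v)) rfl
    rw [comp_apply, a5] at a4
    exact a4
  col_cont _ _ h := h.1
  col_act q c η hη h := by
    rw [q.act_eq hη]
    exact ⟨h.1.comp hη.cont, h.2.act (hf.comp q.fr) q.hb hη.fr fun _ _ _ => rfl⟩

theorem RT_ext {δ : WithTop K} {f : W K → ℕ → Bool} (hf : RTCol δ f) {F : Finset K} {l : ℕ}
    {q' q : RTQ δ} {θ : W K → W K} (hθ : IsFr θ) (h1 : FixW F l θ) (h2 : q'.A ⊆ q.A)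
    (h3 : q.b ≤ q'.b) (h4 : ∀ v, Eqv δ (q.T (θ v)) (q'.T v)) : (RTSys hf).Ext F l q' q := by
  refine ⟨sp θ, hθ.isS, fun y c hc => h1 (y, fun _ _ => 0) c hc, ?_⟩
  show RTQ.le q' (q.act (sp θ))
  rw [q.act_eq hθ.isS]
  refine ⟨h2, h3, fun v => ⟨(v.1, (θ v).2), rfl, ?_⟩⟩
  have e : Prod.map (sp θ) id ((v.1, (θ v).2) : W K) = θ v := Prod.ext (hθ.fst v).symm rfl
  show Eqv δ (q.T (Prod.map (sp θ) id ((v.1, (θ v).2) : W K))) (q'.T v)
  rw [e]
  exact h4 v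

theorem RT_of_ext {δ : WithTop K} {f : W K → ℕ → Bool} (hf : RTCol δ f) {F : Finset K} {l : ℕ}
    {q' q : RTQ δ} (h : (RTSys hf).Ext F l q' q) :
    q'.A ⊆ q.A ∧ q.b ≤ q'.b ∧ LeF F l ⊥ δ q'.T q.T := by
  obtain ⟨η, hη, h1, h2⟩ := h
  change RTQ.le q' (q.act η) at h2
  rw [q.act_eq hη] at h2
  refine ⟨h2.1, h2.2.1, fun v => ?_⟩
  obtain ⟨w, a1, a2⟩ := h2.2.2 v
  exact ⟨Prod.map η id w, a2, fun c hc _ => a1 ▸ h1 w.1 c hc⟩

theorem RT_dich {δ : WithTop K} (hδ : ⊥ < δ) (ih : ∀ β < δ, RTp β) {f : W K → ℕ → Bool}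
    (hf : RTCol δ f) {A : Set ℕ} (hA : A.Infinite) :
    ∃ e A0, A0.Infinite ∧ A0 ⊆ A ∧ ∃ T0, IsFr T0 ∧ RTFull f δ e A0 T0 := by
  obtain ⟨e, q1, h1, h2⟩ := dich (RTSys hf) ⟨A, hA, id, isFr_id, ⊥, hδ⟩ fun q _ F l => by
    obtain ⟨B, b1, b2, H, b3, b4, c, b5, b6⟩ :=
      RT_cs q.hb (ih q.b q.hb) (hf.comp q.fr) q.inf F l
    exact ⟨⟨B, b1, q.T ∘ H, q.fr.comp b3, q.b, q.hb⟩,
      RT_ext hf b3 b4 b2 le_rfl fun _ => .rfl', c, b5, b6⟩
  refine ⟨e, q1.A, q1.inf, (RT_of_ext hf h1).1, q1.T, q1.fr,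
    fun β hβ A' a1 a2 T' a3 a4 F l => ?_⟩
  obtain ⟨θ, c1, c2, -⟩ := exists_fac a3 q1.fr a4
  obtain ⟨q', d1, -, d2⟩ := h2 ⟨A', a1, T', a3, max β q1.b, max_lt hβ q1.hb⟩
    (RT_ext hf c1 (fun _ c hc => absurd hc (Finset.notMem_empty c)) a2 (le_max_right _ _) c2) F l
  obtain ⟨e1, e2, e3⟩ := RT_of_ext hf d1
  exact ⟨q'.A, q'.inf, e1, q'.T, q'.fr, e3,
    d2.down (hf.comp q'.fr) ((le_max_left _ _).trans e2)⟩

theorem RT_full {δ : WithTop K} (hδ : ⊥ < δ) {f : W K → ℕ → Bool} (hf : RTCol δ f) {e : Bool}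
    {A0 : Set ℕ} (hA0 : A0.Infinite) {T0 : W K → W K} (hT0 : IsFr T0) (h : RTFull f δ e A0 T0) :
    ∃ Ψ, IsFr Ψ ∧ ∃ B, B.Infinite ∧ B ⊆ A0 ∧ ∀ v, ∀ a ∈ B, f (Ψ v) a = e := by
  let Val : WithTop K → Set (RQ K) := fun β => {r | r.A ⊆ A0 ∧ LeW δ r.T T0 ∧
    (∀ v, ∀ a ∈ r.A, a < r.l → f (r.T v) a = e) ∧
    Pers (fun z => f (r.T z)) β (fun _ => e) {a | a ∈ r.A ∧ r.l ≤ a}}
  obtain ⟨B, b1, b2, T1, b5, b6, b7⟩ := h ⊥ hδ A0 hA0 Subset.rfl T0 hT0 .rfl' ∅ 0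
  obtain ⟨A', Q, c0, c1, c2, c3⟩ := master hδ Val (fun n β => {r | r ∈ Val β ∧ n ≤ r.l})
    (fun _ _ _ h => h.1) ⟨B, b1, T1, b5, ∅, 0⟩
    ⟨b2, b6.le, fun _ _ _ h => absurd h (Nat.not_lt_zero _), b7.sub fun _ h => h.1⟩
    (fun β β' hb hb' r hr n m r1 h1 => by
      obtain ⟨r1', r3', r4', r5'⟩ := hr
      obtain ⟨θ1, t1, t2, -⟩ := exists_fac r1.fr r.fr h1.2.2.2.le
      obtain ⟨m', a1, θ2, a2, a3, a4, a5⟩ := r5' m (max r1.l n) r1.F r1.l θ1 t1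
      have a6 : SuccW δ β m' r.T (r.T ∘ θ2) := fun v => ⟨θ2 v, .rfl', a4 v⟩
      have a7 : LeF r1.F r1.l β β (r.T ∘ θ2) r1.T := fun v =>
        let ⟨w, x1, x2⟩ := a3 v
        ⟨w, (t2 w).symm.trans (r.fr.eqv x1), x2⟩
      obtain ⟨B, d1, d2, T3, d5, d6, d7⟩ := h β' hb' _ (RT1_inf_ge r1.inf (max r1.l n))
        (fun _ h => r1' (h1.2.2.1.1 h.1)) (r.T ∘ θ2) (r.fr.comp a2) (a6.le.trans r3') r1.F r1.l
      have hs : B ∪ {a | a ∈ r1.A ∧ a < max r1.l n} ⊆ r1.A :=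
        union_subset (fun _ h => (d2 h).1) fun _ h => h.1
      refine ⟨⟨B ∪ {a | a ∈ r1.A ∧ a < max r1.l n}, d1.mono subset_union_left, T3, d5, r1.F,
        max r1.l n⟩, ⟨⟨(hs.trans h1.2.2.1.1).trans r1', d6.le.trans (a6.le.trans r3'),
          fun v a ha hl => ?_,
          d7.sub fun a ha => ha.1.resolve_right fun h => ha.2.not_gt h.2⟩, le_max_right _ _⟩,
        ⟨le_max_left _ _, Subset.rfl,
          ⟨hs, fun a h1 h2 => .inr ⟨h2, h1.trans_le (le_max_left _ _)⟩⟩,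
          (d6.mono Subset.rfl le_rfl bot_le (hb.trans hb'.le)).trans a7⟩, m', a1,
        a6.of_le d6.le⟩
      have ha' : a ∈ r.A := h1.2.2.1.1 (hs ha)
      obtain ⟨w, hw, -⟩ := d6 v
      show f (T3 v) a = e
      rw [← hf.dep _ _ hw]
      by_cases hlt : a < r.l
      · exact r4' (θ2 w) a ha' hlt
      · exact a5 w a ⟨ha', not_lt.1 hlt⟩ hl)
  refine ⟨Q, c2, A', c0, c1.1.trans b2, fun v a ha => ?_⟩
  obtain ⟨β', r, ⟨⟨-, -, h4, -⟩, h5⟩, h6, w, hw⟩ := c3 (a + 1) v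
  rw [← hf.dep _ _ hw]
  exact h4 w a (h6.1 ha) h5

theorem RT (δ : WithTop K) : RTp δ := by
  induction δ using WellFoundedLT.induction with
  | _ δ ih =>
    rcases (bot_le (a := δ)).eq_or_lt with rfl | hδ
    · exact RT_bot
    · intro f hf A hA
      obtain ⟨e, A0, a1, a2, T0, a3, a4⟩ := RT_dich hδ ih hf hA
      obtain ⟨Ψ, b1, B, b2, b3, b4⟩ := RT_full hδ hf a1 a3 a4
      exact ⟨Ψ, b1, B, b2, b3.trans a2, e, b4⟩

end Pool.Agent.B8P
end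

-- merged part: Pool.Agent.Work.MP_b8a914_gt.P.Cond2
section
/-! Density arguments that use the fusion lemma and the Ramsey property. -/

set_option linter.unusedSectionVars false

namespace Pool.Agent.B8P
open Filter Topology Function Set
open Pool.Agent.B8F (Ag Pt AgB IsMi IsLen)

variable {K : Type} [LinearOrder K] [WellFoundedLT K] [OrderBot K]

/-- the condition without the level -/
def Cond2_cd (t : RQ K) : CD K := ⟨t.A, t.inf, t.T, t.fr⟩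

theorem Cond2_dense (Q : ℕ → CD K → Prop) (hm : ∀ n r r', Q n r → r' ≤ r → Q n r')
    (r : CD K) (hd : ∀ q, q ≤ r → ∃ q', q' ≤ q ∧ ∃ n, Q n q') (t : RQ K)
    (ht : RL ⊤ t ⟨r.A, r.inf, r.T, r.fr, ∅, 0⟩) :
    ∃ t' ∈ {t : RQ K | ∃ n, Q n (Cond2_cd t)}, RL ⊤ t' t := by
  obtain ⟨q, h1, n, h2⟩ := hd (Cond2_cd t) (CD.le_of ht.2.2.1.1 ht.2.2.2.le)
  have hinf : ((q.A ∩ t.A) ∪ (t.A ∩ Iio t.l)).Infinite :=
    (q.inf.sdiff h1.1).mono fun x hx => Or.inl ⟨hx.1, by_contra fun h => hx.2 ⟨hx.1, h⟩⟩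
  refine ⟨⟨_, hinf, q.T, q.fr, t.F, t.l⟩, ⟨n, hm _ _ _ h2
    ⟨(finite_lt_nat t.l).subset fun x hx => ?_, .rfl'⟩⟩, le_rfl, Subset.rfl,
    ⟨fun x hx => hx.elim And.right And.left, fun a ha h => Or.inr ⟨h, ha⟩⟩, fun v => ?_⟩
  · exact hx.1.elim (fun h => absurd h.1 hx.2) And.right
  · obtain ⟨w, hw⟩ := h1.2 v
    exact ⟨w, hw, fun c _ hc => absurd hc (WithTop.coe_lt_top c).not_ge⟩

theorem Cond2_res {T : W K → W K} (h : TlM ⊤ T) : resW ⊤ T = T := funext fun z =>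
  Prod.ext (funext fun c => (resW_agW ⊤ T z).1 c (WithTop.coe_lt_top c)) (funext fun γ => by
    by_cases hγ : γ < ⊤
    · exact if_pos hγ
    · exact (if_neg hγ).trans (h z γ (not_lt.1 hγ)).symm)

/-- continuous reading of a sequence of decisions -/
theorem PT (Q : ℕ → ℕ → CD K → Prop) (hm : ∀ i n r r', Q i n r → r' ≤ r → Q i n r')
    (r : CD K) (hd : ∀ i q, q ≤ r → ∃ q', q' ≤ q ∧ ∃ n, Q i n q') :
    ∃ r' : CD K, r'.A ⊆ r.A ∧ r' ≤ r ∧ ∃ f : W K → ℕ → ℕ, NiceW ⊤ (r'.T, f) ∧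
      ∀ i q, q ≤ r' → ∀ v w, Eqv ⊤ (r'.T w) (q.T v) → ∃ q', q' ≤ q ∧ Q i (f w i) q' := by
  classical
  obtain ⟨A, T, hA, hAr, hT, htl, hle, hG⟩ := FL ⊤ ⟨r.A, r.inf, r.T, r.fr, ∅, 0⟩
    (fun i => {t : RQ K | ∃ n, Q i n (Cond2_cd t)})
    fun i t ht => Cond2_dense (Q i) (hm i) r (hd i) t ht
  obtain ⟨s, hs1, hs2⟩ := hT.supp
  choose sel hlc hdep hsel using hG
  choose S hS1 hS2 hS3 using hdep
  have hex : ∀ i (t : RQ K), ∃ n, (∃ n, Q i n (Cond2_cd t)) → Q i n (Cond2_cd t) := fun i t => by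
    by_cases h : ∃ n, Q i n (Cond2_cd t)
    · obtain ⟨n, h⟩ := h
      exact ⟨n, fun _ => h⟩
    · exact ⟨0, fun h' => absurd h' h⟩
  choose μ hμ using hex
  have h0 : SuppW (s ∩ Iio ⊤) T := Cond2_res htl ▸ hT.supp_resW hs2 ⊤
  refine ⟨⟨A, hA, T, hT⟩, hAr.1, CD.le_of hAr.1 hle.le, fun w i => μ i (sel i w),
    ⟨hT, continuous_pi fun i => ((hlc i).comp (μ i)).continuous, s ∩ Iio ⊤ ∪ ⋃ i, S i,
      (hs1.mono inter_subset_left).union (countable_iUnion hS1),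
      union_subset inter_subset_right (iUnion_subset hS2), h0.mono subset_union_left,
      fun u v h => funext fun i => congrArg (μ i)
        (hS3 i u v (h.mono ((subset_iUnion S i).trans subset_union_right)))⟩,
    fun i q hq v w hw => ?_⟩
  obtain ⟨θ, h1, h2, -, -⟩ := exists_fac q.fr hT hq.2
  have h3 : sel i (θ v) = sel i w :=
    (hS3 i).agW (hS2 i) (hT.injE ((h2 v).trans hw.symm)).agW
  obtain ⟨Ψ, hΨ, h4⟩ := exists_boxW (((hlc i).comp_continuous h1.cont).eventually_eq v)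
  refine ⟨q.cp Ψ hΨ, q.cp_le hΨ, hm _ _ _ _ (hμ i _ (hsel i w).1)
    ⟨hq.1.subset fun x hx => ⟨hx.1, fun h => hx.2 ((hsel i w).2.1.1 h)⟩, fun v' => ?_⟩⟩
  obtain ⟨w', h5, -⟩ := (hsel i (θ (Ψ v'))).2.2
  rw [show sel i (θ (Ψ v')) = sel i w from (h4 v').trans h3] at h5
  exact ⟨w', h5.trans (h2 _)⟩

theorem reap_dense (Φ : ℕ → CD K → Prop) (hm : ∀ a r r', Φ a r → r' ≤ r → Φ a r')
    (r : CD K) : ∃ r', r' ≤ r ∧ ((∀ a ∈ r'.A, ∀ q, q ≤ r' → ∃ q', q' ≤ q ∧ Φ a q') ∨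
      ∀ a ∈ r'.A, ∀ q, q ≤ r' → ¬ Φ a q) := by
  obtain ⟨r', -, h1, f, hf, hl⟩ := PT
    (fun a n r => (n = 1 ∧ Φ a r) ∨ (n = 0 ∧ ∀ q, q ≤ r → ¬ Φ a q))
    (fun a n r r' h h' => h.imp (fun h => ⟨h.1, hm _ _ _ h.2 h'⟩)
      fun h => ⟨h.1, fun q hq => h.2 q (hq.trans h')⟩) r
    (fun a q _ => by
      by_cases h : ∃ q', q' ≤ q ∧ Φ a q'
      · obtain ⟨q', h1, h2⟩ := h
        exact ⟨q', h1, 1, Or.inl ⟨rfl, h2⟩⟩
      · exact ⟨q, le_rfl, 0, Or.inr ⟨rfl, fun q' h1 h2 => h ⟨q', h1, h2⟩⟩⟩)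
  obtain ⟨Ψ, hΨ, B, hB, hA, ε, hε⟩ := RT (⊤ : WithTop K) (fun u a => decide (f u a = 1))
    ⟨fun a => (continuous_of_discreteTopology (f := fun n : ℕ => decide (n = 1))).comp
      ((continuous_apply a).comp hf.2.1),
    fun u v h => by rw [show f u = f v from hf.dep h.agW]⟩ r'.A r'.inf
  let r'' : CD K := ⟨B, hB, r'.T ∘ Ψ, r'.fr.comp hΨ⟩
  have h2 : r'' ≤ r' := CD.le_of hA (leW_comp _ _)
  have key : ∀ a ∈ B, ∀ q, q ≤ r'' → ∃ q', q' ≤ q ∧ ∃ n, decide (n = 1) = ε ∧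
      ((n = 1 ∧ Φ a q') ∨ (n = 0 ∧ ∀ q, q ≤ q' → ¬ Φ a q)) := fun a ha q hq => by
    obtain ⟨w, hw⟩ := hq.2 (fun _ _ => false, fun _ _ => 0)
    obtain ⟨q', h3, h4⟩ := hl a q (hq.trans h2) _ (Ψ w) hw
    exact ⟨q', h3, _, hε w a ha, h4⟩
  refine ⟨r'', h2.trans h1, ?_⟩
  cases ε with
  | true =>
    refine Or.inl fun a ha q hq => ?_
    obtain ⟨q', h3, n, h4, h5⟩ := key a ha q hq
    obtain rfl : n = 1 := of_decide_eq_true h4
    exact ⟨q', h3, h5.elim And.right fun h => absurd h.1 one_ne_zero⟩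
  | false =>
    refine Or.inr fun a ha q hq h => ?_
    obtain ⟨q', h3, n, h4, h5⟩ := key a ha q hq
    exact h5.elim (fun h' => of_decide_eq_false h4 h'.1) fun h' => h'.2 q' le_rfl (hm _ _ _ h h3)

/-- below `β` follow `w`, from `β` on follow `y` -/
def Cond2_e (β : WithTop K) (w : W K) (y : Y K) : W K :=
  (fun c => if (c : WithTop K) < β then w.1 c else y c,
    fun γ => if γ < β then w.2 γ else fun _ => 0)

theorem Cond2_e_cont (β : WithTop K) : Continuous fun z : W K × Y K => Cond2_e β z.1 z.2 := by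
  refine Continuous.prodMk (continuous_pi fun c => ?_) (continuous_pi fun γ => ?_)
  · split_ifs <;> fun_prop
  · split_ifs <;> fun_prop

theorem Cond2_e_agOn {β : WithTop K} {s : Set (WithTop K)} {w w' : W K}
    (h : AgOn (s ∩ Iio β) w w') (y : Y K) : AgOn s (Cond2_e β w y) (Cond2_e β w' y) :=
  ⟨fun c hc => if_ctx_congr Iff.rfl (fun a => h.1 c ⟨hc, a⟩) fun _ => rfl,
    fun γ hγ => if_ctx_congr Iff.rfl (fun a => h.2 γ ⟨hγ, a⟩) fun _ => rfl⟩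

theorem Cond2_e_eqv {β : WithTop K} {w v : W K} (h : AgW β w v) : Eqv β (Cond2_e β w v.1) v :=
  ⟨funext fun c => by
    by_cases hc : (c : WithTop K) < β
    · exact (if_pos hc).trans (h.1 c hc)
    · exact if_neg hc, fun γ hγ => (if_pos hγ).trans (h.2 γ hγ)⟩

/-- the maximum over a compact fibre -/
theorem Cond2_sup {X Z : Type} [TopologicalSpace X] [TopologicalSpace Z] [CompactSpace Z]
    {Φ : X → Z → ℕ} (h : Continuous fun z : X × Z => Φ z.1 z.2) :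
    (Continuous fun x => ⨆ y, Φ x y) ∧ ∀ x y, Φ x y ≤ ⨆ y, Φ x y := by
  have h1 : ∀ x, Continuous (Φ x) := fun x => h.comp (Continuous.prodMk_right x)
  refine ⟨((IsLocallyConstant.iff_eventually_eq _).2 fun x => ?_).continuous,
    fun x y => le_ciSup (isCompact_range (h1 x)).bddAbove y⟩
  have h2 := (isCompact_univ (X := Z)).eventually_forall_of_forall_eventually (x₀ := x)
    (P := fun x' y => Φ x' y = Φ x y) fun y _ => by
      filter_upwards [((IsLocallyConstant.iff_continuous _).2 h).eventually_eq (x, y),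
        ((IsLocallyConstant.iff_continuous _).2 ((h1 x).comp continuous_snd)).eventually_eq (x, y)]
        with z a b
      exact a.trans b.symm
  filter_upwards [h2] with x' a
  exact congrArg iSup (funext fun y => a y trivial)

/-- witnesses that do not depend on the superperfect coordinates from `β` on are bounded by a
function of the stage `β` -/
theorem bd_dense {β : WithTop K} {T0 : W K → W K} (hT0 : IsFr T0) (G : W K → ℕ → ℕ → Prop)
    (hG : ∀ n k, IsLocallyConstant fun w => G w n k) (hd : ∀ w w', Eqv β w w' → G w = G w')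
    (hs : ∃ s : Set (WithTop K), s.Countable ∧ DepW s G) {r : CD K} (h : LeW ⊤ r.T T0) :
    ∃ r', r' ≤ r ∧ ((∃ n, ∀ v w, Eqv ⊤ (T0 w) (r'.T v) → ∀ k, ¬ G w n k) ∨
      ∃ c, NiceW β c ∧ LeW ⊤ r'.T c.1 ∧ ∀ v w w', Eqv ⊤ (T0 w) (r'.T v) →
        Eqv ⊤ (c.1 w') (r'.T v) → ∀ n, ∃ k ≤ c.2 w' n, G w n k) := by
  by_cases h0 : ∃ r', r' ≤ r ∧ ∃ n, ∀ v w, Eqv ⊤ (T0 w) (r'.T v) → ∀ k, ¬ G w n k
  · obtain ⟨r', h1, h2⟩ := h0
    exact ⟨r', h1, Or.inl h2⟩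
  have hd' : ∀ w w', Eqv ⊤ (T0 w) (T0 w') → G w = G w' :=
    fun w w' e => hd _ _ ((hT0.injE e).mono le_top)
  obtain ⟨r', -, h1, f, ⟨-, hf, s, hs1, -, hs2, hs3⟩, hl⟩ := PT
    (fun n k q => ∀ v w, Eqv ⊤ (T0 w) (q.T v) → G w n k)
    (fun n k q q' a b v w e => let ⟨v', hv'⟩ := b.2 v; a v' w (e.trans hv'.symm)) r
    (fun n q hq => by
      have h2 : ∃ v w k, Eqv ⊤ (T0 w) (q.T v) ∧ G w n k :=
        by_contra fun a => h0 ⟨q, hq, n, fun v w e k b => a ⟨v, w, k, e, b⟩⟩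
      obtain ⟨v, w, k, e, b⟩ := h2
      obtain ⟨θ, a1, a2, -, -⟩ := exists_fac q.fr hT0 (hq.2.trans h)
      obtain ⟨Ψ, hΨ, a3⟩ := exists_boxW (((hG n k).comp_continuous a1.cont).eventually_eq v)
      refine ⟨q.cp Ψ hΨ, q.cp_le hΨ, k, fun v' w' e' => ?_⟩
      have a4 : G (θ (Ψ v')) n k = G (θ v) n k := a3 v'
      rw [hd' w' (θ (Ψ v')) (e'.trans (a2 _).symm), a4, hd' (θ v) w ((a2 v).trans e.symm)]
      exact b)
  obtain ⟨θ, a1, a2, -, -⟩ := exists_fac r'.fr hT0 (h1.2.trans h)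
  have tot : ∀ v n, G (θ v) n (f v n) := fun v n => by
    obtain ⟨Ψ, hΨ, a3⟩ := exists_boxW
      ((((hG n (f v n)).comp_continuous a1.cont).eventually_eq v).and
        (((IsLocallyConstant.iff_continuous _).2 ((continuous_apply n).comp hf)).eventually_eq v))
    obtain ⟨q, b1, b2⟩ := hl n (r'.cp Ψ hΨ) (r'.cp_le hΨ) v (Ψ v) .rfl'
    obtain ⟨w, hw⟩ := b1.2 v
    have b3 := b2 v (θ (Ψ w)) ((a2 _).trans hw)
    have b4 : f (Ψ v) n = f v n := (a3 v).2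
    have b5 : G (θ (Ψ w)) n (f v n) = G (θ v) n (f v n) := (a3 w).1
    rwa [b4, b5] at b3
  have hc := fun n => Cond2_sup (Φ := fun w y => f (Cond2_e β w y) n)
    ((continuous_apply n).comp (hf.comp (Cond2_e_cont β)))
  refine ⟨r', h1, Or.inr ⟨(resW β r'.T, fun w n => ⨆ y, f (Cond2_e β w y) n),
    ⟨r'.fr.resW β, continuous_pi fun n => (hc n).1, s ∩ Iio β, hs1.mono inter_subset_left,
      inter_subset_right, r'.fr.supp_resW hs2 β, fun w w' e => funext fun n =>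
        congrArg iSup (funext fun y => congrFun (hs3 _ _ (Cond2_e_agOn e y)) n)⟩,
    fun v => (r'.fr.resW β).in_topW (resW_tl β _) (resW_agW β _ v), fun v w w' e e' n => ?_⟩⟩
  have b1 : AgW β w' v := r'.fr.injW ((resW_agW β _ w').symm.trans (e'.agW.mono le_top))
  refine ⟨_, (hc n).2 w' v.1, ?_⟩
  rw [hd' w (θ v) (e.trans (a2 v).symm), ← hd _ _ (a1.eqv (Cond2_e_eqv b1))]
  exact tot _ n

end Pool.Agent.B8P
end

-- merged part: Pool.Agent.Work.MP_b8a914_gt.P.Cond3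
section
/-! Reflection to closure points and the thinning argument. -/

set_option linter.unusedSectionVars false

namespace Pool.Agent.B8P
open Filter Topology Function Set
open Pool.Agent.B8F (Ag Pt AgB IsMi IsLen zf nxt KeyP cont_zf cont_seq ev_ag agB_update)

/-- the successor of the continuum -/
abbrev KK : Type := (Order.succ Cardinal.continuum.{0}).ord.ToType

section
variable {K : Type} [LinearOrder K]

/-- below `r0` every request has a witness -/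
def DDn (Fr : CD K → VD K → VD K → VD K → Prop) (r0 : CD K) : Prop :=
  ∀ r, r ≤ r0 → ∀ c1 c2, NiceW ⊤ c1 → NiceW ⊤ c2 → LeW ⊤ r.T c1.1 → LeW ⊤ r.T c2.1 →
    ∃ r', r' ≤ r ∧ ∃ c3, NiceW ⊤ c3 ∧ LeW ⊤ r'.T c3.1 ∧ Fr r' c1 c2 c3

def Sm (α : WithTop K) (T : W K → W K) : Prop :=
  ∃ s : Set (WithTop K), s.Countable ∧ s ⊆ Iio α ∧ SuppW s T

/-- closure points: requests supported below `α` have witnesses supported below `α` -/
def CP (Fr : CD K → VD K → VD K → VD K → Prop) (r0 : CD K) (α : WithTop K) : Prop :=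
  α < ⊤ ∧ ((∀ z (c : K), α ≤ c → (r0.T z).1 c = z.1 c) ∧
    ∀ z γ, α ≤ γ → γ < ⊤ → (r0.T z).2 γ = z.2 γ) ∧
  ∀ r, r ≤ r0 → Sm α r.T → ∀ c1 c2, NiceW α c1 → NiceW α c2 → LeW ⊤ r.T c1.1 → LeW ⊤ r.T c2.1 →
    ∃ r', r' ≤ r ∧ Sm α r'.T ∧ ∃ c3, NiceW α c3 ∧ LeW ⊤ r'.T c3.1 ∧ Fr r' c1 c2 c3

theorem Cond3_in {α : WithTop K} {T : W K → W K} (hp : IsFr T)
    (h1 : ∀ z (c : K), α ≤ c → (T z).1 c = z.1 c)
    (h2 : ∀ z γ, α ≤ γ → γ < ⊤ → (T z).2 γ = z.2 γ) {x w : W K} (h : AgW α (T w) x) :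
    InW ⊤ T x := by
  obtain ⟨v, hv⟩ := (hp.resM ⊤).in_topW (β := α) ⟨h1, fun z γ hγ => by
    by_cases a : γ < ⊤
    · exact (if_pos a).trans (h2 z γ hγ a)
    · exact if_neg a⟩ (((resM_eqv ⊤ T w).agW.mono le_top).trans h)
  exact ⟨v, (resM_eqv ⊤ T v).symm.trans hv⟩

theorem nice_z {α : WithTop K} (hα : α < ⊤) : NiceW ⊤ ((id, fun w => zf (w.2 α)) : VD K) :=
  ⟨isFr_id, cont_zf.comp ((continuous_apply α).comp continuous_snd), {α}, countable_singleton α,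
    singleton_subset_iff.2 hα, suppW_id _, fun _ _ h => congrArg zf (h.2 α rfl)⟩

theorem clos_nice {α α' : WithTop K} (h : α < α') {c : VD K} (hc : NiceW α c) {B : Set ℕ}
    (hB : B.Infinite) : ∃ g, NiceW α' (c.1, g) ∧ ∀ w j k,
      k ≤ zf ((c.1 w).2 α) (nxt B (zf ((c.1 w).2 α) j) + 1) → c.2 w k ≤ g w j := by
  have ht := hc.tl
  obtain ⟨h1, h2, s, hs, hsα, h3, h4⟩ := hc
  have hz : Continuous fun w : W K => zf (w.2 α) :=
    cont_zf.comp ((continuous_apply α).comp continuous_snd)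
  refine ⟨fun w j => (Finset.range (zf (w.2 α) (nxt B (zf (w.2 α) j) + 1) + 1)).sup (c.2 w),
    ⟨h1, cont_seq.2 fun w0 j => ?_, insert α s, hs.insert α,
      insert_subset h (hsα.trans (Iio_subset_Iio h.le)), h3.mono (subset_insert _ _),
      fun u v huv => ?_⟩, fun w j k hk => ?_⟩
  · filter_upwards [cont_seq.1 hz w0 j, cont_seq.1 hz w0 (nxt B (zf (w0.2 α) j) + 1),
      ev_ag (zf (w0.2 α) (nxt B (zf (w0.2 α) j) + 1) + 1) fun i _ => cont_seq.1 h2 w0 i]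
      with w a b d
    show (Finset.range (zf (w.2 α) (nxt B (zf (w.2 α) j) + 1) + 1)).sup (c.2 w) = _
    rw [a, b]
    exact Finset.sup_congr rfl fun i hi => d i (Finset.mem_range.1 hi)
  · have a : u.2 α = v.2 α := huv.2 α (mem_insert _ _)
    have b : c.2 u = c.2 v := h4 u v (huv.mono (subset_insert _ _))
    funext j
    show (Finset.range (zf (u.2 α) (nxt B (zf (u.2 α) j) + 1) + 1)).sup (c.2 u) = _
    rw [a, b]
  · rw [ht.2 w α le_rfl] at hk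
    exact Finset.le_sup (f := c.2 w) (Finset.mem_range.2 (Nat.lt_succ_of_le hk))

/-- the section of `T` at `α` over `u` -/
def Cond3_sig (T : W K → W K) (α : WithTop K) (u : W K) (y : ℕ → ℕ) : ℕ → ℕ :=
  (T (u.1, update u.2 α y)).2 α

theorem Cond3_sig_agW {T : W K → W K} (hp : IsFr T) {α : WithTop K} {u v : W K} (h : AgW α u v) :
    Cond3_sig T α u = Cond3_sig T α v := funext fun y =>
  (hp.m α).proj _ _ ⟨h.1, (agB_update u.2 y).trans (h.2.trans (agB_update v.2 y).symm)⟩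
    ((update_self _ _ _).trans (update_self α y v.2).symm)

theorem Cond3_sig_sec {T : W K → W K} (hp : IsFr T) (α : WithTop K) (u : W K) :
    B8F.Sec (Cond3_sig T α u) := B8F.Cond3_sig_sec (hp.mi u.1) α u.2

theorem Cond3_sig_cont {T : W K → W K} (hp : IsFr T) (α : WithTop K) (y : ℕ → ℕ) :
    Continuous fun u => Cond3_sig T α u y :=
  (hp.m α).cont.comp (continuous_fst.prodMk (continuous_snd.update α continuous_const))

theorem Cond3_sig_dep {T : W K → W K} (hp : IsFr T) {s : Set (WithTop K)} (hs : SuppW s T)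
    (α : WithTop K) : DepW (s ∩ Iio α) (Cond3_sig T α) := fun u v huv => by
  let w : W K := (fun c => if (c : WithTop K) < α then u.1 c else v.1 c,
    fun γ => if γ < α then u.2 γ else v.2 γ)
  rw [Cond3_sig_agW hp (u := u) (v := w)
    ⟨fun c hc => (if_pos hc).symm, fun γ hγ => (if_pos hγ).symm⟩]
  funext y
  by_cases h : α ∈ s
  · refine (hs.2.2 (w.1, update w.2 α y) (v.1, update v.2 α y)
      ⟨fun c hc => ?_, fun γ hγ => ?_⟩).2 α h
    · by_cases h2 : (c : WithTop K) < α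
      · exact (if_pos h2).trans (huv.1 c ⟨hc, h2⟩)
      · exact if_neg h2
    · by_cases h1 : γ = α
      · rw [h1]
        exact (update_self _ _ _).trans (update_self α y v.2).symm
      · refine (update_of_ne h1 _ _).trans (Eq.trans ?_ (update_of_ne h1 y v.2).symm)
        by_cases h2 : γ < α
        · exact (if_pos h2).trans (huv.2 γ ⟨hγ, h2⟩)
        · exact if_neg h2
  · exact (hs.2.1 _ _ h).trans (((update_self _ _ _).trans (update_self α y v.2).symm).trans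
      (hs.2.1 (v.1, update v.2 α y) _ h).symm)

variable [WellFoundedLT K]

theorem key_dense {Fr : CD K → VD K → VD K → VD K → Prop}
    (hm : ∀ r r' c1 c2 c3, Fr r c1 c2 c3 → r' ≤ r → Fr r' c1 c2 c3) {r0 : CD K} {α : WithTop K}
    (h : CP Fr r0 α) {r : CD K} (hr : r ≤ r0) {c1 : VD K} (h1 : NiceW α c1)
    (h2 : LeW ⊤ r.T c1.1) {B : Set ℕ} (hB : B.Infinite) :
    ∃ r', r' ≤ r ∧ ∃ c2 c3, NiceW ⊤ c2 ∧ NiceW ⊤ c3 ∧ LeW ⊤ r'.T c2.1 ∧ LeW ⊤ r'.T c3.1 ∧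
      Fr r' c1 c2 c3 ∧ ∀ v w2 w3, Eqv ⊤ (c2.1 w2) (r'.T v) → Eqv ⊤ (c3.1 w3) (r'.T v) →
        KeyP (zf ((r'.T v).2 α)) B (c2.2 w2) (c3.2 w3) := by
  obtain ⟨PiOf, Th, d1, d2, d3⟩ := B8F.dm0
  obtain ⟨-, hid, hcp⟩ := h
  have hp := r.fr
  obtain ⟨s, hs, hsp⟩ := hp.supp
  let rb : CD K := ⟨r.A, r.inf, resW α r.T, hp.resW α⟩
  have hrb : rb ≤ r0 := ⟨hr.1, fun v => let ⟨_, a⟩ := hr.2 v
    Cond3_in r0.fr hid.1 hid.2 ((a.agW.mono le_top).trans (resW_agW α r.T v).symm)⟩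
  have hsm : Sm α rb.T := ⟨s ∩ Iio α, hs.mono inter_subset_left, inter_subset_right,
    hp.supp_resW hsp α⟩
  have hb1 : LeW ⊤ rb.T c1.1 := fun v => let ⟨_, a⟩ := h2 v
    h1.1.in_topW h1.tl ((a.agW.mono le_top).trans (resW_agW α r.T v).symm)
  let c2 : VD K := (resW α r.T, fun u => PiOf (Cond3_sig r.T α u))
  have hc2 : NiceW α c2 := ⟨hp.resW α,
    (d2 (W K) (Cond3_sig r.T α) (Cond3_sig_sec hp α) (Cond3_sig_cont hp α)).1,
    s ∩ Iio α, hs.mono inter_subset_left, inter_subset_right, hp.supp_resW hsp α,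
    fun u v huv => congrArg PiOf (Cond3_sig_dep hp hsp α u v huv)⟩
  obtain ⟨rb', hle, ⟨s', hs', hs'α, hq'⟩, c3, hc3, hl3, hFr⟩ :=
    hcp rb hrb hsm c1 c2 h1 hc2 hb1 .rfl'
  have hq := rb'.fr
  obtain ⟨θ, hθ, sθ, -, uθ⟩ := exists_fac hq (hp.resW α) hle.2
  obtain ⟨φ, hφ, sφ, -, -⟩ := exists_fac hq hc3.1 hl3
  have tθ : Tl α θ := (uθ (s' ∪ s ∩ Iio α) (hq'.mono subset_union_left)
    ((hp.supp_resW hsp α).mono subset_union_right)).tl (union_subset hs'α inter_subset_right)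
  have sθ' : ∀ v, AgW α (r.T (θ v)) (rb'.T v) := fun v =>
    (resW_agW α r.T _).symm.trans ((sθ v).agW.mono le_top)
  let η : W K → ℕ → ℕ := fun v => c3.2 (φ v)
  have eθ : ∀ {u v}, AgW α u v → Cond3_sig r.T α (θ u) = Cond3_sig r.T α (θ v) :=
    fun huv => Cond3_sig_agW hp (hθ.agW huv)
  have eη : ∀ {u v}, AgW α u v → η u = η v := fun huv => hc3.dep (hφ.agW huv)
  let t : W K → ℕ → ℕ := fun v => Th (Cond3_sig r.T α (θ v)) B (η v) (v.2 α)
  have ht : Continuous t :=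
    ((d2 (W K) (fun z => Cond3_sig r.T α (θ z)) (fun z => Cond3_sig_sec hp α _)
      fun y => (Cond3_sig_cont hp α y).comp hθ.cont).2 B hB η (hc3.2.1.comp hφ.cont)).comp
      (continuous_id.prodMk ((continuous_apply α).comp continuous_snd))
  let U : W K → W K := fun v => (v.1, update v.2 α (t v))
  have hU : IsFr U := by
    refine isFr_upd ht ?_ fun z z' n a b => ?_
    · obtain ⟨-, -, s3, h31, -, -, h33⟩ := hc3
      obtain ⟨s1, h11, h12⟩ := hθ.supp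
      obtain ⟨s2, h21, h22⟩ := hφ.supp
      refine ⟨insert α ((s ∪ s1) ∪ (s2 ∪ s3)), ((hs.union h11).union (h21.union h31)).insert α,
        fun u v huv => ?_⟩
      have b1 : Cond3_sig r.T α (θ u) = Cond3_sig r.T α (θ v) :=
        ((Cond3_sig_dep hp hsp α).mono fun γ a => Or.inr (Or.inl (Or.inl a.1))).comp
          (h12.mono fun γ a => Or.inr (Or.inl (Or.inr a))) u v huv
      have b2 : η u = η v := (h33.mono fun γ a => Or.inr (Or.inr (Or.inr a))).comp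
        (h22.mono fun γ a => Or.inr (Or.inr (Or.inl a))) u v huv
      show Th _ B _ _ = Th _ B _ _
      rw [b1, b2, huv.2 α (mem_insert _ _)]
    · show Ag n (Th _ B _ _) (Th _ B _ _) ∧ (Th _ B _ _ n = Th _ B _ _ n ↔ _)
      rw [eθ a, eη a]
      exact (d3 _ B _ (Cond3_sig_sec hp α _) hB).1 n _ _ b
  let r' : CD K := ⟨rb'.A, rb'.inf, r.T ∘ θ ∘ U, hp.comp (hθ.comp hU)⟩
  have hr1 : r' ≤ rb' := CD.le_of Subset.rfl fun v => hq.in_topW (hq'.tl hs'α) (sθ' (U v)).symm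
  refine ⟨r', ⟨hle.1, leW_comp _ _⟩, c2, c3, hc2.mono le_top,
    hc3.mono le_top, hr1.2.trans hle.2, hr1.2.trans hl3, hm _ _ _ _ _ hFr hr1,
    fun v w2 w3 e2 e3 => ?_⟩
  have a0 : AgW α (U v) v := ⟨.rfl', agB_update _ _⟩
  have a1 : AgW α (θ (U v)) (θ v) := hθ.agW a0
  have a2 : (r'.T v).2 α = Cond3_sig r.T α (θ v) (t v) :=
    (hp.m α).proj _ _ (a1.trans ⟨.rfl', (agB_update _ _).symm⟩)
      ((tθ.2 _ α le_rfl).trans ((update_self _ _ _).trans (update_self α (t v) (θ v).2).symm))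
  have a3 : c2.2 w2 = PiOf (Cond3_sig r.T α (θ v)) :=
    congrArg PiOf (Cond3_sig_agW hp (hp.injW
      ((resW_agW α r.T w2).symm.trans ((e2.agW.mono le_top).trans (hp.agW a1)))))
  have a4 : c3.2 w3 = η v := hc3.dep (hc3.1.injW ((e3.agW.mono le_top).trans
    ((sθ' (U v)).trans ((hq.agW a0).trans ((sφ v).agW.mono le_top).symm))))
  rw [a2, a3, a4]
  exact ⟨d1 _, fun hη' => (d3 _ B _ (Cond3_sig_sec hp α _) hB).2 hη' (v.2 α)⟩

end

section
open Cardinal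
variable {K : Type} [LinearOrder K]

def Cond3_dec (u : Pt (WithTop K)) : W K :=
  (fun c n => decide (u c n % 2 = 1), fun γ n => u γ n / 2)

def Cond3_enc (z : W K) : Pt (WithTop K) := fun γ n => 2 * z.2 γ n + (yAt γ z n).toNat

theorem Cond3_de (z : W K) : Cond3_dec (Cond3_enc z) = z := by
  refine Prod.ext (funext fun c => funext fun n => ?_) (funext fun γ => funext fun n => ?_)
  · show decide ((2 * z.2 c n + (z.1 c n).toNat) % 2 = 1) = z.1 c n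
    cases z.1 c n <;> simp
  · show (2 * z.2 γ n + (yAt γ z n).toNat) / 2 = z.2 γ n
    have := Bool.toNat_le (yAt γ z n)
    omega

theorem Cond3_dep {Z : Type} [TopologicalSpace Z] [T2Space Z] (hZ : #Z ≤ continuum)
    {s : Set (WithTop K)} (hs : s.Countable) :
    #{g : W K → Z | Continuous g ∧ DepW s g} ≤ continuum := by
  have hc : Continuous (Cond3_dec (K := K)) :=
    (continuous_pi fun c => continuous_pi fun n =>
      (continuous_of_discreteTopology (f := fun a : ℕ => decide (a % 2 = 1))).comp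
        (by fun_prop)).prodMk (continuous_pi fun γ => continuous_pi fun n =>
      (continuous_of_discreteTopology (f := fun a : ℕ => a / 2)).comp (by fun_prop))
  refine le_trans (mk_le_of_injective (f := fun g => ⟨fun u => g.1 (Cond3_dec u), g.2.1.comp hc,
    fun u v huv => g.2.2 _ _ ⟨fun c h => by simp only [Cond3_dec, huv _ h],
      fun γ h => by simp only [Cond3_dec, huv _ h]⟩⟩) fun g g' e => ?_) (B8F.Cl_dep hZ hs)
  refine Subtype.ext (funext fun z => ?_)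
  have := congrFun (congrArg Subtype.val e) (Cond3_enc z)
  simpa only [Cond3_de] using this

theorem Cond3_enc_cont : Continuous (Cond3_enc (K := K)) :=
  continuous_pi fun γ => continuous_pi fun n => (continuous_const.mul (by fun_prop)).add
    ((continuous_of_discreteTopology (f := Bool.toNat)).comp
      ((continuous_apply n).comp (cont_yAt γ)))

theorem Cond3_enc_on {s : Set (WithTop K)} {z z' : W K} (h : AgOn s z z') {γ : WithTop K}
    (hγ : γ ∈ s) : Cond3_enc z γ = Cond3_enc z' γ := by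
  funext n
  simp only [Cond3_enc, h.2 γ hγ]
  induction γ using WithTop.recTopCoe with
  | top => rfl
  | coe c => rw [yAt_coe, yAt_coe, h.1 c hγ]

theorem Cond3_supp {s : Set (WithTop K)} (hs : s.Countable) :
    #{p : W K → W K | Continuous p ∧ SuppW s p} ≤ continuum := by
  have : Countable s := hs.to_subtype
  have hZ : #(s → ℕ → ℕ) ≤ continuum := by
    rw [← power_def, ← continuum_power_aleph0]
    exact (power_le_power_right B8F.Cl_seq).trans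
      (power_le_power_left continuum_ne_zero mk_le_aleph0)
  refine le_trans (mk_le_of_injective (f := fun p => ⟨fun u γ => Cond3_enc (p.1 u) γ.1,
    continuous_pi fun γ => (continuous_apply γ.1).comp (Cond3_enc_cont.comp p.2.1),
    fun u v huv => funext fun γ => Cond3_enc_on (p.2.2.2.2 u v huv) γ.2⟩) fun p p' e => ?_)
    (Cond3_dep hZ hs)
  have k : ∀ u, ∀ γ ∈ s, Cond3_enc (p.1 u) γ = Cond3_enc (p'.1 u) γ := fun u γ h =>
    congrFun (congrFun (congrArg Subtype.val e) u) ⟨γ, h⟩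
  refine Subtype.ext (funext fun u => Prod.ext (funext fun c => ?_) (funext fun γ => ?_))
  · by_cases h : (c : WithTop K) ∈ s
    · rw [← Cond3_de (p.1 u), ← Cond3_de (p'.1 u)]
      simp only [Cond3_dec, k u c h]
    · rw [p.2.2.1 u c h, p'.2.2.1 u c h]
  · by_cases h : γ ∈ s
    · rw [← Cond3_de (p.1 u), ← Cond3_de (p'.1 u)]
      simp only [Cond3_dec, k u γ h]
    · rw [p.2.2.2.1 u γ h, p'.2.2.2.1 u γ h]

/-- all supports are `s` -/
def Cond3_Sp (s : Set (WithTop K)) (t : CD K × VD K × VD K) : Prop :=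
  SuppW s t.1.T ∧ (Continuous t.2.1.1 ∧ SuppW s t.2.1.1) ∧ (Continuous t.2.1.2 ∧ DepW s t.2.1.2) ∧
    (Continuous t.2.2.1 ∧ SuppW s t.2.2.1) ∧ (Continuous t.2.2.2 ∧ DepW s t.2.2.2)

theorem Cond3_card (s : Set (WithTop K)) (hs : s.Countable) : #{t | Cond3_Sp s t} ≤ continuum := by
  have hA : #(Set ℕ) ≤ continuum := by rw [mk_set, mk_nat, two_power_aleph0]
  have hB := B8F.Cond3_prod (Cond3_supp hs) (Cond3_dep B8F.Cl_seq hs)
  refine (mk_le_of_injective (f := fun t : {t | Cond3_Sp s t} =>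
    ((t.1.1.A, (⟨t.1.1.T, t.1.1.fr.cont, t.2.1⟩ : {p : W K → W K | Continuous p ∧ SuppW s p})),
      ((⟨t.1.2.1.1, t.2.2.1⟩ : {p : W K → W K | Continuous p ∧ SuppW s p}),
        (⟨t.1.2.1.2, t.2.2.2.1⟩ : {g : W K → ℕ → ℕ | Continuous g ∧ DepW s g})),
      ((⟨t.1.2.2.1, t.2.2.2.2.1⟩ : {p : W K → W K | Continuous p ∧ SuppW s p}),
        (⟨t.1.2.2.2, t.2.2.2.2.2⟩ : {g : W K → ℕ → ℕ | Continuous g ∧ DepW s g}))))
      ?_).trans (B8F.Cond3_prod (B8F.Cond3_prod hA (Cond3_supp hs)) (B8F.Cond3_prod hB hB))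
  rintro ⟨⟨⟨A, _, p, _⟩, ⟨a, b⟩, c, d⟩, _⟩ ⟨⟨⟨A', _, p', _⟩, ⟨a', b'⟩, c', d'⟩, _⟩ e
  simp only [Prod.mk.injEq, Subtype.mk.injEq] at e
  obtain ⟨⟨rfl, rfl⟩, ⟨rfl, rfl⟩, rfl, rfl⟩ := e
  rfl

end

theorem exists_CP {Fr : CD KK → VD KK → VD KK → VD KK → Prop}
    (hm : ∀ r r' c1 c2 c3, Fr r c1 c2 c3 → r' ≤ r → Fr r' c1 c2 c3) {r0 : CD KK}
    (h : DDn Fr r0) : ∃ (α : ℕ → WithTop KK) (β : WithTop KK), StrictMono α ∧
      (∀ n, CP Fr r0 (α n)) ∧ β < ⊤ ∧ ∀ n, α n ≤ β := by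
  have hw : ∀ t : CD KK × VD KK × VD KK, ∃ b : WithTop KK, b < ⊤ ∧
      (t.1 ≤ r0 → NiceW ⊤ t.2.1 → NiceW ⊤ t.2.2 → LeW ⊤ t.1.T t.2.1.1 → LeW ⊤ t.1.T t.2.2.1 →
        ∃ r', r' ≤ t.1 ∧ Sm b r'.T ∧ ∃ c3, NiceW b c3 ∧ LeW ⊤ r'.T c3.1 ∧
          Fr r' t.2.1 t.2.2 c3) := by
    rintro ⟨r, c1, c2⟩
    by_cases hq : r ≤ r0 ∧ NiceW ⊤ c1 ∧ NiceW ⊤ c2 ∧ LeW ⊤ r.T c1.1 ∧ LeW ⊤ r.T c2.1
    · obtain ⟨r', hr', c3, ⟨n1, n2, s3, n3, n4, n5⟩, hl, hF⟩ :=
        h r hq.1 c1 c2 hq.2.1 hq.2.2.1 hq.2.2.2.1 hq.2.2.2.2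
      obtain ⟨s, hs, hsp⟩ := r'.fr.supp
      obtain ⟨b, hb, hb'⟩ := B8F.exists_bound (hs.union n3)
      let r'' : CD KK := ⟨r'.A, r'.inf, resW ⊤ r'.T, r'.fr.resW ⊤⟩
      have hle : r'' ≤ r' := CD.le_of Subset.rfl fun v => ⟨v, (resW_agW ⊤ r'.T v).symm.eqv⟩
      exact ⟨b, hb, fun _ _ _ _ _ => ⟨r'', hle.trans hr',
        ⟨s ∩ Iio ⊤, hs.mono inter_subset_left, fun γ hγ => hb' γ (Or.inl hγ.1) hγ.2,
          r'.fr.supp_resW hsp ⊤⟩, c3,
        ⟨n1, n2, s3, n3, fun γ hγ => hb' γ (Or.inr hγ) (n4 hγ), n5⟩, hle.2.trans hl,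
        hm _ _ _ _ _ hF hle⟩⟩
    · obtain ⟨b, hb, -⟩ := B8F.exists_bound countable_empty
      exact ⟨b, hb, fun a1 a2 a3 a4 a5 => absurd ⟨a1, a2, a3, a4, a5⟩ hq⟩
  choose w hw1 hw2 using hw
  obtain ⟨s0, hs0, hsp0⟩ := r0.fr.supp
  obtain ⟨b0, hb0, hb0'⟩ := B8F.exists_bound hs0
  have step : ∀ a : {a : WithTop KK // b0 ≤ a ∧ a < ⊤}, ∃ a' : {a : WithTop KK // b0 ≤ a ∧ a < ⊤},
      a.1 < a'.1 ∧ CP Fr r0 a'.1 := by
    intro a
    obtain ⟨α, h1, h2, h3⟩ := B8F.closure_pt Cond3_Sp Cond3_card w hw1 a.1 a.2.2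
    have hn : ∀ γ, α ≤ γ → γ < ⊤ → γ ∉ s0 := fun γ hγ hγ' a' =>
      absurd (hb0' γ a' hγ') (not_lt.2 ((a.2.1.trans h1.le).trans hγ))
    refine ⟨⟨α, a.2.1.trans h1.le, h2⟩, h1, h2,
      ⟨fun u c hc => hsp0.1 u c (hn _ hc (WithTop.coe_lt_top c)),
        fun u γ hγ hγ' => hsp0.2.1 u γ (hn γ hγ hγ')⟩, ?_⟩
    rintro r hr ⟨s, hs, hsα, hsp⟩ c1 c2 hc1 hc2 l1 l2
    obtain ⟨m1, k1, s1, hs1, hs1α, p1, g1⟩ := id hc1
    obtain ⟨m2, k2, s2, hs2, hs2α, p2, g2⟩ := id hc2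
    have a1 : s ⊆ s ∪ s1 ∪ s2 := fun γ a => Or.inl (Or.inl a)
    have a2 : s1 ⊆ s ∪ s1 ∪ s2 := fun γ a => Or.inl (Or.inr a)
    have a3 : s2 ⊆ s ∪ s1 ∪ s2 := fun γ a => Or.inr a
    have hle : w (r, c1, c2) ≤ α := h3 (s ∪ s1 ∪ s2) ((hs.union hs1).union hs2)
      (union_subset (union_subset hsα hs1α) hs2α) (r, c1, c2)
      ⟨hsp.mono a1, ⟨m1.cont, p1.mono a2⟩, ⟨k1, g1.mono a2⟩, ⟨m2.cont, p2.mono a3⟩,
        ⟨k2, g2.mono a3⟩⟩
    obtain ⟨r', e1, ⟨s', e2, e3, e4⟩, c3, e5, e6, e7⟩ :=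
      hw2 (r, c1, c2) hr (hc1.mono le_top) (hc2.mono le_top) l1 l2
    exact ⟨r', e1, ⟨s', e2, e3.trans (Iio_subset_Iio hle), e4⟩, c3, e5.mono hle, e6, e7⟩
  choose f hf1 hf2 using step
  let x : ℕ → {a : WithTop KK // b0 ≤ a ∧ a < ⊤} := fun n => f^[n + 1] ⟨b0, le_rfl, hb0⟩
  have hx : ∀ n, x n = f (f^[n] ⟨b0, le_rfl, hb0⟩) := fun n => Function.iterate_succ_apply' _ _ _
  obtain ⟨β, hβ, hβ'⟩ := B8F.exists_bound (countable_range fun n => (x n).1)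
  refine ⟨fun n => (x n).1, β, strictMono_nat_of_lt_succ fun n => ?_, fun n => ?_, hβ,
    fun n => (hβ' _ ⟨n, rfl⟩ (x n).2.2).le⟩
  · show (x n).1 < (x (n + 1)).1
    rw [hx (n + 1)]
    exact hf1 _
  · show CP Fr r0 (x n).1
    rw [hx n]
    exact hf2 _

end Pool.Agent.B8P
end

-- merged part: Pool.Agent.Work.MP_b8a914_gt.P.Ex
section
/-! The points of the example and the density arguments for them. -/

set_option linter.unusedSectionVars false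

namespace Pool.Agent.B8P
open Filter Topology Function Set
open Pool.Agent.B8F (Ag Pt AgB IsMi IsLen zf)

/-- the three kinds of points -/
inductive XK : Type
  | y | x | f (t : Finset ℕ)
  deriving Countable

section
variable {K : Type} [LinearOrder K]

/-- the set that is added to the perfect set coordinate -/
def XK.sh (κ : XK) (u : ℕ → ℕ) (i : ℕ) : Bool :=
  match κ with
  | .y => false
  | .x => decide (i ∈ (Finset.range (i + 1)).image (zf u))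
  | .f t => decide (i ∈ t)

def XK.tag : XK → ℕ
  | .y => 1
  | _ => 0

/-- the point of kind `κ` built from the bits `s` and the unbounded function `u` -/
def XK.pt (κ : XK) (s : ℕ → Bool) (u : ℕ → ℕ) : ℕ → ℕ
  | 0 => κ.tag
  | i + 1 => (xor (s i) (κ.sh u i)).toNat

def ev (κ : XK) (γ : WithTop K) (z : W K) : ℕ → ℕ := κ.pt (yAt γ z) (z.2 γ)

/-- there are points with the property `P` above every countable set -/
def Fresh (P : K → Prop) : Prop :=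
  ∀ s : Set (WithTop K), s.Countable → ∃ α : K, P α ∧ ∀ γ ∈ s, γ < ⊤ → γ < α

def G1 (κ : XK) (c : VD K) (γ : WithTop K) (w : W K) (n k : ℕ) : Prop :=
  Ok (c.2 w) n k (ev κ γ (c.1 w))

def G2 (c : VD K) (γ : WithTop K) (w : W K) (n k : ℕ) : Prop :=
  ∀ t ⊆ Finset.range n, ∃ k' ≤ k, Ok (c.2 w) n k' (ev (.f t) γ (c.1 w))

theorem pt_le (κ : XK) (s : ℕ → Bool) (u : ℕ → ℕ) (i : ℕ) : κ.pt s u i ≤ 1 := by
  cases i with
  | zero => cases κ <;> simp [XK.pt, XK.tag]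
  | succ i => exact Bool.toNat_le _

theorem ev_congr (κ : XK) {γ : WithTop K} (hγ : γ < ⊤) {z z' : W K} (h : Eqv ⊤ z z') :
    ev κ γ z = ev κ γ z' := by
  unfold ev
  rw [yAt_congr γ h.1, h.2 γ hγ]

theorem Ex_sh_cont (κ : XK) (i : ℕ) : Continuous fun u => κ.sh u i := by
  cases κ with
  | y => exact continuous_const
  | f t => exact continuous_const
  | x =>
    refine continuous_iff_continuousAt.2 fun u => tendsto_const_nhds.congr' ?_
    filter_upwards [Pool.Agent.B8F.ev_ag (x := fun v => zf v) (y := fun _ => zf u) (i + 1)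
      fun j _ => Pool.Agent.B8F.cont_seq.1 Pool.Agent.B8F.cont_zf u j] with v hv
    show decide _ = decide _
    rw [Finset.image_congr (g := zf v) fun j hj => (hv j (Finset.mem_range.1 hj)).symm]

theorem Ex_ev_cont (κ : XK) (γ : WithTop K) : Continuous (ev κ γ : W K → ℕ → ℕ) := by
  refine continuous_pi fun i => ?_
  cases i with
  | zero => exact continuous_const
  | succ i =>
    exact (continuous_of_discreteTopology (f := fun p : Bool × Bool => (xor p.1 p.2).toNat)).comp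
      (((continuous_apply i).comp (cont_yAt γ)).prodMk
        ((Ex_sh_cont κ i).comp ((continuous_apply γ).comp continuous_snd)))

theorem Ex_yAt_on {s : Set (WithTop K)} {γ : WithTop K} (hγ : γ ∈ s) {z z' : W K}
    (h : AgOn s z z') : yAt γ z = yAt γ z' := by
  induction γ using WithTop.recTopCoe with
  | top => rfl
  | coe c => exact h.1 c hγ

theorem Ex_ev_on (κ : XK) {s : Set (WithTop K)} {γ : WithTop K} (hγ : γ ∈ s) {z z' : W K}
    (h : AgOn s z z') : ev κ γ z = ev κ γ z' := by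
  unfold ev
  rw [Ex_yAt_on hγ h, h.2 γ hγ]

theorem Ex_pt_indep {κ : XK} (h : κ ≠ .x) (s : ℕ → Bool) (u u' : ℕ → ℕ) :
    κ.pt s u = κ.pt s u' := by
  funext i
  cases i with
  | zero => rfl
  | succ i => cases κ with
    | x => exact absurd rfl h
    | y => rfl
    | f t => rfl

theorem Ex_ok_lc {Z : Type} [TopologicalSpace Z] {φ x : Z → ℕ → ℕ} (h1 : Continuous φ)
    (h2 : Continuous x) (n k : ℕ) : IsLocallyConstant fun z => Ok (φ z) n k (x z) := by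
  refine (IsLocallyConstant.iff_eventually_eq _).2 fun z0 => ?_
  filter_upwards [Pool.Agent.B8F.ev_ag (x := x) (y := fun _ => x z0) k
    fun j _ => Pool.Agent.B8F.cont_seq.1 h2 z0 j,
    Pool.Agent.B8F.cont_seq.1 h1 z0 (pr2 n (wc (x z0) k))] with z a b
  unfold Ok
  rw [wc_congr a, b]

theorem Ex_le_zf (u : ℕ → ℕ) (j : ℕ) : j ≤ zf u j := (Pool.Agent.B8F.zf_mono u).le_apply

theorem Ex_sh_x (u : ℕ → ℕ) (i : ℕ) : XK.x.sh u i = true ↔ ∃ j, zf u j = i := by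
  simp only [XK.sh, decide_eq_true_eq, Finset.mem_image, Finset.mem_range]
  exact ⟨fun ⟨j, _, h⟩ => ⟨j, h⟩, fun ⟨j, h⟩ => ⟨j, Nat.lt_succ_of_le (h ▸ Ex_le_zf u j), h⟩⟩

theorem nice_ev (κ : XK) {γ : WithTop K} (hγ : γ < ⊤) : NiceW ⊤ ((id, ev κ γ) : VD K) :=
  ⟨isFr_id, Ex_ev_cont κ γ, {γ}, countable_singleton γ, singleton_subset_iff.2 hγ, suppW_id _,
    fun _ _ h => Ex_ev_on κ (mem_singleton γ) h⟩

/-- the two points at one coordinate differ exactly on the range of `zf u` -/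
theorem pt_ne (s : ℕ → Bool) (u : ℕ → ℕ) (i : ℕ) :
    XK.x.pt s u (i + 1) ≠ XK.y.pt s u (i + 1) ↔ ∃ j, zf u j = i := by
  rw [← Ex_sh_x]
  show (xor (s i) (XK.x.sh u i)).toNat ≠ (xor (s i) false).toNat ↔ _
  cases s i <;> cases XK.x.sh u i <;> simp

/-- in a gap the point looks like a finite modification -/
theorem pt_gap (s : ℕ → Bool) (u : ℕ → ℕ) {n b : ℕ} (h : ∀ j, ¬ (n ≤ zf u j ∧ zf u j < b)) :
    ∃ t ⊆ Finset.range n, ∀ i ≤ b, (XK.f t).pt s u i = XK.x.pt s u i := by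
  refine ⟨(Finset.range n).filter fun i => XK.x.sh u i = true, Finset.filter_subset _ _,
    fun i hi => ?_⟩
  cases i with
  | zero => rfl
  | succ i =>
    refine congrArg (fun b => (xor (s i) b).toNat) (Bool.eq_iff_iff.2 ?_)
    show decide _ = true ↔ _
    rw [decide_eq_true_eq, Finset.mem_filter, Finset.mem_range]
    refine ⟨fun h => h.2, fun h' => ⟨?_, h'⟩⟩
    obtain ⟨j, rfl⟩ := (Ex_sh_x u i).1 h'
    exact not_le.1 fun e => h j ⟨e, hi⟩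

variable [WellFoundedLT K]

theorem gap_dense {α : WithTop K} (hα : α < ⊤) {c : VD K} (hc : NiceW α c) {r : CD K}
    (h : LeW ⊤ r.T c.1) {B : Set ℕ} (hB : B.Infinite) : ∃ r', r' ≤ r ∧ ∃ n ∈ B,
      ∀ v w, Eqv ⊤ (c.1 w) (r'.T v) → ∀ j,
        ¬ (n ≤ zf ((r'.T v).2 α) j ∧ zf ((r'.T v).2 α) j < c.2 w n) := by
  classical
  let y0 : Y K := fun _ _ => false
  obtain ⟨θ, ha, hb, -, -⟩ := exists_fac r.fr hc.1 h
  obtain ⟨l, hl⟩ := (r.fr.m α).sec y0 (fun _ _ => 0) 0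
  let vt : ℕ → Pt (WithTop K) := fun t => Function.update (fun _ _ => 0) α fun _ => t
  have a1 : ∀ t, AgB α (vt t) fun _ _ => 0 := fun t => Pool.Agent.B8F.agB_update _ _
  have a2 : ∀ t t', _ := fun t t' => hl (vt t) (vt t') (a1 t) (a1 t')
    (fun _ h => absurd h (Nat.not_lt_zero _)) fun _ h => absurd h (Nat.not_lt_zero _)
  have hinj : Function.Injective fun t => (r.T (y0, vt t)).2 α l := fun t t' e => by
    have h0 := (a2 t t').2.1 e
    simpa only [vt, Function.update_self] using h0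
  obtain ⟨n, hn, hn'⟩ := hB.exists_gt (zf ((r.T (y0, vt 0)).2 α) l)
  obtain ⟨_, ⟨t, rfl⟩, ht⟩ := (infinite_range_of_injective hinj).exists_gt
    (c.2 (θ (y0, fun _ _ => 0)) n)
  have hg : Continuous fun v => c.2 (θ v) := hc.2.1.comp ha.cont
  obtain ⟨Ψ, b1, b2⟩ := exists_boxW (z0 := ((y0, vt t) : W K))
    (P := fun v => c.2 (θ v) n < (r.T v).2 α l ∧ Ag l ((r.T v).2 α) ((r.T (y0, vt 0)).2 α)) (by
      filter_upwards [Pool.Agent.B8F.cont_seq.1 hg (y0, vt t) n,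
        (tendsto_W.1 (r.fr.cont.tendsto (y0, vt t))).2 α l,
        (r.fr.cont.tendsto (y0, vt t)).eventually (ev_boxM _ α l)] with v c1 c2 c3
      rw [c1, c2, hc.dep (ha.agW (z := (y0, vt t)) (z' := (y0, fun _ _ => 0)) ⟨.rfl', a1 t⟩)]
      exact ⟨ht, c3.trans (a2 t 0).1⟩)
  refine ⟨r.cp Ψ b1, r.cp_le b1, n, hn, fun v w hw j ⟨x, y⟩ => ?_⟩
  rw [hc.dep ((hc.1.injE (hw.trans (hb (Ψ v)).symm)).agW.mono hα.le)] at y
  rcases lt_or_ge j l with hj | hj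
  · have e : zf ((r.T (Ψ v)).2 α) j = _ := Pool.Agent.B8F.dm0_zf_congr (b2 v).2 hj
    exact absurd (x.trans (e.le.trans ((Pool.Agent.B8F.zf_mono _).monotone hj.le))) hn'.not_ge
  · exact absurd (((b2 v).1.trans (Pool.Agent.B8F.lt_zf _ l)).trans_le
      ((Pool.Agent.B8F.zf_mono _).monotone hj)) y.not_gt

/-- a new perfect set coordinate that copies the section at `a` -/
theorem Ex_copy {η : Y K → Y K} (h : IsS η) {a a' : K} (ha : a < a') :
    IsS fun y => update y a' (η (update y a (y a')) a) := by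
  obtain ⟨s, hs, h1, h2⟩ := h.supp
  refine ⟨⟨?_, fun c y y' e => ?_, insert ↑a (insert ↑a' s), (hs.insert _).insert _,
    fun y c hc => update_of_ne (fun e => hc (by simp [e])) _ _, fun y y' e c hc => ?_⟩,
    fun c y y' e e' => ?_⟩
  · exact continuous_id.update a' ((continuous_apply a).comp
      (h.cont.comp (continuous_id.update a (continuous_apply a'))))
  · by_cases hc : c = a'
    · subst hc
      rw [update_self, update_self, e c le_rfl]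
      refine h.proj a _ _ fun c' hc' => ?_
      by_cases x : c' = a
      · rw [x, update_self, update_self]
      · rw [update_of_ne x, update_of_ne x, e c' (hc'.trans ha.le)]
    · rw [update_of_ne hc, update_of_ne hc, e c le_rfl]
  · beta_reduce
    by_cases hc' : c = a'
    · subst hc'
      rw [update_self, update_self, e c hc]
      by_cases x : (a : WithTop K) ∈ s
      · refine h2 _ _ (fun c' hc' => ?_) a x
        by_cases x : c' = a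
        · rw [x, update_self, update_self]
        · rw [update_of_ne x, update_of_ne x, e c' (Or.inr (Or.inr hc'))]
      · rw [h1 _ a x, h1 _ a x, update_self, update_self]
    · rw [update_of_ne hc', update_of_ne hc', e c hc]
  · by_cases hc : c = a'
    · subst hc
      simp only [update_self] at e'
      have := h.inj a _ _ (fun c' hc' => by
        rw [update_of_ne hc'.ne, update_of_ne hc'.ne, e c' (hc'.trans ha)]) e'
      simpa only [update_self] using this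
    · simpa only [update_of_ne hc] using e'

/-- what can happen at `α` can happen at a fresh coordinate -/
theorem copy_dense {P : K → Prop} (hP : Fresh P) {α : WithTop K} (hα : α < ⊤) {c : VD K}
    (hc : NiceW α c) {r : CD K} (h : LeW ⊤ r.T c.1) (t : Finset ℕ) (n : ℕ) :
    ∃ r', r' ≤ r ∧ ((∃ k, ∀ v w, Eqv ⊤ (c.1 w) (r'.T v) → Ok (c.2 w) n k (ev (.f t) α (r'.T v))) ∨
      ∃ α' : K, P α' ∧ ∀ v w, Eqv ⊤ (c.1 w) (r'.T v) → ∀ k,
        ¬ Ok (c.2 w) n k (ev (.f t) α' (r'.T v))) := by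
  obtain ⟨θ, ha, hb, -, -⟩ := exists_fac r.fr hc.1 h
  have hd : ∀ v w, Eqv ⊤ (c.1 w) (r.T v) → c.2 w = c.2 (θ v) := fun v w hw =>
    hc.dep ((hc.1.injE (hw.trans (hb v).symm)).agW.mono hα.le)
  by_cases h0 : ∃ v k, Ok (c.2 (θ v)) n k (ev (.f t) α (r.T v))
  · obtain ⟨v0, k, h0⟩ := h0
    obtain ⟨Ψ, b1, b2⟩ := exists_boxW (z0 := v0)
      (P := fun v => Ok (c.2 (θ v)) n k (ev (.f t) α (r.T v)))
      (((Ex_ok_lc (hc.2.1.comp ha.cont) ((Ex_ev_cont _ α).comp r.fr.cont) n k).eventually_eq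
        v0).mono fun v e => e.mpr h0)
    exact ⟨r.cp Ψ b1, r.cp_le b1, Or.inl ⟨k, fun v w hw => hd _ w hw ▸ b2 v⟩⟩
  push Not at h0
  obtain ⟨a, rfl⟩ := WithTop.ne_top_iff_exists.1 hα.ne
  obtain ⟨s, hs, h1⟩ := r.fr.supp
  obtain ⟨a', h2, h3⟩ := hP _ (hs.insert (a : WithTop K))
  have h4 : a < a' := WithTop.coe_lt_coe.1 (h3 _ (mem_insert _ _) hα)
  have h5 : (a' : WithTop K) ∉ s := fun x => lt_irrefl _ (h3 _ (Or.inr x) (WithTop.coe_lt_top _))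
  have b1 := (Ex_copy r.fr.isS h4).fr
  refine ⟨r.cp _ b1, r.cp_le b1, Or.inr ⟨a', h2, fun v w hw k x =>
    h0 (update v.1 a (v.1 a'), v.2) k ?_⟩⟩
  rw [hd _ w hw] at x
  rw [hc.dep (ha.agW (z := (update v.1 a (v.1 a'), v.2))
    (z' := (update v.1 a' (sp r.T (update v.1 a (v.1 a')) a), v.2)) ⟨fun b hb' => ?_, .rfl'⟩)]
  · refine x.congr fun i _ => congrFun ?_ i
    unfold ev
    rw [Ex_pt_indep (by simp) _ _ ((r.T (update v.1 a (v.1 a'), v.2)).2 a), yAt_coe, yAt_coe,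
      r.fr.fst (update v.1 a (v.1 a'), v.2)]
    exact congrArg (fun s => (XK.f t).pt s _) ((h1.1 _ a' h5).trans (update_self ..))
  · have e := WithTop.coe_lt_coe.1 hb'
    exact (update_of_ne e.ne _ _).trans (update_of_ne (e.trans h4).ne _ _).symm

/-- the sections are perfect sets -/
theorem Ex_split {η : Y K → Y K} (h : IsS η) (b : K) (m : ℕ) : ∃ x x' : ℕ → Bool, ∃ i, m ≤ i ∧
    η (update (fun _ _ => false) b x) b i ≠ η (update (fun _ _ => false) b x') b i := by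
  obtain ⟨x, x', h1, h2⟩ := Finite.exists_ne_map_eq_of_infinite
    fun (x : ℕ → Bool) (i : Fin m) => η (update (fun _ _ => false) b x) b i
  by_contra h3
  push Not at h3
  have := h.inj b (update (fun _ _ => false) b x) (update (fun _ _ => false) b x')
    (fun c hc => by rw [update_of_ne hc.ne, update_of_ne hc.ne]) (funext fun i => by
      rcases lt_or_ge i m with hi | hi
      · exact congrFun h2 ⟨i, hi⟩
      · exact h3 x x' i hi)
  exact h1 (by simpa only [update_self] using this)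

theorem dif_dense {α α' : WithTop K} (hα : α < ⊤) (hα' : α' < ⊤) (hne : α ≠ α') (κ : XK)
    (r : CD K) (m : ℕ) :
    ∃ r', r' ≤ r ∧ ∃ i, m ≤ i ∧ ∀ v, ev κ α (r'.T v) i ≠ ev .y α' (r'.T v) i := by
  obtain ⟨a, rfl⟩ := WithTop.ne_top_iff_exists.1 hα.ne
  obtain ⟨a', rfl⟩ := WithTop.ne_top_iff_exists.1 hα'.ne
  have key : ∃ z i, m ≤ i ∧ ev κ a (r.T z) i ≠ ev .y a' (r.T z) i := by
    by_contra h
    push Not at h
    obtain ⟨x, x', i, h1, h2⟩ := Ex_split r.fr.isS (max a a') m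
    let z : (ℕ → Bool) → W K := fun x => (update (fun _ _ => false) (max a a') x, fun _ _ => 0)
    have h3 : ∀ x, xor (sp r.T (z x).1 a i) (κ.sh ((r.T (z x)).2 a) i) = sp r.T (z x).1 a' i :=
      fun x => by
        have := Cond_toNat (h (z x) (i + 1) (h1.trans i.le_succ))
        rwa [yAt_coe, yAt_coe, r.fr.fst, show XK.y.sh _ i = false from rfl, Bool.xor_false] at this
    have h4 : AgS (max a a' : K) (z x).1 (z x').1 := fun c hc => by
      have e := (WithTop.coe_lt_coe.1 hc).ne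
      simp only [z, update_of_ne e]
    have h5 : (r.T (z x)).2 a = (r.T (z x')).2 a := (r.fr.m a).proj _ _
      ⟨h4.mono (WithTop.coe_le_coe.2 (le_max_left _ _)), .rfl'⟩ rfl
    have h6 := r.fr.isS.toAd.agS h4
    have h7 := h3 x
    have h8 := h3 x'
    rw [← h5] at h8
    rcases lt_or_gt_of_ne (fun e : a = a' => hne (congrArg _ e)) with e | e
    · rw [← h6 a (WithTop.coe_lt_coe.2 (lt_max_of_lt_right e)), h7] at h8
      refine h2 ?_
      nth_rw 2 4 [max_eq_right e.le]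
      exact h8
    · rw [← h6 a' (WithTop.coe_lt_coe.2 (lt_max_of_lt_left e)), ← h7] at h8
      refine h2 ?_
      nth_rw 2 4 [max_eq_left e.le]
      exact (Bool.xor_left_inj.1 h8).symm
  obtain ⟨z, i, h1, h2⟩ := key
  obtain ⟨Ψ, b1, b2⟩ := exists_boxW (z0 := z)
    (P := fun v => ev κ a (r.T v) i ≠ ev .y a' (r.T v) i) (by
      filter_upwards [Pool.Agent.B8F.cont_seq.1 ((Ex_ev_cont κ a).comp r.fr.cont) z i,
        Pool.Agent.B8F.cont_seq.1 ((Ex_ev_cont .y a').comp r.fr.cont) z i] with v c1 c2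
      exact fun e => h2 (c1.symm.trans (e.trans c2)))
  exact ⟨r.cp Ψ b1, r.cp_le b1, i, h1, b2⟩

def Ex_acc (x φ : ℕ → ℕ) : ℕ → ℕ
  | 0 => x 0 + 1
  | n + 1 => Ex_acc x φ n + (x (n + 1) + (Finset.range (Ex_acc x φ n + 1)).sup φ + 1)

def Ex_t (x φ : ℕ → ℕ) : ℕ → ℕ
  | 0 => x 0
  | n + 1 => x (n + 1) + (Finset.range (Ex_acc x φ n + 1)).sup φ

theorem Ex_zf_t (x φ : ℕ → ℕ) (n : ℕ) : zf (Ex_t x φ) n = Ex_acc x φ n := by
  induction n with
  | zero => simp [zf, Ex_t, Ex_acc]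
  | succ n ih => rw [Ex_acc, ← ih, zf, Finset.sum_range_succ, Ex_t, ← ih]; rfl

theorem Ex_acc_congr {x x' : ℕ → ℕ} (φ : ℕ → ℕ) {n : ℕ} (h : Ag (n + 1) x x') :
    Ex_acc x φ n = Ex_acc x' φ n := by
  induction n with
  | zero => rw [Ex_acc, Ex_acc, h 0 Nat.one_pos]
  | succ n ih => rw [Ex_acc, Ex_acc, ih (h.mono (Nat.le_succ _)), h (n + 1) (Nat.lt_succ_self _)]

theorem Ex_t_iff {x x' : ℕ → ℕ} (φ : ℕ → ℕ) {n : ℕ} (h : Ag n x x') :
    Ex_t x φ n = Ex_t x' φ n ↔ x n = x' n := by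
  cases n with
  | zero => rfl
  | succ n => rw [Ex_t, Ex_t, Ex_acc_congr φ h, add_left_inj]

theorem Ex_t_cont {Z : Type} [TopologicalSpace Z] {x φ : Z → ℕ → ℕ} (h1 : Continuous x)
    (h2 : Continuous φ) : Continuous fun z => Ex_t (x z) (φ z) := by
  have h3 : ∀ z0 N, ∀ᶠ z in 𝓝 z0, (Finset.range N).sup (φ z) = (Finset.range N).sup (φ z0) :=
    fun z0 N => (Pool.Agent.B8F.ev_ag (x := φ) (y := fun _ => φ z0) N
      fun j _ => Pool.Agent.B8F.cont_seq.1 h2 z0 j).mono fun z hz =>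
        Finset.sup_congr rfl fun j hj => hz j (Finset.mem_range.1 hj)
  have h4 : ∀ z0 n, ∀ᶠ z in 𝓝 z0, Ex_acc (x z) (φ z) n = Ex_acc (x z0) (φ z0) n := by
    intro z0 n
    induction n with
    | zero => exact (Pool.Agent.B8F.cont_seq.1 h1 z0 0).mono fun z hz => by rw [Ex_acc, Ex_acc, hz]
    | succ n ih =>
      filter_upwards [ih, Pool.Agent.B8F.cont_seq.1 h1 z0 (n + 1),
        h3 z0 (Ex_acc (x z0) (φ z0) n + 1)] with z a b c
      rw [Ex_acc, Ex_acc, a, b, c]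
  refine Pool.Agent.B8F.cont_seq.2 fun z0 n => ?_
  cases n with
  | zero => exact Pool.Agent.B8F.cont_seq.1 h1 z0 0
  | succ n =>
    filter_upwards [h4 z0 n, Pool.Agent.B8F.cont_seq.1 h1 z0 (n + 1),
      h3 z0 (Ex_acc (x z0) (φ z0) n + 1)] with z a b c
    rw [Ex_t, Ex_t, a, b, c]

theorem fast_dense {P : K → Prop} (hP : Fresh P) {c : VD K} (hc : NiceW ⊤ c) {r : CD K}
    (h : LeW ⊤ r.T c.1) : ∃ r', r' ≤ r ∧ ∃ α : K, P α ∧ ∀ v w, Eqv ⊤ (c.1 w) (r'.T v) →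
      ∀ i j, j ≤ zf ((r'.T v).2 α) i → c.2 w j ≤ zf ((r'.T v).2 α) (i + 1) := by
  obtain ⟨θ, ha, hb, -, -⟩ := exists_fac r.fr hc.1 h
  obtain ⟨c1, c2, s, hs, c3, c4, c5⟩ := hc
  obtain ⟨s', hs', h1⟩ := r.fr.supp
  obtain ⟨s'', hs'', h2⟩ := ha.supp
  obtain ⟨a, h3, h4⟩ := hP _ (hs.union hs')
  have hc : NiceW a c := ⟨c1, c2, s, hs, fun γ hγ => h4 γ (Or.inl hγ) (c3 hγ), c4, c5⟩
  have h5 : (a : WithTop K) ∉ s' := fun x => lt_irrefl _ (h4 _ (Or.inr x) (WithTop.coe_lt_top _))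
  have b1 := isFr_upd (α := (a : WithTop K)) (t := fun z => Ex_t (z.2 a) (c.2 (θ z)))
    (Ex_t_cont ((continuous_apply _).comp continuous_snd) (c2.comp ha.cont))
    ⟨insert ↑a (s ∪ s''), (hs.union hs'').insert _, fun z z' e => by
      show Ex_t _ _ = Ex_t _ _
      rw [e.2 a (mem_insert _ _), c5 _ _ (((h2.mono subset_union_right).2.2 z z'
        (e.mono (subset_insert _ _))).mono subset_union_left)]⟩
    fun z z' n e e' => by
      rw [hc.dep (ha.agW e)]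
      exact ⟨fun i hi => (Ex_t_iff _ (e'.mono hi.le)).2 (e' i hi), Ex_t_iff _ e'⟩
  refine ⟨r.cp _ b1, r.cp_le b1, a, h3, fun v w hw i j => ?_⟩
  rw [show ((r.cp _ b1).T v).2 a = Ex_t (v.2 a) (c.2 (θ v)) from
    (h1.2.1 _ _ h5).trans (update_self ..), Ex_zf_t, Ex_zf_t,
    hc.dep ((c1.injE (hw.trans (hb _).symm)).agW.mono le_top),
    hc.dep (ha.agW (z := (v.1, update v.2 a (Ex_t (v.2 a) (c.2 (θ v))))) (z' := v)
      ⟨.rfl', Pool.Agent.B8F.agB_update _ _⟩), Ex_acc]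
  intro hj
  have := Finset.le_sup (f := c.2 (θ v)) (Finset.mem_range.2 (Nat.lt_add_one_of_le hj))
  omega

theorem Ex_G1_eqv {β γ : WithTop K} {c : VD K} (hc : NiceW β c) {κ : XK} (hκ : κ ≠ .x ∨ γ < β)
    {w w' : W K} (e : Eqv β w w') : G1 κ c γ w = G1 κ c γ w' := by
  have h := hc.1.eqv e
  unfold G1 ev
  rw [hc.dep e.agW, yAt_congr γ h.1]
  rcases hκ with x | x
  · rw [Ex_pt_indep x _ _ ((c.1 w').2 γ)]
  · rw [h.2 γ x]

theorem Ex_G1_dep {β : WithTop K} {c : VD K} (hc : NiceW β c) (γ : WithTop K) :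
    ∃ s : Set (WithTop K), s.Countable ∧ ∀ κ, DepW s (G1 κ c γ) := by
  obtain ⟨-, -, s, hs, -, c4, c5⟩ := hc
  refine ⟨insert γ s, hs.insert _, fun κ w w' e => ?_⟩
  unfold G1
  rw [c5 _ _ (e.mono (subset_insert _ _)),
    Ex_ev_on κ (mem_insert γ s) ((c4.mono (subset_insert _ _)).2.2 _ _ e)]

theorem Ex_G1_lc {β : WithTop K} {c : VD K} (hc : NiceW β c) (κ : XK) (γ : WithTop K) (n k : ℕ) :
    IsLocallyConstant fun w => G1 κ c γ w n k :=
  Ex_ok_lc hc.2.1 ((Ex_ev_cont κ γ).comp hc.1.cont) n k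

variable [OrderBot K]

theorem bd1_dense {β γ : WithTop K} {c : VD K} (hc : NiceW β c) {κ : XK}
    (hκ : κ ≠ .x ∨ γ < β) {r : CD K} (h : LeW ⊤ r.T c.1) :
    ∃ r', r' ≤ r ∧ ((∃ n, ∀ v w, Eqv ⊤ (c.1 w) (r'.T v) → ∀ k, ¬ G1 κ c γ w n k) ∨
      ∃ c', NiceW β c' ∧ LeW ⊤ r'.T c'.1 ∧ ∀ v w w', Eqv ⊤ (c.1 w) (r'.T v) →
        Eqv ⊤ (c'.1 w') (r'.T v) → ∀ n, ∃ k ≤ c'.2 w' n, G1 κ c γ w n k) :=
  bd_dense hc.1 _ (Ex_G1_lc hc κ γ) (fun _ _ => Ex_G1_eqv hc hκ)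
    (let ⟨s, a, b⟩ := Ex_G1_dep hc γ; ⟨s, a, b κ⟩) h

theorem bd2_dense {β γ : WithTop K} {c : VD K} (hc : NiceW β c) {r : CD K}
    (h : LeW ⊤ r.T c.1) :
    ∃ r', r' ≤ r ∧ ((∃ n, ∀ v w, Eqv ⊤ (c.1 w) (r'.T v) → ∀ k, ¬ G2 c γ w n k) ∨
      ∃ c', NiceW β c' ∧ LeW ⊤ r'.T c'.1 ∧ ∀ v w w', Eqv ⊤ (c.1 w) (r'.T v) →
        Eqv ⊤ (c'.1 w') (r'.T v) → ∀ n, ∃ k ≤ c'.2 w' n, G2 c γ w n k) := by
  have e : ∀ w w', (∀ t, G1 (.f t) c γ w = G1 (.f t) c γ w') → G2 c γ w = G2 c γ w' :=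
    fun w w' x => by
      funext n k
      show (∀ t ⊆ Finset.range n, ∃ k' ≤ k, G1 (.f t) c γ w n k') =
        ∀ t ⊆ Finset.range n, ∃ k' ≤ k, G1 (.f t) c γ w' n k'
      simp only [x]
  refine bd_dense hc.1 _ (fun n k => (IsLocallyConstant.iff_eventually_eq _).2 fun w0 => ?_)
    (fun w w' x => e w w' fun t => Ex_G1_eqv hc (Or.inl (by simp)) x)
    (let ⟨s, a, b⟩ := Ex_G1_dep hc γ; ⟨s, a, fun w w' x => e w w' fun t => b _ w w' x⟩) h
  filter_upwards [(eventually_all_finset ((Finset.range n).powerset ×ˢ Finset.range (k + 1))).2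
    fun p _ => (Ex_G1_lc hc (.f p.1) γ n p.2).eventually_eq w0] with w hw
  refine propext (forall₂_congr fun t ht => exists_congr fun k' => and_congr_right fun hk => ?_)
  exact (hw (t, k') (Finset.mem_product.2
    ⟨Finset.mem_powerset.2 ht, Finset.mem_range.2 (Nat.lt_succ_of_le hk)⟩)).to_iff

end

theorem exists_par : ∃ P : KK → Prop, Fresh P ∧ Fresh fun α => ¬ P α := by
  let P : KK → Prop := (wellFounded_lt (α := KK)).fix
    fun α ih => ∀ β (h : β < α), (∀ γ < α, γ ≤ β) → ¬ ih β h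
  have hP : ∀ α, P α ↔ ∀ β < α, (∀ γ < α, γ ≤ β) → ¬ P β := fun α =>
    (WellFounded.fix_eq _ _ α).to_iff
  have key : ∀ s : Set (WithTop KK), s.Countable → ∃ a b : KK, (P b ↔ ¬ P a) ∧ a < b ∧
      ∀ γ ∈ s, γ < ⊤ → γ < a := fun s hs => by
    obtain ⟨α, h1, h2⟩ := Pool.Agent.B8F.exists_bound hs
    obtain ⟨a, rfl⟩ := WithTop.ne_top_iff_exists.1 h1.ne
    obtain ⟨α', h3, h4⟩ := Pool.Agent.B8F.exists_bound (countable_singleton (a : WithTop KK))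
    obtain ⟨a', rfl⟩ := WithTop.ne_top_iff_exists.1 h3.ne
    obtain ⟨b, h5, h6⟩ := (wellFounded_lt (α := KK)).has_min {b | a < b}
      ⟨a', WithTop.coe_lt_coe.1 (h4 _ rfl h1)⟩
    have h7 : ∀ γ < b, γ ≤ a := fun γ x => not_lt.1 fun y => h6 γ y x
    refine ⟨a, b, (hP b).trans ⟨fun x => x a h5 h7, fun x β y z => ?_⟩, h5, h2⟩
    rwa [le_antisymm (h7 β y) (z a h5)]
  refine ⟨P, fun s hs => ?_, fun s hs => ?_⟩
  · obtain ⟨a, b, h1, h2, h3⟩ := key s hs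
    by_cases h : P a
    · exact ⟨a, h, h3⟩
    · exact ⟨b, h1.2 h, fun γ x y => (h3 γ x y).trans (WithTop.coe_lt_coe.2 h2)⟩
  · obtain ⟨a, b, h1, h2, h3⟩ := key s hs
    by_cases h : P a
    · exact ⟨b, fun x => h1.1 x h, fun γ x y => (h3 γ x y).trans (WithTop.coe_lt_coe.2 h2)⟩
    · exact ⟨a, h, h3⟩

theorem nice_lvl {c : VD KK} (h : NiceW ⊤ c) : ∃ β, β < ⊤ ∧ NiceW β c := by
  obtain ⟨a, b, s, h1, h2, h3⟩ := h
  obtain ⟨β, h4, h5⟩ := Pool.Agent.B8F.exists_bound h1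
  exact ⟨β, h4, a, b, s, h1, fun γ hγ => h5 γ hγ (h2 hγ), h3⟩

end Pool.Agent.B8P
end

-- merged part: Pool.Agent.Work.MP_b8a914_gt.P.GenD
section
/-! The generic model: names, dense sets, values of codes. -/

namespace Pool.Agent.B8P
open Pool.Agent.Lib.ZFModel Pool.Agent.Lib.ZFModel.Name Pool.Agent.Work.MP_63c7e0_lc
  Pool.Agent.B8F

/-- the name of the value of a code -/
def genV (c : VD KK) : Name (CD KK) := relName (DecW c)

/-- the code of a function of the ground model -/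
def genC (f : ℕ → ℕ) : VD KK := (id, fun _ => f)

/-- the name of the set of the successor functions of the sets in the generic ultrafilter base -/
noncomputable def genKN : Name (CD KK) :=
  rName (fun A : {A : Set ℕ // A.Infinite} => genV (genC (nxt A.1))) fun A r => r.A = A.1

/-- the even coordinates -/
def Par : KK → Prop := exists_par.choose

/-- the coordinates that are used for the points of kind `κ` -/
def Leg (κ : XK) (γ : II) : Prop :=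
  ∃ α : KK, γ = α ∧ match κ with
    | .f _ => ¬ Par α
    | _ => Par α

theorem Leg.lt {κ : XK} {γ : II} (h : Leg κ γ) : γ < ⊤ :=
  let ⟨α, e, _⟩ := h; e ▸ WithTop.coe_lt_top α

/-- the name of the example -/
noncomputable def genXN : Name (CD KK) :=
  rName (fun i : {i : XK × II // Leg i.1 i.2} => genV (id, ev i.1.1 i.1.2)) fun _ _ => True

def GenFr (a : Name (CD KK)) (r : CD KK) (c1 c2 c3 : VD KK) : Prop :=
  MemF (pairN (genV c1) (pairN (genV c2) (genV c3))) a r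

def GenPh (a : Name (CD KK)) (i n : ℕ) (r : CD KK) : Prop := MemF (pairN (natN i) (natN n)) a r

theorem gen_en (r : CD KK) : ∃ e : ℕ → II, SuppW (Set.range e) r.T := by
  obtain ⟨s, hs, h⟩ := r.fr.supp
  obtain ⟨e, he⟩ := (hs.insert ⊤).exists_eq_range ⟨⊤, Set.mem_insert _ _⟩
  exact ⟨e, he ▸ h.mono (Set.subset_insert _ _)⟩

theorem gen_cp (a : Name (CD KK)) (r : CD KK) : ∃ αβ : (ℕ → II) × II, DDn (GenFr a) r →
    StrictMono αβ.1 ∧ (∀ n, CP (GenFr a) r (αβ.1 n)) ∧ αβ.2 < ⊤ ∧ ∀ n, αβ.1 n ≤ αβ.2 := by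
  by_cases h : DDn (GenFr a) r
  · obtain ⟨α, β, h1⟩ := exists_CP (Fr := GenFr a) (fun _ _ _ _ _ h h' => MemF.mono h h') h
    exact ⟨(α, β), fun _ => h1⟩
  · exact ⟨(fun _ => ⊤, ⊤), fun h' => absurd h' h⟩

/-- indices of the dense sets -/
inductive GenK : Type
  | supp (n : ℕ) | inv (i : ℕ) | invS (i : ℕ) | dec (k : ℕ) | reap | all | fin (i n : ℕ)
  | unb (m : ℕ) | refl | seq (n : ℕ) | bnd | key | clos | zc | grd | nx | lvl | xc (κ : XK) | xel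
  | bd1 (κ : XK) | bd2 | copy (t : Finset ℕ) (n : ℕ) | gap | dif (κ : XK) (m : ℕ) | fast
  deriving Countable

/-- the dense sets -/
def GenW0 (k : GenK) (a : Name (CD KK)) (r : CD KK) (c : VD KK) (γ γ' : II) (q : CD KK)
    (δ : II) (c2 c3 : VD KK) : Prop :=
  match k with
  | .supp n => δ = (gen_en r).choose n
  | .inv i => ∃ n, DecW (r.T, fun w => w.2 γ) i n q
  | .invS i => ∃ n, DecW (r.T, fun w i => (yAt γ w i).toNat) i n q
  | .dec k => ∃ n, DecW c k n q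
  | .reap => (∀ b ∈ q.A, MemF (natN b) a q) ∨ ∀ b ∈ q.A, ∀ q', q' ≤ q → ¬ MemF (natN b) a q'
  | .all => (∃ i, ∀ q', q' ≤ q → ∀ n, ¬ GenPh a i n q') ∨
      (c2.1 = q.T ∧ NiceW ⊤ c2 ∧ ∀ i q', q' ≤ q → ∀ v w, Eqv ⊤ (q.T w) (q'.T v) →
        ∃ q'', q'' ≤ q' ∧ GenPh a i (c2.2 w i) q'')
  | .fin i n => GenPh a i n q
  | .unb m => ∃ j, m ≤ j ∧ ∀ v w, Eqv ⊤ (c.1 w) (q.T v) → c.2 w j < (q.T v).2 γ j
  | .refl => DDn (GenFr a) q ∨ (NiceW ⊤ c2 ∧ NiceW ⊤ c3 ∧ LeW ⊤ q.T c2.1 ∧ LeW ⊤ q.T c3.1 ∧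
      ∀ r', r' ≤ q → ∀ c4, NiceW ⊤ c4 → LeW ⊤ r'.T c4.1 → ¬ GenFr a r' c2 c3 c4)
  | .seq n => δ = (gen_cp a r).choose.1 n
  | .bnd => δ = (gen_cp a r).choose.2
  | .key => NiceW ⊤ c2 ∧ NiceW ⊤ c3 ∧ LeW ⊤ q.T c2.1 ∧ LeW ⊤ q.T c3.1 ∧ GenFr a q c c2 c3 ∧
      ∀ v w2 w3, Eqv ⊤ (c2.1 w2) (q.T v) → Eqv ⊤ (c3.1 w3) (q.T v) →
        KeyP (zf ((q.T v).2 γ)) r.A (c2.2 w2) (c3.2 w3)
  | .clos => c2.1 = c.1 ∧ NiceW γ' c2 ∧ ∀ w j k,
      k ≤ zf ((c.1 w).2 γ) (nxt r.A (zf ((c.1 w).2 γ) j) + 1) → c.2 w k ≤ c2.2 w j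
  | .zc => c2 = (id, fun w => zf (w.2 γ))
  | .grd => ∃ f, a = genV (genC f) ∧ c2 = genC f
  | .nx => c2 = genC (nxt r.A)
  | .lvl => δ < ⊤ ∧ NiceW δ c
  | .xc κ => c2 = (id, ev κ γ)
  | .xel => ∃ κ, Leg κ δ ∧ a = genV (id, ev κ δ)
  | .bd1 κ => (∃ n, ∀ v w, Eqv ⊤ (c.1 w) (q.T v) → ∀ k, ¬ G1 κ c γ w n k) ∨
      (NiceW γ' c2 ∧ LeW ⊤ q.T c2.1 ∧ ∀ v w w', Eqv ⊤ (c.1 w) (q.T v) →
        Eqv ⊤ (c2.1 w') (q.T v) → ∀ n, ∃ k ≤ c2.2 w' n, G1 κ c γ w n k)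
  | .bd2 => (∃ n, ∀ v w, Eqv ⊤ (c.1 w) (q.T v) → ∀ k, ¬ G2 c γ w n k) ∨
      (NiceW γ' c2 ∧ LeW ⊤ q.T c2.1 ∧ ∀ v w w', Eqv ⊤ (c.1 w) (q.T v) →
        Eqv ⊤ (c2.1 w') (q.T v) → ∀ n, ∃ k ≤ c2.2 w' n, G2 c γ w n k)
  | .copy t n => (∃ k, ∀ v w, Eqv ⊤ (c.1 w) (q.T v) → Ok (c.2 w) n k (ev (.f t) γ (q.T v))) ∨
      (Leg (.f t) δ ∧ ∀ v w, Eqv ⊤ (c.1 w) (q.T v) → ∀ k,
        ¬ Ok (c.2 w) n k (ev (.f t) δ (q.T v)))
  | .gap => ∃ n ∈ r.A, ∀ v w, Eqv ⊤ (c.1 w) (q.T v) → ∀ j,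
      ¬ (n ≤ zf ((q.T v).2 γ) j ∧ zf ((q.T v).2 γ) j < c.2 w n)
  | .dif κ m => ∃ i, m ≤ i ∧ ∀ v, ev κ γ (q.T v) i ≠ ev .y γ' (q.T v) i
  | .fast => Leg .x δ ∧ ∀ v w, Eqv ⊤ (c.1 w) (q.T v) →
      ∀ i j, j ≤ zf ((q.T v).2 δ) i → c.2 w j ≤ zf ((q.T v).2 δ) (i + 1)

def genW : Fam (CD KK) (II × VD KK × VD KK) (Option GenK) (CD KK × (II × VD KK × VD KK)) :=
  fun k v c a qj => match k with
  | none => qj.2.2.1 = (a 0).2.2
  | some k => GenW0 k (v 0) (c 0) (a 0).2.1 (a 1).1 (a 2).1 qj.1 qj.2.1 qj.2.2.1 qj.2.2.2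

def genRN : Fam (CD KK) (II × VD KK × VD KK) (Option GenK) (Name (CD KK)) :=
  fun k _ _ a x => match k with
  | none => x = genV (a 0).2.1
  | some .grd => x = genKN
  | some _ => x = genXN

def genId : VD KK := (id, fun _ => id)

/-- the generic models -/
abbrev GenM := GenW (CD.one KK) ((⊤, genId, genId) : II × VD KK × VD KK) genRN genW

variable (g : GenM)

def GenHC (c : VD KK) : Prop := ∃ j ∈ g.AN, j.2.1 = c

def GenHI (γ : II) : Prop := ∃ j ∈ g.AN, j.1 = γ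

theorem gen_hc_id : GenHC g genId := ⟨_, g.a0_mem, rfl⟩

theorem gen_hi_top : GenHI g ⊤ := ⟨_, g.a0_mem, rfl⟩

theorem gen_X_mem : genXN ∈ g.N := by
  obtain ⟨y, hy, h⟩ := g.clN (some .all) [] [] [] mem_list₀ mem_list₀ mem_list₀ ⟨_, rfl⟩
  exact (h : y = _) ▸ hy

theorem gen_K_mem : genKN ∈ g.N := by
  obtain ⟨y, hy, h⟩ := g.clN (some .grd) [] [] [] mem_list₀ mem_list₀ mem_list₀ ⟨_, rfl⟩
  exact (h : y = _) ▸ hy

variable {g}

theorem GenHC.mem {c : VD KK} (h : GenHC g c) : relName (DecW c) ∈ g.N := by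
  obtain ⟨j, hj, rfl⟩ := h
  obtain ⟨y, hy, h⟩ := g.clN none [] [] [j] mem_list₀ mem_list₀ (mem_list₁ hj) ⟨_, rfl⟩
  have h' : y = relName (DecW j.2.1) := h
  exact h' ▸ hy

theorem gen_meet (k : GenK) {a : Name (CD KK)} (ha : a ∈ g.N) {r : CD KK} (hr : r ∈ g.PN)
    {c : VD KK} (hc : GenHC g c) {γ γ' : II} (h1 : GenHI g γ) (h2 : GenHI g γ') {p : CD KK}
    (hp : g.G p) (hd : ∀ q, q ≤ p → ∃ q', q' ≤ q ∧ ∃ δ c2 c3, GenW0 k a r c γ γ' q' δ c2 c3) :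
    ∃ q ∈ g.PN, g.G q ∧ ∃ δ c2 c3, GenHI g δ ∧ GenHC g c2 ∧ GenHC g c3 ∧
      GenW0 k a r c γ γ' q δ c2 c3 := by
  obtain ⟨j0, hj0, rfl⟩ := hc
  obtain ⟨j1, hj1, rfl⟩ := h1
  obtain ⟨j2, hj2, rfl⟩ := h2
  obtain ⟨q, hq, hG, j, hj, h⟩ := g.meet (some k) [a] [r] [j0, j1, j2] (mem_list₁ ha)
    (mem_list₁ hr) (mem_listc hj0 (mem_list₂ hj1 hj2)) p hp fun q hq => by
      obtain ⟨q', h1, δ, c2, c3, h2⟩ := hd q hq
      exact ⟨q', h1, (δ, c2, c3), h2⟩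
  obtain ⟨_, -, -, j', hj', h'⟩ := g.meet none [] [] [j] mem_list₀ mem_list₀ (mem_list₁ hj) p hp
    fun q _ => ⟨q, le_rfl, (⊤, j.2.2, j.2.2), rfl⟩
  exact ⟨q, hq, hG, j.1, j.2.1, j.2.2, ⟨j, hj, rfl⟩, ⟨j, hj, rfl⟩, ⟨j', hj', h'⟩, h⟩

theorem gen_x (g : GenM) : ∃ x, ∀ r, g.G r → InW ⊤ r.T x := by
  refine exists_xG g.G g.PN {γ | GenHI g γ} (fun _ _ => gen1_dir g) g.p0_mem g.G_p0
    (fun r hr => (gen_en r).choose_spec.mono ?_) (fun r hr hG γ hγ ht i => ?_)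
    fun r hr hG γ hγ i => ?_
  · rintro _ ⟨n, rfl⟩
    obtain ⟨_, -, -, δ, c2, c3, h1, -, -, h⟩ := gen_meet (.supp n) g.empty_mem hr (gen_hc_id g)
      (gen_hi_top g) (gen_hi_top g) g.G_p0 fun q _ => ⟨q, le_rfl, _, genId, genId, rfl⟩
    exact (h : δ = _) ▸ h1
  · obtain ⟨q, -, hq, _, _, _, -, -, -, h⟩ := gen_meet (.inv i) g.empty_mem hr (gen_hc_id g)
      hγ hγ hG fun q hq => by
        obtain ⟨q', h1, h2⟩ := dec_dense (c := (r.T, fun w => w.2 γ)) r.fr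
          ((continuous_apply γ).comp continuous_snd) (fun u v h => h.2 γ ht) hq.2 i
        exact ⟨q', h1, ⊤, genId, genId, h2⟩
    exact ⟨q, hq, h⟩
  · obtain ⟨q, -, hq, _, _, _, -, -, -, h⟩ := gen_meet (.invS i) g.empty_mem hr (gen_hc_id g)
      hγ hγ hG fun q hq => by
        obtain ⟨q', h1, h2⟩ := dec_dense (c := (r.T, fun w i => (yAt γ w i).toNat)) r.fr
          (continuous_pi fun i => (continuous_of_discreteTopology (f := Bool.toNat)).comp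
            ((continuous_apply i).comp (cont_yAt γ)))
          (fun u v h => by simp only [yAt_congr γ h.1]) hq.2 i
        exact ⟨q', h1, ⊤, genId, genId, h2⟩
    exact ⟨q, hq, h⟩

variable (g) in
/-- `H` is the value of the code `c` -/
structure GenVal (x : W KK) (α : II) (c : VD KK) (H : ℕ → ℕ) : Prop where
  hc : GenHC g c
  nice : NiceW α c
  valid : ∃ r, g.G r ∧ LeW ⊤ r.T c.1
  val : ∃ w, Eqv ⊤ (c.1 w) x ∧ H = c.2 w

variable {x : W KK} {α β : II} {c c2 c3 : VD KK} {H : ℕ → ℕ}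

theorem GenVal.mono (h : GenVal g x α c H) (hb : α ≤ β) : GenVal g x β c H :=
  ⟨h.hc, h.nice.mono hb, h.valid, h.val⟩

theorem gen_z (hγ : GenHI g α) (ht : α < ⊤) :
    GenVal g x ⊤ (id, fun w => zf (w.2 α)) (zf (x.2 α)) := by
  obtain ⟨_, -, -, _, c2, _, -, h1, -, h⟩ := gen_meet .zc g.empty_mem g.p0_mem (gen_hc_id g)
    hγ hγ g.G_p0 fun q _ => ⟨q, le_rfl, ⊤, _, genId, rfl⟩
  exact ⟨(h : c2 = _) ▸ h1, nice_z ht, ⟨_, g.G_p0, leW_id _⟩, x, .rfl', rfl⟩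

theorem gen_ev (κ : XK) (hγ : GenHI g α) (ht : α < ⊤) :
    GenVal g x ⊤ (id, ev κ α) (ev κ α x) := by
  obtain ⟨_, -, -, _, c2, _, -, h1, -, h⟩ := gen_meet (.xc κ) g.empty_mem g.p0_mem (gen_hc_id g)
    hγ hγ g.G_p0 fun q _ => ⟨q, le_rfl, ⊤, _, genId, rfl⟩
  exact ⟨(h : c2 = _) ▸ h1, nice_ev κ ht, ⟨_, g.G_p0, leW_id _⟩, x, .rfl', rfl⟩

theorem GenVal.lvl (h : GenVal g x ⊤ c H) : ∃ β, GenHI g β ∧ β < ⊤ ∧ GenVal g x β c H := by
  obtain ⟨_, -, -, δ, _, _, h1, -, -, h2, h3⟩ := gen_meet .lvl g.empty_mem g.p0_mem h.hc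
    (gen_hi_top g) (gen_hi_top g) g.G_p0 fun q _ =>
      let ⟨β, h1⟩ := nice_lvl h.nice; ⟨q, le_rfl, β, genId, genId, h1⟩
  exact ⟨δ, h1, h2, h.hc, h3, h.valid, h.val⟩

variable (hx : ∀ r, g.G r → InW ⊤ r.T x)
include hx

theorem gen_val (h1 : GenHC g c) (h2 : NiceW α c) {r : CD KK} (hr : g.G r)
    (h3 : LeW ⊤ r.T c.1) : ∃ w, Eqv ⊤ (c.1 w) x ∧ GenVal g x α c (c.2 w) := by
  obtain ⟨w, hw⟩ := (hx r hr).le h3
  exact ⟨w, hw, h1, h2, ⟨r, hr, h3⟩, w, hw, rfl⟩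

theorem GenVal.dec (h : GenVal g x α c H) (k n : ℕ) : (∃ r, g.G r ∧ DecW c k n r) ↔ H k = n := by
  obtain ⟨w, hw, rfl⟩ := h.val
  have h1 : ∀ n, (∃ r, g.G r ∧ DecW c k n r) → c.2 w k = n := by
    rintro n ⟨r, hr, h1⟩
    obtain ⟨v, hv⟩ := hx r hr
    exact h1.2 v w (hw.trans hv.symm)
  refine ⟨h1 n, ?_⟩
  rintro rfl
  obtain ⟨r, hr, h2⟩ := h.valid
  obtain ⟨q, -, hq, -, -, -, -, -, -, n, h3⟩ := gen_meet (.dec k) g.empty_mem g.p0_mem h.hc
    (gen_hi_top g) (gen_hi_top g) hr fun q hq => by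
      obtain ⟨q', h3, h4⟩ := dec_dense h.nice.1 h.nice.2.1
        (fun u v huv => (h.nice.mono le_top).dep huv.agW) (hq.2.trans h2) k
      exact ⟨q', h3, ⊤, genId, genId, h4⟩
  exact ⟨q, hq, h1 n ⟨q, hq, h3⟩ ▸ h3⟩

theorem GenVal.cf (h : GenVal g x α c H) : CF g.toGen.E H := gen1_cf g h.hc.mem (h.dec hx)

theorem GenVal.code {η : FN g.toGen.E ℕ ℕ} (h : GenVal g x α c η.1) :
    CT.code g.toGen.E η = g.toGen.cl ⟨_, h.hc.mem⟩ := gen1_code g h.hc.mem η (h.dec hx)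

omit hx in
theorem gen_reap (A : PW g.toGen.E ℕ) : ∃ r ∈ g.PN, g.G r ∧ (r.A ⊆ A.1 ∨ Disjoint r.A A.1) := by
  obtain ⟨a, ha, h⟩ := gen1_cs g A.2
  have h1 : ∀ t, t ∈ A.1 ↔ ∃ r, g.G r ∧ MemF (natN t) a r := fun t => h t _ (g.nat_mem t) rfl
  obtain ⟨q, hq, hG, _, _, _, -, -, -, h2⟩ := gen_meet .reap ha g.p0_mem (gen_hc_id g)
    (gen_hi_top g) (gen_hi_top g) g.G_p0 fun q _ => by
      obtain ⟨q', h2, h3⟩ := reap_dense (fun b r => MemF (natN b) a r)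
        (fun _ _ _ h h' => h.mono h') q
      exact ⟨q', h2, ⊤, genId, genId, h3.imp (fun h b hb => MemF.reg (h b hb)) id⟩
  refine ⟨q, hq, hG, Or.imp (fun h2 b hb => (h1 b).2 ⟨q, hG, h2 b hb⟩)
    (fun h2 => Set.disjoint_left.2 fun b hb hb' => ?_) h2⟩
  obtain ⟨r, hr, h3⟩ := (h1 b).1 hb'
  obtain ⟨s, -, h4, h5⟩ := g.dir _ _ hG hr
  exact h2 b hb s h4 (h3.mono h5)

/-- every function of the model is the value of a code -/
theorem gen_all (φ : ℕ → ℕ) (hφ : CF g.toGen.E φ) : ∃ c, GenVal g x ⊤ c φ := by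
  obtain ⟨a, ha, h⟩ := gen1_cs g hφ.out
  have h1 : ∀ i n, n = φ i ↔ ∃ r, g.G r ∧ GenPh a i n r := fun i n =>
    h (i, n) _ (gen1_pair_mem g (g.nat_mem i) (g.nat_mem n))
      (gen1_pr g (g.nat_mem i) (g.nat_mem n))
  obtain ⟨q, -, hG, -, c, -, -, hc, -, ⟨i, h2⟩ | ⟨h2, h3, h5⟩⟩ := gen_meet .all ha g.p0_mem
    (gen_hc_id g) (gen_hi_top g) (gen_hi_top g) g.G_p0 fun q _ => by
      by_cases hd : ∀ i q', q' ≤ q → ∃ q'', q'' ≤ q' ∧ ∃ n, GenPh a i n q''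
      · obtain ⟨q', -, h2, f, h3⟩ := PT (GenPh a) (fun _ _ _ _ h h' => MemF.mono h h') q hd
        exact ⟨q', h2, ⊤, (q'.T, f), genId, Or.inr ⟨rfl, h3⟩⟩
      · push Not at hd
        obtain ⟨i, q', h2, h3⟩ := hd
        exact ⟨q', h2, ⊤, genId, genId, Or.inl ⟨i, h3⟩⟩
  · obtain ⟨r, hr, h3⟩ := (h1 i _).1 rfl
    obtain ⟨s, -, h4, h5⟩ := g.dir _ _ hG hr
    exact absurd (MemF.mono h3 h5) (h2 s h4 _)
  · obtain ⟨w, -, hv⟩ := gen_val hx hc h3 hG (h2 ▸ LeW.rfl')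
    refine ⟨c, (funext fun i => ?_ : c.2 w = φ) ▸ hv⟩
    obtain ⟨r1, hr1, d1⟩ := (hv.dec hx i _).2 rfl
    obtain ⟨t, ht, t1, t2⟩ := g.dir _ _ hr1 hG
    obtain ⟨u, -, hu, _, _, _, -, -, -, h6⟩ := gen_meet (.fin i (c.2 w i)) ha g.p0_mem
      (gen_hc_id g) (gen_hi_top g) (gen_hi_top g) ht fun q' hq' => by
        obtain ⟨w', hw'⟩ := (hq'.trans t2).2 x
        have e1 := (d1.mono (hq'.trans t1)).2 x w' (h2 ▸ hw')
        obtain ⟨q'', h6, h7⟩ := h5 i q' (hq'.trans t2) x w' hw'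
        exact ⟨q'', h6, ⊤, genId, genId, e1 ▸ h7⟩
    exact (h1 i _).2 ⟨u, hu, h6⟩

end Pool.Agent.B8P
end

-- merged part: Pool.Agent.Work.MP_b8a914_gt.P.Gen
section
/-! The generic model: reflection. -/

namespace Pool.Agent.B8P
open Pool.Agent.Lib.ZFModel Pool.Agent.Lib.ZFModel.Name Pool.Agent.Work.MP_63c7e0_lc
  Pool.Agent.B8F

variable {g : GenM} {x : W KK} (hx : ∀ r, g.G r → InW ⊤ r.T x)
include hx

omit hx in
theorem gen_valC {f : ℕ → ℕ} (h : GenHC g (genC f)) (α : II) : GenVal g x α (genC f) f :=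
  ⟨h, nice_id _ _, ⟨_, g.G_p0, leW_id _⟩, x, .rfl', rfl⟩

omit hx in
theorem gen_nx {r : CD KK} (hr : r ∈ g.PN) : GenHC g (genC (nxt r.A)) := by
  obtain ⟨_, -, -, _, c2, _, -, h1, -, h⟩ := gen_meet .nx g.empty_mem hr (gen_hc_id g)
    (gen_hi_top g) (gen_hi_top g) g.G_p0 fun q _ => ⟨q, le_rfl, ⊤, _, genId, rfl⟩
  exact (h : c2 = _) ▸ h1

theorem gen_fnC {f : ℕ → ℕ} (h : genV (genC f) ∈ g.N) (η : FN g.toGen.E ℕ ℕ)
    (e : CT.code g.toGen.E η = g.toGen.cl ⟨_, h⟩) : η.1 = f := funext fun k =>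
  (gen1_fn_iff g h η e k _).1 ⟨_, g.G_p0, leW_id _, fun _ _ _ => rfl⟩

theorem gen_E_K (η : FN g.toGen.E ℕ ℕ)
    (h : g.toGen.E (CT.code g.toGen.E η) (g.toGen.cl ⟨_, gen_K_mem g⟩)) :
    GenHC g (genC η.1) ∧ ∃ r, g.G r ∧ η.1 = nxt r.A := by
  obtain ⟨⟨A, hA⟩, r, h1, h2, h3, e⟩ := (g.toGen.E_rName (gen_K_mem g) _).1 h
  obtain rfl : r.A = A := h1
  refine ⟨?_, r, h2, gen_fnC hx h3 η e⟩
  obtain ⟨_, -, -, _, c2, _, -, h4, -, f, e1, e2⟩ := gen_meet .grd h3 g.p0_mem (gen_hc_id g)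
    (gen_hi_top g) (gen_hi_top g) g.G_p0 fun q _ => ⟨q, le_rfl, ⊤, _, genId, _, rfl, rfl⟩
  have h5 : genV (genC f) ∈ g.N := e1 ▸ h3
  rw [gen_fnC hx h5 η (e.trans (congrArg _ (Subtype.ext e1)))]
  exact e2 ▸ h4

theorem gen_ref (Rel : FN g.toGen.E ℕ ℕ → FN g.toGen.E ℕ ℕ → FN g.toGen.E ℕ ℕ → Prop)
    (hR : CS g.toGen.E (fun t : FN g.toGen.E ℕ ℕ × FN g.toGen.E ℕ ℕ × FN g.toGen.E ℕ ℕ =>
      Rel t.1 t.2.1 t.2.2))
    (hT : ∀ H P : FN g.toGen.E ℕ ℕ, ∃ η : FN g.toGen.E ℕ ℕ, Rel H P η) :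
    ∃ d : RefData g.toGen.E {H | ∃ c, GenVal g x ⊤ c H} {B | ∃ r ∈ g.PN, g.G r ∧ r.A = B} Rel,
      ∀ f, GenHC g (genC f) → f ∈ d.V 0 := by
  obtain ⟨a, ha, h⟩ := gen1_cs g hR
  have h1 : ∀ {c1 c2 c3 : VD KK} {H P η : FN g.toGen.E ℕ ℕ}, GenVal g x ⊤ c1 H.1 →
      GenVal g x ⊤ c2 P.1 → GenVal g x ⊤ c3 η.1 →
      (Rel H P η ↔ ∃ r, g.G r ∧ GenFr a r c1 c2 c3) := by
    intro c1 c2 c3 H P η v1 v2 v3
    refine h (H, P, η) _ (gen1_pair_mem g v1.hc.mem (gen1_pair_mem g v2.hc.mem v3.hc.mem)) ?_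
    rw [code_prod, code_prod, v1.code hx, v2.code hx, v3.code hx, gen1_pr, gen1_pr]
    rfl
  obtain ⟨r0, hr0, hG0, -, c1, c2, -, hc1, hc2, hD | ⟨n1, n2, l1, l2, h2⟩⟩ := gen_meet .refl ha
    g.p0_mem (gen_hc_id g) (gen_hi_top g) (gen_hi_top g) g.G_p0 fun q _ => by
      by_cases hd : DDn (GenFr a) q
      · exact ⟨q, le_rfl, ⊤, genId, genId, Or.inl hd⟩
      · unfold DDn at hd
        push Not at hd
        obtain ⟨r, hr, c1, c2, h2⟩ := hd
        exact ⟨r, hr, ⊤, c1, c2, Or.inr h2⟩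
  swap
  · obtain ⟨w1, -, v1⟩ := gen_val hx hc1 n1 hG0 l1
    obtain ⟨w2, -, v2⟩ := gen_val hx hc2 n2 hG0 l2
    obtain ⟨η, h3⟩ := hT ⟨_, v1.cf hx⟩ ⟨_, v2.cf hx⟩
    obtain ⟨c3, v3⟩ := gen_all hx η.1 η.2
    obtain ⟨r, hr, h4⟩ := (h1 v1 v2 v3).1 h3
    obtain ⟨r', hr', h5⟩ := v3.valid
    obtain ⟨s, hs, s1, s2⟩ := g.dir _ _ hr hr'
    obtain ⟨t, -, t1, t2⟩ := g.dir _ _ hs hG0
    exact absurd (MemF.mono h4 (t1.trans s1)) (h2 t t2 c3 v3.nice ((t1.trans s2).2.trans h5))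
  obtain ⟨hα, hC, hβ, hαβ⟩ := (gen_cp a r0).choose_spec hD
  have hI : ∀ n, GenHI g ((gen_cp a r0).choose.1 n) := fun n => by
    obtain ⟨_, -, -, δ, c2, c3, h2, -, -, h3⟩ := gen_meet (.seq n) ha hr0 (gen_hc_id g)
      (gen_hi_top g) (gen_hi_top g) g.G_p0 fun q _ => ⟨q, le_rfl, _, genId, genId, rfl⟩
    exact (h3 : δ = _) ▸ h2
  have hJ : GenHI g (gen_cp a r0).choose.2 := by
    obtain ⟨_, -, -, δ, c2, c3, h2, -, -, h3⟩ := gen_meet .bnd ha hr0 (gen_hc_id g)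
      (gen_hi_top g) (gen_hi_top g) g.G_p0 fun q _ => ⟨q, le_rfl, _, genId, genId, rfl⟩
    exact (h3 : δ = _) ▸ h2
  generalize (gen_cp a r0).choose.1 = α at hα hC hαβ hI
  generalize (gen_cp a r0).choose.2 = β at hβ hαβ hJ
  refine ⟨⟨fun n => {H | ∃ c, GenVal g x (α n) c H}, fun n => zf (x.2 (α n)), zf (x.2 β),
    fun n H ⟨c, hv⟩ => ⟨c, hv.mono le_top⟩,
    ⟨genId, gen_hc_id g, nice_id _ _, ⟨_, g.G_p0, leW_id _⟩, x, .rfl', rfl⟩,
    fun n => (gen_z (hI n) (hC n).1).cf hx, fun n => zf_mono _, (gen_z hJ hβ).cf hx, ?_, ?_, ?_⟩,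
    fun f hf => ⟨_, gen_valC hf _⟩⟩
  · rintro n H ⟨c, hv⟩ m
    obtain ⟨r, hr, h2⟩ := hv.valid
    obtain ⟨w, hw, rfl⟩ := hv.val
    obtain ⟨q, -, hq, -, -, -, -, -, -, j, hj, h3⟩ := gen_meet (.unb m) ha hr0 hv.hc hJ hJ hr
      fun q hq => by
        obtain ⟨q', h3, h4⟩ := unb_dense hβ (hv.nice.mono (hαβ n)) (hq.2.trans h2) m
        exact ⟨q', h3, ⊤, genId, genId, h4⟩
    obtain ⟨v, hv⟩ := hx q hq
    refine ⟨j, hj, (h3 v w (hw.trans hv.symm)).trans ?_⟩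
    rw [hv.2 β hβ]
    exact lt_zf _ _
  · rintro n H ⟨c, hv⟩ _ ⟨r, hr, -, rfl⟩
    obtain ⟨w, hw, rfl⟩ := hv.val
    obtain ⟨-, -, -, -, c', -, -, h2, -, h3, h4, h5⟩ := gen_meet .clos ha hr hv.hc (hI n)
      (hI (n + 1)) g.G_p0 fun q _ => by
        obtain ⟨f, h3⟩ := clos_nice (hα n.lt_succ_self) hv.nice r.inf
        exact ⟨q, le_rfl, ⊤, (c.1, f), genId, rfl, h3⟩
    refine ⟨c'.2 w, ⟨c', h2, h4, h3 ▸ hv.valid, w, h3 ▸ hw, rfl⟩, fun j k hk => h5 w j k ?_⟩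
    rwa [hw.2 _ (hC n).1]
  · rintro n H ⟨c, hv⟩ _ ⟨r, hr, -, rfl⟩
    obtain ⟨r1, hr1, h2⟩ := hv.valid
    obtain ⟨s, hs, s1, s2⟩ := g.dir _ _ hG0 hr1
    obtain ⟨q, -, hq, -, c2, c3, -, hc2, hc3, n2, n3, l2, l3, h3, h4⟩ := gen_meet .key ha hr hv.hc
      (hI n) (hI n) hs fun q hq => by
        obtain ⟨q', h3, c2, c3, h4⟩ := key_dense (Fr := GenFr a)
          (fun _ _ _ _ _ h h' => MemF.mono h h') (hC n)
          (hq.trans s1) hv.nice ((hq.trans s2).2.trans h2) r.inf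
        exact ⟨q', h3, ⊤, c2, c3, h4⟩
    obtain ⟨w2, hw2, v2⟩ := gen_val hx hc2 n2 hq l2
    obtain ⟨w3, hw3, v3⟩ := gen_val hx hc3 n3 hq l3
    obtain ⟨v, hv'⟩ := hx q hq
    have h5 := h4 v w2 w3 (hw2.trans hv'.symm) (hw3.trans hv'.symm)
    rw [hv'.2 _ (hC n).1] at h5
    exact ⟨⟨_, v2.cf hx⟩, ⟨_, v3.cf hx⟩, (h1 (hv.mono le_top) v2 v3).2 ⟨q, hq, h3⟩, h5⟩

end Pool.Agent.B8P
end

-- merged part: Pool.Agent.Work.MP_b8a914_gt.P.GenX
section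
/-! The generic model: the example. -/

namespace Pool.Agent.B8P
open Pool.Agent.Lib.ZFModel Pool.Agent.Lib.ZFModel.Name Pool.Agent.Work.MP_63c7e0_lc
  Pool.Agent.B8F

variable {g : GenM} {x : W KK} (hx : ∀ r, g.G r → InW ⊤ r.T x)

/-- the points of the example -/
def InX (g : GenM) (x : W KK) (p : ℕ → ℕ) : Prop :=
  ∃ κ γ, Leg κ γ ∧ GenHI g γ ∧ p = ev κ γ x

include hx

theorem gen_E_X (η : FN g.toGen.E ℕ ℕ) :
    g.toGen.E (CT.code g.toGen.E η) (g.toGen.cl ⟨_, gen_X_mem g⟩) ↔ InX g x η.1 := by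
  refine (g.toGen.E_rName (gen_X_mem g) _).trans ⟨?_, ?_⟩
  · rintro ⟨⟨⟨κ, γ⟩, hL⟩, r, -, -, h3, e⟩
    obtain ⟨_, -, -, δ, _, _, h4, -, -, κ', h5, e1⟩ := gen_meet .xel h3 g.p0_mem (gen_hc_id g)
      (gen_hi_top g) (gen_hi_top g) g.G_p0 fun q _ => ⟨q, le_rfl, γ, genId, genId, κ, hL, rfl⟩
    have hv : GenVal g x ⊤ (id, ev κ' δ) (ev κ' δ x) := gen_ev κ' h4 h5.lt
    refine ⟨κ', δ, h5, h4, funext fun k => ?_⟩
    exact (gen1_fn_iff g hv.hc.mem η (e.trans (congrArg _ (Subtype.ext e1))) k _).1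
      ((hv.dec hx k _).2 rfl)
  · rintro ⟨κ, γ, hL, hγ, e⟩
    have hv : GenVal g x ⊤ (id, ev κ γ) η.1 := e ▸ gen_ev κ hγ hL.lt
    exact ⟨⟨(κ, γ), hL⟩, _, trivial, g.G_p0, hv.hc.mem, hv.code hx⟩

theorem InX.cf {p : ℕ → ℕ} (h : InX g x p) : CF g.toGen.E p :=
  let ⟨κ, _, h1, h2, e⟩ := h; e ▸ (gen_ev κ h2 h1.lt).cf hx

theorem genX_gap {α : II} {c : VD KK} {H : ℕ → ℕ} (hv : GenVal g x α c H) (hα : GenHI g α)
    (ht : α < ⊤) {r : CD KK} (hr : r ∈ g.PN) :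
    ∃ n ∈ r.A, ∀ j, ¬ (n ≤ zf (x.2 α) j ∧ zf (x.2 α) j < H n) := by
  obtain ⟨r1, hr1, h2⟩ := hv.valid
  obtain ⟨w, hw, rfl⟩ := hv.val
  obtain ⟨q, -, hq, -, -, -, -, -, -, n, hn, h3⟩ := gen_meet .gap g.empty_mem hr hv.hc hα hα hr1
    fun q hq => by
      obtain ⟨q', h3, h4⟩ := gap_dense ht hv.nice (hq.2.trans h2) r.inf
      exact ⟨q', h3, ⊤, genId, genId, h4⟩
  obtain ⟨v, hv'⟩ := hx q hq
  have h4 := h3 v w (hw.trans hv'.symm)
  rw [hv'.2 α ht] at h4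
  exact ⟨n, hn, h4⟩

omit hx in
theorem genX_le {z : ℕ → ℕ} (hz : StrictMono z) {n b : ℕ} (h : ∀ j, ¬ (n ≤ z j ∧ z j < b)) :
    b ≤ z n := not_lt.1 fun h' => h n ⟨hz.le_apply, h'⟩

theorem genX_bd1 {β γ : II} {c : VD KK} {φ : ℕ → ℕ} (hv : GenVal g x β c φ) (hβ : GenHI g β)
    (hγ : GenHI g γ) (ht : γ < ⊤) {κ : XK} (hκ : κ ≠ .x ∨ γ < β)
    (hc : ∀ n, ∃ k, Ok φ n k (ev κ γ x)) :
    ∃ c' H, GenVal g x β c' H ∧ ∀ n, ∃ k ≤ H n, Ok φ n k (ev κ γ x) := by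
  obtain ⟨r1, hr1, h2⟩ := hv.valid
  obtain ⟨w, hw, rfl⟩ := hv.val
  have e : ev κ γ (c.1 w) = ev κ γ x := ev_congr κ ht hw
  obtain ⟨q, -, hq, _, c2, _, -, hc2, -, h3⟩ := gen_meet (.bd1 κ) g.empty_mem g.p0_mem hv.hc hγ hβ
    hr1 fun q hq => by
      obtain ⟨q', h3, h4 | ⟨c', h4⟩⟩ := bd1_dense (γ := γ) hv.nice hκ (hq.2.trans h2)
      · exact ⟨q', h3, ⊤, genId, genId, Or.inl h4⟩
      · exact ⟨q', h3, ⊤, c', genId, Or.inr h4⟩
  obtain ⟨v, hv'⟩ := hx q hq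
  obtain ⟨n, h3⟩ | ⟨n2, l2, h3⟩ := h3
  · obtain ⟨k, hk⟩ := hc n
    exact absurd (show Ok (c.2 w) n k (ev κ γ (c.1 w)) from e ▸ hk) (h3 v w (hw.trans hv'.symm) k)
  · obtain ⟨w', hw', v2⟩ := gen_val hx hc2 n2 hq l2
    refine ⟨c2, _, v2, fun n => ?_⟩
    obtain ⟨k, hk, h4⟩ := h3 v w w' (hw.trans hv'.symm) (hw'.trans hv'.symm) n
    exact ⟨k, hk, e ▸ h4⟩

theorem genX_bd2 {β γ : II} {c : VD KK} {φ : ℕ → ℕ} (hv : GenVal g x β c φ) (hβ : GenHI g β)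
    (hγ : GenHI g γ) (ht : γ < ⊤) (hc : ∀ t n, ∃ k, Ok φ n k (ev (.f t) γ x)) :
    ∃ c' H, GenVal g x β c' H ∧
      ∀ n, ∀ t ⊆ Finset.range n, ∃ k ≤ H n, Ok φ n k (ev (.f t) γ x) := by
  obtain ⟨r1, hr1, h2⟩ := hv.valid
  obtain ⟨w, hw, rfl⟩ := hv.val
  have e : ∀ t, ev (.f t) γ (c.1 w) = ev (.f t) γ x := fun t => ev_congr _ ht hw
  obtain ⟨q, -, hq, _, c2, _, -, hc2, -, h3⟩ := gen_meet .bd2 g.empty_mem g.p0_mem hv.hc hγ hβ
    hr1 fun q hq => by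
      obtain ⟨q', h3, h4 | ⟨c', h4⟩⟩ := bd2_dense (γ := γ) hv.nice (hq.2.trans h2)
      · exact ⟨q', h3, ⊤, genId, genId, Or.inl h4⟩
      · exact ⟨q', h3, ⊤, c', genId, Or.inr h4⟩
  obtain ⟨v, hv'⟩ := hx q hq
  obtain ⟨n, h3⟩ | ⟨n2, l2, h3⟩ := h3
  · choose k hk using fun t => hc t n
    refine absurd (fun t ht' => ⟨k t, ?_, (e t).symm ▸ hk t⟩)
      (h3 v w (hw.trans hv'.symm) ((Finset.range n).powerset.sup k))
    exact Finset.le_sup (f := k) (Finset.mem_powerset.2 ht')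
  · obtain ⟨w', hw', v2⟩ := gen_val hx hc2 n2 hq l2
    refine ⟨c2, _, v2, fun n t ht' => ?_⟩
    obtain ⟨k, hk, h4⟩ := h3 v w w' (hw.trans hv'.symm) (hw'.trans hv'.symm) n
    obtain ⟨k', hk', h5⟩ := h4 t ht'
    exact ⟨k', hk'.trans hk, e t ▸ h5⟩

theorem genX_copy {γ : II} {c : VD KK} {φ : ℕ → ℕ} (hv : GenVal g x γ c φ) (hγ : GenHI g γ)
    (ht : γ < ⊤) (hc : ∀ p, InX g x p → ∀ n, ∃ k, Ok φ n k p) (t : Finset ℕ) (n : ℕ) :
    ∃ k, Ok φ n k (ev (.f t) γ x) := by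
  obtain ⟨r1, hr1, h2⟩ := hv.valid
  obtain ⟨w, hw, rfl⟩ := hv.val
  obtain ⟨q, -, hq, δ, _, _, hδ, -, -, h3⟩ := gen_meet (.copy t n) g.empty_mem g.p0_mem hv.hc hγ hγ
    hr1 fun q hq => by
      obtain ⟨q', h3, h4 | ⟨α', h4, h5⟩⟩ := copy_dense exists_par.choose_spec.2 ht hv.nice
        (hq.2.trans h2) t n
      · exact ⟨q', h3, ⊤, genId, genId, Or.inl h4⟩
      · exact ⟨q', h3, α', genId, genId, Or.inr ⟨⟨α', rfl, h4⟩, h5⟩⟩
  obtain ⟨v, hv'⟩ := hx q hq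
  obtain ⟨k, h3⟩ | ⟨hL, h3⟩ := h3
  · exact ⟨k, ev_congr (.f t) ht hv' ▸ h3 v w (hw.trans hv'.symm)⟩
  · obtain ⟨k, hk⟩ := hc _ ⟨_, δ, hL, hδ, rfl⟩ n
    exact absurd ((ev_congr (.f t) hL.lt hv').symm ▸ hk) (h3 v w (hw.trans hv'.symm) k)

theorem gen_men (φ : ℕ → ℕ) (hφ : CF g.toGen.E φ) (hc : ∀ p, InX g x p → ∀ n, ∃ k, Ok φ n k p) :
    ∃ h : ℕ → ℕ, CF g.toGen.E h ∧ ∀ p, InX g x p → ∃ n, ∃ k ≤ h n, Ok φ n k p := by
  obtain ⟨c, hv0⟩ := gen_all hx φ hφ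
  obtain ⟨β, hβ, hβt, hv⟩ := hv0.lvl
  refine ⟨zf (x.2 β), (gen_z hβ hβt).cf hx, ?_⟩
  rintro _ ⟨κ, γ, hL, hγ, rfl⟩
  by_cases hκ : κ ≠ .x ∨ γ < β
  · obtain ⟨c', H, v2, h1⟩ := genX_bd1 hx hv hβ hγ hL.lt hκ (hc _ ⟨κ, γ, hL, hγ, rfl⟩)
    obtain ⟨n, -, h2⟩ := genX_gap hx v2 hβ hβt g.p0_mem
    obtain ⟨k, hk, h3⟩ := h1 n
    exact ⟨n, k, hk.trans (genX_le (zf_mono _) h2), h3⟩
  · rw [not_or, not_not, not_lt] at hκ
    obtain ⟨rfl, hle⟩ := hκ
    obtain ⟨c', H, v2, h1⟩ := genX_bd2 hx hv hβ hγ hL.lt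
      (genX_copy hx (hv.mono hle) hγ hL.lt hc)
    have := gen1_natE g
    obtain ⟨Z, hZ⟩ : ∃ Z : FN g.toGen.E ℕ ℕ, Z.1 = zf (x.2 γ) :=
      ⟨⟨_, (gen_z hγ hL.lt).cf hx⟩, rfl⟩
    obtain ⟨H', rfl⟩ : ∃ H' : FN g.toGen.E ℕ ℕ, H'.1 = H := ⟨⟨_, v2.cf hx⟩, rfl⟩
    have hS : CS g.toGen.E fun n : ℕ => ∀ j, ¬ (n ≤ Z.1 j ∧ Z.1 j < H'.1 n) := inferInstance
    obtain ⟨r, hr, -, h2 | h2⟩ := gen_reap (g := g)
      ⟨{n | ∀ j, ¬ (n ≤ Z.1 j ∧ Z.1 j < H'.1 n)}, hS⟩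
    · obtain ⟨n, hn, h3⟩ := genX_gap hx v2 hβ hβt hr
      have h4 : ∀ j, ¬ (n ≤ Z.1 j ∧ Z.1 j < H'.1 n) := h2 hn
      rw [hZ] at h4
      obtain ⟨t, ht, h5⟩ := pt_gap (yAt γ x) (x.2 γ) h4
      obtain ⟨k, hk, h6⟩ := h1 n t ht
      exact ⟨n, k, hk.trans (genX_le (zf_mono _) h3),
        h6.congr fun i hi => h5 i (hi.le.trans hk)⟩
    · obtain ⟨n, hn, h3⟩ := genX_gap hx (v2.mono hle) hγ hL.lt hr
      rw [← hZ] at h3
      exact absurd h3 (Set.disjoint_left.1 h2 hn)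

theorem genX_dif {κ : XK} {γ γ' : II} (hκ : κ ≠ .y) (hL : Leg κ γ) (hL' : Leg .y γ')
    (hγ : GenHI g γ) (hγ' : GenHI g γ') (m : ℕ) : ∃ i, m ≤ i ∧ ev κ γ x i ≠ ev .y γ' x i := by
  by_cases e : γ = γ'
  · subst e
    cases κ with
    | y => exact absurd rfl hκ
    | x =>
      exact ⟨zf (x.2 γ) m + 1, (zf_mono _).le_apply.trans (Nat.le_succ _),
        (pt_ne (yAt γ x) (x.2 γ) _).2 ⟨m, rfl⟩⟩
    | f t =>
      obtain ⟨α, e1, h1⟩ := hL
      obtain ⟨α', e2, h2⟩ := hL'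
      obtain rfl : α = α' := WithTop.coe_injective (e1.symm.trans e2)
      exact absurd h2 h1
  · obtain ⟨q, -, hq, -, -, -, -, -, -, i, hi, h3⟩ := gen_meet (.dif κ m) g.empty_mem g.p0_mem
      (gen_hc_id g) hγ hγ' g.G_p0 fun q _ => by
        obtain ⟨q', h3, h4⟩ := dif_dense hL.lt hL'.lt e κ q m
        exact ⟨q', h3, ⊤, genId, genId, h4⟩
    obtain ⟨v, hv⟩ := hx q hq
    have h4 := h3 v
    rw [ev_congr κ hL.lt hv, ev_congr .y hL'.lt hv] at h4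
    exact ⟨i, hi, h4⟩

theorem gen_nm1 {p p' : ℕ → ℕ} (h : InX g x p) (h' : InX g x p') (hne : p 0 ≠ p' 0) (m : ℕ) :
    ∃ i, m ≤ i ∧ p i ≠ p' i := by
  obtain ⟨κ, γ, hL, hγ, rfl⟩ := h
  obtain ⟨κ', γ', hL', hγ', rfl⟩ := h'
  by_cases e : κ = .y
  · subst e
    have e' : κ' ≠ .y := by
      rintro rfl
      exact hne rfl
    obtain ⟨i, hi, h1⟩ := genX_dif hx e' hL' hL hγ' hγ m
    exact ⟨i, hi, h1.symm⟩
  · have e' : κ' = .y := by
      cases κ <;> cases κ' <;> first | rfl | exact absurd rfl e | exact absurd rfl hne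
    subst e'
    exact genX_dif hx e hL hL' hγ hγ' m

theorem gen_nm2 (φ : ℕ → ℕ) (hφ : CF g.toGen.E φ) : ∃ p p', InX g x p ∧ InX g x p' ∧
    p 0 ≠ p' 0 ∧ ∀ j i1 i2, j < i1 → i1 < i2 → p i1 ≠ p' i1 → p i2 ≠ p' i2 → φ j ≤ i2 := by
  obtain ⟨c, hv⟩ := gen_all hx φ hφ
  obtain ⟨r1, hr1, h2⟩ := hv.valid
  obtain ⟨w, hw, rfl⟩ := hv.val
  obtain ⟨q, -, hq, δ, -, -, hδ, -, -, hL, h3⟩ := gen_meet .fast g.empty_mem g.p0_mem hv.hc
    (gen_hi_top g) (gen_hi_top g) hr1 fun q hq => by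
      obtain ⟨q', h3, α, h4, h5⟩ := fast_dense exists_par.choose_spec.1 hv.nice (hq.2.trans h2)
      exact ⟨q', h3, α, genId, genId, ⟨α, rfl, h4⟩, h5⟩
  obtain ⟨v, hv'⟩ := hx q hq
  have h4 := h3 v w (hw.trans hv'.symm)
  rw [hv'.2 δ hL.lt] at h4
  refine ⟨ev .x δ x, ev .y δ x, ⟨.x, δ, hL, hδ, rfl⟩, ⟨.y, δ, hL, hδ, rfl⟩, Nat.zero_ne_one, ?_⟩
  intro j i1 i2 h5 h6 d1 d2
  obtain ⟨i1, rfl⟩ : ∃ i, i1 = i + 1 := ⟨i1 - 1, by omega⟩
  obtain ⟨i2, rfl⟩ : ∃ i, i2 = i + 1 := ⟨i2 - 1, by omega⟩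
  obtain ⟨j1, rfl⟩ := (pt_ne (yAt δ x) (x.2 δ) i1).1 d1
  obtain ⟨j2, rfl⟩ := (pt_ne (yAt δ x) (x.2 δ) i2).1 d2
  have h7 : j1 < j2 := (zf_mono (x.2 δ)).lt_iff_lt.1 (Nat.lt_of_succ_lt_succ h6)
  exact ((h4 j1 j (Nat.le_of_lt_succ h5)).trans ((zf_mono _).monotone h7)).trans (Nat.le_succ _)

end Pool.Agent.B8P
end

-- merged part: Pool.Agent.Work.MP_b8a914_gt.P.No3
section
/-! No Menger space of the model has the fan in its space of continuous functions. -/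

set_option linter.unusedSectionVars false

namespace Pool.Agent.B8P
open Pool.Agent.Lib.ZFModel Pool.Agent.Work.MP_63c7e0_lc Pool.Agent.Work.MP_f50f0f_gt
  Pool.Agent.B8F

set_option synthInstance.maxSize 100000

variable {M : Type 1} {E : M → M → Prop} [Fact (IsZFC E)] [CT E ℕ] [NatE E]

theorem No3_sparse (I : Iface0 E) (φ : ℕ → ℕ) (hφ : CF E φ) :
    ∃ η ∈ I.VT, StrictMono η ∧ ∀ j i, i ≤ η j → φ i < η (j + 1) := by
  have h2 : ∀ {T : Type} [CT E T] (u : T → ℕ) [CF E u], CF E fun t => φ (u t) :=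
    fun u _ => CF.comp φ u
  obtain ⟨g, hg, hg'⟩ := CF.choice (E := E)
    (fun n c : ℕ => n < c ∧ ∀ i, i ≤ n → φ i < c) fun n =>
      ⟨n + 1 + (Finset.range (n + 1)).sup φ, by omega, fun i hi => by
        have : φ i ≤ (Finset.range (n + 1)).sup φ :=
          Finset.le_sup (f := φ) (Finset.mem_range.2 (Nat.lt_succ_of_le hi))
        omega⟩
  have h3 := CF.natRec (E := E) (fun t : ℕ => t) (fun _ _ y => g y)
    (hs := CF.comp g fun p : ℕ × ℕ × ℕ => p.2.2) (fun t n => g^[n] t) (fun _ => rfl)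
    fun t n => Function.iterate_succ_apply' g n t
  have h4 : CF E fun n : ℕ => g^[n] 0 :=
    CF.comp (fun p : ℕ × ℕ => g^[p.2] p.1) (fun n : ℕ => (0, n)) (hg := h3)
      (hf := CF.pair (fun _ => 0) fun n => n)
  refine ⟨fun n => g^[n] 0, I.all _ h4, strictMono_nat_of_lt_succ fun n => ?_, fun j i hi => ?_⟩
  · rw [Function.iterate_succ_apply']
    exact (hg' _).1
  · beta_reduce
    rw [Function.iterate_succ_apply']
    exact (hg' _).2 i hi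

theorem No3_rel_ex (I : Iface0 E) {X : Type} [CT E X] {Op : Set X → Prop}
    (hu : Op Set.univ) (he : Op ∅) (hi : ∀ U V, Op U → Op V → Op (U ∩ V))
    (hU : ∀ U V, Op U → Op V → Op (U ∪ V))
    (hM : ∀ U : ℕ → ℕ → X → Prop, CS E (fun p : (ℕ × ℕ) × X => U p.1.1 p.1.2 p.2) →
      (∀ n k, Op {x | U n k x}) → (∀ n x, ∃ k, U n k x) →
      ∃ g : ℕ → ℕ, CF E g ∧ ∀ x, ∃ n, ∃ k ≤ g n, U n k x)
    {O : ℕ → ℕ → X → Prop} (hO : CS E fun p : (ℕ × ℕ) × X => O p.1.1 p.1.2 p.2)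
    (hop : ∀ j k, Op {x | O j k x}) (hcof : ∀ j x, ∃ k0, ∀ k, k0 ≤ k → O j k x)
    (H P : FN E ℕ ℕ) : ∃ η : FN E ℕ ℕ, η.1 ∈ I.VT ∧ No2Rel O H P η := by
  by_cases hP : StrictMono P.1
  swap
  · obtain ⟨η, h1, -⟩ := No3_sparse I (fun _ => 0) inferInstance
    exact ⟨⟨η, I.VT_cf η h1⟩, h1, fun h => absurd (fun i j hij => h i j hij) hP⟩
  have hY := @No2_cs M E _ _ _ X _ O hO
  have hP2 : ∀ {T : Type} [CT E T] (u : T → ℕ) [CF E u], CF E fun t => P.1 (u t) :=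
    fun u _ => CF.comp P.1 u
  have hY2 : ∀ {T : Type} [CT E T] (x : T → X) (a b : T → ℕ) [CF E x] [CF E a] [CF E b],
      CS E fun t => No2Y O H.1 (x t) (a t) (b t) :=
    fun x a b _ _ _ => hY (fun _ => H) x a b
  obtain ⟨g, hg, hg'⟩ := No2_men hM
    (fun m c x => ∃ j, j < c ∧ m < j ∧ No2Y O H.1 x (P.1 m) (P.1 j) ∧ No2Y O H.1 x (P.1 j) (P.1 c))
    inferInstance
    (fun m c => No2_ex he hU _ (fun j => (No2_guard hu he (m < j) _
      (hi _ _ (No2_open hu he hi hU hop H.1 (P.1 m) (P.1 j))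
        (No2_open hu he hi hU hop H.1 (P.1 j) (P.1 c)))).1) c)
    (fun m x => by
      obtain ⟨b, hb⟩ := No2_total hcof H.1 x (P.1 m)
      obtain ⟨c, hc⟩ := No2_total hcof H.1 x (P.1 (m + 1 + b))
      refine ⟨m + 1 + b + 1 + c, m + 1 + b, by omega, by omega, hb.mono le_rfl ?_,
        hc.mono le_rfl ?_⟩
      · exact le_trans (by omega) (hP.le_apply (x := m + 1 + b))
      · exact le_trans (by omega) (hP.le_apply (x := m + 1 + b + 1 + c)))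
    (fun m c c' x h ⟨j, h1, h2, h3, h4⟩ =>
      ⟨j, h1.trans_le h, h2, h3, h4.mono le_rfl (hP.monotone h)⟩)
  obtain ⟨η, h1, h2, h3⟩ := No3_sparse I g hg
  refine ⟨⟨η, I.VT_cf η h1⟩, h1, fun _ => ⟨fun i j hij => h2 hij, fun x m => ?_⟩⟩
  obtain ⟨n, hn, j, a1, a2, a3, a4⟩ := hg' x m
  have key : ∀ u v t k, P.1 u ≤ t → t < P.1 v → P.1 (η k) ≤ t → t < P.1 (η k + 1) →
      u ≤ η k ∧ η k < v := fun u v t k b1 b2 b3 b4 =>
    ⟨Nat.lt_succ_iff.1 (hP.lt_iff_lt.1 (b1.trans_lt b4)), hP.lt_iff_lt.1 (b3.trans_lt b2)⟩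
  by_cases h : ∃ k, n ≤ η k ∧ η k < j
  · obtain ⟨k, c1, c2⟩ := h
    refine ⟨P.1 j, le_trans (by omega) (hP.le_apply (x := j)), _, a4, fun t b1 b2 k' ⟨b3, b4⟩ => ?_⟩
    obtain ⟨d1, d2⟩ := key _ _ _ _ b1 b2 b3 b4
    have e1 : k < k' := h2.lt_iff_lt.1 (c2.trans_le d1)
    have e2 : η (k + 1) ≤ η k' := h2.monotone e1
    have e3 := h3 k n c1
    omega
  · exact ⟨P.1 n, hn.trans (hP.id_le n), _, a3, fun t b1 b2 k ⟨b3, b4⟩ =>
      h ⟨k, key _ _ _ _ b1 b2 b3 b4⟩⟩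

theorem No3_step (I : Iface0 E) {X : Type} [CT E X] {O : ℕ → ℕ → X → Prop}
    (hO : CS E fun p : (ℕ × ℕ) × X => O p.1.1 p.1.2 p.2)
    (d : RefData E I.VT I.BB (No2Rel O)) (n : ℕ) (H : ℕ → ℕ) (hH : H ∈ d.V n) (x : X) :
    ∃ B ∈ I.BB, ∀ j, No2Y O H x j (d.z n (nxt B (d.z n j) + 1)) := by
  have hz := d.z_mono n
  have hzc := d.z_cf n
  let Hf : FN E ℕ ℕ := ⟨H, I.VT_cf H (d.V_sub n hH)⟩
  have hz2 : ∀ {T : Type} [CT E T] (u : T → ℕ) [CF E u], CF E fun t => d.z n (u t) :=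
    fun u _ => CF.comp (d.z n) u
  have hY2 : ∀ {T : Type} [CT E T] (a b : T → ℕ) [CF E a] [CF E b],
      CS E fun t => No2Y O H x (a t) (b t) :=
    fun a b _ _ => No2_cs hO (fun _ => Hf) (fun _ => x) a b
  have c1 : CS E fun t : ℕ =>
      ∃ i, d.z n i ≤ t ∧ t < d.z n (i + 1) ∧ No2Y O H x (d.z n i) (d.z n (i + 1)) := inferInstance
  have c2 : CS E fun t : ℕ => ∃ i, d.z n (2 * i) ≤ t ∧ t < d.z n (2 * i + 1) := inferInstance
  obtain ⟨B1, hB1, h1 | h1⟩ := I.reap ⟨{t | ∃ i, d.z n i ≤ t ∧ t < d.z n (i + 1) ∧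
    No2Y O H x (d.z n i) (d.z n (i + 1))}, c1⟩
  · refine ⟨B1, hB1, fun j => ?_⟩
    obtain ⟨a1, a2⟩ := nxt_spec (I.B_inf B1 hB1) (d.z n j)
    obtain ⟨i, b1, b2, b3⟩ := h1 a1
    have e1 : j < i + 1 := hz.lt_iff_lt.1 (a2.trans_lt b2)
    have e2 : i ≤ d.z n i := hz.id_le i
    exact b3.mono (by omega) (hz.monotone (by omega))
  exfalso
  obtain ⟨B2, hB2, h2⟩ := I.reap ⟨{t | ∃ i, d.z n (2 * i) ≤ t ∧ t < d.z n (2 * i + 1)}, c2⟩
  obtain ⟨B, hB, f1, f2⟩ := I.B_dir B1 hB1 B2 hB2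
  obtain ⟨N, hN⟩ := (f1.union f2).bddAbove
  have hN' : ∀ b ∈ B, N < b → b ∈ B1 ∧ b ∈ B2 := fun b hb h =>
    ⟨by_contra fun h' => absurd (hN (Or.inl ⟨hb, h'⟩)) (not_le.2 h),
      by_contra fun h' => absurd (hN (Or.inr ⟨hb, h'⟩)) (not_le.2 h)⟩
  obtain ⟨P, η, hR, hP, hk⟩ := d.key n Hf hH B hB
  obtain ⟨hη, hR⟩ := hR fun i j hij => hP hij
  obtain ⟨i0, hk⟩ := hk fun i j hij => hη i j hij
  obtain ⟨m, hm, b, hY, hW⟩ := hR x (d.z n (i0 + N + 1))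
  obtain ⟨i, a1, a2, a3⟩ := No2_find hz hm
  have meet : ∀ i' t, i ≤ i' → m ≤ t → t < b → d.z n i' ≤ t → t < d.z n (i' + 1) →
      ∃ c, c ∈ B1 ∧ c ∈ B2 ∧ d.z n i' ≤ c ∧ c < d.z n (i' + 1) := by
    intro i' t b1 b2 b3 b4 b5
    by_contra hc
    obtain ⟨k, d1, d2⟩ := hk i' (by omega) fun c hc' ⟨d1, d2⟩ => by
      have e2 : i' ≤ d.z n i' := hz.id_le i'
      obtain ⟨g1, g2⟩ := hN' c hc' (by omega)
      exact hc ⟨c, g1, g2, d1, d2⟩
    exact hW t b2 b3 k ⟨d1.trans b4, b5.trans_le d2⟩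
  obtain ⟨u, u1, u2, u3, u4⟩ := meet i m le_rfl le_rfl hY.lt a2 a3
  have hb : d.z n (i + 1) < b := by
    by_contra hb
    exact Set.disjoint_left.1 h1 u1 ⟨i, u3, u4, No2Y.mono hY a2 (not_lt.1 hb)⟩
  obtain ⟨v, -, v2, v3, v4⟩ := meet (i + 1) (d.z n (i + 1)) (by omega) a3.le hb le_rfl
    (hz (by omega))
  have par : ∀ s w, d.z n s ≤ w → w < d.z n (s + 1) →
      ((∃ i, d.z n (2 * i) ≤ w ∧ w < d.z n (2 * i + 1)) ↔ s % 2 = 0) := by
    intro s w b1 b2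
    constructor
    · rintro ⟨r, d1, d2⟩
      have e1 := hz.lt_iff_lt.1 (d1.trans_lt b2)
      have e2 := hz.lt_iff_lt.1 (b1.trans_lt d2)
      omega
    · intro h
      obtain ⟨r, rfl⟩ : ∃ r, s = 2 * r := ⟨s / 2, by omega⟩
      exact ⟨r, b1, b2⟩
  have pu := par _ _ u3 u4
  have pv := par _ _ v3 v4
  rcases h2 with h2 | h2
  · have e1 := pu.1 (h2 u2)
    have e2 := pv.1 (h2 v2)
    omega
  · have e1 : ¬ i % 2 = 0 := fun h => Set.disjoint_left.1 h2 u2 (pu.2 h)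
    have e2 : ¬ (i + 1) % 2 = 0 := fun h => Set.disjoint_left.1 h2 v2 (pv.2 h)
    omega

theorem No3_core (I : Iface0 E) {X : Type} [CT E X] (Op : Set X → Prop)
    (hu : Op Set.univ) (he : Op ∅) (hi : ∀ U V, Op U → Op V → Op (U ∩ V))
    (hU : ∀ U V, Op U → Op V → Op (U ∪ V))
    (hM : ∀ U : ℕ → ℕ → X → Prop, CS E (fun p : (ℕ × ℕ) × X => U p.1.1 p.1.2 p.2) →
      (∀ n k, Op {x | U n k x}) → (∀ n x, ∃ k, U n k x) →
      ∃ g : ℕ → ℕ, CF E g ∧ ∀ x, ∃ n, ∃ k ≤ g n, U n k x)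
    (O : ℕ → ℕ → X → Prop) (hO : CS E fun p : (ℕ × ℕ) × X => O p.1.1 p.1.2 p.2)
    (hop : ∀ j k, Op {x | O j k x}) (hanti : ∀ j j' k x, j ≤ j' → O j' k x → O j k x)
    (hcof : ∀ j x, ∃ k0, ∀ k, k0 ≤ k → O j k x)
    (hfan : ∀ h : ℕ → ℕ, CF E h → ∃ (F : List X) (j0 : ℕ), ∀ j, j0 ≤ j → ∀ k ≤ h j,
      ∃ x ∈ F, ¬ O j k x) : False := by
  obtain ⟨d, -⟩ := I.ref0 (No2Rel O) (No2_rel_cs hO) fun H P =>
    (No3_rel_ex I hu he hi hU hM hO hop hcof H P).imp fun _ h => h.2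
  have key : ∀ F : List X, ∃ n, ∃ H ∈ d.V n, ∀ j, ∃ l, j ≤ l ∧ l ≤ H j ∧ ∀ x ∈ F, O j l x := by
    intro F
    induction F with
    | nil => exact ⟨0, id, d.id_mem, fun j => ⟨j, le_rfl, le_rfl, by simp⟩⟩
    | cons x F ih =>
      obtain ⟨n, H, hH, h⟩ := ih
      obtain ⟨B, hB, hY⟩ := No3_step I hO d n H hH x
      obtain ⟨H', hH', hc⟩ := d.clos n H hH B hB
      refine ⟨n + 1, H', hH', fun j => ?_⟩
      obtain ⟨k, a1, a2, a3⟩ := hY j j le_rfl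
      obtain ⟨l, b1, b2, b3⟩ := h k
      refine ⟨l, a1.trans b1, b2.trans (hc j k a2.le), fun y hy => ?_⟩
      rcases List.mem_cons.1 hy with rfl | hy
      · exact a3 l b1 b2
      · exact hanti j k l y a1 (b3 y hy)
  obtain ⟨F, j0, hF⟩ := hfan d.h d.h_cf
  obtain ⟨n, H, hH, h⟩ := key F
  obtain ⟨j, a1, a2⟩ := d.unb n H hH j0
  obtain ⟨l, -, b2, b3⟩ := h j
  obtain ⟨x, hx, hn⟩ := hF j a1 l (by omega)
  exact hn (b3 x hx)

section
variable {TX TR TC : Type} [CT E TX] [CT E TR] [CT E TC]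

theorem No3_main (I : Iface0 E) {R add mul lt z o ρ X τ C π : M} (hT : Is E TX X)
    (hR' : Is E TR R) (hC' : Is E TC C) (hR : IsReals E R add mul lt z o)
    (hρ : IsOrderTop E R lt ρ) (hX : IsTop E X τ) (hC : ∀ f, E f C ↔ IsCont E f X τ R ρ)
    (hπ : IsPw E C X ρ π) (hM : IsMengerM E X τ) : ¬ FanEmbeds E C π := by
  intro hfan
  obtain ⟨ev, hev0, hev⟩ := no1_ev hT hR' hC' hC
  obtain ⟨f, f0, hf, hconv, hbad⟩ := no1_fan hT hC' hπ hev hfan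
  obtain ⟨q, hq, hden⟩ := (reals_sep hR hR').2
  have hray := no1_ray hR hρ hR'
  obtain ⟨-, -, -, -, -, -, hl1, hl2, hl3, hl4, -⟩ := hR
  have hl5 : ∀ x y, App E lt x y → E x R ∧ E y R := by
    rintro x y ⟨p, hp, h⟩
    obtain ⟨x', y', h4, h5, h6⟩ := hl1 p hp
    obtain ⟨rfl, rfl⟩ := pair_inj (zf' E) h h6
    exact ⟨h4, h5⟩
  let L : TR → TR → Prop := fun a b => App E lt (CT.code E a) (CT.code E b)
  have hL : CS E fun p : TR × TR => L p.1 p.2 := CS.App (fun p : TR × TR => p.1) (fun p => p.2) lt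
  have hco : ∀ a b c, L a b → L a c ∨ L c b := fun a b c h => by
    rcases hl4 _ _ ((hR' _).2 ⟨a, rfl⟩) ((hR' _).2 ⟨c, rfl⟩) with h1 | h1 | h1
    · exact Or.inl h1
    · exact Or.inr (show App E lt _ _ from h1 ▸ h)
    · exact Or.inr (hl3 _ _ _ h1 h)
  let P : ℕ → ℕ × (ℕ × ℕ × ℕ) × (ℕ × ℕ × ℕ) → TX → Prop := fun k i x =>
    (L (q i.2.1) (ev (f0, x)) ∨ L (ev (f (i.1, k), x)) (q i.2.2)) ∧
    (L (ev (f0, x)) (q i.2.2) ∨ L (q i.2.1) (ev (f (i.1, k), x)))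
  let A : ℕ → Set (ℕ × (ℕ × ℕ × ℕ) × (ℕ × ℕ × ℕ)) := fun j =>
    {i | No1Lv j i ∧ L (q i.2.1) (q i.2.2)}
  have hA : ∀ j, (A j).Finite := fun j => (no1_lv_fin j).subset fun i hi => hi.1
  have hgt : ∀ g a, No1Op E τ {x | L a (ev (g, x))} := fun g a => by
    obtain ⟨V, h1, h2⟩ := (hray a).1
    have := no1_pre hC' hC hev g h1
    simp only [h2] at this
    exact this
  have hlt : ∀ g a, No1Op E τ {x | L (ev (g, x)) a} := fun g a => by
    obtain ⟨V, h1, h2⟩ := (hray a).2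
    have := no1_pre hC' hC hev g h1
    simp only [h2] at this
    exact this
  refine No3_core I (No1Op E τ) (no1_univ hT hX) (no1_empty hX) (no1_inter hX) (no1_union hX)
    (no1_menger hT hX hM) (fun j k x => ∀ i ∈ A j, P k i x) ?_ (fun j k => ?_)
    (fun j j' k x h1 h2 i hi => h2 i ⟨⟨hi.1.1.trans h1, hi.1.2.trans h1⟩, hi.2⟩)
    (fun j x => ?_) fun h hh => ?_
  · let Q := ((ℕ × ℕ) × TX) × (ℕ × (ℕ × ℕ × ℕ) × (ℕ × ℕ × ℕ))
    have e1 : CF E fun p : Q => q p.2.2.1 := CF.comp q fun p : Q => p.2.2.1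
    have e2 : CF E fun p : Q => q p.2.2.2 := CF.comp q fun p : Q => p.2.2.2
    have e3 : CF E fun p : Q => ev (f0, p.1.2) := CF.comp ev fun p : Q => (f0, p.1.2)
    have e4 : CF E fun p : Q => f (p.2.1, p.1.1.2) := CF.comp f fun p : Q => (p.2.1, p.1.1.2)
    have e5 : CF E fun p : Q => ev (f (p.2.1, p.1.1.2), p.1.2) :=
      CF.comp ev fun p : Q => (f (p.2.1, p.1.1.2), p.1.2)
    have e6 : CS E fun p : Q => No1Lv p.1.1.1 p.2 := by unfold No1Lv; infer_instance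
    have e7 : CS E fun p : Q => L (q p.2.2.1) (q p.2.2.2) := CS.App _ _ lt
    have e8 : CS E fun p : Q => L (q p.2.2.1) (ev (f0, p.1.2)) := CS.App _ _ lt
    have e9 : CS E fun p : Q => L (ev (f (p.2.1, p.1.1.2), p.1.2)) (q p.2.2.2) := CS.App _ _ lt
    have e10 : CS E fun p : Q => L (ev (f0, p.1.2)) (q p.2.2.2) := CS.App _ _ lt
    have e11 : CS E fun p : Q => L (q p.2.2.1) (ev (f (p.2.1, p.1.1.2), p.1.2)) := CS.App _ _ lt
    have e12 : CS E fun p : Q => p.2 ∈ A p.1.1.1 := CS.and _ _ (h := e6) (h' := e7)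
    have e13 : CS E fun p : Q => P p.1.1.2 p.2 p.1.2 :=
      CS.and _ _ (h := @CS.or _ _ _ _ _ _ _ e8 e9) (h' := @CS.or _ _ _ _ _ _ _ e10 e11)
    have e14 : CS E fun p : Q => p.2 ∈ A p.1.1.1 → P p.1.1.2 p.2 p.1.2 :=
      @CS.imp _ _ _ _ _ _ _ e12 e13
    exact @CS.all _ _ _ _ _ _ _
      (fun (p : (ℕ × ℕ) × TX) i => i ∈ A p.1.1 → P p.1.2 i p.2) e14
  · exact no1_fin hT hX (P k) (fun i => no1_inter hX _ _ (no1_union hX _ _ (hgt _ _) (hlt _ _))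
      (no1_union hX _ _ (hlt _ _) (hgt _ _))) (hA j)
  · refine Filter.eventually_atTop.1 ((Filter.eventually_all_finite (hA j)).2 fun i hi => ?_)
    refine Filter.Eventually.and ?_ ?_
    · rcases hco _ _ (ev (f0, x)) hi.2 with h1 | h1
      · exact Filter.Eventually.of_forall fun _ => Or.inl h1
      · obtain ⟨V, h2, h3⟩ := (hray (q i.2.2)).2
        obtain ⟨m, hm⟩ := hconv x V h2 ((h3 _).2 h1) i.1
        exact Filter.eventually_atTop.2 ⟨m, fun k hk => Or.inr ((h3 _).1 (hm k hk))⟩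
    · rcases hco _ _ (ev (f0, x)) hi.2 with h1 | h1
      · obtain ⟨V, h2, h3⟩ := (hray (q i.2.1)).1
        obtain ⟨m, hm⟩ := hconv x V h2 ((h3 _).2 h1) i.1
        exact Filter.eventually_atTop.2 ⟨m, fun k hk => Or.inr ((h3 _).1 (hm k hk))⟩
      · exact Filter.Eventually.of_forall fun _ => Or.inl h1
  · obtain ⟨B, hB, h1, h2⟩ := hbad h hh
    have h3 : ∀ p ∈ B, ∀ᶠ j in Filter.atTop, ∀ k, (∀ i ∈ A j, P k i p.1) →
        E (CT.code E (ev (f (j, k), p.1))) p.2 := fun p hp => by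
      obtain ⟨c, d, h4, h5, h6⟩ := ((hρ _).1 (h1 p hp).1).2 _ (h1 p hp).2
      obtain ⟨c, rfl⟩ := (hR' c).1 (hl5 _ _ h4).1
      obtain ⟨d, rfl⟩ := (hR' d).1 (hl5 _ _ h5).2
      obtain ⟨a1, h7, h8⟩ := hden _ _ h4
      obtain ⟨b1, h9, h10⟩ := hden _ _ h8
      obtain ⟨b2, h11, h12⟩ := hden _ _ h5
      obtain ⟨a2, h13, h14⟩ := hden _ _ h11
      refine Filter.eventually_atTop.2 ⟨a1.1 + a1.2.1 + a1.2.2 + b1.1 + b1.2.1 + b1.2.2 +
        (a2.1 + a2.2.1 + a2.2.2 + b2.1 + b2.2.1 + b2.2.2), fun j hj k hk => h6 _ ?_ ?_⟩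
      · rcases (hk (j, a1, b1) ⟨⟨le_rfl, le_trans (Nat.le_add_right _ _) hj⟩, h9⟩).2 with h15 | h15
        · exact (hl2 _ (hl3 _ _ _ h15 h10)).elim
        · exact hl3 _ _ _ h7 h15
      · rcases (hk (j, a2, b2) ⟨⟨le_rfl, le_trans (Nat.le_add_left _ _) hj⟩, h14⟩).1 with h15 | h15
        · exact (hl2 _ (hl3 _ _ _ h15 h13)).elim
        · exact hl3 _ _ _ h15 h12
    obtain ⟨j0, h4⟩ := Filter.eventually_atTop.1 ((Filter.eventually_all_finite hB).2 h3)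
    refine ⟨(hB.image Prod.fst).toFinset.toList, j0, fun j hj k hk => ?_⟩
    obtain ⟨p, hp, h5⟩ := h2 j k hk
    refine ⟨p.1, ?_, fun h6 => h5 (h4 j hj p hp k h6)⟩
    rw [Finset.mem_toList, Set.Finite.mem_toFinset]
    exact ⟨p, hp, rfl⟩

end

theorem no_fan0 (I : Iface0 E) (hs : ∀ a, Small.{0} {x // E x a})
    {R add mul lt z o ρ X τ C π : M} (hR : IsReals E R add mul lt z o)
    (hρ : IsOrderTop E R lt ρ) (hX : IsTop E X τ) (hC : ∀ f, E f C ↔ IsCont E f X τ R ρ)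
    (hπ : IsPw E C X ρ π) (hM : IsMengerM E X τ) : ¬ FanEmbeds E C π :=
  No3_main I (is_el X) (is_el R) (is_el C) hR hρ hX hC hπ hM

end Pool.Agent.B8P
end

-- merged part: Pool.Agent.Work.MP_b8a914_gt.P.RG
section
/-! The ultrafilter number of the model is smaller than the groupwise density number. -/

set_option linter.unusedSectionVars false

namespace Pool.Agent.B8P
open Pool.Agent.Lib.ZFModel Pool.Agent.Work.MP_63c7e0_lc Pool.Agent.B8F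

set_option synthInstance.maxSize 100000

variable {M : Type 1} {E : M → M → Prop} [Fact (IsZFC E)] [CT E ℕ] [NatE E]

/-- the relation that is reflected -/
def RGRel (K : PW E (FN E ℕ ℕ)) (G : FN E ℕ ℕ → PW E (PW E ℕ)) (f P η : FN E ℕ ℕ) : Prop :=
  f ∈ K.1 → (∀ i j, i < j → P.1 i < P.1 j) → (∀ i j, i < j → η.1 i < η.1 j) ∧
    ∃ Z : PW E ℕ, Z ∈ (G f).1 ∧ ∀ k x, P.1 (η.1 k) ≤ x → x < P.1 (η.1 k + 1) → x ∈ Z.1

theorem RG_cs (K : PW E (FN E ℕ ℕ)) (G : FN E ℕ ℕ → PW E (PW E ℕ)) [CF E G] :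
    CS E fun t : FN E ℕ ℕ × FN E ℕ ℕ × FN E ℕ ℕ => RGRel K G t.1 t.2.1 t.2.2 := by
  have h1 : CS E fun P : FN E ℕ ℕ => ∀ i j, i < j → P.1 i < P.1 j := inferInstance
  have h2 : CS E fun q : (FN E ℕ ℕ × FN E ℕ ℕ) × PW E ℕ => ∀ k x,
      q.1.1.1 (q.1.2.1 k) ≤ x → x < q.1.1.1 (q.1.2.1 k + 1) → x ∈ q.2.1 := inferInstance
  have h3 := h1.comp fun t : FN E ℕ ℕ × FN E ℕ ℕ × FN E ℕ ℕ => t.2.1
  have h4 := h1.comp fun t : FN E ℕ ℕ × FN E ℕ ℕ × FN E ℕ ℕ => t.2.2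
  have h5 := h2.comp fun q : (FN E ℕ ℕ × FN E ℕ ℕ × FN E ℕ ℕ) × PW E ℕ => (q.1.2, q.2)
  have h7 : CF E fun q : (FN E ℕ ℕ × FN E ℕ ℕ × FN E ℕ ℕ) × PW E ℕ => G q.1.1 :=
    CF.comp G fun q : (FN E ℕ ℕ × FN E ℕ ℕ × FN E ℕ ℕ) × PW E ℕ => q.1.1
  have h8 : CS E fun q : (FN E ℕ ℕ × FN E ℕ ℕ × FN E ℕ ℕ) × PW E ℕ => q.2 ∈ (G q.1.1).1 :=
    CS.memPW _ _
  have h9 : CS E fun t : FN E ℕ ℕ × FN E ℕ ℕ × FN E ℕ ℕ => t.1 ∈ K.1 := inferInstance
  have h10 := @CS.ex _ _ _ _ _ _ _ (fun (t : FN E ℕ ℕ × FN E ℕ ℕ × FN E ℕ ℕ) (Z : PW E ℕ) =>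
      Z ∈ (G t.1).1 ∧ ∀ k x, t.2.1.1 (t.2.2.1 k) ≤ x → x < t.2.1.1 (t.2.2.1 k + 1) → x ∈ Z.1)
    (@CS.and _ _ _ _ _ _ _ h8 h5)
  exact @CS.imp _ _ _ _ _ _ _ h9 (@CS.imp _ _ _ _ _ _ _ h3 (@CS.and _ _ _ _ _ _ _ h4 h10))

/-- an infinite coded set includes the range of a coded increasing sequence -/
theorem RG_enum (A : PW E ℕ) (hA : A.1.Infinite) :
    ∃ η : FN E ℕ ℕ, StrictMono η.1 ∧ ∀ k, η.1 k ∈ A.1 := by
  obtain ⟨φ, hφ, h1⟩ := CF.choice (E := E) (fun i n : ℕ => i < n ∧ n ∈ A.1) fun i =>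
    GU_unb hA (i + 1)
  let r : ℕ → ℕ → ℕ := fun _ n => Nat.rec (φ 0) (fun _ y => φ y) n
  have h2 : CF E fun p : ℕ × ℕ => r p.1 p.2 :=
    CF.natRec (fun _ : ℕ => φ 0) (fun _ _ y => φ y)
      (hs := CF.comp φ fun p : ℕ × ℕ × ℕ => p.2.2) r (fun _ => rfl) fun _ _ => rfl
  have h3 : CF E fun n : ℕ => r 0 n :=
    CF.comp (fun p : ℕ × ℕ => r p.1 p.2) (fun n : ℕ => ((0 : ℕ), n)) (hg := h2)
      (hf := CF.pair (fun _ => 0) fun n => n)
  refine ⟨⟨fun n => r 0 n, h3⟩, strictMono_nat_of_lt_succ fun n => (h1 (r 0 n)).1, fun k => ?_⟩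
  cases k with
  | zero => exact (h1 0).2
  | succ k => exact (h1 (r 0 k)).2

theorem RG_core (I : Iface0 E) (G : FN E ℕ ℕ → PW E (PW E ℕ)) [CF E G]
    (h2 : ∀ f ∈ I.K.1, ∀ Z ∈ (G f).1, ∀ Z' : PW E ℕ, Z'.1.Infinite → ∀ N,
      (∀ x ∈ Z'.1, x ∈ Z.1 ∨ x < N) → Z' ∈ (G f).1)
    (h3 : ∀ f ∈ I.K.1, ∀ P : FN E ℕ ℕ, StrictMono P.1 → ∃ A Z : PW E ℕ, A.1.Infinite ∧
      Z ∈ (G f).1 ∧ ∀ j ∈ A.1, ∀ x, P.1 j ≤ x → x < P.1 (j + 1) → x ∈ Z.1) :
    ∃ Z : PW E ℕ, ∀ f ∈ I.K.1, Z ∈ (G f).1 := by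
  obtain ⟨d, hd⟩ := I.ref0 (RGRel I.K G) (RG_cs I.K G) fun f P => by
    by_cases hf : f ∈ I.K.1 ∧ StrictMono P.1
    · obtain ⟨A, Z, a1, a2, a3⟩ := h3 f hf.1 P hf.2
      obtain ⟨η, b1, b2⟩ := RG_enum A a1
      exact ⟨η, fun _ _ => ⟨fun i j hij => b1 hij, Z, a2, fun k x => a3 _ (b2 k) x⟩⟩
    · exact ⟨P, fun a1 a2 => absurd ⟨a1, fun i j hij => a2 i j hij⟩ hf⟩
  have hz := d.z_mono 0
  let z : FN E ℕ ℕ := ⟨d.z 0, d.z_cf 0⟩
  let Iv : ℕ → PW E ℕ := fun e => ⟨{t | ∃ i, z.1 (2 * i + e) ≤ t ∧ t < z.1 (2 * i + e + 1)},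
    (inferInstance : CS E fun t : ℕ => ∃ i, z.1 (2 * i + e) ≤ t ∧ t < z.1 (2 * i + e + 1))⟩
  have hIv : ∀ e t, t ∈ (Iv e).1 ↔ ∃ i, d.z 0 (2 * i + e) ≤ t ∧ t < d.z 0 (2 * i + e + 1) :=
    fun _ _ => Iff.rfl
  obtain ⟨B, hB, e, he⟩ : ∃ B ∈ I.BB, ∃ e, ∀ b ∈ B, b ∉ (Iv e).1 := by
    obtain ⟨B, hB, h | h⟩ := I.reap (Iv 0)
    · refine ⟨B, hB, 1, fun b hb h1 => ?_⟩
      obtain ⟨i, a1, a2⟩ := (hIv _ _).1 (h hb)
      obtain ⟨j, b1, b2⟩ := (hIv _ _).1 h1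
      have e1 := hz.lt_iff_lt.1 (a1.trans_lt b2)
      have e2 := hz.lt_iff_lt.1 (b1.trans_lt a2)
      omega
    · exact ⟨B, hB, 0, fun b hb => Set.disjoint_left.1 h hb⟩
  refine ⟨Iv e, fun f hf => ?_⟩
  obtain ⟨P, η, hR, hP, hk⟩ := d.key 0 f (hd f hf) B hB
  obtain ⟨hη, Z, hZ, hR⟩ := hR hf fun i j hij => hP hij
  obtain ⟨i0, hk⟩ := hk fun i j hij => hη i j hij
  refine h2 f hf Z hZ (Iv e) (Set.infinite_of_forall_exists_gt fun m => ?_) (d.z 0 i0)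
    fun x hx => ?_
  · refine ⟨d.z 0 (2 * (m + 1) + e), (hIv _ _).2 ⟨m + 1, le_rfl, hz (Nat.lt_succ_self _)⟩, ?_⟩
    have := hz.id_le (2 * (m + 1) + e)
    simp only [id] at this
    omega
  · obtain ⟨i, a1, a2⟩ := (hIv _ _).1 hx
    rcases le_or_gt i0 (2 * i + e) with h | h
    · obtain ⟨k, b1, b2⟩ := hk _ h fun b hb hc => he b hb ((hIv _ _).2 ⟨i, hc⟩)
      exact Or.inl (hR k x (b1.trans a1) (a2.trans_le b2))
    · exact Or.inr (a2.trans_le (hz.monotone h))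

/-- what is used of a groupwise dense family -/
theorem RG_gw {w G : M} (hw : Is E ℕ w) (hG : GwDense E w G) :
    (∀ Z Z' : PW E ℕ, E (CT.code E Z) G → Z'.1.Infinite → ∀ N,
      (∀ x ∈ Z'.1, x ∈ Z.1 ∨ x < N) → E (CT.code E Z') G) ∧
    ∀ P : FN E ℕ ℕ, StrictMono P.1 → ∃ A Z : PW E ℕ, A.1.Infinite ∧
      E (CT.code E Z) G ∧ ∀ j ∈ A.1, ∀ x, P.1 j ≤ x → x < P.1 (j + 1) → x ∈ Z.1 := by
  refine ⟨fun Z Z' h1 h2 N h3 => ?_, fun P hP => ?_⟩
  · let D : PW E ℕ := ⟨{x | x < N}, (inferInstance : CS E fun x : ℕ => x < N)⟩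
    refine hG.2.1 _ _ (CT.code E D) h1 (GU_infSub hw Z' h2)
      ((isFin_code D).2 (Set.finite_lt_nat N)) fun x hx => ?_
    obtain ⟨n, hn, rfl⟩ := (E_code_pw Z' x).1 hx
    exact (h3 n hn).imp (mem_code_pw Z n).2 (mem_code_pw D n).2
  · obtain ⟨p, hp, hr⟩ := isFun_of_cf hw hw P.1
    obtain ⟨A, Z, a1, a2, a3⟩ := hG.2.2 p hp fun i j a b h1 h2 h3 => by
      obtain ⟨i, rfl, rfl⟩ := (hr _ _).1 h1
      obtain ⟨j, rfl, rfl⟩ := (hr _ _).1 h2
      exact E_nat.2 (hP (E_nat.1 h3))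
    obtain ⟨A, rfl⟩ := pw_of_sub hw a1.1
    obtain ⟨Z, rfl⟩ := pw_of_sub hw (hG.1 Z a2).1
    refine ⟨A, Z, fun hf => a1.2 ((isFin_code A).2 hf), a2, fun j hj x h1 h2 => ?_⟩
    refine (mem_code_pw Z x).1 ((a3 _).2 ⟨_, _, _, _, (mem_code_pw A j).2 hj, code_succ j,
      (hr _ _).2 ⟨j, rfl, rfl⟩, (hr _ _).2 ⟨j + 1, rfl, rfl⟩, ?_, E_nat.2 h2⟩)
    rcases h1.eq_or_lt with h8 | h8
    · exact Or.inl (by rw [h8])
    · exact Or.inr (E_nat.2 h8)

theorem u_lt_g (I : Iface0 E) (hs : ∀ a, Small.{0} {x // E x a}) : ULtG E := by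
  obtain ⟨w, hw⟩ := exists_is E ℕ
  have h0 : CS E fun p : {f // f ∈ I.K.1} × ℕ => ∃ k, p.1.1.1 k = p.2 := inferInstance
  obtain ⟨Bs, hBs, hB⟩ : ∃ Bs : {f // f ∈ I.K.1} → PW E ℕ, CF E Bs ∧
      ∀ t n, n ∈ (Bs t).1 ↔ ∃ k, t.1.1 k = n := by
    let Bs : {f // f ∈ I.K.1} → PW E ℕ := fun t =>
      ⟨{n | ∃ k, t.1.1 k = n}, (inferInstance : CS E fun n : ℕ => ∃ k, t.1.1 k = n)⟩
    exact ⟨Bs, @CF.curry _ _ _ _ _ _ _ Bs h0, fun _ _ => Iff.rfl⟩
  have h1 : CF E fun p : PW E ℕ × {f // f ∈ I.K.1} => Bs p.2 :=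
    CF.comp Bs fun p : PW E ℕ × {f // f ∈ I.K.1} => p.2
  obtain ⟨K, hK⟩ : ∃ K : PW E (PW E ℕ), ∀ B, B ∈ K.1 ↔ ∃ t, Bs t = B :=
    ⟨⟨{B | ∃ t, Bs t = B}, (inferInstance : CS E fun B : PW E ℕ => ∃ t, Bs t = B)⟩,
      fun _ => Iff.rfl⟩
  have hrg : ∀ (t : {f // f ∈ I.K.1}) (A : Set ℕ), A.Infinite → t.1.1 = nxt A → (Bs t).1 = A := by
    intro t A hA h
    ext n
    rw [hB, h]
    exact ⟨fun ⟨k, e⟩ => e ▸ (nxt_spec hA k).1, fun hn => ⟨n, nxt_self hA hn⟩⟩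
  have hsp : ∀ t : {f // f ∈ I.K.1}, (Bs t).1.Infinite ∧ ∃ B ∈ I.BB, (B \ (Bs t).1).Finite := by
    intro t
    obtain ⟨A, hA, h2, h3⟩ := I.K_spec t.1 t.2
    rw [hrg t A hA h2]
    exact ⟨hA, h3⟩
  have hBB : ∀ B ∈ I.BB, ∃ t, (Bs t).1 = B := fun B h2 => by
    obtain ⟨f, hf, h4⟩ := I.K_B B h2
    exact ⟨⟨f, hf⟩, hrg _ B (I.B_inf B h2) h4⟩
  refine ⟨w, CT.code E K, isOmega_of_is hw, ⟨⟨fun A hA => ?_, fun Y hY => ?_⟩,
    fun A A' hA hA' => ?_⟩, fun Γ P hΓ hG => ?_⟩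
  · obtain ⟨B, h2, rfl⟩ := (E_code_pw K A).1 hA
    obtain ⟨t, rfl⟩ := (hK B).1 h2
    exact GU_infSub hw _ (hsp t).1
  · obtain ⟨Y, rfl⟩ := pw_of_sub hw hY
    obtain ⟨B, h2, h3⟩ := I.reap Y
    obtain ⟨t, rfl⟩ := hBB B h2
    refine ⟨_, (mem_code_pw K _).2 ((hK _).2 ⟨t, rfl⟩), h3.imp (fun h6 x hx => ?_)
      fun h6 x hx h7 => ?_⟩
    · obtain ⟨b, h7, rfl⟩ := (E_code_pw _ x).1 hx
      exact (mem_code_pw Y b).2 (h6 h7)
    · obtain ⟨b, h8, rfl⟩ := (E_code_pw _ x).1 hx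
      exact Set.disjoint_left.1 h6 h8 ((mem_code_pw Y b).1 h7)
  · obtain ⟨B, h2, rfl⟩ := (E_code_pw K A).1 hA
    obtain ⟨t, rfl⟩ := (hK B).1 h2
    obtain ⟨B', h3, rfl⟩ := (E_code_pw K A').1 hA'
    obtain ⟨t', rfl⟩ := (hK B').1 h3
    obtain ⟨-, C, c1, c2⟩ := hsp t
    obtain ⟨-, C', c3, c4⟩ := hsp t'
    obtain ⟨C'', c5, c6, c7⟩ := I.B_dir C c1 C' c3
    obtain ⟨s, rfl⟩ := hBB C'' c5
    have hfin := (c2.union c4).union (c6.union c7)
    let D : PW E ℕ := ⟨_, CS.of_finite hfin⟩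
    refine ⟨_, CT.code E D, (mem_code_pw K _).2 ((hK _).2 ⟨s, rfl⟩), (isFin_code D).2 hfin,
      fun x hx => ?_⟩
    obtain ⟨b, hb, rfl⟩ := (E_code_pw _ x).1 hx
    rw [mem_code_pw D, mem_code_pw (Bs t), mem_code_pw (Bs t')]
    by_contra hc
    rw [not_or] at hc
    have d1 : b ∈ C := by_contra fun h => hc.1 (Or.inr (Or.inl ⟨hb, h⟩))
    have d2 : b ∈ C' := by_contra fun h => hc.1 (Or.inr (Or.inr ⟨hb, h⟩))
    exact hc.2 ⟨by_contra fun h => hc.1 (Or.inl (Or.inl ⟨d1, h⟩)),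
      by_contra fun h => hc.1 (Or.inl (Or.inr ⟨d2, h⟩))⟩
  · have := hs P
    obtain ⟨φ, hφ, hr⟩ := rep_of_isFun (is_sub K) (is_el P) hΓ
    let σ : {f // f ∈ I.K.1} → {B // B ∈ K.1} := fun t => ⟨Bs t, (hK _).2 ⟨t, rfl⟩⟩
    have hσ : CF E σ := @CF.toSub _ _ _ _ _ _ _ _ _ _ _ σ hBs
    obtain ⟨ψ, hψ, hψ'⟩ : ∃ ψ : {f // f ∈ I.K.1} → El E P, CF E ψ ∧ ∀ t, ψ t = φ (σ t) :=
      ⟨fun t => φ (σ t), CF.comp φ σ, fun _ => rfl⟩
    have e0 : CF E fun p : (FN E ℕ ℕ × PW E ℕ) × {f // f ∈ I.K.1} => ψ p.2 :=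
      CF.comp ψ fun p : (FN E ℕ ℕ × PW E ℕ) × {f // f ∈ I.K.1} => p.2
    have e1 : CS E fun p : FN E ℕ ℕ × PW E ℕ => ∃ t : {f // f ∈ I.K.1}, t.1 = p.1 ∧
        E (CT.code E p.2) (CT.code E (ψ t)) := inferInstance
    obtain ⟨G, hGc, hG'⟩ : ∃ G : FN E ℕ ℕ → PW E (PW E ℕ), CF E G ∧ ∀ f x, x ∈ (G f).1 ↔
        ∃ t : {f // f ∈ I.K.1}, t.1 = f ∧ E (CT.code E x) (CT.code E (ψ t)) := by
      let G : FN E ℕ ℕ → PW E (PW E ℕ) := fun f =>
        ⟨{x | ∃ t : {f // f ∈ I.K.1}, t.1 = f ∧ E (CT.code E x) (CT.code E (ψ t))},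
          e1.comp (fun x : PW E ℕ => (f, x)) (hf := CF.pair (fun _ => f) fun x => x)⟩
      exact ⟨G, @CF.curry _ E _ _ _ _ _ G e1, fun _ _ => Iff.rfl⟩
    have hm : ∀ (t : {f // f ∈ I.K.1}) (x : PW E ℕ),
        x ∈ (G t.1).1 ↔ E (CT.code E x) (CT.code E (ψ t)) := fun t x =>
      (hG' _ _).trans ⟨fun ⟨s, a1, a2⟩ => Subtype.ext a1 ▸ a2, fun h => ⟨t, rfl, h⟩⟩
    have hgw := fun t : {f // f ∈ I.K.1} =>
      RG_gw hw (hG _ _ ((hr _ _).2 ⟨σ t, rfl, congrArg (CT.code E) (hψ' t)⟩))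
    obtain ⟨Z, hZ⟩ := RG_core I G
      (fun f hf Z a1 Z' a2 N a3 =>
        (hm ⟨f, hf⟩ Z').2 ((hgw ⟨f, hf⟩).1 Z Z' ((hm ⟨f, hf⟩ Z).1 a1) a2 N a3))
      fun f hf Q hQ => by
        obtain ⟨A, Z, a1, a2, a3⟩ := (hgw ⟨f, hf⟩).2 Q hQ
        exact ⟨A, Z, a1, (hm ⟨f, hf⟩ Z).2 a2, a3⟩
    refine ⟨CT.code E Z, fun A G' h => ?_⟩
    obtain ⟨⟨B, h5⟩, rfl, rfl⟩ := (hr _ _).1 h
    obtain ⟨t, rfl⟩ := (hK B).1 h5
    have h6 := (hm t Z).1 (hZ t.1 t.2)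
    rwa [hψ'] at h6

end Pool.Agent.B8P
end

-- merged part: Pool.Agent.Work.MP_b8a914_gt.P.Main
section
namespace Pool.Agent.B8P
open Pool.Agent.Lib.ZFModel Pool.Agent.Lib.ZFModel.Name Pool.Agent.Work.MP_63c7e0_lc
  Pool.Agent.Work.MP_f50f0f_gt Pool.Agent.B8F

theorem gen_iface {g : GenM} {x : W KK} (hx : ∀ r, g.G r → InW ⊤ r.T x) :
    Nonempty (Iface0 g.toGen.E) := by
  refine ⟨⟨{H | ∃ c, GenVal g x ⊤ c H}, {B | ∃ r ∈ g.PN, g.G r ∧ r.A = B},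
    ⟨{η | g.toGen.E (CT.code g.toGen.E η) (g.toGen.cl ⟨_, gen_K_mem g⟩)}, ⟨_, fun _ => Iff.rfl⟩⟩,
    ⟨{η | g.toGen.E (CT.code g.toGen.E η) (g.toGen.cl ⟨_, gen_X_mem g⟩)}, ⟨_, fun _ => Iff.rfl⟩⟩,
    fun H ⟨c, hv⟩ => hv.cf hx, gen_all hx, ?_, ?_, fun A => ?_, fun f hf => ?_, ?_,
    fun Rel h1 h2 => ?_, fun p hp i => ?_, fun φ hφ h => ?_,
    fun p hp p' hp' => gen_nm1 hx ((gen_E_X hx p).1 hp) ((gen_E_X hx p').1 hp'), fun φ hφ => ?_⟩⟩
  · rintro _ ⟨r, -, -, rfl⟩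
    exact r.inf
  · rintro _ ⟨r, -, hr, rfl⟩ _ ⟨r', -, hr', rfl⟩
    obtain ⟨s, hs, h1, h2, h3⟩ := gen1_dir g hr hr'
    exact ⟨_, ⟨s, hs, h1, rfl⟩, h2.1, h3.1⟩
  · obtain ⟨r, h1, h2, h3⟩ := gen_reap A
    exact ⟨_, ⟨r, h1, h2, rfl⟩, h3⟩
  · obtain ⟨-, r, h1, h2⟩ := gen_E_K hx f hf
    obtain ⟨s, h3, h4, h5⟩ := g.below r h1
    exact ⟨r.A, r.inf, h2, s.A, ⟨s, h3, h4, rfl⟩, h5.1⟩
  · rintro _ ⟨r, hr, hG, rfl⟩
    have hv : GenVal g x ⊤ _ _ := gen_valC (gen_nx hr) ⊤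
    exact ⟨⟨_, hv.cf hx⟩, (g.toGen.E_rName (gen_K_mem g) _).2
      ⟨⟨r.A, r.inf⟩, r, rfl, hG, hv.hc.mem, GenVal.code hx (η := ⟨_, hv.cf hx⟩) hv⟩, rfl⟩
  · obtain ⟨d, hd⟩ := gen_ref hx Rel h1 h2
    exact ⟨d, fun f hf => hd _ (gen_E_K hx f hf).1⟩
  · obtain ⟨κ, γ, -, -, e⟩ := (gen_E_X hx p).1 hp
    rw [e]
    exact pt_le _ _ _ _
  · obtain ⟨h, h1, h2⟩ := gen_men hx φ hφ fun p hp =>
      h ⟨p, hp.cf hx⟩ ((gen_E_X hx ⟨p, hp.cf hx⟩).2 hp)
    exact ⟨h, h1, fun p hp => h2 _ ((gen_E_X hx p).1 hp)⟩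
  · obtain ⟨p, p', h1, h2, h3⟩ := gen_nm2 hx φ hφ
    exact ⟨⟨p, h1.cf hx⟩, (gen_E_X hx ⟨p, h1.cf hx⟩).2 h1, ⟨p', h2.cf hx⟩,
      (gen_E_X hx ⟨p', h2.cf hx⟩).2 h2, h3⟩

theorem main : ∃ (M : Type 1) (E : M → M → Prop), IsZFC E ∧
    (∀ R add mul lt z o ρ X τ C π : M, IsReals E R add mul lt z o → IsOrderTop E R lt ρ →
      IsTop E X τ → (∀ f, E f C ↔ IsCont E f X τ R ρ) → IsPw E C X ρ π →
      IsMengerM E X τ → ¬ FanEmbeds E C π) ∧ ULtG E ∧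
    ∃ w P ρ X t A π, IsOmega E w ∧ IsPower E w w P ρ ∧ Sub E X P ∧ IsMengerM E X ρ ∧
      IsTwo E t ∧ (∀ f, E f A ↔ IsFun E f t X) ∧ IsPw E A t ρ π ∧ ¬ IsMengerM E A π := by
  obtain ⟨g⟩ := exists_genW (CD.one KK) ((⊤, genId, genId) : II × VD KK × VD KK) genRN genW
  obtain ⟨x, hx⟩ := gen_x g
  obtain ⟨I⟩ := gen_iface hx
  have := gen1_natE g
  exact ⟨g.toGen.M, g.toGen.E, g.zfc, fun _ _ _ _ _ _ _ _ _ _ _ h1 h2 h3 h4 h5 h6 =>
    no_fan0 I (gen1_small _) h1 h2 h3 h4 h5 h6, u_lt_g I (gen1_small _),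
    exists_sq I (gen1_small _)⟩

end Pool.Agent.B8P
end
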